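import Mathlib

namespace Pool.Agent.Helper222.CPE

/-- The circle `ℝ/ℤ`. -/
abbrev Circ : Type := AddCircle (1 : ℝ)

/-- The `n`-torus `(ℝ/ℤ)^n`. -/
abbrev T (n : ℕ) : Type := Fin n → Circ

/-- Completely positive entropy: every non-trivial factor `(Y, g)` (`Y` a compact metric space,
`g` continuous, `π` a continuous surjection with `π ∘ f = g ∘ π`) has positive topological
entropy. -/
def IsCPE {X : Type} [TopologicalSpace X] (f : X → X) : Prop :=
  ∀ (Y : Type) [MetricSpace Y] [CompactSpace Y] (g : Y → Y) (π : X → Y),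
    Continuous g → Continuous π → Function.Surjective π → (∀ x, π (f x) = g (π x)) →
    Nontrivial Y → 0 < Dynamics.coverEntropy g (Set.univ : Set Y)

/-- The projection `ℝ^n → T^n`. -/
def proj (n : ℕ) (x : Fin n → ℝ) : T n := fun i => (x i : Circ)

/-- `f : T^n → T^n` is of class `C^k`: it has a `C^k` lift to `ℝ^n`. -/
def IsCk (n : ℕ) (k : ℕ∞) (f : T n → T n) : Prop :=
  ∃ F : (Fin n → ℝ) → (Fin n → ℝ), ContDiff ℝ k F ∧ ∀ x, proj n (F x) = f (proj n x)

end Pool.Agent.Helper222.CPE
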