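import Mathlib
import Pool.Agent.Helper222.CPE.Base

open Set Filter Topology

namespace Pool.Agent.Helper222.CPE

/-- No power of `f` has a wandering nonempty open set. -/
def NW {X : Type} [TopologicalSpace X] (f : X → X) : Prop :=
  ∀ m : ℕ, 1 ≤ m → ∀ U : Set X, IsOpen U → U.Nonempty →
    ∃ j : ℕ, 1 ≤ j ∧ (f^[m * j] '' U ∩ U).Nonempty

/-- No iterate of `f` is constant on a nonempty open set. -/
def Lt {X : Type} [TopologicalSpace X] (f : X → X) : Prop :=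
  ∀ (n : ℕ) (U : Set X) (y : X), IsOpen U → U.Nonempty → ∃ x ∈ U, f^[n] x ≠ y

/-- `W` is an open set any two fat compact subsets of which form a horseshoe for an iterate
of `f`. -/
def HP {X : Type} [TopologicalSpace X] (f : X → X) (W : Set X) : Prop :=
  IsOpen W ∧ ∀ U V : Set X, IsCompact U → IsCompact V → (interior U).Nonempty →
    (interior V).Nonempty → U ⊆ W → V ⊆ W →
    ∃ m : ℕ, 1 ≤ m ∧ U ∪ V ⊆ f^[m] '' U ∧ U ∪ V ⊆ f^[m] '' V

/-- No power of the interval map `G` has a wandering interval inside `[u,v]`. -/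
def NWI (G : ℝ → ℝ) (u v : ℝ) : Prop :=
  ∀ m : ℕ, 1 ≤ m → ∀ c e : ℝ, u ≤ c → c < e → e ≤ v →
    ∃ j : ℕ, 1 ≤ j ∧ (G^[m * j] '' Ioo c e ∩ Ioo c e).Nonempty

/-- No iterate of `G` is constant on a subinterval of `[u,v]`. -/
def LtI (G : ℝ → ℝ) (u v : ℝ) : Prop :=
  ∀ (n : ℕ) (c e y : ℝ), u ≤ c → c < e → e ≤ v → ∃ x ∈ Ioo c e, G^[n] x ≠ y

/-- `[u,v]` is invariant under `G` and contains no smaller periodic interval. -/
def IsBlock (G : ℝ → ℝ) (u v : ℝ) : Prop :=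
  u < v ∧ MapsTo G (Icc u v) (Icc u v) ∧
    ∀ n : ℕ, 1 ≤ n → ∀ a b : ℝ, u ≤ a → a < b → b ≤ v →
      MapsTo G^[n] (Icc a b) (Icc a b) → a = u ∧ b = v

/-- `f` has no proper periodic arc. -/
def NoArc (f : Circ → Circ) : Prop :=
  ∀ C : Set Circ, IsClosed C → IsPreconnected C → (interior C).Nonempty → C ≠ univ →
    ∀ n : ℕ, 1 ≤ n → ¬ MapsTo f^[n] C C

/-- A countable family of closed balls. -/
def KK (X : Type) [MetricSpace X] [CompactSpace X] [Nonempty X] : Set (Set X) :=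
  range fun p : ℕ × ℕ => Metric.closedBall (TopologicalSpace.denseSeq X p.1) (1 / ((p.2 : ℝ) + 1))

/-- The Borel condition characterising CPE in the one-dimensional `C^1` case: for some `r`, among
any `r + 1` members of a countable basis two are joined by a horseshoe made of closed balls. -/
def PP {X : Type} [MetricSpace X] [CompactSpace X] [Nonempty X] (f : X → X) : Prop :=
  ∃ r : ℕ, ∀ U : Fin (r + 1) → Set X, (∀ i, U i ∈ TopologicalSpace.countableBasis X) →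
    ∃ i j, i ≠ j ∧ ∃ U0 ∈ KK X, ∃ V0 ∈ KK X, U0 ⊆ U i ∧ V0 ⊆ U j ∧
      ∃ m : ℕ, 1 ≤ m ∧ U0 ∪ V0 ⊆ f^[m] '' U0 ∧ U0 ∪ V0 ⊆ f^[m] '' V0

/-- The skew product on `T (m+2)`: `z₀ ↦ z₀ + φ(z₀) s(z₁)`, `zᵢ ↦ 6 zᵢ` for `i ≥ 1`. -/
def skew (m : ℕ) (φ s : Circ → ℝ) : T (m + 2) → T (m + 2) := fun z i =>
  if i = 0 then z 0 + ((φ (z 0) * s (z 1) : ℝ) : Circ) else (6 : ℕ) • z i

/-- Standing assumptions on `φ` and `s`. -/
structure Good (φ s : Circ → ℝ) : Prop where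
  φ_nonneg : ∀ x, 0 ≤ φ x
  φ_zero : φ 0 = 0
  φ_lip : ∀ x y : ℝ, |φ (x : Circ) - φ (y : Circ)| ≤ 1 / 2 * |x - y|
  s_cont : Continuous s
  s_le : ∀ y, |s y| ≤ 1
  s_zero : ∀ y ∈ Icc (0 : ℝ) (1 / 3), s (y : Circ) = 0
  s_pos : ∀ y ∈ Ioo (1 / 3 : ℝ) (2 / 3), 0 < s (y : Circ)
  s_23 : s ((2 / 3 : ℝ) : Circ) = 0
  s_neg : ∀ y ∈ Ioo (2 / 3 : ℝ) 1, s (y : Circ) < 0

/-- The fibre over `x`. -/
def Fib (m : ℕ) (x : Circ) : Set (T (m + 2)) := {z | z 0 = x}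

/-- The open strip over the arc `(a,b)`. -/
def Strip (m : ℕ) (a b : ℝ) : Set (T (m + 2)) := {z | ∃ x ∈ Ioo a b, z 0 = (x : Circ)}

end Pool.Agent.Helper222.CPE
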