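import Mathlib
import Pool.Agent.Helper222.CPE.Defs

open Set Filter Topology

namespace Pool.Agent.Helper222.CPE

theorem ent_iff {Y : Type} [MetricSpace Y] [CompactSpace Y] (g : Y → Y) :
    (¬ 0 < Dynamics.coverEntropy g (univ : Set Y)) ↔
      ∀ ε : ℝ, 0 < ε → ∀ δ : ℝ, 0 < δ → ∃ N : ℕ, ∀ n : ℕ, N ≤ n → ∃ s : Finset Y,
        (s.card : ℝ) ≤ Real.exp (δ * n) ∧
          ∀ x : Y, ∃ y ∈ s, ∀ i < n, dist (g^[i] x) (g^[i] y) < ε := by
  constructor
  · intro h ε hε δ hδ
    have hU : {p : Y × Y | dist p.1 p.2 < ε} ∈ uniformity Y := Metric.dist_mem_uniformity hε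
    have h1 : Dynamics.coverEntropyEntourage g (univ : Set Y) {p : Y × Y | dist p.1 p.2 < ε} <
        ((δ : ℝ) : EReal) :=
      lt_of_le_of_lt ((Dynamics.coverEntropyEntourage_le_coverEntropy g univ hU).trans
        (not_lt.1 h)) (EReal.coe_pos.2 hδ)
    have h2 := ExpGrowth.eventually_le_exp h1
    obtain ⟨N, hN⟩ := Filter.eventually_atTop.1 h2
    refine ⟨N, fun n hn => ?_⟩
    have h3 := hN n hn
    have h4 : ((δ : ℝ) : EReal) * (n : EReal) = ((δ * n : ℝ) : EReal) := by
      rw [EReal.coe_mul]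
      rfl
    rw [h4, EReal.exp_coe] at h3
    have h5 : Dynamics.coverMincard g (univ : Set Y) {p : Y × Y | dist p.1 p.2 < ε} n < ⊤ := by
      rw [← ENat.toENNReal_lt, ENat.toENNReal_top]
      exact lt_of_le_of_lt h3 ENNReal.ofReal_lt_top
    obtain ⟨s, hs, hsc⟩ := (Dynamics.coverMincard_finite_iff g univ _ n).1 h5
    refine ⟨s, ?_, ?_⟩
    · rw [← hsc] at h3
      have h6 : ((s.card : ENNReal)) ≤ ENNReal.ofReal (Real.exp (δ * n)) := by
        simpa using h3
      rw [← ENNReal.ofReal_natCast] at h6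
      exact (ENNReal.ofReal_le_ofReal_iff (Real.exp_pos _).le).1 h6
    · intro x
      obtain ⟨y, hy, hxy⟩ := hs (mem_univ x)
      exact ⟨y, hy, fun i hi => Dynamics.mem_dynEntourage.1 hxy i hi⟩
  · intro h
    rw [not_lt]
    refine iSup₂_le fun U hU => ?_
    obtain ⟨ε, hε, hεU⟩ := Metric.mem_uniformity_dist.1 hU
    by_contra hcon
    rw [not_le] at hcon
    obtain ⟨δ, hδ0, hδ⟩ := EReal.lt_iff_exists_real_btwn.1 hcon
    have hδ1 : 0 < δ := EReal.coe_pos.1 hδ0
    refine absurd hδ (not_lt.2 ?_)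
    refine Eventually.expGrowthSup_le ?_
    obtain ⟨N, hN⟩ := h ε hε δ hδ1
    filter_upwards [Filter.eventually_ge_atTop N] with n hn
    obtain ⟨s, hs, hsc⟩ := hN n hn
    have h4 : ((δ : ℝ) : EReal) * (n : EReal) = ((δ * n : ℝ) : EReal) := by
      rw [EReal.coe_mul]
      rfl
    rw [h4, EReal.exp_coe]
    have h5 : Dynamics.IsDynCoverOf g (univ : Set Y) U n s := by
      intro x _
      obtain ⟨y, hy, hxy⟩ := hsc x
      exact ⟨y, hy, Dynamics.mem_dynEntourage.2 fun i hi => hεU (hxy i hi)⟩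
    have h6 := ENat.toENNReal_le.2 h5.coverMincard_le_card
    refine h6.trans ?_
    have h7 : ((s.card : ENNReal)) ≤ ENNReal.ofReal (Real.exp (δ * n)) := by
      rw [← ENNReal.ofReal_natCast]
      exact ENNReal.ofReal_le_ofReal hs
    simpa using h7

theorem entropy_pos {Y : Type} [MetricSpace Y] [CompactSpace Y] (g : Y → Y)
    (A B : Set Y) (δ : ℝ) (hδ : 0 < δ) (hAB : ∀ a ∈ A, ∀ b ∈ B, δ ≤ dist a b)
    (m : ℕ) (hm : 1 ≤ m)
    (h : ∀ (n : ℕ) (σ : ℕ → Bool), ∃ y, ∀ i < n, g^[m * i] y ∈ (if σ i = true then A else B)) :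
    0 < Dynamics.coverEntropy g (univ : Set Y) := by
  by_contra hcon
  have hlog : 0 < Real.log 2 := Real.log_pos (by norm_num)
  have hm0 : (0 : ℝ) < m := by exact_mod_cast hm
  obtain ⟨N, hN⟩ := (ent_iff g).1 hcon (δ / 2) (half_pos hδ) (Real.log 2 / (2 * m)) (by positivity)
  set k := N + 1 with hk
  have hNk : N ≤ m * k := by
    calc N ≤ 1 * k := by omega
      _ ≤ m * k := Nat.mul_le_mul_right k hm
  obtain ⟨s, hs, hcov⟩ := hN (m * k) hNk
  have hy : ∀ σ : Fin k → Bool, ∃ y, ∀ i : Fin k,
      g^[m * (i : ℕ)] y ∈ (if σ i = true then A else B) := by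
    intro σ
    obtain ⟨y, hy⟩ := h k (fun i => if hi : i < k then σ ⟨i, hi⟩ else false)
    refine ⟨y, fun i => ?_⟩
    have h1 := hy i i.2
    simpa [i.2] using h1
  choose y hy using hy
  have hc : ∀ σ : Fin k → Bool, ∃ c ∈ s, ∀ i < m * k, dist (g^[i] (y σ)) (g^[i] c) < δ / 2 :=
    fun σ => hcov (y σ)
  choose c hcs hc using hc
  have hinj : Function.Injective (fun σ => (⟨c σ, hcs σ⟩ : s)) := by
    intro σ σ' he
    have he' : c σ = c σ' := congrArg Subtype.val he
    funext i
    have him : m * (i : ℕ) < m * k := Nat.mul_lt_mul_of_pos_left i.2 (by omega)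
    have h1 := hc σ _ him
    have h2 := hc σ' _ him
    rw [← he'] at h2
    have h3 : dist (g^[m * (i : ℕ)] (y σ)) (g^[m * (i : ℕ)] (y σ')) < δ := by
      have := dist_triangle_right (g^[m * (i : ℕ)] (y σ)) (g^[m * (i : ℕ)] (y σ'))
        (g^[m * (i : ℕ)] (c σ))
      linarith
    have a1 := hy σ i
    have a2 := hy σ' i
    cases e1 : σ i <;> cases e2 : σ' i
    · rfl
    · rw [e1] at a1
      rw [e2] at a2
      simp only [Bool.false_eq_true, if_false, if_true] at a1 a2
      have := hAB _ a2 _ a1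
      rw [dist_comm] at this
      linarith
    · rw [e1] at a1
      rw [e2] at a2
      simp only [Bool.false_eq_true, if_false, if_true] at a1 a2
      have := hAB _ a1 _ a2
      linarith
    · rfl
  have hcard := Fintype.card_le_of_injective _ hinj
  rw [Fintype.card_fun, Fintype.card_bool, Fintype.card_fin, Fintype.card_coe] at hcard
  have hcard' : (2 : ℝ) ^ k ≤ s.card := by exact_mod_cast hcard
  have h4 : (2 : ℝ) ^ k = Real.exp (k * Real.log 2) := by
    rw [mul_comm, Real.exp_mul, Real.exp_log (by norm_num), Real.rpow_natCast]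
  have h5 := hcard'.trans hs
  rw [h4, Real.exp_le_exp] at h5
  have h6 : Real.log 2 / (2 * m) * ((m * k : ℕ) : ℝ) = k * Real.log 2 / 2 := by
    push_cast
    field_simp
  rw [h6] at h5
  have hk0 : (0 : ℝ) < k := by
    have : 0 < k := by omega
    exact_mod_cast this
  have h7 : 0 < (k : ℝ) * Real.log 2 := mul_pos hk0 hlog
  linarith

theorem entropy_not_pos {Y : Type} [MetricSpace Y] [CompactSpace Y] (g : Y → Y)
    (h : ∀ ε : ℝ, 0 < ε → ∃ C K : ℕ, ∀ n : ℕ, ∃ s : Finset Y, s.card ≤ C * (n + 1) ^ K ∧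
      ∀ x : Y, ∃ y ∈ s, ∀ i < n, dist (g^[i] x) (g^[i] y) < ε) :
    ¬ 0 < Dynamics.coverEntropy g (univ : Set Y) := by
  rw [ent_iff]
  intro ε hε δ hδ
  obtain ⟨C, K, hCK⟩ := h ε hε
  have h1 : Filter.Tendsto (fun x : ℝ => x ^ K * Real.exp (-x)) Filter.atTop (nhds 0) :=
    Real.tendsto_pow_mul_exp_neg_atTop_nhds_zero K
  have h2 : Filter.Tendsto (fun n : ℕ => δ * ((n : ℝ) + 1)) Filter.atTop Filter.atTop :=
    (Filter.tendsto_atTop_add_const_right _ 1 tendsto_natCast_atTop_atTop).const_mul_atTop hδ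
  have h3 := ((h1.comp h2).const_mul ((C : ℝ) / δ ^ K))
  rw [mul_zero] at h3
  have h4 := h3.eventually (gt_mem_nhds (Real.exp_pos (-δ)))
  obtain ⟨N, hN⟩ := Filter.eventually_atTop.mp h4
  refine ⟨N, fun n hn => ?_⟩
  obtain ⟨s, hs, hcov⟩ := hCK n
  refine ⟨s, ?_, hcov⟩
  have h5 := hN n hn
  simp only [Function.comp] at h5
  have h6 : (s.card : ℝ) ≤ C * ((n : ℝ) + 1) ^ K := by exact_mod_cast hs
  have h7 : (C : ℝ) * ((n : ℝ) + 1) ^ K =
      ((C : ℝ) / δ ^ K * ((δ * ((n : ℝ) + 1)) ^ K * Real.exp (-(δ * ((n : ℝ) + 1))))) *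
        Real.exp (δ * ((n : ℝ) + 1)) := by
    rw [mul_pow, mul_assoc ((C : ℝ) / δ ^ K), mul_assoc (δ ^ K * ((n : ℝ) + 1) ^ K), ← Real.exp_add,
      neg_add_cancel, Real.exp_zero, mul_one]
    have : δ ^ K ≠ 0 := by positivity
    field_simp
  have h8 : Real.exp (δ * n) = Real.exp (-δ) * Real.exp (δ * ((n : ℝ) + 1)) := by
    rw [← Real.exp_add]
    congr 1
    ring
  rw [h8]
  refine h6.trans ?_
  rw [h7]
  exact mul_le_mul_of_nonneg_right h5.le (Real.exp_pos _).le

theorem not_pos_of_finite_order {Y : Type} [MetricSpace Y] [CompactSpace Y] (g : Y → Y)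
    (hg : Continuous g) (M : ℕ) (hM : 1 ≤ M) (h : ∀ y, g^[M] y = y) :
    ¬ 0 < Dynamics.coverEntropy g (univ : Set Y) := by
  refine entropy_not_pos g fun ε hε => ?_
  have hnh : ∀ y : Y, {x : Y | ∀ i ∈ Finset.range M, dist (g^[i] x) (g^[i] y) < ε} ∈ 𝓝 y := by
    intro y
    have hop : IsOpen {x : Y | ∀ i ∈ Finset.range M, dist (g^[i] x) (g^[i] y) < ε} := by
      have : {x : Y | ∀ i ∈ Finset.range M, dist (g^[i] x) (g^[i] y) < ε}
          = ⋂ i ∈ Finset.range M, {x | dist (g^[i] x) (g^[i] y) < ε} := by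
        ext x; simp
      rw [this]
      refine isOpen_biInter_finset fun i _ => ?_
      exact isOpen_lt (((hg.iterate i)).dist continuous_const) continuous_const
    exact hop.mem_nhds (fun i _ => by simpa using hε)
  obtain ⟨t, -, ht⟩ := (isCompact_univ (X := Y)).elim_nhds_subcover _ (fun y _ => hnh y)
  refine ⟨t.card, 0, fun n => ⟨t, by simp, fun x => ?_⟩⟩
  have hx := ht (mem_univ x)
  simp only [mem_iUnion, exists_prop] at hx
  obtain ⟨y, hy, hxy⟩ := hx
  refine ⟨y, hy, fun i _ => ?_⟩
  have hmod : ∀ z : Y, g^[i] z = g^[i % M] z := by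
    intro z
    have h1 : ∀ k : ℕ, ∀ w : Y, g^[M * k] w = w := by
      intro k
      induction k with
      | zero => intro w; simp
      | succ k ih =>
        intro w
        rw [Nat.mul_succ, Function.iterate_add_apply, h, ih]
    conv_lhs => rw [← Nat.mod_add_div i M]
    rw [Function.iterate_add_apply, h1]
  rw [hmod x, hmod y]
  exact hxy (i % M) (Finset.mem_range.2 (Nat.mod_lt _ hM))

theorem not_pos_of_isometry {Y : Type} [MetricSpace Y] [CompactSpace Y] (g : Y → Y)
    (h : ∀ x y, dist (g x) (g y) = dist x y) :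
    ¬ 0 < Dynamics.coverEntropy g (univ : Set Y) := by
  apply entropy_not_pos
  intro ε hε
  obtain ⟨t, -, ht, hc⟩ := finite_cover_balls_of_compact (isCompact_univ (X := Y)) hε
  have hiter : ∀ (i : ℕ) (x y : Y), dist (g^[i] x) (g^[i] y) = dist x y := by
    intro i
    induction i with
    | zero => intro x y; rfl
    | succ i ih =>
      intro x y
      rw [Function.iterate_succ_apply', Function.iterate_succ_apply', h, ih]
  refine ⟨ht.toFinset.card, 0, fun n => ⟨ht.toFinset, by simp, fun x => ?_⟩⟩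
  have hx := hc (mem_univ x)
  simp only [mem_iUnion] at hx
  obtain ⟨y, hy, hxy⟩ := hx
  refine ⟨y, ht.mem_toFinset.mpr hy, fun i _ => ?_⟩
  rw [hiter]
  exact hxy

theorem pos_of_horseshoe {X Y : Type} [MetricSpace Y] [CompactSpace Y] (f : X → X) (g : Y → Y)
    (π : X → Y) (hfg : ∀ x, π (f x) = g (π x)) (A B : Set X) (hA : A.Nonempty) (m : ℕ)
    (hm : 1 ≤ m) (hAA : A ∪ B ⊆ f^[m] '' A) (hBB : A ∪ B ⊆ f^[m] '' B) (δ : ℝ) (hδ : 0 < δ)
    (hAB : ∀ a ∈ A, ∀ b ∈ B, δ ≤ dist (π a) (π b)) :
    0 < Dynamics.coverEntropy g (univ : Set Y) := by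
  apply entropy_pos g (π '' A) (π '' B) δ hδ ?_ m hm ?_
  · rintro _ ⟨a, ha, rfl⟩ _ ⟨b, hb, rfl⟩
    exact hAB a ha b hb
  · have key : ∀ (n : ℕ) (σ : ℕ → Bool), ∃ x ∈ A ∪ B, ∀ i < n,
        f^[m * i] x ∈ (if σ i = true then A else B) := by
      intro n
      induction n with
      | zero =>
        intro σ
        obtain ⟨a, ha⟩ := hA
        exact ⟨a, Or.inl ha, fun i hi => absurd hi (Nat.not_lt_zero _)⟩
      | succ n ih =>
        intro σ
        obtain ⟨x', hx', h⟩ := ih (fun i => σ (i+1))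
        have h1 : ∃ x ∈ (if σ 0 = true then A else B), f^[m] x = x' := by
          split_ifs
          · exact hAA hx'
          · exact hBB hx'
        obtain ⟨x, hx, hfx⟩ := h1
        refine ⟨x, ?_, ?_⟩
        · split_ifs at hx
          · exact Or.inl hx
          · exact Or.inr hx
        · intro i hi
          rcases i with _ | i
          · simpa using hx
          · have := h i (by omega)
            rw [show m * (i+1) = m * i + m by ring, Function.iterate_add_apply, hfx]
            exact this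
    intro n σ
    obtain ⟨x, -, h⟩ := key n σ
    have hsemi : ∀ j x, g^[j] (π x) = π (f^[j] x) := by
      intro j
      induction j with
      | zero => intro x; rfl
      | succ j ih =>
        intro x
        rw [Function.iterate_succ_apply, Function.iterate_succ_apply, ← hfg, ih]
    refine ⟨π x, fun i hi => ?_⟩
    rw [hsemi]
    have h2 := h i hi
    split_ifs with hs
    · rw [if_pos hs] at h2
      exact ⟨_, h2, rfl⟩
    · rw [if_neg hs] at h2
      exact ⟨_, h2, rfl⟩

namespace X_collapse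

/-- A type copy of `X` carrying the collapsed pseudo-metric. -/
structure Cp352 (X : Type) (S : Set X) where
  pt : X

theorem tri352 {X : Type} [MetricSpace X] (S : Set X) (hne : S.Nonempty) (x y z : X) :
    min (dist x z) (Metric.infDist x S + Metric.infDist z S) ≤
      min (dist x y) (Metric.infDist x S + Metric.infDist y S) +
        min (dist y z) (Metric.infDist y S + Metric.infDist z S) := by
  have hxy : Metric.infDist x S ≤ Metric.infDist y S + dist x y :=
    Metric.infDist_le_infDist_add_dist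
  have hzy : Metric.infDist z S ≤ Metric.infDist y S + dist z y :=
    Metric.infDist_le_infDist_add_dist
  have hd := dist_triangle x y z
  have hc := dist_comm z y
  have h0 : 0 ≤ Metric.infDist y S := Metric.infDist_nonneg
  have h1 : 0 ≤ Metric.infDist x S := Metric.infDist_nonneg
  have h2 : 0 ≤ Metric.infDist z S := Metric.infDist_nonneg
  rcases min_cases (dist x y) (Metric.infDist x S + Metric.infDist y S) with h | h <;>
  rcases min_cases (dist y z) (Metric.infDist y S + Metric.infDist z S) with h' | h' <;>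
  rcases min_cases (dist x z) (Metric.infDist x S + Metric.infDist z S) with h'' | h'' <;>
  rw [h.1, h'.1, h''.1] <;> linarith [h.2, h'.2, h''.2]

/-- The collapsed pseudo-metric. -/
noncomputable abbrev pm352 (X : Type) [MetricSpace X] (S : Set X) (hne : S.Nonempty) :
    PseudoMetricSpace (Cp352 X S) where
  dist a b := min (dist a.pt b.pt) (Metric.infDist a.pt S + Metric.infDist b.pt S)
  dist_self a := by
    have h1 : 0 ≤ Metric.infDist a.pt S := Metric.infDist_nonneg
    show min (dist a.pt a.pt) (Metric.infDist a.pt S + Metric.infDist a.pt S) = 0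
    rw [dist_self]
    exact min_eq_left (by linarith)
  dist_comm a b := by
    show min (dist a.pt b.pt) (Metric.infDist a.pt S + Metric.infDist b.pt S) =
      min (dist b.pt a.pt) (Metric.infDist b.pt S + Metric.infDist a.pt S)
    rw [dist_comm, add_comm]
  dist_triangle a b c := tri352 S hne a.pt b.pt c.pt

theorem collapse {X : Type} [MetricSpace X] [CompactSpace X] (f : X → X) (hf : Continuous f)
    (S : Set X) (hS : IsClosed S) (hne : S.Nonempty) (hSf : MapsTo f S S) :
    ∃ (Y : Type) (_ : MetricSpace Y) (_ : CompactSpace Y) (g : Y → Y) (π : X → Y),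
      Continuous g ∧ Continuous π ∧ Function.Surjective π ∧ (∀ x, π (f x) = g (π x)) ∧
      ∀ x y, dist (π x) (π y) = min (dist x y) (Metric.infDist x S + Metric.infDist y S) := by
  letI := pm352 X S hne
  let π : X → SeparationQuotient (Cp352 X S) := fun x => SeparationQuotient.mk ⟨x⟩
  have hd : ∀ x y, dist (π x) (π y) =
      min (dist x y) (Metric.infDist x S + Metric.infDist y S) := by
    intro x y
    exact SeparationQuotient.dist_mk _ _
  have hπc : Continuous π := by
    have hl : LipschitzWith 1 π := by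
      refine LipschitzWith.of_dist_le_mul fun x y => ?_
      rw [hd]
      simp
    exact hl.continuous
  have hπs : Function.Surjective π := by
    intro y
    obtain ⟨⟨x⟩, rfl⟩ := SeparationQuotient.surjective_mk y
    exact ⟨x, rfl⟩
  have hcomp : CompactSpace (SeparationQuotient (Cp352 X S)) := by
    refine ⟨?_⟩
    rw [← hπs.range_eq]
    exact isCompact_range hπc
  have hker : ∀ x y, π x = π y → x = y ∨ (x ∈ S ∧ y ∈ S) := by
    intro x y h
    have h0 : min (dist x y) (Metric.infDist x S + Metric.infDist y S) = 0 := by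
      rw [← hd, h, dist_self]
    have h1 : 0 ≤ Metric.infDist x S := Metric.infDist_nonneg
    have h2 : 0 ≤ Metric.infDist y S := Metric.infDist_nonneg
    rcases min_cases (dist x y) (Metric.infDist x S + Metric.infDist y S) with h' | h'
    · left
      rw [h'.1] at h0
      exact dist_eq_zero.1 h0
    · right
      rw [h'.1] at h0
      exact ⟨(hS.mem_iff_infDist_zero hne).2 (by linarith),
        (hS.mem_iff_infDist_zero hne).2 (by linarith)⟩
  have hmem : ∀ x y, x ∈ S → y ∈ S → π x = π y := by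
    intro x y hx hy
    rw [← dist_eq_zero, hd, Metric.infDist_zero_of_mem hx, Metric.infDist_zero_of_mem hy]
    simp
  have hdesc : ∀ x y, π x = π y → π (f x) = π (f y) := by
    intro x y h
    rcases hker x y h with h | ⟨hx, hy⟩
    · rw [h]
    · exact hmem _ _ (hSf hx) (hSf hy)
  let g : SeparationQuotient (Cp352 X S) → SeparationQuotient (Cp352 X S) :=
    fun y => π (f (Function.surjInv hπs y))
  have hg : ∀ x, π (f x) = g (π x) := by
    intro x
    exact hdesc _ _ (Function.surjInv_eq hπs (π x)).symm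
  have hq : IsQuotientMap π := hπc.isClosedMap.isQuotientMap hπc hπs
  refine ⟨SeparationQuotient (Cp352 X S), inferInstance, hcomp, g, π, ?_, hπc, hπs, hg, hd⟩
  rw [hq.continuous_iff]
  have : g ∘ π = π ∘ f := by
    funext x
    exact (hg x).symm
  rw [this]
  exact hπc.comp hf

end X_collapse

alias collapse := X_collapse.collapse

theorem not_cpe_of_rare {X : Type} [MetricSpace X] [CompactSpace X] (f : X → X)
    (hf : Continuous f) (S : Set X) (hS : IsClosed S) (hne : S.Nonempty) (hSu : S ≠ univ)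
    (hSf : MapsTo f S S)
    (h : ∀ ε : ℝ, 0 < ε → ∃ K : ℕ, ∀ (x : X) (I : Finset ℕ),
      (∀ i ∈ I, ε ≤ Metric.infDist (f^[i] x) S) → I.card ≤ K) :
    ¬ IsCPE f := by
  classical
  intro hcpe
  obtain ⟨Y, mY, cY, g, π, hg, hπ, hsurj, hcomm, hdist⟩ := collapse f hf S hS hne hSf
  obtain ⟨s0, hs0⟩ := hne
  obtain ⟨x0, hx0⟩ : ∃ x, x ∉ S := by
    by_contra hcon; push Not at hcon; exact hSu (eq_univ_of_forall hcon)
  have hnt : Nontrivial Y := by
    refine ⟨π x0, π s0, ?_⟩
    intro heq
    have h1 := hdist x0 s0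
    rw [heq, dist_self] at h1
    have h2 : 0 < dist x0 s0 := dist_pos.2 (by rintro rfl; exact hx0 hs0)
    have h3 : 0 < Metric.infDist x0 S := (hS.notMem_iff_infDist_pos ⟨s0, hs0⟩).1 hx0
    have h4 : 0 ≤ Metric.infDist s0 S := Metric.infDist_nonneg
    have h5 : 0 < min (dist x0 s0) (Metric.infDist x0 S + Metric.infDist s0 S) :=
      lt_min h2 (by linarith)
    linarith
  refine entropy_not_pos g ?_ (hcpe Y g π hg hπ hsurj hcomm hnt)
  intro ε hε
  obtain ⟨K, hK⟩ := h (ε / 2) (by positivity)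
  obtain ⟨t, -, ht⟩ := (isCompact_univ : IsCompact (univ : Set X)).elim_nhds_subcover
    (fun x => Metric.ball x (ε / 2)) (fun x _ => Metric.ball_mem_nhds x (by positivity))
  have hc : ∀ x : X, ∃ p : ↥t, dist x (p : X) < ε / 2 := by
    intro x
    obtain ⟨p, hp, hxp⟩ := mem_iUnion₂.1 (ht (mem_univ x))
    exact ⟨⟨p, hp⟩, hxp⟩
  choose c hc using hc
  have hit : ∀ i x, π (f^[i] x) = g^[i] (π x) := by
    intro i x
    exact (Function.Semiconj.iterate_right (f := π) hcomm i) x
  refine ⟨(t.card + 1) ^ K, K, fun n => ?_⟩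
  let code : X → Finset (Fin n × ↥t) := fun x =>
    (Finset.univ.filter fun i : Fin n => ε / 2 ≤ Metric.infDist (f^[(i:ℕ)] x) S).image
      fun i => (i, c (f^[(i:ℕ)] x))
  have hmem : ∀ x i p, (i, p) ∈ code x ↔
      ε / 2 ≤ Metric.infDist (f^[(i:ℕ)] x) S ∧ c (f^[(i:ℕ)] x) = p := by
    intro x i p
    simp only [code, Finset.mem_image, Finset.mem_filter, Finset.mem_univ, true_and,
      Prod.mk.injEq]
    constructor
    · rintro ⟨j, hj, rfl, rfl⟩; exact ⟨hj, rfl⟩
    · rintro ⟨h1, h2⟩; exact ⟨i, h1, rfl, h2⟩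
  have hcard : ∀ x, (code x).card ≤ K := by
    intro x
    refine Finset.card_image_le.trans ?_
    rw [← Finset.card_map Fin.valEmbedding]
    apply hK x
    intro i hi
    rw [Finset.mem_map] at hi
    obtain ⟨j, hj, rfl⟩ := hi
    exact (Finset.mem_filter.1 hj).2
  let Rep : (Fin K → Option (Fin n × ↥t)) → Y := fun a =>
    if h : ∃ x, ∀ z, (z ∈ code x ↔ ∃ j, a j = some z) then π h.choose else π s0
  refine ⟨Finset.univ.image Rep, ?_, ?_⟩
  · refine Finset.card_image_le.trans ?_
    rw [Finset.card_univ, Fintype.card_fun, Fintype.card_option, Fintype.card_prod,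
      Fintype.card_fin, Fintype.card_fin, Fintype.card_coe, ← mul_pow]
    apply Nat.pow_le_pow_left
    nlinarith
  · intro y
    obtain ⟨x, rfl⟩ := hsurj y
    let a : Fin K → Option (Fin n × ↥t) := fun j => (code x).toList[(j:ℕ)]?
    have ha : ∀ z, (z ∈ code x ↔ ∃ j, a j = some z) := by
      intro z
      constructor
      · intro hz
        rw [← Finset.mem_toList, List.mem_iff_getElem?] at hz
        obtain ⟨i, hi⟩ := hz
        have hi2 : i < (code x).toList.length := by
          by_contra hcon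
          rw [List.getElem?_eq_none (not_lt.1 hcon)] at hi
          exact absurd hi (by simp)
        rw [Finset.length_toList] at hi2
        exact ⟨⟨i, hi2.trans_le (hcard x)⟩, hi⟩
      · rintro ⟨j, hj⟩
        rw [← Finset.mem_toList, List.mem_iff_getElem?]
        exact ⟨j, hj⟩
    have hex : ∃ x, ∀ z, (z ∈ code x ↔ ∃ j, a j = some z) := ⟨x, ha⟩
    have hRep : Rep a = π hex.choose := dif_pos hex
    refine ⟨Rep a, Finset.mem_image_of_mem _ (Finset.mem_univ a), ?_⟩
    intro i hi
    have hcode : ∀ z, z ∈ code x ↔ z ∈ code hex.choose := fun z =>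
      (ha z).trans (hex.choose_spec z).symm
    rw [hRep, ← hit, ← hit, hdist]
    have key : ∀ u v : X, (∀ z, z ∈ code u ↔ z ∈ code v) →
        ε / 2 ≤ Metric.infDist (f^[i] u) S → dist (f^[i] u) (f^[i] v) < ε := by
      intro u v huv hu
      have h1 : ((⟨i, hi⟩ : Fin n), c (f^[i] u)) ∈ code u := (hmem _ _ _).2 ⟨hu, rfl⟩
      have h2 := (hmem _ _ _).1 ((huv _).1 h1)
      have h3 : c (f^[i] v) = c (f^[i] u) := h2.2
      calc dist (f^[i] u) (f^[i] v)
          ≤ dist (f^[i] u) (c (f^[i] u)) + dist ((c (f^[i] u) : X)) (f^[i] v) :=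
            dist_triangle _ _ _
        _ < ε / 2 + ε / 2 := by
            apply add_lt_add (hc _)
            rw [← h3, dist_comm]
            exact hc _
        _ = ε := by ring
    by_cases h1 : ε / 2 ≤ Metric.infDist (f^[i] x) S
    · exact lt_of_le_of_lt (min_le_left _ _) (key _ _ hcode h1)
    · by_cases h2 : ε / 2 ≤ Metric.infDist (f^[i] hex.choose) S
      · refine lt_of_le_of_lt (min_le_left _ _) ?_
        rw [dist_comm]
        exact key _ _ (fun z => (hcode z).symm) h2
      · refine lt_of_le_of_lt (min_le_right _ _) ?_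
        push Not at h1 h2
        linarith

theorem nw_of_cpe {X : Type} [MetricSpace X] [CompactSpace X] (f : X → X) (hf : Continuous f)
    (h : IsCPE f) : NW f := by
  classical
  by_contra hNW
  unfold NW at hNW
  push Not at hNW
  obtain ⟨m, hm, U, hU, ⟨u, hu⟩, hj⟩ := hNW
  have hvis : ∀ (x : X) (I : Finset ℕ), (∀ i ∈ I, f^[i] x ∈ U) → I.card ≤ m := by
    intro x I hI
    have key : ∀ i ∈ I, ∀ i' ∈ I, i < i' → i % m = i' % m → False := by
      intro i hi i' hi' hlt hmod
      have hdvd : m ∣ i' - i := (Nat.modEq_iff_dvd' hlt.le).mp hmod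
      obtain ⟨j, hjj⟩ := hdvd
      have hj1 : 1 ≤ j := by
        rcases Nat.eq_zero_or_pos j with h0 | h0
        · subst h0
          simp at hjj
          omega
        · exact h0
      have hne := hj j hj1
      have hmem : f^[i'] x ∈ f^[m * j] '' U ∩ U := by
        refine ⟨⟨f^[i] x, hI i hi, ?_⟩, hI i' hi'⟩
        rw [← Function.iterate_add_apply]
        congr 1
        omega
      rw [hne] at hmem
      exact hmem
    have hcard : I.card ≤ (Finset.range m).card := by
      refine Finset.card_le_card_of_injOn (fun i => i % m) ?_ ?_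
      · intro i _
        exact Finset.mem_coe.mpr (Finset.mem_range.mpr (Nat.mod_lt _ hm))
      · intro i hi i' hi' heq
        by_contra hne
        rcases lt_or_gt_of_ne hne with hlt | hlt
        · exact key i hi i' hi' hlt heq
        · exact key i' hi' i hi hlt heq.symm
    simpa using hcard
  set S : Set X := (⋃ n, f^[n] ⁻¹' U)ᶜ with hSdef
  have hS : IsClosed S := by
    rw [hSdef, isClosed_compl_iff]
    exact isOpen_iUnion fun n => hU.preimage (hf.iterate n)
  have hSmem : ∀ x, x ∈ S ↔ ∀ n, f^[n] x ∉ U := by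
    intro x
    simp [hSdef]
  have hSf : MapsTo f S S := by
    intro x hx
    rw [hSmem] at hx ⊢
    intro n hn
    exact hx (n + 1) (by rwa [Function.iterate_succ_apply])
  have hSu : S ≠ univ := by
    intro hall
    have : u ∈ S := by rw [hall]; trivial
    exact (hSmem u).mp this 0 hu
  have hne : S.Nonempty := by
    by_contra hempty
    rw [Set.not_nonempty_iff_eq_empty] at hempty
    have hinf : {i : ℕ | f^[i] u ∈ U}.Infinite := by
      rw [← Nat.frequently_atTop_iff_infinite, Filter.frequently_atTop]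
      intro k
      have hk : f^[k] u ∉ S := by rw [hempty]; exact fun hh => hh
      rw [hSmem] at hk
      push Not at hk
      obtain ⟨n, hn⟩ := hk
      refine ⟨n + k, by omega, ?_⟩
      rw [Function.iterate_add_apply]
      exact hn
    obtain ⟨I, hI, hIc⟩ := hinf.exists_subset_card_eq (m + 1)
    have := hvis u I (fun i hi => hI hi)
    omega
  refine not_cpe_of_rare f hf S hS hne hSu hSf ?_ h
  intro ε hε
  have hKc : IsCompact {x : X | ε ≤ Metric.infDist x S} :=
    (isClosed_le continuous_const (Metric.continuous_infDist_pt S)).isCompact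
  obtain ⟨t, ht⟩ := hKc.elim_finite_subcover (fun n => f^[n] ⁻¹' U)
    (fun n => hU.preimage (hf.iterate n)) (by
      intro x hx
      by_contra hnot
      have hxS : x ∈ S := hnot
      have h0 : Metric.infDist x S = 0 := Metric.infDist_zero_of_mem hxS
      have hx' : ε ≤ Metric.infDist x S := hx
      linarith)
  refine ⟨t.card * m, ?_⟩
  intro x I hI
  have hsub : I ⊆ t.biUnion (fun n => I.filter (fun i => f^[i] (f^[n] x) ∈ U)) := by
    intro i hi
    have h1 : f^[i] x ∈ {x : X | ε ≤ Metric.infDist x S} := hI i hi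
    have h2 := ht h1
    simp only [mem_iUnion, mem_preimage] at h2
    obtain ⟨n, hn, hnU⟩ := h2
    rw [Finset.mem_biUnion]
    refine ⟨n, hn, Finset.mem_filter.mpr ⟨hi, ?_⟩⟩
    rw [← Function.iterate_add_apply, Nat.add_comm, Function.iterate_add_apply]
    exact hnU
  calc I.card ≤ (t.biUnion (fun n => I.filter (fun i => f^[i] (f^[n] x) ∈ U))).card :=
        Finset.card_le_card hsub
    _ ≤ ∑ n ∈ t, (I.filter (fun i => f^[i] (f^[n] x) ∈ U)).card := Finset.card_biUnion_le
    _ ≤ ∑ _n ∈ t, m := Finset.sum_le_sum fun n _ =>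
        hvis (f^[n] x) _ (fun i hi => (Finset.mem_filter.mp hi).2)
    _ = t.card * m := by simp

theorem fix_interior_empty {X : Type} [MetricSpace X] [CompactSpace X] [Nontrivial X]
    (f : X → X) (hf : Continuous f) (h : IsCPE f) (M : ℕ) (hM : 1 ≤ M) :
    interior {x | f^[M] x = x} = ∅ := by
  by_contra hO
  have hOne : (interior {x | f^[M] x = x}).Nonempty := Set.nonempty_iff_ne_empty.2 hO
  set O := interior {x | f^[M] x = x} with hOdef
  have hOo : IsOpen O := isOpen_interior
  have hOfix : ∀ x ∈ O, f^[M] x = x := fun x hx =>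
    (interior_subset (s := {x | f^[M] x = x}) hx : x ∈ {x | f^[M] x = x})
  have hgc : Continuous f^[M] := hf.iterate M
  have hB : ∀ x, x ∈ Oᶜ ↔ x ∈ closure {x | f^[M] x = x}ᶜ := by
    intro x
    rw [closure_compl]
  have hmaps : MapsTo f Oᶜ Oᶜ := by
    intro x hx hfx
    have hfx : f x ∈ O := hfx
    have hx2 := (hB x).1 hx
    have hVo : IsOpen ({u | f^[M] u = u}ᶜ ∩ f ⁻¹' O) := by
      refine IsOpen.inter ?_ (hOo.preimage hf)
      exact (isClosed_eq hgc continuous_id).isOpen_compl
    have hVn : ({u | f^[M] u = u}ᶜ ∩ f ⁻¹' O).Nonempty := by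
      have := mem_closure_iff.1 hx2 (f ⁻¹' O) (hOo.preimage hf) hfx
      rwa [Set.inter_comm] at this
    obtain ⟨j, hj, v, ⟨u, hu, huv⟩, hv⟩ := nw_of_cpe f hf h M hM _ hVo hVn
    have hfu : f^[M] (f u) = f u := hOfix _ hu.2
    have hMj : 1 ≤ M * j := Nat.mul_pos hM hj
    obtain ⟨k, hk⟩ := Nat.exists_eq_add_of_le hMj
    have hv2 : v = f^[k] (f u) := by
      rw [← huv, hk, Nat.add_comm, Function.iterate_succ_apply]
    refine hv.1 ?_
    show f^[M] v = v
    rw [hv2, ← Function.iterate_add_apply, Nat.add_comm, Function.iterate_add_apply, hfu]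
  rcases Set.eq_empty_or_nonempty Oᶜ with hBe | hBn
  · have hall : ∀ x, f^[M] x = x := by
      intro x
      refine hOfix x ?_
      by_contra hx
      have : x ∈ Oᶜ := hx
      rw [hBe] at this
      exact this
    exact not_pos_of_finite_order f hf M hM hall
      (h X f id hf continuous_id Function.surjective_id (fun x => rfl) inferInstance)
  · obtain ⟨Y, mY, cY, g, π, hg, hπ, hsurj, hsemi, hdist⟩ :=
      collapse f hf Oᶜ hOo.isClosed_compl hBn hmaps
    have hiter : ∀ n x, g^[n] (π x) = π (f^[n] x) := by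
      intro n
      induction n with
      | zero => intro x; rfl
      | succ n ih =>
        intro x
        rw [Function.iterate_succ_apply, Function.iterate_succ_apply, ← hsemi, ih]
    have hid : ∀ y, g^[M] y = y := by
      intro y
      obtain ⟨x, rfl⟩ := hsurj y
      rw [hiter]
      by_cases hx : x ∈ O
      · rw [hOfix x hx]
      · have hx1 : x ∈ Oᶜ := hx
        have hx2 : f^[M] x ∈ Oᶜ := hmaps.iterate M hx1
        rw [← dist_eq_zero, hdist, Metric.infDist_zero_of_mem hx1, Metric.infDist_zero_of_mem hx2,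
          add_zero]
        exact min_eq_right dist_nonneg
    have hnt : Nontrivial Y := by
      obtain ⟨x, hx⟩ := hOne
      obtain ⟨b, hb⟩ := hBn
      refine ⟨π x, π b, ?_⟩
      rw [← dist_pos, hdist]
      have hxb : x ≠ b := by rintro rfl; exact hb hx
      have hx' : x ∉ Oᶜ := fun h => h hx
      have h1 : 0 < Metric.infDist x Oᶜ :=
        (hOo.isClosed_compl.notMem_iff_infDist_pos ⟨b, hb⟩).1 hx'
      exact lt_min (dist_pos.2 hxb) (add_pos_of_pos_of_nonneg h1 Metric.infDist_nonneg)
    exact not_pos_of_finite_order g hg M hM hid (h Y g π hg hπ hsurj hsemi hnt)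

theorem lt_of_nw {X : Type} [MetricSpace X] [CompactSpace X] (f : X → X) (hf : Continuous f)
    (h : NW f) (hiso : ∀ U : Set X, IsOpen U → U.Nonempty → U.Infinite) : Lt f := by
  intro n U y hU hUne
  by_contra hcon
  push Not at hcon
  rcases Nat.eq_zero_or_pos n with hn | hn
  · subst hn
    have hsub : U ⊆ {y} := fun x hx => hcon x hx
    exact (hiso U hU hUne) ((Set.finite_singleton y).subset hsub)
  · set g := f^[n] with hg
    have hgU : ∀ x ∈ U, g x = y := hcon
    have hit : ∀ j x, f^[n * j] x = g^[j] x := by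
      intro j x
      rw [hg, Function.iterate_mul]
    have hj : ∀ j, 1 ≤ j → ∀ x ∈ U, g^[j] x = g^[j - 1] y := by
      intro j hj x hx
      obtain ⟨k, rfl⟩ : ∃ k, j = k + 1 := ⟨j - 1, by omega⟩
      rw [Function.iterate_succ_apply, hgU x hx, Nat.add_sub_cancel]
    obtain ⟨j, hj1, z, ⟨x, hx, hxz⟩, hz⟩ := h n hn U hU hUne
    have hz1 : z = g^[j - 1] y := by rw [← hxz, hit, hj j hj1 x hx]
    have hper : Function.IsPeriodicPt g j y := by
      show g^[j] y = y
      have h1 := hgU z hz
      rw [hz1, ← Function.iterate_succ_apply' g] at h1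
      rwa [show (j - 1).succ = j by omega] at h1
    let P : Set X := (fun i => g^[i] y) '' (Set.Iio j)
    have hPfin : P.Finite := (Set.finite_Iio j).image _
    have hP : ∀ i, g^[i] y ∈ P := by
      intro i
      refine ⟨i % j, Nat.mod_lt _ hj1, ?_⟩
      exact hper.iterate_mod_apply i
    have hV : IsOpen (U \ P) := hU.sdiff hPfin.isClosed
    have hVne : (U \ P).Nonempty := ((hiso U hU hUne).diff hPfin).nonempty
    obtain ⟨j', hj1', z', ⟨x', hx', hxz'⟩, hz'⟩ := h n hn (U \ P) hV hVne
    apply hz'.2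
    rw [← hxz', hit, hj j' hj1' x' hx'.1]
    exact hP _

theorem factor_const_of_HP {X : Type} [MetricSpace X] [CompactSpace X] (f : X → X)
    (W : Set X) (hW : HP f W) (Y : Type) [MetricSpace Y] [CompactSpace Y]
    (g : Y → Y) (π : X → Y) (hπ : Continuous π) (hfg : ∀ x, π (f x) = g (π x))
    (hent : ¬ 0 < Dynamics.coverEntropy g (univ : Set Y)) :
    ∀ u ∈ closure W, ∀ v ∈ closure W, π u = π v := by
  have key : ∀ u ∈ W, ∀ v ∈ W, π u = π v := by
    intro u hu v hv
    by_contra hne
    obtain ⟨δ, hδ⟩ : ∃ δ, δ = dist (π u) (π v) / 3 := ⟨_, rfl⟩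
    have hd : 0 < dist (π u) (π v) := dist_pos.2 hne
    have hδ0 : 0 < δ := by rw [hδ]; linarith
    have hball : ∀ w ∈ W, ∃ r : ℝ, 0 < r ∧ Metric.closedBall w r ⊆ W ∧
        ∀ a ∈ Metric.closedBall w r, dist (π a) (π w) < δ := by
      intro w hw
      have h1 : W ∩ π ⁻¹' (Metric.ball (π w) δ) ∈ 𝓝 w :=
        Filter.inter_mem (hW.1.mem_nhds hw)
          (hπ.continuousAt.preimage_mem_nhds (Metric.ball_mem_nhds _ hδ0))
      obtain ⟨r, hr, hr2⟩ := Metric.nhds_basis_closedBall.mem_iff.1 h1
      exact ⟨r, hr, fun a ha => (hr2 ha).1, fun a ha => (hr2 ha).2⟩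
    obtain ⟨r, hr, hr1, hr2⟩ := hball u hu
    obtain ⟨s, hs, hs1, hs2⟩ := hball v hv
    have hint : ∀ (w : X) (t : ℝ), 0 < t → (interior (Metric.closedBall w t)).Nonempty := by
      intro w t ht
      exact ⟨w, interior_mono Metric.ball_subset_closedBall
        (by rw [Metric.isOpen_ball.interior_eq]; exact Metric.mem_ball_self ht)⟩
    obtain ⟨m, hm, h1, h2⟩ := hW.2 (Metric.closedBall u r) (Metric.closedBall v s)
      (Metric.isClosed_closedBall.isCompact) (Metric.isClosed_closedBall.isCompact)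
      (hint u r hr) (hint v s hs) hr1 hs1
    apply hent
    refine pos_of_horseshoe f g π hfg (Metric.closedBall u r) (Metric.closedBall v s)
      ⟨u, Metric.mem_closedBall_self hr.le⟩ m hm h1 h2 δ hδ0 ?_
    intro a ha b hb
    have e1 := hr2 a ha
    have e2 := hs2 b hb
    have e3 := dist_triangle4 (π u) (π a) (π b) (π v)
    rw [dist_comm (π u) (π a)] at e3
    linarith
  have hcl : ∀ v ∈ W, ∀ u ∈ closure W, π u = π v := by
    intro v hv
    exact closure_minimal (fun u hu => key u hu v hv) (isClosed_eq hπ continuous_const)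
  intro u hu v hv
  have : closure W ⊆ {v | π u = π v} :=
    closure_minimal (fun v hv => hcl v hv u hu) (isClosed_eq continuous_const hπ)
  exact this hv

end Pool.Agent.Helper222.CPE
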