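import Mathlib
import Pool.Agent.Helper222.CPE.Defs
import Pool.Agent.Helper222.CPE.Ent

open Set Filter Topology

namespace Pool.Agent.Helper222.CPE

namespace X_measurableSet_PP

section pp_aux
open MeasureTheory

variable {α : Type*} [MeasurableSpace α]

theorem pp_ms_ex {ι : Type*} [Countable ι] {P : ι → α → Prop}
    (h : ∀ i, MeasurableSet {a | P i a}) : MeasurableSet {a | ∃ i, P i a} := by
  have e : {a | ∃ i, P i a} = ⋃ i, {a | P i a} := by
    ext a
    simp
  rw [e]
  exact MeasurableSet.iUnion h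

theorem pp_ms_bex {ι : Type*} {S : Set ι} (hS : S.Countable) {P : ι → α → Prop}
    (h : ∀ i ∈ S, MeasurableSet {a | P i a}) : MeasurableSet {a | ∃ i ∈ S, P i a} := by
  have e : {a | ∃ i ∈ S, P i a} = ⋃ i ∈ S, {a | P i a} := by
    ext a
    simp
  rw [e]
  exact MeasurableSet.biUnion hS h

theorem pp_ms_ball {ι : Type*} {S : Set ι} (hS : S.Countable) {P : ι → α → Prop}
    (h : ∀ i ∈ S, MeasurableSet {a | P i a}) : MeasurableSet {a | ∀ i ∈ S, P i a} := by
  have e : {a | ∀ i ∈ S, P i a} = ⋂ i ∈ S, {a | P i a} := by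
    ext a
    simp
  rw [e]
  exact MeasurableSet.biInter hS h

theorem pp_ms_and (c : Prop) {P : α → Prop} (h : MeasurableSet {a | P a}) :
    MeasurableSet {a | c ∧ P a} := by
  by_cases hc : c
  · have e : {a | c ∧ P a} = {a | P a} := by
      ext a
      simp [hc]
    rw [e]
    exact h
  · have e : {a | c ∧ P a} = ∅ := by
      ext a
      simp [hc]
    rw [e]
    exact MeasurableSet.empty

end pp_aux

theorem pp_cont {X : Type} [MetricSpace X] [CompactSpace X] (m : ℕ) :
    Continuous (fun p : C(X, X) × X => (p.1 : X → X)^[m] p.2) := by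
  induction m with
  | zero => exact continuous_snd
  | succ m ih =>
    have e : (fun p : C(X, X) × X => (p.1 : X → X)^[m + 1] p.2) =
        fun p : C(X, X) × X => p.1 ((p.1 : X → X)^[m] p.2) := by
      funext p
      exact Function.iterate_succ_apply' _ _ _
    rw [e]
    exact continuous_fst.eval ih

theorem pp_closed {X : Type} [MetricSpace X] [CompactSpace X] (m : ℕ) (K W : Set X)
    (hK : IsClosed K) : IsClosed {f : C(X, X) | W ⊆ (f : X → X)^[m] '' K} := by
  have e : {f : C(X, X) | W ⊆ (f : X → X)^[m] '' K} =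
      ⋂ w ∈ W, {f : C(X, X) | w ∈ (f : X → X)^[m] '' K} := by
    ext f
    simp only [Set.mem_iInter]
    exact Iff.rfl
  rw [e]
  refine isClosed_biInter fun w _ => ?_
  have e2 : {f : C(X, X) | w ∈ (f : X → X)^[m] '' K} =
      Prod.fst '' ({p : C(X, X) × X | (p.1 : X → X)^[m] p.2 = w} ∩ (Prod.snd ⁻¹' K)) := by
    ext f
    constructor
    · rintro ⟨x, hx, hxw⟩
      exact ⟨(f, x), ⟨hxw, hx⟩, rfl⟩
    · rintro ⟨⟨g, x⟩, ⟨h1, h2⟩, rfl⟩
      exact ⟨x, h2, h1⟩
  rw [e2]
  apply isClosedMap_fst_of_compactSpace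
  exact (isClosed_eq (pp_cont m) continuous_const).inter (hK.preimage continuous_snd)


theorem measurableSet_PP {X : Type} [MetricSpace X] [CompactSpace X] [Nonempty X] :
    @MeasurableSet C(X, X) (borel _) {f : C(X, X) | PP (f : X → X)} := by
  let _ : MeasurableSpace C(X, X) := borel _
  have : BorelSpace C(X, X) := ⟨rfl⟩
  have hKK : (KK X).Countable := Set.countable_range _
  have hKKc : ∀ K ∈ KK X, IsClosed K := by
    rintro K ⟨p, rfl⟩
    exact Metric.isClosed_closedBall
  have hcb := TopologicalSpace.countable_countableBasis X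
  show MeasurableSet {f : C(X, X) | PP (f : X → X)}
  unfold PP
  refine pp_ms_ex fun r => ?_
  have hU : {U : Fin (r + 1) → Set X | ∀ i, U i ∈ TopologicalSpace.countableBasis X}.Countable := by
    have h := Set.countable_univ_pi (fun _ : Fin (r + 1) => hcb)
    refine h.mono ?_
    intro U hU i _
    exact hU i
  refine pp_ms_ball (S := {U : Fin (r + 1) → Set X |
    ∀ i, U i ∈ TopologicalSpace.countableBasis X}) hU fun U _ => ?_
  refine pp_ms_ex fun i => pp_ms_ex fun j => pp_ms_and _ ?_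
  refine pp_ms_bex hKK fun U0 hU0 => pp_ms_bex hKK fun V0 hV0 => pp_ms_and _ (pp_ms_and _ ?_)
  refine pp_ms_ex fun m => pp_ms_and _ ?_
  exact ((pp_closed m U0 (U0 ∪ V0) (hKKc U0 hU0)).inter
    (pp_closed m V0 (U0 ∪ V0) (hKKc V0 hV0))).measurableSet

end X_measurableSet_PP

alias measurableSet_PP := X_measurableSet_PP.measurableSet_PP

namespace X_PP_of_HP

theorem PP_of_HP_aux {X : Type} [MetricSpace X] [CompactSpace X] [Nonempty X] (O : Set X)
    (hO : IsOpen O) (hne : O.Nonempty) :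
    ∃ U0 ∈ KK X, U0 ⊆ O ∧ IsCompact U0 ∧ (interior U0).Nonempty := by
  obtain ⟨x, hx⟩ := hne
  obtain ⟨ρ, hρ, hball⟩ := Metric.isOpen_iff.1 hO x hx
  obtain ⟨b, hb⟩ := exists_nat_one_div_lt (half_pos hρ)
  have hb0 : (0 : ℝ) < 1 / ((b : ℝ) + 1) := by positivity
  obtain ⟨a, ha⟩ := (TopologicalSpace.denseRange_denseSeq X).exists_dist_lt x hb0
  refine ⟨Metric.closedBall (TopologicalSpace.denseSeq X a) (1 / ((b : ℝ) + 1)), ⟨(a, b), rfl⟩,
    ?_, Metric.isClosed_closedBall.isCompact, ?_⟩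
  · intro z hz
    apply hball
    rw [Metric.mem_ball]
    have h1 : dist z (TopologicalSpace.denseSeq X a) ≤ 1 / ((b : ℝ) + 1) := hz
    have h2 := dist_triangle z (TopologicalSpace.denseSeq X a) x
    rw [dist_comm x] at ha
    linarith
  · exact ⟨TopologicalSpace.denseSeq X a,
      Metric.ball_subset_interior_closedBall (Metric.mem_ball_self hb0)⟩


theorem PP_of_HP {X : Type} [MetricSpace X] [CompactSpace X] [Nonempty X] (f : X → X)
    (S : Set (Set X)) (hS : S.Finite) (hHP : ∀ W ∈ S, HP f W) (hd : Dense (⋃₀ S)) : PP f := by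
  refine ⟨hS.toFinset.card, fun U hU => ?_⟩
  have h1 : ∀ i, ∃ W ∈ S, (U i ∩ W).Nonempty := by
    intro i
    obtain ⟨x, hx1, W, hW, hx2⟩ := hd.inter_open_nonempty (U i)
      (TopologicalSpace.isOpen_of_mem_countableBasis (hU i))
      (TopologicalSpace.nonempty_of_mem_countableBasis (hU i))
    exact ⟨W, hW, x, hx1, hx2⟩
  choose W hW hne using h1
  obtain ⟨i, -, j, -, hij, hWij⟩ := Finset.exists_ne_map_eq_of_card_lt_of_maps_to
    (s := (Finset.univ : Finset (Fin (hS.toFinset.card + 1)))) (t := hS.toFinset)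
    (by rw [Finset.card_univ, Fintype.card_fin]; exact Nat.lt_succ_self _)
    (f := W) (fun a _ => by
      have : W a ∈ hS.toFinset := hS.mem_toFinset.2 (hW a)
      exact this)
  obtain ⟨U0, hU0, hU0s, hU0c, hU0i⟩ := PP_of_HP_aux (U i ∩ W i)
    ((TopologicalSpace.isOpen_of_mem_countableBasis (hU i)).inter (hHP _ (hW i)).1) (hne i)
  obtain ⟨V0, hV0, hV0s, hV0c, hV0i⟩ := PP_of_HP_aux (U j ∩ W j)
    ((TopologicalSpace.isOpen_of_mem_countableBasis (hU j)).inter (hHP _ (hW j)).1) (hne j)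
  rw [← hWij] at hV0s
  exact ⟨i, j, hij, U0, hU0, V0, hV0, fun z hz => (hU0s hz).1, fun z hz => (hV0s hz).1,
    (hHP _ (hW i)).2 U0 V0 hU0c hV0c hU0i hV0i (fun z hz => (hU0s hz).2)
      (fun z hz => (hV0s hz).2)⟩

end X_PP_of_HP

alias PP_of_HP := X_PP_of_HP.PP_of_HP

theorem isCPE_of_PP {X : Type} [MetricSpace X] [CompactSpace X] [Nonempty X]
    [PreconnectedSpace X] (f : X → X) (h : PP f) : IsCPE f := by
  intro Y _ _ g π hg hπ hsurj hcomm hnt
  obtain ⟨r, hr⟩ := h
  have hpc : IsPreconnected (univ : Set Y) := by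
    have := (isPreconnected_univ (α := X)).image π hπ.continuousOn
    rwa [Set.image_univ, hsurj.range_eq] at this
  have hinf : (univ : Set Y).Infinite :=
    hpc.infinite_of_nontrivial Set.nontrivial_univ
  haveI : Infinite Y := Set.infinite_univ_iff.1 hinf
  let e := Infinite.natEmbedding Y
  let y : Fin (r + 1) → Y := fun i => e (i : ℕ)
  have hy : ∀ i j, i ≠ j → y i ≠ y j := fun i j hij h => hij (Fin.ext (e.injective h))
  have hδ : ∃ δ : ℝ, 0 < δ ∧ ∀ p : Fin (r + 1) × Fin (r + 1), p.1 ≠ p.2 →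
      3 * δ ≤ dist (y p.1) (y p.2) := by
    have h1 : ∀ᶠ δ in 𝓝[>] (0 : ℝ), ∀ p : Fin (r + 1) × Fin (r + 1), p.1 ≠ p.2 →
      3 * δ ≤ dist (y p.1) (y p.2) := by
      rw [Filter.eventually_all]
      intro p
      by_cases hp : p.1 = p.2
      · exact Filter.Eventually.of_forall fun δ h => absurd hp h
      · have hd : 0 < dist (y p.1) (y p.2) := dist_pos.2 (hy _ _ hp)
        filter_upwards [Ioo_mem_nhdsGT (show (0 : ℝ) < dist (y p.1) (y p.2) / 3 by positivity)]
          with δ hδ _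
        have := hδ.2
        linarith
    obtain ⟨δ, h2, h3⟩ := (h1.and self_mem_nhdsWithin).exists
    exact ⟨δ, h3, h2⟩
  obtain ⟨δ, hδ0, hδ⟩ := hδ
  have hU : ∀ i : Fin (r + 1), ∃ U ∈ TopologicalSpace.countableBasis X,
      U ⊆ π ⁻¹' Metric.ball (y i) δ := by
    intro i
    obtain ⟨x, hx⟩ := hsurj (y i)
    obtain ⟨U, hU1, _, hU2⟩ :=
      (TopologicalSpace.isBasis_countableBasis X).exists_subset_of_mem_open
        (show x ∈ π ⁻¹' Metric.ball (y i) δ by
          simp only [Set.mem_preimage, hx]; exact Metric.mem_ball_self hδ0)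
        (Metric.isOpen_ball.preimage hπ)
    exact ⟨U, hU1, hU2⟩
  choose U hUb hUs using hU
  obtain ⟨i, j, hij, U0, ⟨p, rfl⟩, V0, _, hU0, hV0, m, hm, h1, h2⟩ := hr U hUb
  refine pos_of_horseshoe f g π hcomm _ V0
    ⟨_, Metric.mem_closedBall_self (by positivity)⟩ m hm h1 h2 δ hδ0 ?_
  intro a ha b hb
  have ha' : dist (π a) (y i) < δ := hUs i (hU0 ha)
  have hb' : dist (π b) (y j) < δ := hUs j (hV0 hb)
  have hd := hδ (i, j) hij
  have ht : dist (y i) (y j) ≤ dist (y i) (π a) + dist (π a) (π b) + dist (π b) (y j) :=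
    dist_triangle4 _ _ _ _
  rw [dist_comm (y i) (π a)] at ht
  simp only at hd
  linarith

theorem isCPE_conj {X X' : Type} [TopologicalSpace X] [TopologicalSpace X'] (e : X ≃ₜ X')
    (f : X → X) (h : IsCPE f) : IsCPE (fun x' : X' => e (f (e.symm x'))) := by
  intro Y _ _ g π' hg hπ hs hc hn
  refine h Y g (π' ∘ e) hg (hπ.comp e.continuous) (hs.comp e.surjective) ?_ hn
  intro x
  have := hc (e x)
  simpa using this

theorem HP_conj {X X' : Type} [TopologicalSpace X] [TopologicalSpace X'] (e : X ≃ₜ X')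
    (f : X → X) (W : Set X') (h : HP (fun x' : X' => e (f (e.symm x'))) W) :
    HP f (e.symm '' W) := by
  obtain ⟨hW, hH⟩ := h
  have hiter : ∀ (m : ℕ) (x : X), (fun x' : X' => e (f (e.symm x')))^[m] (e x) = e (f^[m] x) := by
    intro m
    induction m with
    | zero => intro x; rfl
    | succ m ih =>
      intro x
      rw [Function.iterate_succ_apply, Function.iterate_succ_apply]
      simp only [e.symm_apply_apply]
      exact ih (f x)
  have himg : ∀ (m : ℕ) (U : Set X),
      (fun x' : X' => e (f (e.symm x')))^[m] '' (e '' U) = e '' (f^[m] '' U) := by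
    intro m U
    rw [image_image, image_image]
    exact image_congr fun x _ => hiter m x
  refine ⟨e.symm.isOpenMap W hW, ?_⟩
  intro U V hU hV hUi hVi hUW hVW
  have hsub : ∀ U : Set X, U ⊆ e.symm '' W → e '' U ⊆ W := by
    intro U hU
    rintro _ ⟨x, hx, rfl⟩
    obtain ⟨w, hw, hwx⟩ := hU hx
    rw [← hwx, e.apply_symm_apply]
    exact hw
  obtain ⟨m, hm, h1, h2⟩ := hH (e '' U) (e '' V) (hU.image e.continuous) (hV.image e.continuous)
    (by rw [← e.image_interior]; exact hUi.image e) (by rw [← e.image_interior]; exact hVi.image e)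
    (hsub U hUW) (hsub V hVW)
  rw [himg, ← image_union, image_subset_image_iff e.injective] at h1 h2
  exact ⟨m, hm, h1, h2⟩

end Pool.Agent.Helper222.CPE
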