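import Mathlib
import Pool.Agent.Helper222.CPE.Defs

open Set Filter Topology

namespace Pool.Agent.Helper222.CPE

namespace X_block_covers

theorem per_left (G : ℝ → ℝ) (hG : Continuous G) (u v : ℝ)
    (hmap : MapsTo G (Icc u v) (Icc u v))
    (hstar : ∀ m : ℕ, 1 ≤ m → ∀ c e : ℝ, u ≤ c → c < e → e ≤ v →
      ∃ n : ℕ, 1 ≤ n ∧ m ∣ n ∧ Ioo u v ⊆ ⋃ i : ℕ, G^[n * i] '' Ioo c e)
    (a' : ℝ) (ha1 : u < a') (ha2 : a' < v) :
    ∃ (z : ℝ) (k : ℕ), u < z ∧ z < a' ∧ 1 ≤ k ∧ G^[k] z = z := by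
  obtain ⟨n, hn, -, hcov⟩ := hstar 1 le_rfl ((u + a') / 2) a' (by linarith) (by linarith) ha2.le
  have hp : (u + (u + a') / 2) / 2 ∈ Ioo u v := ⟨by linarith, by linarith⟩
  obtain ⟨i, x0, hx0, hx0e⟩ := mem_iUnion.1 (hcov hp)
  obtain ⟨k, hk⟩ : ∃ k, k = n * i := ⟨_, rfl⟩
  rw [← hk] at hx0e
  have hk1 : 1 ≤ k := by
    rcases Nat.eq_zero_or_pos k with h | h
    · exfalso
      rw [h] at hx0e
      have h1 : x0 = (u + (u + a') / 2) / 2 := hx0e
      have h2 := hx0.1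
      linarith
    · exact h
  by_contra hno
  push Not at hno
  have hx0' : x0 ∈ Ioo u a' := ⟨by linarith [hx0.1], hx0.2⟩
  have hGk : Continuous G^[k] := hG.iterate k
  have hlt : ∀ x ∈ Ioo u a', G^[k] x < x := by
    intro x hx
    by_contra hge
    push Not at hge
    have hcont : Continuous (fun y => G^[k] y - y) := hGk.sub continuous_id
    have h1 : (0 : ℝ) ∈ (fun y => G^[k] y - y) '' Ioo u a' := by
      refine (isPreconnected_Ioo.image _ hcont.continuousOn).Icc_subset ⟨x0, hx0', rfl⟩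
        ⟨x, hx, rfl⟩ ⟨?_, ?_⟩
      · beta_reduce
        rw [hx0e]
        linarith [hx0.1]
      · beta_reduce
        linarith
    obtain ⟨y, hy, hy0⟩ := h1
    exact hno y k hy.1 hy.2 hk1 (by
      have h2 : G^[k] y - y = 0 := hy0
      linarith)
  have hle : ∀ x ∈ Icc u a', G^[k] x ≤ x := by
    have h1 : IsClosed {x | G^[k] x ≤ x} := isClosed_le hGk continuous_id
    have h2 : closure (Ioo u a') ⊆ {x | G^[k] x ≤ x} :=
      closure_minimal (fun x hx => (hlt x hx).le) h1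
    rw [closure_Ioo ha1.ne] at h2
    exact h2
  have hmapk : MapsTo G^[k] (Icc u v) (Icc u v) := hmap.iterate k
  have hself : MapsTo G^[k] (Icc u x0) (Icc u x0) := by
    intro x hx
    refine ⟨(hmapk ⟨hx.1, by linarith [hx.2, hx0.2]⟩).1, ?_⟩
    exact le_trans (hle x ⟨hx.1, by linarith [hx.2, hx0.2]⟩) hx.2
  obtain ⟨n', hn', hdvd, hcov'⟩ := hstar k hk1 u x0 le_rfl hx0'.1 (by linarith [hx0.2])
  have hp' : (x0 + v) / 2 ∈ Ioo u v := ⟨by linarith [hx0'.1, hx0'.2], by linarith [hx0'.2]⟩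
  obtain ⟨i', x, hx, hxe⟩ := mem_iUnion.1 (hcov' hp')
  obtain ⟨t, rfl⟩ := hdvd
  have h3 : G^[k * t * i'] x ∈ Icc u x0 := by
    rw [mul_assoc, Function.iterate_mul]
    exact hself.iterate (t * i') (Ioo_subset_Icc_self hx)
  rw [hxe] at h3
  linarith [h3.2, hx0'.2]

theorem iter_neg (G : ℝ → ℝ) (k : ℕ) (x : ℝ) : (fun x => -G (-x))^[k] x = -G^[k] (-x) := by
  induction k generalizing x with
  | zero => simp
  | succ k ih =>
    rw [Function.iterate_succ_apply, Function.iterate_succ_apply, ih, neg_neg]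

theorem per_right (G : ℝ → ℝ) (hG : Continuous G) (u v : ℝ)
    (hmap : MapsTo G (Icc u v) (Icc u v))
    (hstar : ∀ m : ℕ, 1 ≤ m → ∀ c e : ℝ, u ≤ c → c < e → e ≤ v →
      ∃ n : ℕ, 1 ≤ n ∧ m ∣ n ∧ Ioo u v ⊆ ⋃ i : ℕ, G^[n * i] '' Ioo c e)
    (b' : ℝ) (hb1 : u < b') (hb2 : b' < v) :
    ∃ (z : ℝ) (k : ℕ), b' < z ∧ z < v ∧ 1 ≤ k ∧ G^[k] z = z := by
  obtain ⟨z, k, h1, h2, h3, h4⟩ := per_left (fun x => -G (-x)) (hG.comp continuous_neg).neg (-v) (-u)
    (by
      intro x hx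
      have := hmap (x := -x) ⟨by linarith [hx.2], by linarith [hx.1]⟩
      exact ⟨by linarith [this.2], by linarith [this.1]⟩)
    (by
      intro m hm c e hc hce he
      obtain ⟨n, hn1, hn2, hn3⟩ := hstar m hm (-e) (-c) (by linarith) (by linarith) (by linarith)
      refine ⟨n, hn1, hn2, ?_⟩
      intro y hy
      obtain ⟨i, x, hx, hxe⟩ := mem_iUnion.1 (hn3 (show -y ∈ Ioo u v from
        ⟨by linarith [hy.2], by linarith [hy.1]⟩))
      rw [mem_iUnion]
      refine ⟨i, -x, ⟨by linarith [hx.2], by linarith [hx.1]⟩, ?_⟩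
      rw [iter_neg, neg_neg, hxe, neg_neg])
    (-b') (by linarith) (by linarith)
  rw [iter_neg] at h4
  refine ⟨-z, k, by linarith, by linarith, h3, by linarith⟩


theorem block_covers (G : ℝ → ℝ) (hG : Continuous G) (u v : ℝ) (huv : u < v)
    (hmap : MapsTo G (Icc u v) (Icc u v))
    (hstar : ∀ m : ℕ, 1 ≤ m → ∀ c e : ℝ, u ≤ c → c < e → e ≤ v →
      ∃ n : ℕ, 1 ≤ n ∧ m ∣ n ∧ Ioo u v ⊆ ⋃ i : ℕ, G^[n * i] '' Ioo c e) :
    ∀ c e a b : ℝ, u ≤ c → c < e → e ≤ v → u < a → a ≤ b → b < v →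
      ∃ m : ℕ, 1 ≤ m ∧ Icc a b ⊆ G^[m] '' Ioo c e := by
  intro c e a b hc hce he ha hab hb
  obtain ⟨z1, k1, hz1, hz1a, hk1, hp1⟩ := per_left G hG u v hmap hstar a ha (by linarith)
  obtain ⟨z2, k2, hz2, hz2v, hk2, hp2⟩ := per_right G hG u v hmap hstar b (by linarith) hb
  obtain ⟨n, hn1, hn2, hn3⟩ := hstar (k1 * k2) (Nat.mul_pos hk1 hk2) c e hc hce he
  have hz1n : ∀ j, G^[n * j] z1 = z1 := fun j =>
    (Function.IsPeriodicPt.trans_dvd (f := G) (m := k1) hp1
      (((Dvd.intro _ rfl).trans hn2).mul_right j))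
  have hz2n : ∀ j, G^[n * j] z2 = z2 := fun j =>
    (Function.IsPeriodicPt.trans_dvd (f := G) (m := k2) hp2
      (((Dvd.intro_left _ rfl).trans hn2).mul_right j))
  obtain ⟨i1, x1, hx1, hx1e⟩ := mem_iUnion.1 (hn3 (show z1 ∈ Ioo u v from ⟨hz1, by linarith⟩))
  obtain ⟨i2, x2, hx2, hx2e⟩ := mem_iUnion.1 (hn3 (show z2 ∈ Ioo u v from ⟨by linarith, hz2v⟩))
  refine ⟨n * (i1 + i2 + 1), Nat.mul_pos hn1 (by omega), ?_⟩
  have h1 : z1 ∈ G^[n * (i1 + i2 + 1)] '' Ioo c e := by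
    refine ⟨x1, hx1, ?_⟩
    have : n * (i1 + i2 + 1) = n * (i2 + 1) + n * i1 := by ring
    rw [this, Function.iterate_add_apply, hx1e, hz1n]
  have h2 : z2 ∈ G^[n * (i1 + i2 + 1)] '' Ioo c e := by
    refine ⟨x2, hx2, ?_⟩
    have : n * (i1 + i2 + 1) = n * (i1 + 1) + n * i2 := by ring
    rw [this, Function.iterate_add_apply, hx2e, hz2n]
  refine subset_trans ?_ ((isPreconnected_Ioo.image _
    (hG.iterate (n * (i1 + i2 + 1))).continuousOn).Icc_subset h1 h2)
  exact Icc_subset_Icc hz1a.le hz2.le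

end X_block_covers

alias block_covers := X_block_covers.block_covers

theorem star_of_block (G : ℝ → ℝ) (hG : Continuous G) (u v : ℝ) (hb : IsBlock G u v)
    (hnw : NWI G u v) :
    ∀ m : ℕ, 1 ≤ m → ∀ c e : ℝ, u ≤ c → c < e → e ≤ v →
      ∃ n : ℕ, 1 ≤ n ∧ m ∣ n ∧ Ioo u v ⊆ ⋃ i : ℕ, G^[n * i] '' Ioo c e := by
  intro m hm c e huc hce hev
  obtain ⟨j, hj, y, ⟨x, hxU, hxy⟩, hyU⟩ := hnw m hm c e huc hce hev
  have hn1 : 1 ≤ m * j := Nat.mul_pos hm hj
  refine ⟨m * j, hn1, dvd_mul_right m j, ?_⟩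
  set n := m * j with hn
  set I : Set ℝ := ⋃ i : ℕ, G^[n * i] '' Ioo c e with hI
  have hpre : IsPreconnected I := by
    apply IsPreconnected.iUnion_of_chain
    · intro i
      exact isPreconnected_Ioo.image _ (hG.iterate _).continuousOn
    · intro i
      refine ⟨G^[n * i] y, ⟨y, hyU, rfl⟩, x, hxU, ?_⟩
      have h1 : n * Order.succ i = n * i + n := by
        rw [Order.succ_eq_add_one]; ring
      rw [h1, Function.iterate_add_apply, hxy]
  have hUI : Ioo c e ⊆ I := by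
    intro z hz
    rw [hI, mem_iUnion]
    exact ⟨0, z, hz, by simp⟩
  have hIuv : I ⊆ Icc u v := by
    intro z hz
    rw [hI, mem_iUnion] at hz
    obtain ⟨i, w, hw, rfl⟩ := hz
    exact hb.2.1.iterate (n * i) ⟨huc.trans hw.1.le, hw.2.le.trans hev⟩
  have hcuv : closure I ⊆ Icc u v := closure_minimal hIuv isClosed_Icc
  have hmaps : MapsTo G^[n] I I := by
    intro z hz
    rw [hI, mem_iUnion] at hz ⊢
    obtain ⟨i, w, hw, rfl⟩ := hz
    refine ⟨i + 1, w, hw, ?_⟩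
    have h1 : n * (i + 1) = n + n * i := by ring
    rw [h1, Function.iterate_add_apply]
  have hne : I.Nonempty := ⟨y, hUI hyU⟩
  have hcomp : IsCompact (closure I) := isCompact_Icc.of_isClosed_subset isClosed_closure hcuv
  have hconn : IsConnected (closure I) := ⟨hne.closure, hpre.closure⟩
  have hcl := eq_Icc_of_connected_compact hconn hcomp
  set a := sInf (closure I) with ha
  set b := sSup (closure I) with hb'
  have hmc : MapsTo G^[n] (closure I) (closure I) := hmaps.closure (hG.iterate n)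
  have hsub : Ioo c e ⊆ Icc a b := hUI.trans (subset_closure.trans hcl.le)
  have hab : a < b := by
    have h1 : c + (e - c) / 3 ∈ Ioo c e := ⟨by linarith, by linarith⟩
    have h2 : c + 2 * (e - c) / 3 ∈ Ioo c e := ⟨by linarith, by linarith⟩
    have h3 := (hsub h1).1
    have h4 := (hsub h2).2
    linarith
  have haI : a ∈ closure I := by rw [hcl]; exact left_mem_Icc.2 hab.le
  have hbI : b ∈ closure I := by rw [hcl]; exact right_mem_Icc.2 hab.le
  rw [hcl] at hmc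
  obtain ⟨hau, hbv⟩ := hb.2.2 n hn1 a b (hcuv haI).1 hab (hcuv hbI).2 hmc
  intro z hz
  have hoc : I.OrdConnected := hpre.ordConnected
  obtain ⟨p, hp1, hp2⟩ := mem_closure_iff.1 haI (Iio z) isOpen_Iio (by rw [hau]; exact hz.1)
  obtain ⟨q, hq1, hq2⟩ := mem_closure_iff.1 hbI (Ioi z) isOpen_Ioi (by rw [hbv]; exact hz.2)
  exact hoc.out hp2 hq2 ⟨le_of_lt hp1, le_of_lt hq1⟩

namespace X_typeI_cut

/-- cut points -/
def Cut833 (G : ℝ → ℝ) (n : ℕ) (l r c : ℝ) : Prop :=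
  l ≤ c ∧ c ≤ r ∧ (∀ x, l ≤ x → x ≤ c → l ≤ G^[n] x ∧ G^[n] x ≤ c) ∧
    ∀ x, c ≤ x → x ≤ r → c ≤ G^[n] x ∧ G^[n] x ≤ r

theorem cutA833 (G : ℝ → ℝ) (hG : Continuous G) (l r : ℝ)
    (hmap : MapsTo G (Icc l r) (Icc l r)) (hl : G l = l) (hr : G r = r)
    (hlt : LtI G l r) (n : ℕ) (hn : 1 ≤ n) (c : ℝ) (hc : Cut833 G n l r c) :
    (∀ x, l ≤ x → x ≤ c → G x ≤ G c) ∧ ∀ x, c ≤ x → x ≤ r → G c ≤ G x := by
  obtain ⟨hlc, hcr, h1, h2⟩ := hc
  obtain ⟨k, rfl⟩ : ∃ k, n = k + 1 := ⟨n - 1, by omega⟩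
  have hGc := hmap ⟨hlc, hcr⟩
  constructor
  · intro x hx1 hx2
    by_contra hcon
    push Not at hcon
    have hGx := hmap ⟨hx1, hx2.trans hcr⟩
    obtain ⟨y, hy, hne⟩ := hlt k (G c) (G x) c hGc.1 hcon hGx.2
    apply hne
    obtain ⟨x1, hx1', hy1⟩ := intermediate_value_Icc' hx2 hG.continuousOn
      (show y ∈ Icc (G c) (G x) from ⟨hy.1.le, hy.2.le⟩)
    obtain ⟨x2, hx2', hy2⟩ := intermediate_value_Icc hcr hG.continuousOn
      (show y ∈ Icc (G c) (G r) from ⟨hy.1.le, by rw [hr]; exact hy.2.le.trans hGx.2⟩)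
    have e1 := h1 x1 (hx1.trans hx1'.1) hx1'.2
    have e2 := h2 x2 hx2'.1 hx2'.2
    rw [Function.iterate_succ_apply, hy1] at e1
    rw [Function.iterate_succ_apply, hy2] at e2
    exact le_antisymm e1.2 e2.1
  · intro x hx1 hx2
    by_contra hcon
    push Not at hcon
    have hGx := hmap ⟨hlc.trans hx1, hx2⟩
    obtain ⟨y, hy, hne⟩ := hlt k (G x) (G c) c hGx.1 hcon hGc.2
    apply hne
    obtain ⟨x1, hx1', hy1⟩ := intermediate_value_Icc' hx1 hG.continuousOn
      (show y ∈ Icc (G x) (G c) from ⟨hy.1.le, hy.2.le⟩)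
    obtain ⟨x2, hx2', hy2⟩ := intermediate_value_Icc hlc hG.continuousOn
      (show y ∈ Icc (G l) (G c) from ⟨by rw [hl]; exact hGx.1.trans hy.1.le, hy.2.le⟩)
    have e1 := h2 x1 hx1'.1 (hx1'.2.trans hx2)
    have e2 := h1 x2 hx2'.1 hx2'.2
    rw [Function.iterate_succ_apply, hy1] at e1
    rw [Function.iterate_succ_apply, hy2] at e2
    exact le_antisymm e2.2 e1.1

theorem cutB833 (G : ℝ → ℝ) (hG : Continuous G) (l r : ℝ)
    (hmap : MapsTo G (Icc l r) (Icc l r)) (hl : G l = l) (hr : G r = r)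
    (hlt : LtI G l r) (n : ℕ) (hn : 1 ≤ n) (c : ℝ) (hc : Cut833 G n l r c) :
    Cut833 G n l r (G c) := by
  obtain ⟨a1, a2⟩ := cutA833 G hG l r hmap hl hr hlt n hn c hc
  obtain ⟨hlc, hcr, h1, h2⟩ := hc
  have hGc := hmap ⟨hlc, hcr⟩
  refine ⟨hGc.1, hGc.2, ?_, ?_⟩
  · intro y hy1 hy2
    obtain ⟨x, hx, hy⟩ := intermediate_value_Icc hlc hG.continuousOn
      (show y ∈ Icc (G l) (G c) from ⟨by rw [hl]; exact hy1, hy2⟩)
    have e1 := h1 x hx.1 hx.2
    have e2 : G^[n] y = G (G^[n] x) := by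
      rw [← hy, ← Function.iterate_succ_apply, Function.iterate_succ_apply']
    rw [e2]
    exact ⟨(hmap ⟨e1.1, e1.2.trans hcr⟩).1, a1 _ e1.1 e1.2⟩
  · intro y hy1 hy2
    obtain ⟨x, hx, hy⟩ := intermediate_value_Icc hcr hG.continuousOn
      (show y ∈ Icc (G c) (G r) from ⟨hy1, by rw [hr]; exact hy2⟩)
    have e1 := h2 x hx.1 hx.2
    have e2 : G^[n] y = G (G^[n] x) := by
      rw [← hy, ← Function.iterate_succ_apply, Function.iterate_succ_apply']
    rw [e2]
    exact ⟨a2 _ e1.1 e1.2, (hmap ⟨hlc.trans e1.1, e1.2⟩).2⟩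

theorem cutFix833 (G : ℝ → ℝ) (hG : Continuous G) (l r : ℝ)
    (hmap : MapsTo G (Icc l r) (Icc l r)) (hl : G l = l) (hr : G r = r)
    (hlt : LtI G l r) (n : ℕ) (hn : 1 ≤ n) (c : ℝ) (hc : Cut833 G n l r c) : G c = c := by
  have hcut : ∀ i, Cut833 G n l r (G^[i] c) := by
    intro i
    induction i with
    | zero => exact hc
    | succ i ih =>
      rw [Function.iterate_succ_apply']
      exact cutB833 G hG l r hmap hl hr hlt n hn _ ih
  have hper : G^[n] c = c := le_antisymm (hc.2.2.1 c hc.1 le_rfl).2 (hc.2.2.2 c le_rfl hc.2.1).1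
  rcases lt_trichotomy c (G c) with h | h | h
  · exfalso
    have hmono : ∀ i, G^[i] c ≤ G^[i + 1] c := by
      intro i
      induction i with
      | zero => exact h.le
      | succ i ih =>
        rw [Function.iterate_succ_apply' G (i + 1), Function.iterate_succ_apply' G i]
        have h3 := (cutA833 G hG l r hmap hl hr hlt n hn _ (hcut (i + 1))).1 (G^[i] c)
          (hcut i).1 ih
        rw [Function.iterate_succ_apply' G i] at h3
        exact h3
    have hge : ∀ i, 1 ≤ i → G c ≤ G^[i] c := by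
      intro i hi
      induction i, hi using Nat.le_induction with
      | base => exact le_rfl
      | succ i _ ih => exact ih.trans (hmono i)
    have := hge n hn
    rw [hper] at this
    linarith
  · exact h.symm
  · exfalso
    have hmono : ∀ i, G^[i + 1] c ≤ G^[i] c := by
      intro i
      induction i with
      | zero => exact h.le
      | succ i ih =>
        rw [Function.iterate_succ_apply' G (i + 1), Function.iterate_succ_apply' G i]
        have h3 := (cutA833 G hG l r hmap hl hr hlt n hn _ (hcut i)).1 (G^[i + 1] c)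
          (hcut (i + 1)).1 ih
        rw [Function.iterate_succ_apply' G i] at h3
        exact h3
    have hge : ∀ i, 1 ≤ i → G^[i] c ≤ G c := by
      intro i hi
      induction i, hi using Nat.le_induction with
      | base => exact le_rfl
      | succ i _ ih => exact (hmono i).trans ih
    have := hge n hn
    rw [hper] at this
    linarith


theorem typeI_cut (G : ℝ → ℝ) (hG : Continuous G) (l r : ℝ) (hlr : l < r)
    (hmap : MapsTo G (Icc l r) (Icc l r)) (hl : G l = l) (hr : G r = r)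
    (hnw : NWI G l r) (hlt : LtI G l r) (n : ℕ) (hn : 1 ≤ n) (a b : ℝ) (ha : l ≤ a)
    (hab : a < b) (hb : b ≤ r) (hper : MapsTo G^[n] (Icc a b) (Icc a b)) :
    G a = a ∧ G b = b ∧ MapsTo G (Icc a b) (Icc a b) ∧ MapsTo G (Icc l a) (Icc l a) ∧
      MapsTo G (Icc b r) (Icc b r) := by
  have hg : Continuous G^[n] := hG.iterate n
  have hgmap : MapsTo G^[n] (Icc l r) (Icc l r) := hmap.iterate n
  have hgl : G^[n] l = l := Function.iterate_fixed hl n
  have hgr : G^[n] r = r := Function.iterate_fixed hr n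
  have hpow : ∀ (j : ℕ) (z : ℝ), 1 ≤ j → G^[n] z ∈ Icc a b → G^[n * j] z ∈ Icc a b := by
    intro j z hj hz
    obtain ⟨i, rfl⟩ : ∃ i, j = i + 1 := ⟨j - 1, by omega⟩
    rw [Function.iterate_mul, Function.iterate_succ_apply]
    exact (hper.iterate i) hz
  -- step 1a
  have h1a : ∀ x, l ≤ x → x < a → ¬ (a < G^[n] x ∧ G^[n] x < b) := by
    rintro x hx1 hx2 hx3
    have hopen : IsOpen (G^[n] ⁻¹' Ioo a b) := isOpen_Ioo.preimage hg
    obtain ⟨ε, hε, hball⟩ := Metric.isOpen_iff.1 hopen x hx3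
    obtain ⟨j, hj, w, ⟨z, hz, hzw⟩, hw⟩ := hnw n hn x (min (x + ε) a) hx1
      (lt_min (by linarith) hx2) ((min_le_right _ _).trans (hab.le.trans hb))
    have h1 : z ∈ Metric.ball x ε := by
      rw [Metric.mem_ball, Real.dist_eq, abs_lt]
      have h2 := hz.1
      have h3 := lt_of_lt_of_le hz.2 (min_le_left _ _)
      constructor <;> linarith
    have h2 := hball h1
    have h3 := hpow j z hj ⟨h2.1.le, h2.2.le⟩
    rw [hzw] at h3
    have h4 := lt_of_lt_of_le hw.2 (min_le_right _ _)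
    linarith [h3.1]
  have h1b : ∀ x, b < x → x ≤ r → ¬ (a < G^[n] x ∧ G^[n] x < b) := by
    rintro x hx1 hx2 hx3
    have hopen : IsOpen (G^[n] ⁻¹' Ioo a b) := isOpen_Ioo.preimage hg
    obtain ⟨ε, hε, hball⟩ := Metric.isOpen_iff.1 hopen x hx3
    obtain ⟨j, hj, w, ⟨z, hz, hzw⟩, hw⟩ := hnw n hn (max (x - ε) b) x
      ((ha.trans hab.le).trans (le_max_right _ _)) (max_lt (by linarith) hx1) hx2
    have h1 : z ∈ Metric.ball x ε := by
      rw [Metric.mem_ball, Real.dist_eq, abs_lt]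
      have h2 := hz.2
      have h3 := lt_of_le_of_lt (le_max_left _ _) hz.1
      constructor <;> linarith
    have h2 := hball h1
    have h3 := hpow j z hj ⟨h2.1.le, h2.2.le⟩
    rw [hzw] at h3
    have h4 := lt_of_le_of_lt (le_max_right _ _) hw.1
    linarith [h3.2]
  -- step 1b
  have h2a : ∀ x, l ≤ x → x ≤ a → G^[n] x ≤ a := by
    intro x hx1 hx2
    by_contra hcon
    push Not at hcon
    obtain ⟨v, hv⟩ : ∃ v, v = (a + min (G^[n] x) b) / 2 := ⟨_, rfl⟩
    have hm1 : a < min (G^[n] x) b := lt_min hcon hab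
    have hm2 := min_le_left (G^[n] x) b
    have hm3 := min_le_right (G^[n] x) b
    have v1 : a < v := by rw [hv]; linarith
    have v2 : v < b := by rw [hv]; linarith
    have v3 : v < G^[n] x := by rw [hv]; linarith
    obtain ⟨x', hx', hxv⟩ := intermediate_value_Icc hx1 hg.continuousOn
      (show v ∈ Icc (G^[n] l) (G^[n] x) from ⟨by rw [hgl]; linarith, v3.le⟩)
    have hne : x' ≠ x := by
      rintro rfl
      linarith
    have hlt' : x' < x := lt_of_le_of_ne hx'.2 hne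
    exact h1a x' hx'.1 (lt_of_lt_of_le hlt' hx2) (by rw [hxv]; exact ⟨v1, v2⟩)
  have h2b : ∀ x, b ≤ x → x ≤ r → b ≤ G^[n] x := by
    intro x hx1 hx2
    by_contra hcon
    push Not at hcon
    obtain ⟨v, hv⟩ : ∃ v, v = (b + max (G^[n] x) a) / 2 := ⟨_, rfl⟩
    have hm1 : max (G^[n] x) a < b := max_lt hcon hab
    have hm2 := le_max_left (G^[n] x) a
    have hm3 := le_max_right (G^[n] x) a
    have v1 : a < v := by rw [hv]; linarith
    have v2 : v < b := by rw [hv]; linarith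
    have v3 : G^[n] x < v := by rw [hv]; linarith
    obtain ⟨x', hx', hxv⟩ := intermediate_value_Icc hx2 hg.continuousOn
      (show v ∈ Icc (G^[n] x) (G^[n] r) from ⟨v3.le, by rw [hgr]; linarith⟩)
    have hne : x' ≠ x := by
      rintro rfl
      linarith
    have hlt' : x < x' := lt_of_le_of_ne hx'.1 (Ne.symm hne)
    exact h1b x' (lt_of_le_of_lt hx1 hlt') hx'.2 (by rw [hxv]; exact ⟨v1, v2⟩)
  have hcuta : Cut833 G n l r a := by
    refine ⟨ha, hab.le.trans hb, ?_, ?_⟩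
    · intro x hx1 hx2
      exact ⟨(hgmap ⟨hx1, by linarith⟩).1, h2a x hx1 hx2⟩
    · intro x hx1 hx2
      refine ⟨?_, (hgmap ⟨by linarith, hx2⟩).2⟩
      rcases le_total x b with h | h
      · exact (hper ⟨hx1, h⟩).1
      · exact hab.le.trans (h2b x h hx2)
  have hcutb : Cut833 G n l r b := by
    refine ⟨ha.trans hab.le, hb, ?_, ?_⟩
    · intro x hx1 hx2
      refine ⟨(hgmap ⟨hx1, by linarith⟩).1, ?_⟩
      rcases le_total x a with h | h
      · exact (h2a x hx1 h).trans hab.le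
      · exact (hper ⟨h, hx2⟩).2
    · intro x hx1 hx2
      exact ⟨h2b x hx1 hx2, (hgmap ⟨by linarith, hx2⟩).2⟩
  have hGa := cutFix833 G hG l r hmap hl hr hlt n hn a hcuta
  have hGb := cutFix833 G hG l r hmap hl hr hlt n hn b hcutb
  have hAa := cutA833 G hG l r hmap hl hr hlt n hn a hcuta
  have hAb := cutA833 G hG l r hmap hl hr hlt n hn b hcutb
  rw [hGa] at hAa
  rw [hGb] at hAb
  refine ⟨hGa, hGb, ?_, ?_, ?_⟩
  · intro x hx
    exact ⟨hAa.2 x hx.1 (hx.2.trans hb), hAb.1 x (ha.trans hx.1) hx.2⟩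
  · intro x hx
    exact ⟨(hmap ⟨hx.1, by linarith [hx.2]⟩).1, hAa.1 x hx.1 hx.2⟩
  · intro x hx
    exact ⟨hAb.2 x hx.1 hx.2, (hmap ⟨by linarith [hx.1], hx.2⟩).2⟩

end X_typeI_cut

alias typeI_cut := X_typeI_cut.typeI_cut

namespace X_typeII_block

theorem typeII_block_fwd (G : ℝ → ℝ) (n j : ℕ) (hj : 1 ≤ j) (V : Set ℝ) (a b : ℝ)
    (hmaps : MapsTo G^[n] (Icc a b) (Icc a b)) (hV : ∀ y ∈ V, G^[n] y ∈ Icc a b) :
    ∀ y ∈ V, G^[n * j] y ∈ Icc a b := by
  intro y hy
  obtain ⟨k, rfl⟩ : ∃ k, j = k + 1 := ⟨j - 1, by omega⟩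
  rw [Function.iterate_mul, Function.iterate_succ_apply]
  exact hmaps.iterate k (hV y hy)

theorem typeII_block_one (G : ℝ → ℝ) (hG : Continuous G) (l r : ℝ) (hlr : l < r)
    (hmap : MapsTo G (Icc l r) (Icc l r))
    (hl : G l = l) (hr : G r = l)
    (hnw : NWI G l r) (hlt : LtI G l r) : IsBlock G l r := by
  refine ⟨hlr, hmap, ?_⟩
  intro n hn a b hla hab hbr hmaps
  have hgl : G^[n] l = l := Function.iterate_fixed hl n
  have hgr : G^[n] r = l := by
    obtain ⟨k, rfl⟩ : ∃ k, n = k + 1 := ⟨n - 1, by omega⟩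
    rw [Function.iterate_succ_apply, hr]
    exact Function.iterate_fixed hl k
  have hgc : Continuous G^[n] := hG.iterate n
  have hgm : MapsTo G^[n] (Icc l r) (Icc l r) := hmap.iterate n
  -- step 1
  have hno : ∀ V : Set ℝ, ∀ c e : ℝ, l ≤ c → c < e → e ≤ r → V = Ioo c e →
      ∀ a' b' : ℝ, MapsTo G^[n] (Icc a' b') (Icc a' b') → (∀ y ∈ V, G^[n] y ∈ Icc a' b') →
      (∀ y ∈ V, y ∉ Icc a' b') → False := by
    intro V c e hc hce he hV a' b' hm h1 h2
    obtain ⟨j, hj, z, ⟨x, hx, hxz⟩, hz⟩ := hnw n hn c e hc hce he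
    rw [← hV] at hx hz
    exact h2 z hz (hxz ▸ typeII_block_fwd G n j hj V a' b' hm h1 x hx)
  have hst1 : ∀ x, l ≤ x → x < a → G^[n] x ∉ Ioo a b := by
    intro x hlx hxa hx
    have hopen : IsOpen (G^[n] ⁻¹' Ioo a b) := isOpen_Ioo.preimage hgc
    obtain ⟨δ, hδ, hball⟩ := Metric.isOpen_iff.mp hopen x hx
    have hlt1 : x < min a (x + δ) := lt_min hxa (by linarith)
    refine hno (Ioo x (min a (x + δ))) x (min a (x + δ)) hlx hlt1
      ((min_le_left _ _).trans (hab.le.trans hbr)) rfl a b hmaps ?_ ?_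
    · intro y hy
      have : y ∈ Metric.ball x δ := by
        rw [Metric.mem_ball, Real.dist_eq, abs_lt]
        have := hy.2.trans_le (min_le_right _ _)
        constructor <;> linarith [hy.1]
      exact Ioo_subset_Icc_self (hball this)
    · intro y hy hy2
      have := hy.2.trans_le (min_le_left _ _)
      linarith [hy2.1]
  have hst2 : ∀ x, x ≤ r → b < x → G^[n] x ∉ Ioo a b := by
    intro x hxr hbx hx
    have hopen : IsOpen (G^[n] ⁻¹' Ioo a b) := isOpen_Ioo.preimage hgc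
    obtain ⟨δ, hδ, hball⟩ := Metric.isOpen_iff.mp hopen x hx
    have hlt1 : max b (x - δ) < x := max_lt hbx (by linarith)
    refine hno (Ioo (max b (x - δ)) x) (max b (x - δ)) x ((hla.trans hab.le).trans (le_max_left _ _)) hlt1
      hxr rfl a b hmaps ?_ ?_
    · intro y hy
      have : y ∈ Metric.ball x δ := by
        rw [Metric.mem_ball, Real.dist_eq, abs_lt]
        have := (le_max_right b (x - δ)).trans_lt hy.1
        constructor <;> linarith [hy.2]
      exact Ioo_subset_Icc_self (hball this)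
    · intro y hy hy2
      have := (le_max_left b (x - δ)).trans_lt hy.1
      linarith [hy2.2]
  have hmid1 : a < (a + b) / 2 := by linarith
  have hmid2 : (a + b) / 2 < b := by linarith
  -- values on (b, r]
  have hval2 : ∀ y, b < y → y ≤ r → G^[n] y ≤ a := by
    intro y hby hyr
    by_contra hc
    push Not at hc
    have hyb : b ≤ G^[n] y := by
      by_contra h
      push Not at h
      exact hst2 y hyr hby ⟨hc, h⟩
    have := intermediate_value_Icc' hyr hgc.continuousOn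
    rw [hgr] at this
    obtain ⟨z, hz, hz2⟩ := this (show (a + b) / 2 ∈ Icc l (G^[n] y) from ⟨by linarith, by linarith⟩)
    exact hst2 z hz.2 (hby.trans_le hz.1) (by rw [hz2]; exact ⟨hmid1, hmid2⟩)
  have hval1 : ∀ y, l ≤ y → y < a → G^[n] y ≤ a := by
    intro y hly hya
    by_contra hc
    push Not at hc
    have hyb : b ≤ G^[n] y := by
      by_contra h
      push Not at h
      exact hst1 y hly hya ⟨hc, h⟩
    have := intermediate_value_Icc hly hgc.continuousOn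
    rw [hgl] at this
    obtain ⟨z, hz, hz2⟩ := this (show (a + b) / 2 ∈ Icc l (G^[n] y) from ⟨by linarith, by linarith⟩)
    exact hst1 z hz.1 (hz.2.trans_lt hya) (by rw [hz2]; exact ⟨hmid1, hmid2⟩)
  have hb : b = r := by
    by_contra hbne
    have hbr' : b < r := lt_of_le_of_ne hbr hbne
    rcases eq_or_lt_of_le hla with h | h
    · obtain ⟨x, hx, hxne⟩ := hlt n b r l (hla.trans hab.le) hbr' le_rfl
      apply hxne
      have h1 := hval2 x hx.1 hx.2.le
      have h2 := (hgm ⟨hla.trans (hab.le.trans hx.1.le), hx.2.le⟩).1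
      rw [← h] at h1
      exact le_antisymm h1 h2
    · have hcl : ∀ y ∈ Icc l a, G^[n] y ∈ Icc l a := by
        have hclosed : IsClosed {y | G^[n] y ≤ a} := isClosed_le hgc continuous_const
        have hsub : Ico l a ⊆ {y | G^[n] y ≤ a} := fun y hy => hval1 y hy.1 hy.2
        have hsub2 := hclosed.closure_subset_iff.mpr hsub
        rw [closure_Ico h.ne] at hsub2
        intro y hy
        exact ⟨(hgm ⟨hy.1, hy.2.trans (hab.le.trans hbr)⟩).1, hsub2 hy⟩
      refine hno (Ioo b r) b r (hla.trans hab.le) hbr' le_rfl rfl l a hcl ?_ ?_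
      · intro y hy
        exact ⟨(hgm ⟨hla.trans (hab.le.trans hy.1.le), hy.2.le⟩).1, hval2 y hy.1 hy.2.le⟩
      · intro y hy hy2
        linarith [hy.1, hy2.2]
  refine ⟨?_, hb⟩
  by_contra hne
  have hla' : l < a := lt_of_le_of_ne hla (fun h => hne h.symm)
  have := hmaps (show b ∈ Icc a b from ⟨hab.le, le_rfl⟩)
  rw [hb, hgr] at this
  linarith [this.1]

theorem typeII_block_conj (G : ℝ → ℝ) (k : ℕ) (x : ℝ) :
    (fun y => -G (-y))^[k] x = -(G^[k] (-x)) := by
  induction k with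
  | zero => simp
  | succ k ih =>
    rw [Function.iterate_succ_apply', Function.iterate_succ_apply', ih]
    simp


theorem typeII_block (G : ℝ → ℝ) (hG : Continuous G) (l r : ℝ) (hlr : l < r)
    (hmap : MapsTo G (Icc l r) (Icc l r))
    (hend : (G l = l ∧ G r = l) ∨ (G l = r ∧ G r = r))
    (hnw : NWI G l r) (hlt : LtI G l r) : IsBlock G l r := by
  rcases hend with ⟨h1, h2⟩ | ⟨h1, h2⟩
  · exact typeII_block_one G hG l r hlr hmap h1 h2 hnw hlt
  · have hblock : IsBlock (fun y => -G (-y)) (-r) (-l) := by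
      apply typeII_block_one
      · exact (hG.comp continuous_neg).neg
      · linarith
      · intro x hx
        have := hmap (show -x ∈ Icc l r from ⟨by linarith [hx.2], by linarith [hx.1]⟩)
        exact ⟨by show -r ≤ -G (-x); linarith [this.2], by show -G (-x) ≤ -l; linarith [this.1]⟩
      · show -G (-(-r)) = -r
        rw [neg_neg, h2]
      · show -G (-(-l)) = -r
        rw [neg_neg, h1]
      · intro m hm c e hc hce he
        obtain ⟨j, hj, z, ⟨x, hx, hxz⟩, hz⟩ := hnw m hm (-e) (-c) (by linarith) (by linarith) (by linarith)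
        refine ⟨j, hj, -z, ⟨-x, ⟨by linarith [hx.2], by linarith [hx.1]⟩, ?_⟩, ⟨by linarith [hz.2], by linarith [hz.1]⟩⟩
        rw [typeII_block_conj, neg_neg, hxz]
      · intro n c e y hc hce he
        obtain ⟨x, hx, hxn⟩ := hlt n (-e) (-c) (-y) (by linarith) (by linarith) (by linarith)
        refine ⟨-x, ⟨by linarith [hx.2], by linarith [hx.1]⟩, ?_⟩
        rw [typeII_block_conj, neg_neg]
        intro h
        exact hxn (by linarith)
    refine ⟨hlr, hmap, ?_⟩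
    intro n hn a b hla hab hbr hmaps
    have := hblock.2.2 n hn (-b) (-a) (by linarith) (by linarith) (by linarith) (by
      intro x hx
      rw [typeII_block_conj]
      have := hmaps (show -x ∈ Icc a b from ⟨by linarith [hx.2], by linarith [hx.1]⟩)
      exact ⟨by linarith [this.2], by linarith [this.1]⟩)
    exact ⟨by linarith [this.2], by linarith [this.1]⟩

end X_typeII_block

alias typeII_block := X_typeII_block.typeII_block

namespace X_typeI_blocks

theorem typeI_blocks_aux1 (G : ℝ → ℝ) (hG : Continuous G) (l r : ℝ) (hlr : l < r)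
    (hmap : MapsTo G (Icc l r) (Icc l r)) (hl : G l = l) (hr : G r = r)
    (hnw : NWI G l r) (hlt : LtI G l r) (c : ℝ)
    (hC : ∀ a b : ℝ, l ≤ a → a < b → b ≤ r → G a = a → G b = b → b - a < c →
      StrictMonoOn G (Icc a b)) (x : ℝ) (hx : x ∈ Icc l r) (hGx : G x ≠ x) :
    ∃ a b : ℝ, l ≤ a ∧ b ≤ r ∧ IsBlock G a b ∧ x ∈ Icc a b ∧ c ≤ b - a := by
  let J : Set (ℝ × ℝ) := {p | l ≤ p.1 ∧ p.1 ≤ x ∧ x ≤ p.2 ∧ p.2 ≤ r ∧ G p.1 = p.1 ∧ G p.2 = p.2 ∧
    MapsTo G (Icc p.1 p.2) (Icc p.1 p.2)}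
  have hJ0 : (l, r) ∈ J := ⟨le_rfl, hx.1, hx.2, le_rfl, hl, hr, hmap⟩
  let A : Set ℝ := Prod.fst '' J
  let B : Set ℝ := Prod.snd '' J
  have hA0 : A.Nonempty := ⟨l, (l, r), hJ0, rfl⟩
  have hB0 : B.Nonempty := ⟨r, (l, r), hJ0, rfl⟩
  have hAb : BddAbove A := ⟨x, by rintro _ ⟨p, hp, rfl⟩; exact hp.2.1⟩
  have hBb : BddBelow B := ⟨x, by rintro _ ⟨p, hp, rfl⟩; exact hp.2.2.1⟩
  have hfix : IsClosed {y : ℝ | G y = y} := isClosed_eq hG continuous_id
  obtain ⟨a, ha⟩ : ∃ a, a = sSup A := ⟨_, rfl⟩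
  obtain ⟨b, hb⟩ : ∃ b, b = sInf B := ⟨_, rfl⟩
  have hGa : G a = a := by
    have h1 : sSup A ∈ closure A := csSup_mem_closure hA0 hAb
    have h2 : A ⊆ {y : ℝ | G y = y} := by rintro _ ⟨p, hp, rfl⟩; exact hp.2.2.2.2.1
    rw [ha]
    exact closure_minimal h2 hfix h1
  have hGb : G b = b := by
    have h1 : sInf B ∈ closure B := csInf_mem_closure hB0 hBb
    have h2 : B ⊆ {y : ℝ | G y = y} := by rintro _ ⟨p, hp, rfl⟩; exact hp.2.2.2.2.2.1
    rw [hb]
    exact closure_minimal h2 hfix h1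
  have hminA : ∀ p ∈ J, p.1 ≤ a := fun p hp => by rw [ha]; exact le_csSup hAb ⟨p, hp, rfl⟩
  have hminB : ∀ p ∈ J, b ≤ p.2 := fun p hp => by rw [hb]; exact csInf_le hBb ⟨p, hp, rfl⟩
  have hax : a ≤ x := by
    rw [ha]
    exact csSup_le hA0 (by rintro _ ⟨p, hp, rfl⟩; exact hp.2.1)
  have hxb : x ≤ b := by
    rw [hb]
    exact le_csInf hB0 (by rintro _ ⟨p, hp, rfl⟩; exact hp.2.2.1)
  have hla : l ≤ a := hminA _ hJ0
  have hbr : b ≤ r := hminB _ hJ0
  have hax' : a < x := lt_of_le_of_ne hax (fun h => hGx (by rw [← h]; exact hGa))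
  have hxb' : x < b := lt_of_le_of_ne hxb (fun h => hGx (by rw [h]; exact hGb))
  have hmab : MapsTo G (Icc a b) (Icc a b) := by
    intro y hy
    constructor
    · rw [ha]
      refine csSup_le hA0 ?_
      rintro _ ⟨p, hp, rfl⟩
      exact (hp.2.2.2.2.2.2 ⟨(hminA p hp).trans hy.1, hy.2.trans (hminB p hp)⟩).1
    · rw [hb]
      refine le_csInf hB0 ?_
      rintro _ ⟨p, hp, rfl⟩
      exact (hp.2.2.2.2.2.2 ⟨(hminA p hp).trans hy.1, hy.2.trans (hminB p hp)⟩).2
  have hblock : IsBlock G a b := by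
    refine ⟨hax'.trans hxb', hmab, ?_⟩
    intro n hn a' b' haa' hab' hbb' hper
    obtain ⟨k1, k2, k3, k4, k5⟩ := typeI_cut G hG l r hlr hmap hl hr hnw hlt n hn a' b'
      (hla.trans haa') hab' (hbb'.trans hbr) hper
    rcases lt_or_ge x a' with h1 | h1
    · have hmem : (a, a') ∈ J := by
        refine ⟨hla, hax, h1.le, hab'.le.trans (hbb'.trans hbr), hGa, k1, ?_⟩
        intro y hy
        exact ⟨(hmab ⟨hy.1, hy.2.trans (hab'.le.trans hbb')⟩).1, (k4 ⟨hla.trans hy.1, hy.2⟩).2⟩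
      have := hminB _ hmem
      simp only at this
      linarith
    · rcases lt_or_ge b' x with h2 | h2
      · have hmem : (b', b) ∈ J := by
          refine ⟨hla.trans (haa'.trans hab'.le), h2.le, hxb, hbr, k2, hGb, ?_⟩
          intro y hy
          exact ⟨(k5 ⟨hy.1, hy.2.trans hbr⟩).1, (hmab ⟨(haa'.trans hab'.le).trans hy.1, hy.2⟩).2⟩
        have := hminA _ hmem
        simp only at this
        linarith
      · have hmem : (a', b') ∈ J :=
          ⟨hla.trans haa', h1, h2, hbb'.trans hbr, k1, k2, k3⟩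
        have e1 := hminA _ hmem
        have e2 := hminB _ hmem
        simp only at e1 e2
        exact ⟨le_antisymm e1 haa', le_antisymm hbb' e2⟩
  refine ⟨a, b, hla, hbr, hblock, ⟨hax, hxb⟩, ?_⟩
  by_contra hc
  push Not at hc
  have hmono := hC a b hla (hax'.trans hxb') hbr hGa hGb hc
  rcases lt_or_gt_of_ne hGx with h | h
  · have h3 : MapsTo G^[1] (Icc a x) (Icc a x) := by
      intro y hy
      rw [Function.iterate_one]
      refine ⟨(hmab ⟨hy.1, hy.2.trans hxb⟩).1, ?_⟩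
      have := hmono.monotoneOn (⟨hy.1, hy.2.trans hxb⟩ : y ∈ Icc a b) (⟨hax, hxb⟩ : x ∈ Icc a b) hy.2
      linarith
    have := (hblock.2.2 1 le_rfl a x le_rfl hax' hxb h3).2
    linarith
  · have h3 : MapsTo G^[1] (Icc x b) (Icc x b) := by
      intro y hy
      rw [Function.iterate_one]
      refine ⟨?_, (hmab ⟨hax.trans hy.1, hy.2⟩).2⟩
      have := hmono.monotoneOn (⟨hax, hxb⟩ : x ∈ Icc a b) (⟨hax.trans hy.1, hy.2⟩ : y ∈ Icc a b) hy.1
      linarith
    have := (hblock.2.2 1 le_rfl x b hax hxb' le_rfl h3).1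
    linarith

theorem typeI_blocks_aux2 (G : ℝ → ℝ) (a b a' b' : ℝ) (h : IsBlock G a b) (h' : IsBlock G a' b')
    (hle : a ≤ a') (hlt : a' < b) : a = a' ∧ b = b' := by
  have h1 : a' < min b b' := lt_min hlt h'.1
  have hm : MapsTo G^[1] (Icc a' (min b b')) (Icc a' (min b b')) := by
    intro y hy
    rw [Function.iterate_one]
    have e1 := h.2.1 (⟨hle.trans hy.1, hy.2.trans (min_le_left _ _)⟩ : y ∈ Icc a b)
    have e2 := h'.2.1 (⟨hy.1, hy.2.trans (min_le_right _ _)⟩ : y ∈ Icc a' b')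
    exact ⟨e2.1, le_min e1.2 e2.2⟩
  have k1 := h.2.2 1 le_rfl a' (min b b') hle h1 (min_le_left _ _) hm
  have k2 := h'.2.2 1 le_rfl a' (min b b') le_rfl h1 (min_le_right _ _) hm
  exact ⟨k1.1.symm, by rw [← k1.2]; exact k2.2⟩

theorem typeI_blocks (G : ℝ → ℝ) (hG : Continuous G) (l r : ℝ) (hlr : l < r)
    (hmap : MapsTo G (Icc l r) (Icc l r)) (hl : G l = l) (hr : G r = r)
    (hnw : NWI G l r) (hlt : LtI G l r)
    (hC : ∃ c : ℝ, 0 < c ∧ ∀ a b : ℝ, l ≤ a → a < b → b ≤ r → G a = a → G b = b → b - a < c →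
      StrictMonoOn G (Icc a b)) :
    ∃ S : Set (ℝ × ℝ), S.Finite ∧ (∀ p ∈ S, l ≤ p.1 ∧ p.2 ≤ r ∧ IsBlock G p.1 p.2) ∧
      ∀ x ∈ Icc l r, G x = x ∨ ∃ p ∈ S, x ∈ Icc p.1 p.2 := by
  obtain ⟨c, hc, hC⟩ := hC
  refine ⟨{p | l ≤ p.1 ∧ p.2 ≤ r ∧ IsBlock G p.1 p.2 ∧ c ≤ p.2 - p.1}, ?_, ?_, ?_⟩
  · have hinj : InjOn (fun p : ℝ × ℝ => ⌊(p.1 - l) / c⌋)
        {p : ℝ × ℝ | l ≤ p.1 ∧ p.2 ≤ r ∧ IsBlock G p.1 p.2 ∧ c ≤ p.2 - p.1} := by
      intro p hp q hq hpq
      simp only at hpq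
      have habs : |(p.1 - l) / c - (q.1 - l) / c| < 1 := Int.abs_sub_lt_one_of_floor_eq_floor hpq
      have h2 : (p.1 - l) / c - (q.1 - l) / c = (p.1 - q.1) / c := by ring
      rw [h2, abs_div, abs_of_pos hc, div_lt_one hc] at habs
      have h3 := abs_lt.mp habs
      rcases le_total p.1 q.1 with h | h
      · have := typeI_blocks_aux2 G p.1 p.2 q.1 q.2 hp.2.2.1 hq.2.2.1 h
          (by have := hp.2.2.2; linarith)
        exact Prod.ext this.1 this.2
      · have := typeI_blocks_aux2 G q.1 q.2 p.1 p.2 hq.2.2.1 hp.2.2.1 h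
          (by have := hq.2.2.2; linarith)
        exact Prod.ext this.1.symm this.2.symm
    refine Set.Finite.of_finite_image ?_ hinj
    refine (Set.finite_Icc (0 : ℤ) ⌊(r - l) / c⌋).subset ?_
    rintro _ ⟨p, hp, rfl⟩
    have h1 : p.1 ≤ r := by have := hp.2.2.1.1; have := hp.2.1; linarith
    refine ⟨Int.floor_nonneg.mpr (div_nonneg (by linarith [hp.1]) hc.le), Int.floor_le_floor ?_⟩
    gcongr
  · rintro p ⟨h1, h2, h3, -⟩
    exact ⟨h1, h2, h3⟩
  · intro x hx
    by_cases hGx : G x = x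
    · exact Or.inl hGx
    · obtain ⟨a, b, h1, h2, h3, h4, h5⟩ :=
        typeI_blocks_aux1 G hG l r hlr hmap hl hr hnw hlt c hC x hx hGx
      exact Or.inr ⟨(a, b), ⟨h1, h2, h3, h5⟩, h4⟩

end X_typeI_blocks

alias typeI_blocks := X_typeI_blocks.typeI_blocks

theorem mono_of_C1 (G : ℝ → ℝ) (hG : ContDiff ℝ 1 G) (l r : ℝ) :
    ∃ c : ℝ, 0 < c ∧ ∀ a b : ℝ, l ≤ a → a < b → b ≤ r → G a = a → G b = b → b - a < c →
      StrictMonoOn G (Icc a b) := by
  have hcont : Continuous (deriv G) := hG.continuous_deriv le_rfl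
  have huc : UniformContinuousOn (deriv G) (Icc l r) :=
    isCompact_Icc.uniformContinuousOn_of_continuous hcont.continuousOn
  rw [Metric.uniformContinuousOn_iff] at huc
  obtain ⟨c, hc, hu⟩ := huc 1 one_pos
  refine ⟨c, hc, fun a b hla hab hbr hGa hGb hbc => ?_⟩
  have hdiff : Differentiable ℝ G := hG.differentiable (by norm_num)
  obtain ⟨ξ, hξ, hslope⟩ := exists_deriv_eq_slope G hab hG.continuous.continuousOn
    hdiff.differentiableOn
  rw [hGa, hGb, div_self (by linarith)] at hslope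
  refine strictMonoOn_of_deriv_pos (convex_Icc a b) hG.continuous.continuousOn ?_
  intro x hx
  rw [interior_Icc] at hx
  have hd : dist x ξ < c := by
    rw [Real.dist_eq, abs_lt]
    constructor <;> linarith [hx.1, hx.2, hξ.1, hξ.2]
  have := hu x ⟨by linarith [hx.1], by linarith [hx.2]⟩ ξ ⟨by linarith [hξ.1], by linarith [hξ.2]⟩ hd
  rw [Real.dist_eq, abs_lt, hslope] at this
  linarith [this.1]

end Pool.Agent.Helper222.CPE
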