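import Mathlib
import Pool.Agent.Helper222.CPE.Defs
import Pool.Agent.Helper222.CPE.Ent
import Pool.Agent.Helper222.CPE.Itv

open Set Filter Topology

namespace Pool.Agent.Helper222.CPE

namespace X_HP_of_covers

theorem hp_sub (U : Set Circ) (hU : (interior U).Nonempty) (l r : ℝ)
    (hUW : U ⊆ (fun x : ℝ => (x : Circ)) '' Ioo l r) :
    ∃ c e : ℝ, l < c ∧ c < e ∧ e < r ∧ ∀ w ∈ Ioo c e, (w : Circ) ∈ U := by
  obtain ⟨p, hp⟩ := hU
  obtain ⟨x, hx, rfl⟩ := hUW (interior_subset hp)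
  have hc : Continuous (fun x : ℝ => (x : Circ)) := AddCircle.continuous_mk' 1
  have hopen : IsOpen ((fun x : ℝ => (x : Circ)) ⁻¹' interior U ∩ Ioo l r) :=
    (isOpen_interior.preimage hc).inter isOpen_Ioo
  obtain ⟨ε, hε, hball⟩ := Metric.isOpen_iff.1 hopen x ⟨hp, hx⟩
  have h1 : x - ε / 2 ∈ Metric.ball x ε := by
    rw [Metric.mem_ball, Real.dist_eq, abs_lt]; constructor <;> linarith
  have h2 : x + ε / 2 ∈ Metric.ball x ε := by
    rw [Metric.mem_ball, Real.dist_eq, abs_lt]; constructor <;> linarith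
  refine ⟨x - ε / 2, x + ε / 2, (hball h1).2.1, by linarith, (hball h2).2.2, fun w hw => ?_⟩
  have h3 : w ∈ Metric.ball x ε := by
    rw [Metric.mem_ball, Real.dist_eq, abs_lt]
    constructor <;> linarith [hw.1, hw.2]
  exact interior_subset (hball h3).1

theorem hp_cpt (K : Set Circ) (hK : IsCompact K) (l r : ℝ)
    (hKW : K ⊆ (fun x : ℝ => (x : Circ)) '' Ioo l r) :
    ∃ a b : ℝ, l < a ∧ b < r ∧ K ⊆ (fun x : ℝ => (x : Circ)) '' Icc a b := by
  have hopen : ∀ n : ℕ, IsOpen ((fun x : ℝ => (x : Circ)) ''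
      Ioo (l + 1 / ((n : ℝ) + 1)) (r - 1 / ((n : ℝ) + 1))) := fun n =>
    QuotientAddGroup.isOpenMap_coe _ isOpen_Ioo
  have hmono : Monotone (fun n : ℕ => (fun x : ℝ => (x : Circ)) ''
      Ioo (l + 1 / ((n : ℝ) + 1)) (r - 1 / ((n : ℝ) + 1))) := by
    intro m n hmn
    apply Set.image_mono
    have h1 : 1 / ((n : ℝ) + 1) ≤ 1 / ((m : ℝ) + 1) := by
      apply one_div_le_one_div_of_le (by positivity)
      have : (m : ℝ) ≤ n := by exact_mod_cast hmn
      linarith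
    exact Ioo_subset_Ioo (by linarith) (by linarith)
  obtain ⟨n, hn⟩ := hK.elim_directed_cover _ hopen (by
    intro p hp
    obtain ⟨x, hx, rfl⟩ := hKW hp
    rw [mem_iUnion]
    have hδ : 0 < min (x - l) (r - x) := lt_min (by linarith [hx.1]) (by linarith [hx.2])
    obtain ⟨n, hn⟩ := exists_nat_one_div_lt hδ
    refine ⟨n, x, ⟨?_, ?_⟩, rfl⟩
    · have := hn.trans_le (min_le_left _ _); linarith
    · have := hn.trans_le (min_le_right _ _); linarith) hmono.directed_le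
  have hpos : 0 < 1 / ((n : ℝ) + 1) := by positivity
  exact ⟨l + 1 / ((n : ℝ) + 1), r - 1 / ((n : ℝ) + 1), by linarith, by linarith,
    hn.trans (Set.image_mono Ioo_subset_Icc_self)⟩

theorem hp_iter (f : Circ → Circ) (G : ℝ → ℝ) (M : ℕ)
    (hGf : ∀ x : ℝ, ((G x : ℝ) : Circ) = f^[M] (x : Circ)) (k : ℕ) (x : ℝ) :
    ((G^[k] x : ℝ) : Circ) = f^[M * k] (x : Circ) := by
  induction k with
  | zero => simp
  | succ k ih =>
    rw [Function.iterate_succ_apply', hGf, ih, ← Function.iterate_add_apply,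
      show M + M * k = M * (k + 1) by ring]

theorem hp_cov (G : ℝ → ℝ) (c e a b : ℝ) (m : ℕ) (hsub : Ioo c e ⊆ Icc a b)
    (h : Icc a b ⊆ G^[m] '' Ioo c e) (j : ℕ) (hj : 1 ≤ j) :
    Icc a b ⊆ G^[m * j] '' Ioo c e := by
  induction j, hj using Nat.le_induction with
  | base => rwa [mul_one]
  | succ j _ ih =>
    intro x hx
    obtain ⟨y, hy, rfl⟩ := ih hx
    obtain ⟨w, hw, rfl⟩ := h (hsub hy)
    refine ⟨w, hw, ?_⟩
    rw [← Function.iterate_add_apply, mul_add, mul_one]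


theorem HP_of_covers (f : Circ → Circ) (G : ℝ → ℝ) (M : ℕ) (hM : 1 ≤ M)
    (hGf : ∀ x : ℝ, ((G x : ℝ) : Circ) = f^[M] (x : Circ)) (l r : ℝ) (hlr : l < r)
    (hr : r ≤ l + 1)
    (hcov : ∀ c e a b : ℝ, l ≤ c → c < e → e ≤ r → l < a → a ≤ b → b < r →
      ∃ m : ℕ, 1 ≤ m ∧ Icc a b ⊆ G^[m] '' Ioo c e) :
    HP f ((fun x : ℝ => (x : Circ)) '' Ioo l r) := by
  refine ⟨QuotientAddGroup.isOpenMap_coe _ isOpen_Ioo, ?_⟩
  intro U V hU hV hUi hVi hUW hVW
  obtain ⟨c, e, hlc, hce, her, hcU⟩ := hp_sub U hUi l r hUW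
  obtain ⟨c', e', hlc', hce', her', hcV⟩ := hp_sub V hVi l r hVW
  obtain ⟨a0, b0, hla0, hb0r, hK⟩ := hp_cpt (U ∪ V) (hU.union hV) l r (union_subset hUW hVW)
  obtain ⟨a, ha⟩ : ∃ a, a = min a0 (min c c') := ⟨_, rfl⟩
  obtain ⟨b, hb⟩ : ∃ b, b = max b0 (max e e') := ⟨_, rfl⟩
  have hla : l < a := by rw [ha]; exact lt_min hla0 (lt_min hlc hlc')
  have hbr : b < r := by rw [hb]; exact max_lt hb0r (max_lt her her')
  have hac : a ≤ c := by rw [ha]; exact (min_le_right _ _).trans (min_le_left _ _)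
  have hac' : a ≤ c' := by rw [ha]; exact (min_le_right _ _).trans (min_le_right _ _)
  have haa0 : a ≤ a0 := by rw [ha]; exact min_le_left _ _
  have heb : e ≤ b := by rw [hb]; exact (le_max_left _ _).trans (le_max_right _ _)
  have heb' : e' ≤ b := by rw [hb]; exact (le_max_right _ _).trans (le_max_right _ _)
  have hb0b : b0 ≤ b := by rw [hb]; exact le_max_left _ _
  have hab : a ≤ b := by linarith
  have hK2 : ∀ p ∈ U ∪ V, ∃ x ∈ Icc a b, (x : Circ) = p := by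
    intro p hp
    obtain ⟨x, hx, hxp⟩ := hK hp
    exact ⟨x, ⟨haa0.trans hx.1, hx.2.trans hb0b⟩, hxp⟩
  obtain ⟨m1, hm1, h1⟩ := hcov c e a b hlc.le hce her.le hla hab hbr
  obtain ⟨m2, hm2, h2⟩ := hcov c' e' a b hlc'.le hce' her'.le hla hab hbr
  have hs1 : Ioo c e ⊆ Icc a b := fun x hx => ⟨by linarith [hx.1], by linarith [hx.2]⟩
  have hs2 : Ioo c' e' ⊆ Icc a b := fun x hx => ⟨by linarith [hx.1], by linarith [hx.2]⟩
  have k1 := hp_cov G c e a b m1 hs1 h1 m2 hm2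
  have k2 := hp_cov G c' e' a b m2 hs2 h2 m1 hm1
  rw [mul_comm m2 m1] at k2
  refine ⟨M * (m1 * m2), ?_, ?_, ?_⟩
  · exact Nat.mul_pos hM (Nat.mul_pos hm1 hm2)
  · intro p hp
    obtain ⟨x, hx, rfl⟩ := hK2 p hp
    obtain ⟨w, hw, rfl⟩ := k1 hx
    exact ⟨(w : Circ), hcU w hw, (hp_iter f G M hGf (m1 * m2) w).symm⟩
  · intro p hp
    obtain ⟨x, hx, rfl⟩ := hK2 p hp
    obtain ⟨w, hw, rfl⟩ := k2 hx
    exact ⟨(w : Circ), hcV w hw, (hp_iter f G M hGf (m1 * m2) w).symm⟩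

end X_HP_of_covers

alias HP_of_covers := X_HP_of_covers.HP_of_covers

theorem NWI_of_NW (f : Circ → Circ) (G : ℝ → ℝ) (M : ℕ) (hM : 1 ≤ M)
    (hGf : ∀ x : ℝ, ((G x : ℝ) : Circ) = f^[M] (x : Circ)) (l r : ℝ) (hlr : l < r)
    (hr : r ≤ l + 1) (hmap : MapsTo G (Icc l r) (Icc l r)) (h : NW f) : NWI G l r := by
  have key : ∀ (k : ℕ) (x : ℝ), ((G^[k] x : ℝ) : Circ) = f^[M * k] (x : Circ) := by
    intro k x
    induction k with
    | zero => simp
    | succ k ih =>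
      rw [Function.iterate_succ_apply', hGf, ih, ← Function.iterate_add_apply,
        show M * (k + 1) = M + M * k by ring]
  intro m hm c e hlc hce her
  have hU : IsOpen ((fun x : ℝ => (x : Circ)) '' Ioo c e) :=
    QuotientAddGroup.isOpenMap_coe _ isOpen_Ioo
  have hne : ((fun x : ℝ => (x : Circ)) '' Ioo c e).Nonempty := (nonempty_Ioo.mpr hce).image _
  obtain ⟨j, hj, y', ⟨x', ⟨x, hx, hx'⟩, hxy⟩, ⟨y, hy, hy'⟩⟩ :=
    h (M * m) (Nat.one_le_iff_ne_zero.mpr (by positivity)) _ hU hne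
  refine ⟨j, hj, y, ⟨x, hx, ?_⟩, hy⟩
  have h1 : ((G^[m * j] x : ℝ) : Circ) = (y : Circ) := by
    rw [key, ← mul_assoc]
    have h2 : (x : Circ) = x' := hx'
    have h3 : (y : Circ) = y' := hy'
    rw [h2, h3]
    exact hxy
  have hG : ∀ k : ℕ, G^[k] x ∈ Icc l r := by
    intro k
    induction k with
    | zero => exact ⟨by simp; linarith [hx.1], by simp; linarith [hx.2]⟩
    | succ k ih =>
      rw [Function.iterate_succ_apply']
      exact hmap ih
  have hG1 := hG (m * j)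
  rw [QuotientAddGroup.eq, AddSubgroup.mem_zmultiples_iff] at h1
  obtain ⟨z, hz⟩ := h1
  rw [zsmul_eq_mul, mul_one] at hz
  have hz1 : (z : ℝ) < 1 := by
    rw [hz]
    linarith [hG1.1, hy.2]
  have hz2 : (-1 : ℝ) < z := by
    rw [hz]
    linarith [hG1.2, hy.1]
  have hz1' : z < 1 := by exact_mod_cast hz1
  have hz2' : -1 < z := by exact_mod_cast hz2
  have hz0 : z = 0 := by omega
  rw [hz0] at hz
  simp only [Int.cast_zero] at hz
  linarith

namespace X_LtI_of_Lt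

theorem LtI_of_Lt (f : Circ → Circ) (G : ℝ → ℝ) (M : ℕ) (hM : 1 ≤ M)
    (hGf : ∀ x : ℝ, ((G x : ℝ) : Circ) = f^[M] (x : Circ)) (l r : ℝ) (h : Lt f) :
    LtI G l r := by
  intro n c e y _ hce _
  by_contra hcon
  push Not at hcon
  have hiter : ∀ (k : ℕ) (x : ℝ), ((G^[k] x : ℝ) : Circ) = f^[M * k] (x : Circ) := by
    intro k
    induction k with
    | zero => intro x; simp
    | succ k ih =>
      intro x
      rw [Function.iterate_succ_apply, ih (G x), hGf x, Nat.mul_succ, Function.iterate_add_apply]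
  have hopen : IsOpen ((fun x : ℝ => (x : Circ)) '' Ioo c e) := by
    exact QuotientAddGroup.isOpenMap_coe _ isOpen_Ioo
  have hne : ((fun x : ℝ => (x : Circ)) '' Ioo c e).Nonempty :=
    (nonempty_Ioo.2 hce).image _
  obtain ⟨z, hz, hzy⟩ := h (M * n) _ (y : Circ) hopen hne
  obtain ⟨x, hx, rfl⟩ := hz
  apply hzy
  simp only
  rw [← hiter n x, hcon x hx]

end X_LtI_of_Lt

alias LtI_of_Lt := X_LtI_of_Lt.LtI_of_Lt

theorem HP_of_block (f : Circ → Circ) (hNW : NW f) (G : ℝ → ℝ) (hG : Continuous G) (M : ℕ)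
    (hM : 1 ≤ M) (hGf : ∀ x : ℝ, ((G x : ℝ) : Circ) = f^[M] (x : Circ)) (l r : ℝ)
    (hr : r ≤ l + 1) (hb : IsBlock G l r) :
    HP f ((fun x : ℝ => (x : Circ)) '' Ioo l r) := by
  have hnw := NWI_of_NW f G M hM hGf l r hb.1 hr hb.2.1 hNW
  exact HP_of_covers f G M hM hGf l r hb.1 hr
    (block_covers G hG l r hb.1 hb.2.1 (star_of_block G hG l r hb hnw))

theorem arc_blocks (f : Circ → Circ) (hNW : NW f) (hLt : Lt f) (G : ℝ → ℝ)
    (hG : ContDiff ℝ 1 G) (M : ℕ) (hM : 1 ≤ M)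
    (hGf : ∀ x : ℝ, ((G x : ℝ) : Circ) = f^[M] (x : Circ)) (l r : ℝ) (hlr : l < r)
    (hr : r ≤ l + 1) (hmap : MapsTo G (Icc l r) (Icc l r))
    (hend : (G l = l ∧ G r = r) ∨ (G l = l ∧ G r = l) ∨ (G l = r ∧ G r = r)) :
    ∃ S : Set (ℝ × ℝ), S.Finite ∧
      (∀ p ∈ S, l ≤ p.1 ∧ p.1 < p.2 ∧ p.2 ≤ r ∧
        HP f ((fun x : ℝ => (x : Circ)) '' Ioo p.1 p.2)) ∧
      ∀ x ∈ Icc l r, G x = x ∨ ∃ p ∈ S, x ∈ Icc p.1 p.2 := by
  have hnw := NWI_of_NW f G M hM hGf l r hlr hr hmap hNW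
  have hlt := LtI_of_Lt f G M hM hGf l r hLt
  have hGc : Continuous G := hG.continuous
  rcases hend with ⟨h1, h2⟩ | hII
  · obtain ⟨S, hS, hS1, hS2⟩ := typeI_blocks G hGc l r hlr hmap h1 h2 hnw hlt (mono_of_C1 G hG l r)
    refine ⟨S, hS, fun p hp => ?_, hS2⟩
    obtain ⟨h3, h4, h5⟩ := hS1 p hp
    exact ⟨h3, h5.1, h4, HP_of_block f hNW G hGc M hM hGf p.1 p.2 (by linarith) h5⟩
  · have hb := typeII_block G hGc l r hlr hmap hII hnw hlt
    refine ⟨{(l, r)}, Set.finite_singleton _, ?_, fun x hx => Or.inr ⟨(l, r), rfl, hx⟩⟩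
    intro p hp
    rw [Set.mem_singleton_iff] at hp
    subst hp
    exact ⟨le_refl _, hlr, le_refl _, HP_of_block f hNW G hGc M hM hGf l r hr hb⟩

namespace X_arc_of_connected

theorem arc_of_connected (C : Set Circ) (hC : IsPreconnected C) (a b : ℝ) (hab : a < b)
    (hb : b < a + 1) (haC : (a : Circ) ∈ C) (hbC : (b : Circ) ∈ C) :
    (fun x : ℝ => (x : Circ)) '' Icc a b ⊆ C ∨
      (fun x : ℝ => (x : Circ)) '' Icc b (a + 1) ⊆ C := by
  by_contra hcon
  rw [not_or, Set.not_subset, Set.not_subset] at hcon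
  obtain ⟨⟨_, ⟨x, hx, rfl⟩, hxC⟩, ⟨_, ⟨y, hy, rfl⟩, hyC⟩⟩ := hcon
  have hxC' : (x : Circ) ∉ C := hxC
  have hyC' : (y : Circ) ∉ C := hyC
  have ha1 : ((a + 1 : ℝ) : Circ) = (a : Circ) := by
    rw [AddCircle.coe_add, AddCircle.coe_period, add_zero]
  have hax : a < x := by
    rcases hx.1.eq_or_lt with h | h
    · rw [← h] at hxC'; exact absurd haC hxC'
    · exact h
  have hxb : x < b := by
    rcases hx.2.eq_or_lt with h | h
    · rw [h] at hxC'; exact absurd hbC hxC'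
    · exact h
  have hby : b < y := by
    rcases hy.1.eq_or_lt with h | h
    · rw [← h] at hyC'; exact absurd hbC hyC'
    · exact h
  have hya : y < a + 1 := by
    rcases hy.2.eq_or_lt with h | h
    · rw [h, ha1] at hyC'; exact absurd haC hyC'
    · exact h
  have hopen : IsOpenMap (fun t : ℝ => (t : Circ)) := QuotientAddGroup.isOpenMap_coe
  have h1 := hC ((fun t : ℝ => (t : Circ)) '' Ioo x y) ((fun t : ℝ => (t : Circ)) '' Ioo y (x + 1))
    (hopen _ isOpen_Ioo) (hopen _ isOpen_Ioo) ?_ ⟨(b : Circ), hbC, b, ⟨hxb, hby⟩, rfl⟩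
    ⟨((a + 1 : ℝ) : Circ), by rw [ha1]; exact haC, a + 1, ⟨hya, by linarith⟩, rfl⟩
  · obtain ⟨z, -, ⟨t1, ht1, e1⟩, ⟨t2, ht2, e2⟩⟩ := h1
    haveI : Fact ((0 : ℝ) < 1) := ⟨one_pos⟩
    have e3 : (t1 : Circ) = (t2 : Circ) := e1.trans e2.symm
    have m1 : t1 ∈ Ico x (x + 1) := ⟨ht1.1.le, by linarith [ht1.2]⟩
    have m2 : t2 ∈ Ico x (x + 1) := ⟨by linarith [ht2.1], ht2.2⟩
    have := (AddCircle.coe_eq_coe_iff_of_mem_Ico m1 m2).1 e3
    linarith [ht1.2, ht2.1]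
  · intro z hz
    haveI : Fact ((0 : ℝ) < 1) := ⟨one_pos⟩
    have hzu : z ∈ ((↑) : ℝ → Circ) '' Ico x (x + 1) := by
      rw [AddCircle.coe_image_Ico_eq]; trivial
    obtain ⟨t, ht, rfl⟩ := hzu
    rcases ht.1.eq_or_lt with h | h
    · rw [← h] at hz; exact absurd hz hxC'
    · rcases lt_trichotomy t y with h2 | h2 | h2
      · exact Or.inl ⟨t, ⟨h, h2⟩, rfl⟩
      · rw [h2] at hz; exact absurd hz hyC'
      · exact Or.inr ⟨t, ⟨h2, ht.2⟩, rfl⟩

end X_arc_of_connected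

alias arc_of_connected := X_arc_of_connected.arc_of_connected

theorem compl_of_dense_connected (D : Set Circ) (hD : IsPreconnected D) (hd : Dense D) :
    ∃ e : Circ, Dᶜ ⊆ {e} := by
  by_cases hs : (Dᶜ).Subsingleton
  · rcases (Dᶜ).eq_empty_or_nonempty with h | ⟨e, he⟩
    · exact ⟨0, by rw [h]; exact empty_subset _⟩
    · exact ⟨e, fun z hz => hs hz he⟩
  · exfalso
    rw [Set.not_subsingleton_iff] at hs
    obtain ⟨a, ha, b, hb, hab⟩ := hs
    haveI : Fact ((0:ℝ) < 1) := ⟨one_pos⟩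
    have hrep : ∀ (z : Circ) (x : ℝ), ∃ t ∈ Ico x (x + 1), (t : Circ) = z := by
      intro z x
      have h := AddCircle.coe_image_Ico_eq (1:ℝ) x
      have hz : z ∈ (univ : Set Circ) := mem_univ z
      rw [← h] at hz
      exact hz
    obtain ⟨x, hx⟩ := QuotientAddGroup.mk_surjective a
    have hx' : (x : Circ) = a := hx
    obtain ⟨y, hy, hyb⟩ := hrep b x
    have hxy : x < y := by
      refine lt_of_le_of_ne hy.1 ?_
      rintro rfl
      exact hab (hx'.symm.trans hyb)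
    have hPo : IsOpen ((fun t : ℝ => (t : Circ)) '' Ioo x y) :=
      QuotientAddGroup.isOpenMap_coe _ isOpen_Ioo
    have hQo : IsOpen ((fun t : ℝ => (t : Circ)) '' Ioo y (x + 1)) :=
      QuotientAddGroup.isOpenMap_coe _ isOpen_Ioo
    have hcov : D ⊆ ((fun t : ℝ => (t : Circ)) '' Ioo x y) ∪
        ((fun t : ℝ => (t : Circ)) '' Ioo y (x + 1)) := by
      intro z hz
      obtain ⟨t, ht, rfl⟩ := hrep z x
      have h1 : x ≠ t := by
        rintro rfl
        apply ha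
        rw [← hx']
        exact hz
      have h2 : t ≠ y := by
        rintro rfl
        apply hb
        rw [← hyb]
        exact hz
      rcases lt_or_gt_of_ne h2 with h | h
      · exact Or.inl ⟨t, ⟨lt_of_le_of_ne ht.1 h1, h⟩, rfl⟩
      · exact Or.inr ⟨t, ⟨h, ht.2⟩, rfl⟩
    have hP : (D ∩ ((fun t : ℝ => (t : Circ)) '' Ioo x y)).Nonempty := by
      rw [inter_comm]
      exact hd.inter_open_nonempty _ hPo ((nonempty_Ioo.mpr hxy).image _)
    have hQ : (D ∩ ((fun t : ℝ => (t : Circ)) '' Ioo y (x + 1))).Nonempty := by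
      rw [inter_comm]
      exact hd.inter_open_nonempty _ hQo ((nonempty_Ioo.mpr hy.2).image _)
    obtain ⟨z, _, ⟨s, hs, hsz⟩, ⟨t, ht, htz⟩⟩ := hD _ _ hPo hQo hcov hP hQ
    have hst : (s : Circ) = (t : Circ) := hsz.trans htz.symm
    have := (AddCircle.coe_eq_coe_iff_of_mem_Ico (p := (1:ℝ)) (a := x)
      ⟨hs.1.le, hs.2.trans hy.2⟩ ⟨(hxy.trans ht.1).le, ht.2⟩).mp hst
    linarith [hs.2, ht.1]

namespace X_closed_connected_eq_arc

theorem closed_connected_eq_arc_interior (x : Circ) : interior ({x} : Set Circ) = ∅ := by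
  have h1 : ConnectedSpace Circ := by infer_instance
  have h2 : Nontrivial Circ := by
    refine ⟨⟨((0:ℝ) : Circ), ((1/2:ℝ) : Circ), fun h => ?_⟩⟩
    have h3 := (AddCircle.coe_eq_coe_iff_of_mem_Ico (p := (1:ℝ)) (a := 0)
      (x := 0) (y := 1/2) (by norm_num) (by norm_num)).1 h
    norm_num at h3
  exact interior_singleton x


theorem closed_connected_eq_arc (C : Set Circ) (hC : IsClosed C) (hc : IsPreconnected C)
    (hi : (interior C).Nonempty) (hu : C ≠ univ) :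
    ∃ a b : ℝ, a < b ∧ b < a + 1 ∧ C = (fun x : ℝ => (x : Circ)) '' Icc a b := by
  obtain ⟨z, hz⟩ := (Set.ne_univ_iff_exists_notMem C).1 hu
  obtain ⟨x0, rfl⟩ : ∃ x0 : ℝ, (x0 : Circ) = z := QuotientAddGroup.mk_surjective z
  let g : Circ → ℝ := fun x => (AddCircle.equivIco (1:ℝ) x0 x : ℝ)
  have hgc : ContinuousOn g C := by
    intro x hx
    have hne : x ≠ (x0 : Circ) := fun h => hz (h ▸ hx)
    exact (continuousAt_subtype_val.comp
      (AddCircle.continuousAt_equivIco (1:ℝ) x0 hne)).continuousWithinAt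
  have hcoe : ∀ x : Circ, ((g x : ℝ) : Circ) = x := fun x => AddCircle.coe_equivIco
  have hmem : ∀ x : Circ, g x ∈ Ico x0 (x0 + 1) := fun x => (AddCircle.equivIco (1:ℝ) x0 x).2
  have hCne : C.Nonempty := hi.mono interior_subset
  have hcomp : IsCompact (g '' C) := hC.isCompact.image_of_continuousOn hgc
  have hconn : IsConnected (g '' C) := ⟨hCne.image g, hc.image g hgc⟩
  have hIcc := eq_Icc_of_connected_compact hconn hcomp
  set a := sInf (g '' C) with ha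
  set b := sSup (g '' C) with hb
  have haC : a ∈ g '' C := hcomp.sInf_mem (hCne.image g)
  have hbC : b ∈ g '' C := hcomp.sSup_mem (hCne.image g)
  have hCeq : C = (fun x : ℝ => (x : Circ)) '' Icc a b := by
    rw [← hIcc, Set.image_image]
    ext x
    constructor
    · intro hx
      exact ⟨x, hx, hcoe x⟩
    · rintro ⟨y, hy, rfl⟩
      show ((g y : ℝ) : Circ) ∈ C
      rw [hcoe]
      exact hy
  have hax : x0 < a := by
    obtain ⟨x, hx, hxa⟩ := haC
    have h1 := (hmem x).1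
    rw [hxa] at h1
    refine lt_of_le_of_ne h1 fun h => hz ?_
    have h2 := hcoe x
    rw [hxa, ← h] at h2
    rw [h2]
    exact hx
  have hbx : b < x0 + 1 := by
    obtain ⟨x, hx, hxb⟩ := hbC
    rw [← hxb]
    exact (hmem x).2
  have hab : a ≤ b := by
    have h1 : a ∈ Icc a b := by
      rw [← hIcc]
      exact haC
    exact h1.2
  refine ⟨a, b, lt_of_le_of_ne hab fun h => ?_, by linarith, hCeq⟩
  rw [← h, Set.Icc_self, Set.image_singleton] at hCeq
  rw [hCeq, closed_connected_eq_arc_interior] at hi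
  exact Set.not_nonempty_empty hi

end X_closed_connected_eq_arc

alias closed_connected_eq_arc := X_closed_connected_eq_arc.closed_connected_eq_arc

namespace X_caseII_data

theorem cII_eq_iff (x y : ℝ) : (x : Circ) = (y : Circ) ↔ ∃ k : ℤ, x = y + k := by
  rw [← sub_eq_zero, ← AddCircle.coe_sub, AddCircle.coe_eq_zero_iff]
  constructor
  · rintro ⟨k, hk⟩
    refine ⟨k, ?_⟩
    have : (k : ℝ) = x - y := by simpa using hk
    linarith
  · rintro ⟨k, hk⟩
    refine ⟨k, ?_⟩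
    simp [hk]

theorem cII_mem {a b x : ℝ} (h : (x : Circ) ∈ (fun x : ℝ => (x : Circ)) '' Icc a b) :
    ∃ k : ℤ, x ∈ Icc (a + k) (b + k) := by
  obtain ⟨t, ht, hx⟩ := h
  obtain ⟨k, hk⟩ := (cII_eq_iff x t).mp hx.symm
  exact ⟨k, by rw [hk]; exact ⟨by linarith [ht.1], by linarith [ht.2]⟩⟩

theorem cII_gap {a b x : ℝ} {k : ℤ} (hx : x ∈ Ioo (b + k) (a + 1 + k)) :
    ¬ ((x : Circ) ∈ (fun x : ℝ => (x : Circ)) '' Icc a b) := by
  intro h
  obtain ⟨j, hj⟩ := cII_mem h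
  have h1 : (k : ℝ) < j := by linarith [hx.1, hj.2]
  have h2 : (j : ℝ) < k + 1 := by linarith [hx.2, hj.1]
  have h1' : k < j := by exact_mod_cast h1
  have h2' : j < k + 1 := by exact_mod_cast h2
  omega

theorem cII_conn {a b : ℝ} (hb : b < a + 1) {S : Set ℝ} (hS : IsPreconnected S) (hne : S.Nonempty)
    (h : ∀ x ∈ S, (x : Circ) ∈ (fun x : ℝ => (x : Circ)) '' Icc a b) :
    ∃ k : ℤ, S ⊆ Icc (a + k) (b + k) := by
  obtain ⟨c, hc⟩ := hne
  obtain ⟨k, hk⟩ := cII_mem (h c hc)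
  refine ⟨k, fun y hy => ?_⟩
  have hord := hS.ordConnected
  by_contra hcon
  rw [mem_Icc, not_and_or, not_le, not_le] at hcon
  rcases hcon with hlt | hgt
  · -- y < a + k
    set m := (max y (b + k - 1) + (a + k)) / 2 with hm
    have h1 : max y (b + k - 1) < a + k := max_lt hlt (by linarith)
    have h2 : y ≤ max y (b + k - 1) := le_max_left _ _
    have h3 : b + k - 1 ≤ max y (b + k - 1) := le_max_right _ _
    have hmS : m ∈ S := hord.out hy hc ⟨by rw [hm]; linarith, by rw [hm]; linarith [hk.1]⟩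
    have := cII_gap (a := a) (b := b) (x := m) (k := k - 1)
      ⟨by push_cast; rw [hm]; linarith, by push_cast; rw [hm]; linarith⟩
    exact this (h m hmS)
  · set m := (min y (a + 1 + k) + (b + k)) / 2 with hm
    have h1 : b + k < min y (a + 1 + k) := lt_min hgt (by linarith)
    have h2 : min y (a + 1 + k) ≤ y := min_le_left _ _
    have h3 : min y (a + 1 + k) ≤ a + 1 + k := min_le_right _ _
    have hmS : m ∈ S := hord.out hc hy ⟨by rw [hm]; linarith [hk.2], by rw [hm]; linarith⟩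
    have := cII_gap (a := a) (b := b) (x := m) (k := k)
      ⟨by rw [hm]; linarith, by rw [hm]; linarith⟩
    exact this (h m hmS)

theorem cII_cover {a b : ℝ} (hb : b < a + 1) (y : ℝ)
    (h : ¬ ((y : Circ) ∈ (fun x : ℝ => (x : Circ)) '' Ioo a b)) :
    (y : Circ) ∈ (fun x : ℝ => (x : Circ)) '' Icc b (a + 1) := by
  set k : ℤ := ⌊y - a⌋ with hk
  have h1 : (k : ℝ) ≤ y - a := Int.floor_le _
  have h2 : y - a < k + 1 := Int.lt_floor_add_one _
  have hco : ((y - k : ℝ) : Circ) = (y : Circ) := (cII_eq_iff _ _).mpr ⟨-k, by push_cast; ring⟩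
  rcases (show a ≤ y - k by linarith).eq_or_lt with h3 | h3
  · refine ⟨a + 1, ⟨hb.le, le_rfl⟩, ?_⟩
    refine (cII_eq_iff _ _).mpr ⟨-k + 1, ?_⟩
    push_cast
    linarith
  · rcases lt_or_ge (y - k) b with h4 | h4
    · exact absurd ⟨y - k, ⟨h3, h4⟩, hco⟩ h
    · exact ⟨y - k, ⟨h4, by linarith⟩, hco⟩

theorem cII_coe_iter (f : Circ → Circ) (F : ℝ → ℝ) (hFf : ∀ x : ℝ, ((F x : ℝ) : Circ) = f (x : Circ))
    (n : ℕ) (x : ℝ) : ((F^[n] x : ℝ) : Circ) = f^[n] (x : Circ) := by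
  induction n generalizing x with
  | zero => rfl
  | succ n ih => rw [Function.iterate_succ_apply, Function.iterate_succ_apply, ih, hFf]

theorem cII_cd (F : ℝ → ℝ) (hF : ContDiff ℝ 1 F) (n : ℕ) : ContDiff ℝ 1 F^[n] := by
  induction n with
  | zero => exact contDiff_id
  | succ n ih => exact ih.comp hF

theorem cII_sq {g : ℝ → ℝ} {u v : ℝ} (hu : g u = u ∨ g u = v) (hv : g v = u ∨ g v = v) :
    ((g ∘ g) u = u ∧ (g ∘ g) v = v) ∨ ((g ∘ g) u = u ∧ (g ∘ g) v = u) ∨ ((g ∘ g) u = v ∧ (g ∘ g) v = v) := by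
  simp only [Function.comp]
  rcases hu with h1 | h1 <;> rcases hv with h2 | h2
  · right; left; simp [h1, h2]
  · left; simp [h1, h2]
  · left; simp [h1, h2]
  · right; right; simp [h1, h2]


theorem caseII_data (f : Circ → Circ) (hf : Continuous f) (hNW : NW f) (F : ℝ → ℝ)
    (hF : ContDiff ℝ 1 F) (hFf : ∀ x : ℝ, ((F x : ℝ) : Circ) = f (x : Circ))
    (hNA : ¬ NoArc f) :
    ∃ (M : ℕ) (G1 G2 : ℝ → ℝ) (a b : ℝ), 1 ≤ M ∧ a < b ∧ b < a + 1 ∧
      ContDiff ℝ 1 G1 ∧ ContDiff ℝ 1 G2 ∧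
      (∀ x : ℝ, ((G1 x : ℝ) : Circ) = f^[M] (x : Circ)) ∧
      (∀ x : ℝ, ((G2 x : ℝ) : Circ) = f^[M] (x : Circ)) ∧
      MapsTo G1 (Icc a b) (Icc a b) ∧ MapsTo G2 (Icc b (a + 1)) (Icc b (a + 1)) ∧
      ((G1 a = a ∧ G1 b = b) ∨ (G1 a = a ∧ G1 b = a) ∨ (G1 a = b ∧ G1 b = b)) ∧
      ((G2 b = b ∧ G2 (a + 1) = a + 1) ∨ (G2 b = b ∧ G2 (a + 1) = b) ∨
        (G2 b = a + 1 ∧ G2 (a + 1) = a + 1)) := by
  unfold NoArc at hNA
  push Not at hNA
  obtain ⟨C, hCc, hCp, hCi, hCu, n, hn, hmap⟩ := hNA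
  obtain ⟨a, b, hab, hb1, hC⟩ := closed_connected_eq_arc C hCc hCp hCi hCu
  have hFc : Continuous F := hF.continuous
  have hHc : Continuous F^[n] := hFc.iterate n
  have hHs : ContDiff ℝ 1 F^[n] := cII_cd F hF n
  have hHf : ∀ x : ℝ, ((F^[n] x : ℝ) : Circ) = f^[n] (x : Circ) := cII_coe_iter f F hFf n
  obtain ⟨k, hk⟩ := cII_conn (a := a) (b := b) hb1 (S := F^[n] '' Icc a b)
    (isPreconnected_Icc.image _ hHc.continuousOn) ((nonempty_Icc.mpr hab.le).image _) (by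
      rintro _ ⟨x, hx, rfl⟩
      rw [hHf, ← hC]
      exact hmap (by rw [hC]; exact ⟨x, hx, rfl⟩))
  set G0 : ℝ → ℝ := fun x => F^[n] x - k with hG0
  have hG0c : Continuous G0 := hHc.sub continuous_const
  have hG0s : ContDiff ℝ 1 G0 := hHs.sub contDiff_const
  have hG0f : ∀ x : ℝ, ((G0 x : ℝ) : Circ) = f^[n] (x : Circ) := by
    intro x
    rw [← hHf]
    exact (cII_eq_iff _ _).mpr ⟨-k, by simp [hG0]; ring⟩
  have hG0m : MapsTo G0 (Icc a b) (Icc a b) := by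
    intro x hx
    have := hk ⟨x, hx, rfl⟩
    exact ⟨by simp only [hG0]; linarith [this.1], by simp only [hG0]; linarith [this.2]⟩
  have hopen : ∀ u v : ℝ, IsOpen ((fun x : ℝ => (x : Circ)) '' Ioo u v) := by
    intro u v
    exact QuotientAddGroup.isOpenMap_coe _ isOpen_Ioo
  have hfn : Continuous f^[n] := hf.iterate n
  have hNWc : ∀ t ∈ Ioo b (a + 1), ¬ (((G0 t : ℝ) : Circ) ∈ (fun x : ℝ => (x : Circ)) '' Ioo a b) := by
    intro t ht hcon
    rw [hG0f] at hcon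
    obtain ⟨j, hj, y, ⟨x, hxU, hxy⟩, hyU⟩ := hNW n hn
      (f^[n] ⁻¹' ((fun x : ℝ => (x : Circ)) '' Ioo a b) ∩ ((fun x : ℝ => (x : Circ)) '' Ioo b (a + 1)))
      (((hopen a b).preimage hfn).inter (hopen b (a + 1))) ⟨(t : Circ), hcon, t, ht, rfl⟩
    have hx1 : f^[n] x ∈ C := by
      rw [hC]
      obtain ⟨s, hs, hs2⟩ := hxU.1
      exact ⟨s, Ioo_subset_Icc_self hs, hs2⟩
    have hy : y ∈ C := by
      obtain ⟨i, rfl⟩ : ∃ i, j = i + 1 := ⟨j - 1, by omega⟩
      rw [← hxy, Function.iterate_mul, Function.iterate_succ_apply]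
      exact hmap.iterate i hx1
    obtain ⟨s, hs, hs2⟩ := hyU.2
    rw [hC, ← hs2] at hy
    exact cII_gap (a := a) (b := b) (x := s) (k := 0) (by simpa using hs) hy
  have hNWc' : ∀ t ∈ Icc b (a + 1), ¬ (((G0 t : ℝ) : Circ) ∈ (fun x : ℝ => (x : Circ)) '' Ioo a b) := by
    have hcl : IsClosed {t : ℝ | ¬ (((G0 t : ℝ) : Circ) ∈ (fun x : ℝ => (x : Circ)) '' Ioo a b)} := by
      have hcc : Continuous (fun t : ℝ => ((G0 t : ℝ) : Circ)) := (AddCircle.continuous_mk' 1).comp hG0c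
      exact ((hopen a b).preimage hcc).isClosed_compl
    intro t ht
    rw [← closure_Ioo (by linarith : b ≠ a + 1)] at ht
    exact (closure_minimal hNWc hcl) ht
  obtain ⟨j, hj⟩ := cII_conn (a := b) (b := a + 1) (by linarith) (S := G0 '' Icc b (a + 1))
    (isPreconnected_Icc.image _ hG0c.continuousOn) ((nonempty_Icc.mpr hb1.le).image _) (by
      rintro _ ⟨x, hx, rfl⟩
      exact cII_cover hb1 _ (hNWc' x hx))
  have hb_1 := hG0m (right_mem_Icc.mpr hab.le)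
  have ha_1 := hG0m (left_mem_Icc.mpr hab.le)
  have hb_2 := hj ⟨b, left_mem_Icc.mpr hb1.le, rfl⟩
  have ha_2 := hj ⟨a + 1, right_mem_Icc.mpr hb1.le, rfl⟩
  have hj0 : j ≤ 0 := by
    have : (j : ℝ) ≤ 0 := by linarith [hb_1.2, hb_2.1]
    exact_mod_cast this
  have hj1 : -1 ≤ j := by
    have : (-1 : ℝ) ≤ j := by linarith [hb_1.1, hb_2.2]
    exact_mod_cast this
  have hGa : ∃ i : ℤ, G0 (a + 1) = G0 a + i := by
    apply (cII_eq_iff _ _).mp
    rw [hG0f, hG0f]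
    congr 1
    exact (cII_eq_iff _ _).mpr ⟨1, by simp⟩
  obtain ⟨i, hi⟩ := hGa
  have hi1 : i ≤ j + 1 := by
    have : (i : ℝ) ≤ j + 1 := by linarith [ha_1.1, ha_2.2]
    exact_mod_cast this
  have hi2 : j ≤ i := by
    have : (j : ℝ) ≤ i := by linarith [ha_1.2, ha_2.1]
    exact_mod_cast this
  have hends : (G0 a = b ∧ G0 (a + 1) = b + j) ∨ (G0 a = a ∧ G0 (a + 1) = a + 1 + j) := by
    rcases (show i = j ∨ i = j + 1 by omega) with h | h
    · left
      rw [h] at hi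
      have : G0 a = b := le_antisymm ha_1.2 (by linarith [ha_2.1])
      exact ⟨this, by rw [hi, this]⟩
    · right
      rw [h] at hi
      push_cast at hi
      have : G0 a = a := le_antisymm (by linarith [ha_2.2]) ha_1.1
      exact ⟨this, by rw [hi, this]; ring⟩
  have hbe : (j = 0 ∧ G0 b = b) ∨ (j = -1 ∧ G0 b = a) := by
    rcases (show j = 0 ∨ j = -1 by omega) with h | h
    · left
      rw [h] at hb_2
      exact ⟨h, le_antisymm hb_1.2 (by simpa using hb_2.1)⟩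
    · right
      rw [h] at hb_2
      refine ⟨h, le_antisymm ?_ hb_1.1⟩
      have := hb_2.2
      push_cast at this
      linarith
  set G' : ℝ → ℝ := fun x => G0 x - j with hG'
  have hG's : ContDiff ℝ 1 G' := hG0s.sub contDiff_const
  have hG'f : ∀ x : ℝ, ((G' x : ℝ) : Circ) = f^[n] (x : Circ) := by
    intro x
    rw [← hG0f]
    exact (cII_eq_iff _ _).mpr ⟨-j, by simp [hG']; ring⟩
  have hG'm : MapsTo G' (Icc b (a + 1)) (Icc b (a + 1)) := by
    intro x hx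
    have := hj ⟨x, hx, rfl⟩
    exact ⟨by simp only [hG']; linarith [this.1], by simp only [hG']; linarith [this.2]⟩
  refine ⟨n + n, G0 ∘ G0, G' ∘ G', a, b, by omega, hab, hb1, hG0s.comp hG0s, hG's.comp hG's, ?_, ?_,
    hG0m.comp hG0m, hG'm.comp hG'm, ?_, ?_⟩
  · intro x
    rw [Function.iterate_add_apply, Function.comp_apply, hG0f, hG0f]
  · intro x
    rw [Function.iterate_add_apply, Function.comp_apply, hG'f, hG'f]
  · apply cII_sq
    · rcases hends with h | h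
      · exact Or.inr h.1
      · exact Or.inl h.1
    · rcases hbe with h | h
      · exact Or.inr h.2
      · exact Or.inl h.2
  · apply cII_sq
    · rcases hbe with h | h
      · left; simp only [hG']; rw [h.1, h.2]; simp
      · right; simp only [hG']; rw [h.1, h.2]; push_cast; ring
    · rcases hends with h | h
      · left; simp only [hG']; rw [h.2]; ring
      · right; simp only [hG']; rw [h.2]; ring

end X_caseII_data

alias caseII_data := X_caseII_data.caseII_data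

theorem circ_open_infinite (U : Set Circ) (hU : IsOpen U) (hne : U.Nonempty) : U.Infinite := by
  haveI : Fact ((0 : ℝ) < 1) := ⟨one_pos⟩
  obtain ⟨y, hy⟩ := hne
  obtain ⟨x, rfl⟩ := QuotientAddGroup.mk_surjective y
  have hV : IsOpen ((fun t : ℝ => (t : Circ)) ⁻¹' U) := hU.preimage (AddCircle.continuous_mk' 1)
  obtain ⟨ε, hε, hsub⟩ := Metric.isOpen_iff.1 hV x hy
  have hinf : (Ioo x (min (x + ε) (x + 1))).Infinite :=
    Ioo_infinite (lt_min (by linarith) (by linarith))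
  refine infinite_of_injOn_mapsTo (f := fun t : ℝ => (t : Circ)) (s := Ioo x (min (x + ε) (x + 1)))
    ?_ ?_ hinf
  · intro a ha b hb hab
    refine (AddCircle.coe_eq_coe_iff_of_mem_Ico (p := (1 : ℝ)) (a := x) ?_ ?_).1 hab
    · exact ⟨ha.1.le, lt_of_lt_of_le ha.2 (min_le_right _ _)⟩
    · exact ⟨hb.1.le, lt_of_lt_of_le hb.2 (min_le_right _ _)⟩
  · intro a ha
    apply hsub
    rw [Metric.mem_ball, Real.dist_eq, abs_of_pos (by linarith [ha.1])]
    linarith [lt_of_lt_of_le ha.2 (min_le_left _ _)]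

theorem caseII (f : Circ → Circ) (hf : Continuous f) (h : IsCPE f) (hNW : NW f) (hLt : Lt f)
    (F : ℝ → ℝ) (hF : ContDiff ℝ 1 F) (hFf : ∀ x : ℝ, ((F x : ℝ) : Circ) = f (x : Circ))
    (hNA : ¬ NoArc f) :
    ∃ S : Set (Set Circ), S.Finite ∧ (∀ W ∈ S, HP f W) ∧ Dense (⋃₀ S) := by
  obtain ⟨M, G1, G2, a, b, hM, hab, hba, hG1, hG2, hG1f, hG2f, hm1, hm2, he1, he2⟩ :=
    caseII_data f hf hNW F hF hFf hNA
  obtain ⟨S1, hS1f, hS1, hc1⟩ := arc_blocks f hNW hLt G1 hG1 M hM hG1f a b hab (by linarith)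
    hm1 he1
  obtain ⟨S2, hS2f, hS2, hc2⟩ := arc_blocks f hNW hLt G2 hG2 M hM hG2f b (a + 1) (by linarith)
    (by linarith) hm2 he2
  haveI : Fact ((0 : ℝ) < 1) := ⟨one_pos⟩
  haveI hnt : Nontrivial Circ := by
    obtain ⟨x, _, y, _, hxy⟩ := (circ_open_infinite univ isOpen_univ univ_nonempty).nontrivial
    exact ⟨x, y, hxy⟩
  have hSf : (S1 ∪ S2).Finite := hS1f.union hS2f
  refine ⟨(fun p : ℝ × ℝ => (fun x : ℝ => (x : Circ)) '' Ioo p.1 p.2) '' (S1 ∪ S2),
    hSf.image _, ?_, ?_⟩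
  · rintro W ⟨p, hp | hp, rfl⟩
    · exact (hS1 p hp).2.2.2
    · exact (hS2 p hp).2.2.2
  · rw [dense_iff_inter_open]
    intro V hV hVne
    obtain ⟨E, hEdef⟩ : ∃ E : Set Circ, E = ((fun p : ℝ × ℝ => (p.1 : Circ)) '' (S1 ∪ S2)) ∪
      ((fun p : ℝ × ℝ => (p.2 : Circ)) '' (S1 ∪ S2)) := ⟨_, rfl⟩
    have hEf : E.Finite := by
      rw [hEdef]
      exact (hSf.image _).union (hSf.image _)
    have hVE : IsOpen (V \ E) := hV.sdiff hEf.isClosed
    have hVEne : (V \ E).Nonempty := ((circ_open_infinite V hV hVne).diff hEf).nonempty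
    have hint := fix_interior_empty f hf h M hM
    obtain ⟨v, hv, hvM⟩ : ∃ v ∈ V \ E, f^[M] v ≠ v := by
      by_contra hcon
      push Not at hcon
      obtain ⟨v, hv⟩ := hVEne
      have hsub : V \ E ⊆ interior {x | f^[M] x = x} :=
        interior_maximal (fun x hx => hcon x hx) hVE
      rw [hint] at hsub
      exact hsub hv
    have hvE : v ∉ E := hv.2
    obtain ⟨t, ht, rfl⟩ : ∃ t ∈ Ico a (a + 1), (t : Circ) = v := by
      have hh : v ∈ ((↑) : ℝ → AddCircle (1 : ℝ)) '' Ico a (a + 1) := by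
        rw [AddCircle.coe_image_Ico_eq]
        exact mem_univ _
      exact hh
    have hfin : ∀ p ∈ S1 ∪ S2, t ∈ Icc p.1 p.2 →
        (V ∩ ⋃₀ ((fun p : ℝ × ℝ => (fun x : ℝ => (x : Circ)) '' Ioo p.1 p.2) '' (S1 ∪ S2))).Nonempty := by
      intro p hp htp
      have h1 : t ≠ p.1 := by
        intro h1
        apply hvE
        rw [hEdef]
        exact Or.inl ⟨p, hp, by simp only [h1]⟩
      have h2 : t ≠ p.2 := by
        intro h2
        apply hvE
        rw [hEdef]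
        exact Or.inr ⟨p, hp, by simp only [h2]⟩
      exact ⟨(t : Circ), hv.1, _, ⟨p, hp, rfl⟩, t,
        ⟨lt_of_le_of_ne htp.1 (Ne.symm h1), lt_of_le_of_ne htp.2 h2⟩, rfl⟩
    rcases le_total t b with htb | htb
    · rcases hc1 t ⟨ht.1, htb⟩ with h1 | ⟨p, hp, h1⟩
      · exact absurd (by rw [← hG1f t, h1]) hvM
      · exact hfin p (Or.inl hp) h1
    · rcases hc2 t ⟨htb, ht.2.le⟩ with h1 | ⟨p, hp, h1⟩
      · exact absurd (by rw [← hG2f t, h1]) hvM
      · exact hfin p (Or.inr hp) h1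

theorem cover_of_noArc (f : Circ → Circ) (hf : Continuous f) (hNW : NW f) (hNA : NoArc f)
    (U : Set Circ) (hU : IsOpen U) (hUc : IsPreconnected U) (hne : U.Nonempty) (m : ℕ)
    (hm : 1 ≤ m) :
    ∃ (n : ℕ) (e : Circ), 1 ≤ n ∧ m ∣ n ∧ (⋃ i : ℕ, f^[n * i] '' U)ᶜ ⊆ {e} := by
  obtain ⟨j, hj, hmeet⟩ := hNW m hm U hU hne
  obtain ⟨n, hn⟩ : ∃ n, n = m * j := ⟨_, rfl⟩
  rw [← hn] at hmeet
  have hn1 : 1 ≤ n := by rw [hn]; exact Nat.mul_pos hm hj
  obtain ⟨D, hD⟩ : ∃ D : Set Circ, D = ⋃ i : ℕ, f^[n * i] '' U := ⟨_, rfl⟩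
  have hDp : IsPreconnected D := by
    rw [hD]
    apply IsPreconnected.iUnion_of_chain
    · intro i
      exact hUc.image _ (hf.iterate _).continuousOn
    · intro i
      obtain ⟨z, ⟨x, hx, hxz⟩, hz⟩ := hmeet
      refine ⟨f^[n * i] z, ⟨z, hz, rfl⟩, ⟨x, hx, ?_⟩⟩
      change f^[n * (i + 1)] x = f^[n * i] z
      rw [Nat.mul_add, Nat.mul_one, Function.iterate_add_apply, hxz]
  have hUD : U ⊆ D := by
    intro x hx
    rw [hD, Set.mem_iUnion]
    exact ⟨0, x, hx, rfl⟩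
  have hmaps : MapsTo f^[n] D D := by
    intro x hx
    rw [hD, Set.mem_iUnion] at hx ⊢
    obtain ⟨i, y, hy, hyx⟩ := hx
    refine ⟨i + 1, y, hy, ?_⟩
    rw [Nat.mul_add, Nat.mul_one, Nat.add_comm, Function.iterate_add_apply, hyx]
  have hmaps' : MapsTo f^[n] (closure D) (closure D) := hmaps.closure (hf.iterate n)
  have hdense : Dense D := by
    by_contra hnd
    have h1 : closure D ≠ univ := fun h => hnd (dense_iff_closure_eq.mpr h)
    have h2 : (interior (closure D)).Nonempty := by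
      obtain ⟨x, hx⟩ := hne
      exact ⟨x, mem_interior.mpr ⟨U, hUD.trans subset_closure, hU, hx⟩⟩
    exact hNA (closure D) isClosed_closure hDp.closure h2 h1 n hn1 hmaps'
  obtain ⟨e, he⟩ := compl_of_dense_connected D hDp hdense
  refine ⟨n, e, hn1, ⟨j, hn⟩, ?_⟩
  rw [← hD]
  exact he

namespace X_dense_orbit

theorem trans_of_noArc (f : Circ → Circ) (hf : Continuous f) (hNW : NW f) (hNA : NoArc f)
    (U V : Set Circ) (hU : IsOpen U) (hUne : U.Nonempty) (hV : IsOpen V) (hVne : V.Nonempty) :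
    ∃ i : ℕ, ∃ x ∈ U, f^[i] x ∈ V := by
  obtain ⟨x0, hx0⟩ := hUne
  obtain ⟨x, rfl⟩ := QuotientAddGroup.mk_surjective x0
  have hopen : IsOpen ((fun y : ℝ => (y : Circ)) ⁻¹' U) :=
    hU.preimage (AddCircle.continuous_mk' (1 : ℝ))
  obtain ⟨r, hr, hball⟩ := Metric.isOpen_iff.1 hopen x hx0
  have hU' : IsOpen ((fun y : ℝ => (y : Circ)) '' Metric.ball x r) :=
    QuotientAddGroup.isOpenMap_coe _ Metric.isOpen_ball
  have hU'c : IsPreconnected ((fun y : ℝ => (y : Circ)) '' Metric.ball x r) := by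
    apply IsPreconnected.image
    · rw [Real.ball_eq_Ioo]
      exact isPreconnected_Ioo
    · exact (AddCircle.continuous_mk' (1 : ℝ)).continuousOn
  have hU'n : ((fun y : ℝ => (y : Circ)) '' Metric.ball x r).Nonempty :=
    ⟨_, x, Metric.mem_ball_self hr, rfl⟩
  obtain ⟨n, e, -, -, hcov⟩ := cover_of_noArc f hf hNW hNA _ hU' hU'c hU'n 1 le_rfl
  obtain ⟨y, hyV, hye⟩ : ∃ y ∈ V, y ≠ e := by
    by_contra hcon
    push Not at hcon
    exact circ_open_infinite V hV hVne ((Set.finite_singleton e).subset hcon)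
  have hy : y ∈ ⋃ i : ℕ, f^[n * i] '' ((fun y : ℝ => (y : Circ)) '' Metric.ball x r) := by
    by_contra hcon
    exact hye (hcov hcon)
  obtain ⟨i, z, ⟨w, hw, hwz⟩, hz⟩ := Set.mem_iUnion.1 hy
  refine ⟨n * i, z, ?_, ?_⟩
  · rw [← hwz]
    exact hball hw
  · rw [hz]
    exact hyV


theorem dense_orbit (f : Circ → Circ) (hf : Continuous f) (hNW : NW f) (hNA : NoArc f) :
    ∃ x : Circ, Dense (range fun n : ℕ => f^[n] x) := by
  have hd : Dense (⋂ V ∈ TopologicalSpace.countableBasis Circ, ⋃ i : ℕ, f^[i] ⁻¹' V) := by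
    apply dense_biInter_of_isOpen
    · intro V hV
      exact isOpen_iUnion fun i =>
        (TopologicalSpace.isOpen_of_mem_countableBasis hV).preimage (hf.iterate i)
    · exact TopologicalSpace.countable_countableBasis Circ
    · intro V hV
      rw [dense_iff_inter_open]
      intro U hU hUne
      obtain ⟨i, x, hxU, hxV⟩ := trans_of_noArc f hf hNW hNA U V hU hUne
        (TopologicalSpace.isOpen_of_mem_countableBasis hV)
        (TopologicalSpace.nonempty_of_mem_countableBasis hV)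
      exact ⟨x, hxU, Set.mem_iUnion.2 ⟨i, hxV⟩⟩
  obtain ⟨x, hx⟩ := hd.nonempty
  refine ⟨x, ?_⟩
  rw [(TopologicalSpace.isBasis_countableBasis Circ).dense_iff]
  intro V hV _
  obtain ⟨i, hi⟩ := Set.mem_iUnion.1 (Set.mem_iInter₂.1 hx V hV)
  exact ⟨f^[i] x, hi, i, rfl⟩

end X_dense_orbit

alias dense_orbit := X_dense_orbit.dense_orbit

end Pool.Agent.Helper222.CPE
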