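import Mathlib
import Pool.Agent.Helper222.CPE.Defs
import Pool.Agent.Helper222.CPE.Ent

open Set Filter Topology

namespace Pool.Agent.Helper222.CPE

theorem exists_rho (F : ℝ → ℝ) (hF : Continuous F) (hF1 : ∀ x, F (x + 1) = F x + 1)
    (hnp : ∀ (k : ℕ) (q : ℤ) (x : ℝ), 1 ≤ k → F^[k] x ≠ x + q) :
    ∃ ρ : ℝ, ∀ (k : ℕ) (q : ℤ) (x : ℝ), 1 ≤ k →
      ((q : ℝ) < k * ρ ↔ x + q < F^[k] x) ∧ (q : ℝ) ≠ k * ρ := by
  have hper : ∀ (k : ℕ) (x : ℝ), F^[k] (x + 1) = F^[k] x + 1 := by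
    intro k
    induction k with
    | zero => intro x; rfl
    | succ k ih =>
      intro x
      rw [Function.iterate_succ_apply, Function.iterate_succ_apply, hF1, ih]
  have hcont : ∀ k : ℕ, Continuous (fun x => F^[k] x - x) := fun k =>
    (hF.iterate k).sub continuous_id
  have hP : ∀ k : ℕ, Function.Periodic (fun x => F^[k] x - x) 1 := by
    intro k x
    simp only [hper]
    ring
  -- the bounds
  have hb : ∀ k : ℕ, ∃ (m M : ℝ) (p : ℤ), 1 ≤ k → ((∀ x, m ≤ F^[k] x - x) ∧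
      (∀ x, F^[k] x - x ≤ M) ∧ (p : ℝ) < m ∧ M < p + 1) := by
    intro k
    by_cases hk : 1 ≤ k
    swap
    · exact ⟨0, 0, 0, fun h => absurd h hk⟩
    obtain ⟨x0, hx0, h0⟩ := (isCompact_Icc : IsCompact (Icc (0:ℝ) 1)).exists_isMinOn
      (nonempty_Icc.2 zero_le_one) (hcont k).continuousOn
    obtain ⟨x1, hx1, h1⟩ := (isCompact_Icc : IsCompact (Icc (0:ℝ) 1)).exists_isMaxOn
      (nonempty_Icc.2 zero_le_one) (hcont k).continuousOn
    refine ⟨F^[k] x0 - x0, F^[k] x1 - x1, ⌊F^[k] x0 - x0⌋, fun _ => ⟨?_, ?_, ?_, ?_⟩⟩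
    · intro x
      obtain ⟨y, hy, hxy⟩ := (hP k).exists_mem_Ico₀ zero_lt_one x
      have := isMinOn_iff.1 h0 y (Ico_subset_Icc_self hy)
      try simp only at hxy
      rw [hxy]
      exact this
    · intro x
      obtain ⟨y, hy, hxy⟩ := (hP k).exists_mem_Ico₀ zero_lt_one x
      have := isMaxOn_iff.1 h1 y (Ico_subset_Icc_self hy)
      try simp only at hxy
      rw [hxy]
      exact this
    · refine lt_of_le_of_ne (Int.floor_le _) ?_
      intro h
      apply hnp k ⌊F^[k] x0 - x0⌋ x0 hk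
      rw [h]
      ring
    · by_contra hcon
      push Not at hcon
      have hr : ((⌊F^[k] x0 - x0⌋ : ℝ) + 1) ∈ range (fun x => F^[k] x - x) :=
        mem_range_of_exists_le_of_exists_ge (hcont k)
          ⟨x0, (Int.lt_floor_add_one _).le⟩ ⟨x1, hcon⟩
      obtain ⟨z, hz⟩ := hr
      simp only at hz
      apply hnp k (⌊F^[k] x0 - x0⌋ + 1) z hk
      push_cast
      rw [← hz]
      ring
  choose m M p hmp using hb
  have hlow : ∀ k : ℕ, 1 ≤ k → ∀ (N : ℕ) (x : ℝ), (N : ℝ) * m k ≤ F^[k * N] x - x := by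
    intro k hk N
    induction N with
    | zero => intro x; simp
    | succ N ih =>
      intro x
      have h1 := ih x
      have h2 := (hmp k hk).1 (F^[k * N] x)
      have h3 : F^[k * (N + 1)] x = F^[k] (F^[k * N] x) := by
        rw [← Function.iterate_add_apply, mul_add, mul_one, add_comm]
      rw [h3]
      push_cast
      linarith
  have hupp : ∀ k : ℕ, 1 ≤ k → ∀ (N : ℕ) (x : ℝ), F^[k * N] x - x ≤ (N : ℝ) * M k := by
    intro k hk N
    induction N with
    | zero => intro x; simp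
    | succ N ih =>
      intro x
      have h1 := ih x
      have h2 := (hmp k hk).2.1 (F^[k * N] x)
      have h3 : F^[k * (N + 1)] x = F^[k] (F^[k * N] x) := by
        rw [← Function.iterate_add_apply, mul_add, mul_one, add_comm]
      rw [h3]
      push_cast
      linarith
  have hcross : ∀ k l : ℕ, 1 ≤ k → 1 ≤ l → m k / k ≤ M l / l := by
    intro k l hk hl
    have h1 := hlow k hk l 0
    have h2 := hupp l hl k 0
    rw [mul_comm l k] at h2
    have hk' : (0 : ℝ) < k := by exact_mod_cast hk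
    have hl' : (0 : ℝ) < l := by exact_mod_cast hl
    rw [div_le_div_iff₀ hk' hl']
    linarith
  let S : Set ℝ := {t | ∃ k : ℕ, 1 ≤ k ∧ t = m k / k}
  have hSne : S.Nonempty := ⟨m 1 / (1 : ℕ), 1, le_refl _, rfl⟩
  have hSb : ∀ l : ℕ, 1 ≤ l → ∀ t ∈ S, t ≤ M l / l := by
    rintro l hl t ⟨k, hk, rfl⟩
    exact hcross k l hk hl
  have hbdd : BddAbove S := ⟨M 1 / (1 : ℕ), fun t ht => hSb 1 (le_refl _) t ht⟩
  refine ⟨sSup S, ?_⟩
  intro k q x hk
  have hk' : (0 : ℝ) < k := by exact_mod_cast hk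
  have ha : m k ≤ k * sSup S := by
    have := le_csSup hbdd (show m k / k ∈ S from ⟨k, hk, rfl⟩)
    rw [div_le_iff₀ hk'] at this
    linarith
  have hb : k * sSup S ≤ M k := by
    have := csSup_le hSne (hSb k hk)
    rw [le_div_iff₀ hk'] at this
    linarith
  obtain ⟨h1, h2, h3, h4⟩ := hmp k hk
  have h5 := h1 x
  have h6 := h2 x
  refine ⟨⟨?_, ?_⟩, ?_⟩
  · intro hq
    have hq2 : (q : ℝ) < ((p k + 1 : ℤ) : ℝ) := by
      push_cast
      linarith
    have hq3 : q < p k + 1 := by exact_mod_cast hq2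
    have hq4 : q ≤ p k := by omega
    have hq5 : (q : ℝ) ≤ p k := by exact_mod_cast hq4
    linarith
  · intro hq
    have hq2 : (q : ℝ) < ((p k + 1 : ℤ) : ℝ) := by
      push_cast
      linarith
    have hq3 : q < p k + 1 := by exact_mod_cast hq2
    have hq4 : q ≤ p k := by omega
    have hq5 : (q : ℝ) ≤ p k := by exact_mod_cast hq4
    linarith
  · intro hq
    have hq2 : (q : ℝ) < ((p k + 1 : ℤ) : ℝ) := by
      push_cast
      linarith
    have hq3 : q < p k + 1 := by exact_mod_cast hq2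
    have hq6 : (p k : ℝ) < q := by linarith
    have hq7 : p k < q := by exact_mod_cast hq6
    omega

theorem forward_dense (ρ : ℝ) (hρ : ∀ (k : ℕ) (q : ℤ), 1 ≤ k → (q : ℝ) ≠ k * ρ) :
    Dense {t : ℝ | ∃ (N : ℕ) (p : ℤ), t = N * ρ + p} := by
  rw [Metric.dense_iff]
  intro t r hr
  obtain ⟨n, hn⟩ := exists_nat_one_div_lt hr
  obtain ⟨k, hk0, -, hk⟩ := Real.exists_nat_abs_mul_sub_round_le ρ (Nat.succ_pos n)
  obtain ⟨j, hj⟩ : ∃ j : ℤ, j = round ((k : ℝ) * ρ) := ⟨_, rfl⟩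
  rw [← hj] at hk
  obtain ⟨δ, hδ⟩ : ∃ δ : ℝ, δ = k * ρ - j := ⟨_, rfl⟩
  rw [← hδ] at hk
  have hδr : |δ| < r := by
    refine lt_of_le_of_lt (hk.trans ?_) hn
    apply one_div_le_one_div_of_le (by positivity)
    push_cast
    linarith
  have hδ0 : δ ≠ 0 := by
    intro h
    apply hρ k j hk0
    rw [hδ] at h
    linarith
  rcases lt_or_gt_of_ne hδ0 with h | h
  · -- negative step
    obtain ⟨i, hi⟩ : ∃ i : ℕ, i = ⌊((⌈t⌉ : ℝ) - t) / (-δ)⌋₊ := ⟨_, rfl⟩
    have hpos : 0 < -δ := by linarith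
    have h0 : 0 ≤ ((⌈t⌉ : ℝ) - t) / (-δ) :=
      div_nonneg (by linarith [Int.le_ceil t]) hpos.le
    have h1 : (i : ℝ) * (-δ) ≤ (⌈t⌉ : ℝ) - t := by
      rw [← le_div_iff₀ hpos, hi]
      exact Nat.floor_le h0
    have h2 : (⌈t⌉ : ℝ) - t < ((i : ℝ) + 1) * (-δ) := by
      rw [← div_lt_iff₀ hpos, hi]
      exact Nat.lt_floor_add_one _
    refine ⟨(⌈t⌉ : ℝ) + i * δ, ?_, i * k, ⌈t⌉ - i * j, ?_⟩
    · rw [Metric.mem_ball, Real.dist_eq]
      refine lt_of_le_of_lt ?_ hδr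
      rw [abs_of_neg h, abs_le]
      constructor <;> linarith
    · push_cast
      rw [hδ]
      ring
  · obtain ⟨i, hi⟩ : ∃ i : ℕ, i = ⌊(t - (⌊t⌋ : ℝ)) / δ⌋₊ := ⟨_, rfl⟩
    have h0 : 0 ≤ (t - (⌊t⌋ : ℝ)) / δ :=
      div_nonneg (by linarith [Int.floor_le t]) h.le
    have h1 : (i : ℝ) * δ ≤ t - (⌊t⌋ : ℝ) := by
      rw [← le_div_iff₀ h, hi]
      exact Nat.floor_le h0
    have h2 : t - (⌊t⌋ : ℝ) < ((i : ℝ) + 1) * δ := by
      rw [← div_lt_iff₀ h, hi]
      exact Nat.lt_floor_add_one _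
    refine ⟨(⌊t⌋ : ℝ) + i * δ, ?_, i * k, ⌊t⌋ - i * j, ?_⟩
    · rw [Metric.mem_ball, Real.dist_eq]
      refine lt_of_le_of_lt ?_ hδr
      rw [abs_of_pos h, abs_le]
      constructor <;> linarith
    · push_cast
      rw [hδ]
      ring

namespace X_exists_H

theorem eH_int (F : ℝ → ℝ) (hF1 : ∀ x, F (x + 1) = F x + 1) (y : ℝ) (p : ℤ) :
    F (y + p) = F y + p := by
  induction p using Int.induction_on with
  | zero => simp
  | succ i ih =>
    have h := hF1 (y + (i : ℤ))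
    have e : y + (((i : ℤ) + 1 : ℤ) : ℝ) = y + ((i : ℤ) : ℝ) + 1 := by push_cast; ring
    rw [e, h, ih]
    push_cast
    ring
  | pred i ih =>
    have h := hF1 (y + ((-(i : ℤ) - 1 : ℤ) : ℝ))
    have e : y + ((-(i : ℤ) - 1 : ℤ) : ℝ) + 1 = y + ((-(i : ℤ) : ℤ) : ℝ) := by push_cast; ring
    rw [e, ih] at h
    push_cast at h ⊢
    linarith

theorem eH_order (F : ℝ → ℝ) (ρ : ℝ)
    (hρ : ∀ (k : ℕ) (q : ℤ) (x : ℝ), 1 ≤ k →
      ((q : ℝ) < k * ρ ↔ x + q < F^[k] x) ∧ (q : ℝ) ≠ k * ρ)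
    (hnp : ∀ (k : ℕ) (q : ℤ) (x : ℝ), 1 ≤ k → F^[k] x ≠ x + q)
    (x : ℝ) (N N' : ℕ) (p p' : ℤ) (h : F^[N'] x + p' ≤ F^[N] x + p) :
    (N' : ℝ) * ρ + p' ≤ N * ρ + p := by
  rcases Nat.lt_or_ge N N' with hlt | hge
  · obtain ⟨k, rfl⟩ : ∃ k, N' = k + N := ⟨N' - N, by omega⟩
    rw [Function.iterate_add_apply] at h
    have h1 := (hρ k (p - p') (F^[N] x) (by omega)).1
    have h2 : ¬ (F^[N] x + ((p - p' : ℤ) : ℝ) < F^[k] (F^[N] x)) := by
      push_cast
      linarith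
    rw [← h1] at h2
    push_cast at h2 ⊢
    linarith
  · obtain ⟨k, rfl⟩ : ∃ k, N = k + N' := ⟨N - N', by omega⟩
    rw [Function.iterate_add_apply] at h
    rcases Nat.eq_zero_or_pos k with rfl | hk
    · simp only [Function.iterate_zero, id] at h
      have h3 : (p' : ℝ) ≤ p := by linarith
      rw [zero_add]
      linarith
    · have h1 := (hρ k (p' - p) (F^[N'] x) hk).1
      have h2 : F^[N'] x + ((p' - p : ℤ) : ℝ) < F^[k] (F^[N'] x) := by
        refine lt_of_le_of_ne ?_ (hnp k (p' - p) (F^[N'] x) hk).symm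
        push_cast
        linarith
      rw [← h1] at h2
      push_cast at h2 ⊢
      linarith


theorem exists_H (F : ℝ → ℝ) (hF : Continuous F) (hF1 : ∀ x, F (x + 1) = F x + 1)
    (hnp : ∀ (k : ℕ) (q : ℤ) (x : ℝ), 1 ≤ k → F^[k] x ≠ x + q) (ρ : ℝ)
    (hρ : ∀ (k : ℕ) (q : ℤ) (x : ℝ), 1 ≤ k →
      ((q : ℝ) < k * ρ ↔ x + q < F^[k] x) ∧ (q : ℝ) ≠ k * ρ)
    (x : ℝ) (hx : Dense {t : ℝ | ∃ (N : ℕ) (p : ℤ), t = F^[N] x + p}) :
    ∃ H : ℝ → ℝ, Continuous H ∧ (∀ t, H (t + 1) = H t + 1) ∧ ∀ t, H (F t) = H t + ρ := by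
  let S : ℝ → Set ℝ := fun t => {s | ∃ (N : ℕ) (p : ℤ), s = N * ρ + p ∧ F^[N] x + p ≤ t}
  have hne : ∀ t, (S t).Nonempty := by
    intro t
    refine ⟨_, 0, ⌊t - x⌋, rfl, ?_⟩
    have := Int.floor_le (t - x)
    simp only [Function.iterate_zero, id]
    linarith
  have hbd : ∀ t, BddAbove (S t) := by
    intro t
    refine ⟨((0 : ℕ) : ℝ) * ρ + (⌈t - x⌉ : ℤ), ?_⟩
    rintro s ⟨N, p, rfl, hle⟩
    refine eH_order F ρ hρ hnp x 0 N ⌈t - x⌉ p ?_
    have := Int.le_ceil (t - x)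
    simp only [Function.iterate_zero, id]
    linarith
  let H : ℝ → ℝ := fun t => sSup (S t)
  have hmono : Monotone H := by
    intro t t' htt
    refine csSup_le_csSup (hbd t') (hne t) ?_
    rintro s ⟨N, p, rfl, hle⟩
    exact ⟨N, p, rfl, hle.trans htt⟩
  have hval : ∀ (N : ℕ) (p : ℤ), H (F^[N] x + p) = N * ρ + p := by
    intro N p
    refine (IsGreatest.csSup_eq ⟨⟨N, p, rfl, le_rfl⟩, ?_⟩)
    rintro s ⟨N', p', rfl, hle⟩
    exact eH_order F ρ hρ hnp x N N' p p' hle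
  have hdr : DenseRange H := by
    refine Dense.mono ?_ (forward_dense ρ fun k q hk => (hρ k q x hk).2)
    rintro t ⟨N, p, rfl⟩
    exact ⟨_, hval N p⟩
  have hcont : Continuous H := hmono.continuous_of_denseRange hdr
  refine ⟨H, hcont, ?_, ?_⟩
  · have h1 : (fun t => H (t + 1)) = fun t => H t + 1 := by
      refine Continuous.ext_on hx (by fun_prop) (by fun_prop) ?_
      rintro t ⟨N, p, rfl⟩
      have h2 := hval N (p + 1)
      show H (F^[N] x + p + 1) = H (F^[N] x + p) + 1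
      have e : F^[N] x + (p : ℝ) + 1 = F^[N] x + ((p + 1 : ℤ) : ℝ) := by push_cast; ring
      rw [e, h2, hval]
      push_cast
      ring
    exact fun t => congrFun h1 t
  · have h1 : (fun t => H (F t)) = fun t => H t + ρ := by
      refine Continuous.ext_on hx (hcont.comp hF) (by fun_prop) ?_
      rintro t ⟨N, p, rfl⟩
      show H (F (F^[N] x + p)) = H (F^[N] x + p) + ρ
      rw [eH_int F hF1, ← Function.iterate_succ_apply' F N x, hval, hval]
      push_cast
      ring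
    exact fun t => congrFun h1 t

end X_exists_H

alias exists_H := X_exists_H.exists_H

namespace X_exists_periodic

theorem EP_coe_eq {x y : ℝ} (h : ((x : ℝ) : Circ) = (y : Circ)) : ∃ n : ℤ, x = y + n := by
  have h1 : ((x - y : ℝ) : Circ) = 0 := by
    rw [AddCircle.coe_sub, h, sub_self]
  obtain ⟨n, hn⟩ := AddCircle.coe_eq_zero_iff (p := (1:ℝ)) |>.mp h1
  refine ⟨n, ?_⟩
  rw [zsmul_eq_mul, mul_one] at hn
  linarith

theorem EP_coe_add_int (x : ℝ) (n : ℤ) : ((x + n : ℝ) : Circ) = (x : Circ) := by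
  rw [AddCircle.coe_add]
  have h1 : ((n : ℝ) : Circ) = 0 :=
    (AddCircle.coe_eq_zero_iff (p := (1:ℝ))).mpr ⟨n, by rw [zsmul_eq_mul, mul_one]⟩
  rw [h1, add_zero]

theorem EP_int_const (φ : ℝ → ℝ) (hφ : Continuous φ) (h : ∀ x, ∃ n : ℤ, φ x = n) :
    ∃ d : ℤ, ∀ x, φ x = d := by
  obtain ⟨d, hd⟩ := h 0
  refine ⟨d, fun x => ?_⟩
  obtain ⟨m, hm⟩ := h x
  by_contra hne
  have hmd : m ≠ d := by
    intro h'
    exact hne (by rw [hm, h'])
  -- an intermediate value
  have hv : (min (m : ℝ) d + 1 / 2) ∈ uIcc (φ 0) (φ x) := by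
    rw [hd, hm]
    rcases lt_or_gt_of_ne hmd with h1 | h1
    · have h2 : (m : ℝ) + 1 ≤ d := by exact_mod_cast h1
      rw [min_eq_left (by linarith), mem_uIcc]
      right
      exact ⟨by linarith, by linarith⟩
    · have h2 : (d : ℝ) + 1 ≤ m := by exact_mod_cast h1
      rw [min_eq_right (by linarith), mem_uIcc]
      left
      exact ⟨by linarith, by linarith⟩
  obtain ⟨c, -, hc⟩ := intermediate_value_uIcc hφ.continuousOn hv
  obtain ⟨k, hk⟩ := h c
  rw [hk] at hc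
  rcases min_choice (m : ℝ) d with h3 | h3 <;> rw [h3] at hc
  · have h4 : (2 : ℝ) * k = 2 * m + 1 := by linarith
    have h5 : 2 * k = 2 * m + 1 := by exact_mod_cast h4
    omega
  · have h4 : (2 : ℝ) * k = 2 * d + 1 := by linarith
    have h5 : 2 * k = 2 * d + 1 := by exact_mod_cast h4
    omega

theorem EP_deg (f : Circ → Circ) (F : ℝ → ℝ)
    (hF : Continuous F) (hFf : ∀ x : ℝ, ((F x : ℝ) : Circ) = f (x : Circ))
    (hno : ∀ p : Circ, f p ≠ p) : ∀ x, F (x + 1) = F x + 1 := by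
  obtain ⟨d, hd⟩ := EP_int_const (fun x => F (x + 1) - F x) (by fun_prop) (by
    intro x
    have h1 : ((F (x + 1) : ℝ) : Circ) = (F x : Circ) := by
      rw [hFf, hFf]
      congr 1
      have := EP_coe_add_int x 1
      simpa using this
    obtain ⟨n, hn⟩ := EP_coe_eq h1
    exact ⟨n, by rw [hn]; ring⟩)
  by_cases hd1 : d = 1
  · intro x
    have := hd x
    rw [hd1] at this
    push_cast at this
    linarith
  · exfalso
    -- an integer value of `F x - x`
    have hcont : Continuous (fun x => F x - x) := by fun_prop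
    have h0 := hd 0
    rw [zero_add] at h0
    have key : ∃ (q : ℤ) (x : ℝ), F x - x = q := by
      rcases lt_or_gt_of_ne hd1 with h1 | h1
      · have h2 : (d : ℝ) ≤ 0 := by
          have : d ≤ 0 := by omega
          exact_mod_cast this
        have h3 : ((⌊F 0⌋ : ℤ) : ℝ) ∈ Icc (F 1 - 1) (F 0 - 0) := by
          have a1 := Int.floor_le (F 0)
          have a2 := Int.lt_floor_add_one (F 0)
          constructor <;> linarith
        obtain ⟨x, -, hx⟩ := intermediate_value_Icc' zero_le_one hcont.continuousOn h3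
        exact ⟨_, x, hx⟩
      · have h2 : (2 : ℝ) ≤ d := by
          have : 2 ≤ d := by omega
          exact_mod_cast this
        have h3 : ((⌈F 0⌉ : ℤ) : ℝ) ∈ Icc (F 0 - 0) (F 1 - 1) := by
          have a1 := Int.le_ceil (F 0)
          have a2 := Int.ceil_lt_add_one (F 0)
          constructor <;> linarith
        obtain ⟨x, -, hx⟩ := intermediate_value_Icc zero_le_one hcont.continuousOn h3
        exact ⟨_, x, hx⟩
    obtain ⟨q, x, hx⟩ := key
    apply hno (x : Circ)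
    rw [← hFf]
    have : F x = x + q := by linarith
    rw [this, EP_coe_add_int]

theorem EP_iter (f : Circ → Circ) (F : ℝ → ℝ)
    (hFf : ∀ x : ℝ, ((F x : ℝ) : Circ) = f (x : Circ)) (k : ℕ) (x : ℝ) :
    ((F^[k] x : ℝ) : Circ) = f^[k] (x : Circ) := by
  induction k with
  | zero => rfl
  | succ k ih => rw [Function.iterate_succ_apply', Function.iterate_succ_apply', hFf, ih]


theorem exists_periodic (f : Circ → Circ) (hf : Continuous f) (h : IsCPE f) (F : ℝ → ℝ)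
    (hF : Continuous F) (hFf : ∀ x : ℝ, ((F x : ℝ) : Circ) = f (x : Circ)) (x0 : Circ)
    (hx0 : Dense (range fun n : ℕ => f^[n] x0)) :
    ∃ (M : ℕ) (p : Circ), 1 ≤ M ∧ f^[M] p = p := by
  by_contra hcon
  push Not at hcon
  have hF1 : ∀ x, F (x + 1) = F x + 1 := EP_deg f F hF hFf (fun p hp => hcon 1 p le_rfl hp)
  have hnp : ∀ (k : ℕ) (q : ℤ) (x : ℝ), 1 ≤ k → F^[k] x ≠ x + q := by
    intro k q x hk hx
    apply hcon k (x : Circ) hk
    rw [← EP_iter f F hFf, hx, EP_coe_add_int]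
  obtain ⟨ρ, hρ⟩ := exists_rho F hF hF1 hnp
  obtain ⟨x, rfl⟩ := QuotientAddGroup.mk_surjective x0
  have hdense : Dense {t : ℝ | ∃ (N : ℕ) (p : ℤ), t = F^[N] x + p} := by
    have h1 : {t : ℝ | ∃ (N : ℕ) (p : ℤ), t = F^[N] x + p}
        = (fun t : ℝ => (t : Circ)) ⁻¹' (range fun n : ℕ => f^[n] (x : Circ)) := by
      ext t
      constructor
      · rintro ⟨N, p, rfl⟩
        refine ⟨N, ?_⟩
        show f^[N] (x : Circ) = ((F^[N] x + p : ℝ) : Circ)
        rw [EP_coe_add_int, EP_iter f F hFf]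
      · rintro ⟨N, hN⟩
        have h2 : ((t : ℝ) : Circ) = ((F^[N] x : ℝ) : Circ) := by
          rw [EP_iter f F hFf]
          exact hN.symm
        obtain ⟨p, hp⟩ := EP_coe_eq h2
        exact ⟨N, p, hp⟩
    rw [h1]
    exact hx0.preimage QuotientAddGroup.isOpenMap_coe
  obtain ⟨H, hH, hH1, hHF⟩ := exists_H F hF hF1 hnp ρ hρ x hdense
  -- the factor
  have hper : Function.Periodic (fun t : ℝ => ((H t : ℝ) : Circ)) 1 := by
    intro t
    show ((H (t + 1) : ℝ) : Circ) = (H t : Circ)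
    rw [hH1]
    have := EP_coe_add_int (H t) 1
    simpa using this
  set π : Circ → Circ := hper.lift with hπ
  have hπc : ∀ t : ℝ, π (t : Circ) = ((H t : ℝ) : Circ) := fun t => hper.lift_coe t
  have hπcont : Continuous π := by
    have hq : IsQuotientMap ((↑) : ℝ → Circ) := QuotientAddGroup.isOpenQuotientMap_mk.isQuotientMap
    rw [hq.continuous_iff]
    have h1 : π ∘ ((↑) : ℝ → Circ) = fun t : ℝ => ((H t : ℝ) : Circ) := funext hπc
    rw [h1]
    exact (AddCircle.continuous_mk' 1).comp hH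
  have hπsurj : Function.Surjective π := by
    intro z
    obtain ⟨y, rfl⟩ := QuotientAddGroup.mk_surjective z
    have h1 : (y + (⌈H 0 - y⌉ : ℤ) : ℝ) ∈ Icc (H 0) (H 1) := by
      have a1 := Int.le_ceil (H 0 - y)
      have a2 := Int.ceil_lt_add_one (H 0 - y)
      have a3 := hH1 0
      rw [zero_add] at a3
      constructor <;> linarith
    obtain ⟨t, -, ht⟩ := intermediate_value_Icc zero_le_one hH.continuousOn h1
    refine ⟨(t : Circ), ?_⟩
    rw [hπc, ht, EP_coe_add_int]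
  have hcomm : ∀ z, π (f z) = π z + (ρ : Circ) := by
    intro z
    obtain ⟨t, rfl⟩ := QuotientAddGroup.mk_surjective z
    show π (f (t : Circ)) = π (t : Circ) + (ρ : Circ)
    rw [← hFf, hπc, hπc, hHF, AddCircle.coe_add]
  have hnt : Nontrivial Circ := by
    refine ⟨⟨((1 / 2 : ℝ) : Circ), 0, fun h0 => ?_⟩⟩
    obtain ⟨n, hn⟩ := (AddCircle.coe_eq_zero_iff (p := (1:ℝ))).mp h0
    rw [zsmul_eq_mul, mul_one] at hn
    have h2 : (2 : ℝ) * n = 1 := by linarith
    have h3 : 2 * n = 1 := by exact_mod_cast h2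
    omega
  exact not_pos_of_isometry (fun y : Circ => y + (ρ : Circ)) (fun x y => dist_add_right x y _)
    (h Circ (fun y : Circ => y + (ρ : Circ)) π (by fun_prop) hπcont hπsurj hcomm hnt)

end X_exists_periodic

alias exists_periodic := X_exists_periodic.exists_periodic

end Pool.Agent.Helper222.CPE
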