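import Mathlib
import Pool.Agent.Helper222.CPE.Defs
import Pool.Agent.Helper222.CPE.Circle
import Pool.Agent.Helper222.CPE.Rot
import Pool.Agent.Helper222.CPE.Borel

open Set Filter Topology

namespace Pool.Agent.Helper222.CPE

namespace X_caseI_exceptional

theorem cpe_coe_eq_iff (a b : ℝ) : (a : Circ) = (b : Circ) ↔ ∃ k : ℤ, a = b + k := by
  rw [← sub_eq_zero, ← AddCircle.coe_sub, AddCircle.coe_eq_zero_iff]
  constructor
  · rintro ⟨n, hn⟩
    refine ⟨n, ?_⟩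
    simp at hn
    linarith
  · rintro ⟨k, hk⟩
    refine ⟨k, ?_⟩
    simp
    linarith

theorem cpe_coe_add_int (a : ℝ) (k : ℤ) : ((a + k : ℝ) : Circ) = (a : Circ) :=
  (cpe_coe_eq_iff _ _).2 ⟨k, rfl⟩

theorem cpe_coe_sub_int (a : ℝ) (k : ℤ) : ((a - k : ℝ) : Circ) = (a : Circ) :=
  (cpe_coe_eq_iff _ _).2 ⟨-k, by push_cast; ring⟩


theorem caseI_exceptional (f : Circ →  Circ) (hf : Continuous f) (hNW : NW f) (hNA : NoArc f)
    (F : ℝ → ℝ) (hF : Continuous F) (hFf : ∀ x : ℝ, ((F x : ℝ) : Circ) = f (x : Circ))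
    (M : ℕ) (hM : 1 ≤ M) (p : Circ) (hp : f^[M] p = p) (hex : ∀ x, f^[M] x = p → x = p) :
    ∃ S : Set (Set Circ), S.Finite ∧ (∀ W ∈ S, HP f W) ∧ Dense (⋃₀ S) := by
  obtain ⟨t0, rfl⟩ : ∃ t0 : ℝ, (t0 : Circ) = p := QuotientAddGroup.mk_surjective p
  have hlift : ∀ (n : ℕ) (x : ℝ), ((F^[n] x : ℝ) : Circ) = f^[n] (x : Circ) := by
    intro n
    induction n with
    | zero => intro x; rfl
    | succ n ih =>
      intro x
      rw [Function.iterate_succ_apply', Function.iterate_succ_apply', hFf, ih]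
  obtain ⟨k, hk⟩ : ∃ k : ℤ, F^[M] t0 = t0 + k := by
    rw [← cpe_coe_eq_iff, hlift M t0, hp]
  let H : ℝ → ℝ := fun x => F^[M] x - k - t0
  have hHc : Continuous H := ((hF.iterate M).sub continuous_const).sub continuous_const
  have hH0 : H t0 = 0 := by simp only [H, hk]; ring
  have hHne : ∀ x ∈ Ioo t0 (t0 + 1), ∀ j : ℤ, H x ≠ j := by
    intro x hx j hj
    have h1 : F^[M] x = t0 + ((j + k : ℤ) : ℝ) := by
      simp only [H] at hj
      push_cast
      linarith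
    have h2 : f^[M] (x : Circ) = (t0 : Circ) := by
      rw [← hlift M x, h1]
      exact cpe_coe_add_int _ _
    have h3 := hex _ h2
    obtain ⟨i, hi⟩ := (cpe_coe_eq_iff _ _).1 h3
    have h4 : (0 : ℝ) < i := by linarith [hx.1]
    have h5 : (i : ℝ) < 1 := by linarith [hx.2]
    have h6 : (0 : ℤ) < i := by exact_mod_cast h4
    have h7 : i < (1 : ℤ) := by exact_mod_cast h5
    omega
  have hlt1 : ∀ x ∈ Ioo t0 (t0 + 1), H x < 1 := by
    intro x hx
    by_contra hcon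
    push Not at hcon
    obtain ⟨y, hy, hy1⟩ := intermediate_value_Icc hx.1.le hHc.continuousOn
      (show (1 : ℝ) ∈ Icc (H t0) (H x) from ⟨by rw [hH0]; norm_num, hcon⟩)
    have hyne : y ≠ t0 := by
      rintro rfl
      rw [hH0] at hy1; norm_num at hy1
    exact hHne y ⟨lt_of_le_of_ne hy.1 (Ne.symm hyne), lt_of_le_of_lt hy.2 hx.2⟩ 1 (by simpa using hy1)
  have hgt1 : ∀ x ∈ Ioo t0 (t0 + 1), -1 < H x := by
    intro x hx
    by_contra hcon
    push Not at hcon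
    obtain ⟨y, hy, hy1⟩ := intermediate_value_Icc' hx.1.le hHc.continuousOn
      (show (-1 : ℝ) ∈ Icc (H x) (H t0) from ⟨hcon, by rw [hH0]; norm_num⟩)
    have hyne : y ≠ t0 := by
      rintro rfl
      rw [hH0] at hy1; norm_num at hy1
    exact hHne y ⟨lt_of_le_of_ne hy.1 (Ne.symm hyne), lt_of_le_of_lt hy.2 hx.2⟩ (-1)
      (by simpa using hy1)
  have hsign : (∀ x ∈ Ioo t0 (t0 + 1), 0 < H x) ∨ (∀ x ∈ Ioo t0 (t0 + 1), H x < 0) := by
    by_contra hcon
    push Not at hcon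
    obtain ⟨⟨x, hx, hx0⟩, ⟨y, hy, hy0⟩⟩ := hcon
    have hpc : IsPreconnected (H '' Ioo t0 (t0 + 1)) :=
      isPreconnected_Ioo.image H hHc.continuousOn
    have h0 : (0 : ℝ) ∈ H '' Ioo t0 (t0 + 1) :=
      hpc.ordConnected.out (mem_image_of_mem H hx) (mem_image_of_mem H hy) ⟨hx0, hy0⟩
    obtain ⟨z, hz, hz0⟩ := h0
    exact hHne z hz 0 (by simpa using hz0)
  -- the good lift
  obtain ⟨G, hGc, hGf, hGm⟩ : ∃ G : ℝ → ℝ, Continuous G ∧
      (∀ x : ℝ, ((G x : ℝ) : Circ) = f^[M] (x : Circ)) ∧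
      MapsTo G (Ioo t0 (t0 + 1)) (Ioo t0 (t0 + 1)) := by
    rcases hsign with h | h
    · refine ⟨fun x => F^[M] x - k, (hF.iterate M).sub continuous_const, ?_, ?_⟩
      · intro x
        rw [cpe_coe_sub_int, hlift]
      · intro x hx
        have h1 := h x hx
        have h2 := hlt1 x hx
        simp only [H] at h1 h2
        constructor <;> simp only <;> linarith
    · refine ⟨fun x => F^[M] x - ((k - 1 : ℤ) : ℝ), (hF.iterate M).sub continuous_const, ?_, ?_⟩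
      · intro x
        rw [cpe_coe_sub_int, hlift]
      · intro x hx
        have h1 := h x hx
        have h2 := hgt1 x hx
        simp only [H] at h1 h2
        constructor <;> push_cast <;> linarith
  have hGI : MapsTo G (Icc t0 (t0 + 1)) (Icc t0 (t0 + 1)) := by
    have := hGm.closure hGc
    rwa [closure_Ioo (by linarith : t0 ≠ t0 + 1)] at this
  have hGn : ∀ (n : ℕ) (x : ℝ), ((G^[n] x : ℝ) : Circ) = f^[M * n] (x : Circ) := by
    intro n
    induction n with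
    | zero => intro x; simp
    | succ n ih =>
      intro x
      rw [Function.iterate_succ_apply', hGf, ih, ← Function.iterate_add_apply]
      have e : M + M * n = M * (n + 1) := by ring
      rw [e]
  have hblock : IsBlock G t0 (t0 + 1) := by
    refine ⟨by linarith, hGI, ?_⟩
    intro n hn a b ha hab hb hmaps
    by_contra hcon
    have hba : b - a < 1 := by
      by_contra h
      push Not at h
      exact hcon ⟨by linarith, by linarith⟩
    have hcl : IsClosed ((fun x : ℝ => (x : Circ)) '' Icc a b) :=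
      (isCompact_Icc.image (AddCircle.continuous_mk' (1 : ℝ))).isClosed
    have hpc : IsPreconnected ((fun x : ℝ => (x : Circ)) '' Icc a b) :=
      isPreconnected_Icc.image _ (AddCircle.continuous_mk' (1 : ℝ)).continuousOn
    have hint : (interior ((fun x : ℝ => (x : Circ)) '' Icc a b)).Nonempty := by
      refine ⟨(((a + b) / 2 : ℝ) : Circ), ?_⟩
      have ho : IsOpen ((fun x : ℝ => (x : Circ)) '' Ioo a b) :=
        QuotientAddGroup.isOpenMap_coe _ isOpen_Ioo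
      refine interior_maximal (image_mono Ioo_subset_Icc_self) ho ?_
      exact ⟨(a + b) / 2, ⟨by linarith, by linarith⟩, rfl⟩
    have hne : ((fun x : ℝ => (x : Circ)) '' Icc a b) ≠ univ := by
      intro huniv
      have : (((b + (a + 1)) / 2 : ℝ) : Circ) ∈ ((fun x : ℝ => (x : Circ)) '' Icc a b) := by
        rw [huniv]; trivial
      obtain ⟨x, hx, hxe⟩ := this
      obtain ⟨i, hi⟩ := (cpe_coe_eq_iff _ _).1 hxe
      have h4 : (-1 : ℝ) < i := by linarith [hx.1, hx.2]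
      have h5 : (i : ℝ) < 0 := by linarith [hx.1, hx.2]
      have h6 : (-1 : ℤ) < i := by exact_mod_cast h4
      have h7 : i < (0 : ℤ) := by exact_mod_cast h5
      omega
    refine hNA _ hcl hpc hint hne (M * n) (Nat.mul_pos hM hn) ?_
    rintro _ ⟨x, hx, rfl⟩
    exact ⟨G^[n] x, hmaps hx, hGn n x⟩
  refine ⟨{(fun x : ℝ => (x : Circ)) '' Ioo t0 (t0 + 1)}, finite_singleton _, ?_, ?_⟩
  · intro W hW
    rw [mem_singleton_iff] at hW
    subst hW
    exact HP_of_block f hNW G hGc M hM hGf t0 (t0 + 1) le_rfl hblock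
  · rw [sUnion_singleton]
    intro x
    have h1 := image_closure_subset_closure_image (s := Ioo t0 (t0 + 1))
      (AddCircle.continuous_mk' (1 : ℝ))
    rw [closure_Ioo (by linarith : t0 ≠ t0 + 1)] at h1
    have h2 : ((↑) : ℝ → Circ) '' Icc t0 (t0 + 1) = univ := AddCircle.coe_image_Icc_eq 1 t0
    apply h1
    change x ∈ ((↑) : ℝ → Circ) '' Icc t0 (t0 + 1)
    rw [h2]
    trivial

end X_caseI_exceptional

alias caseI_exceptional := X_caseI_exceptional.caseI_exceptional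

namespace X_eventually_hits

theorem evh_aux (f : Circ → Circ) (M : ℕ) (p u : Circ) (hp : f^[M] p = p) (k : ℕ)
    (hu : f^[M * k] u = p) (j : ℕ) (hj : k ≤ j) : f^[M * j] u = p := by
  have h1 : M * j = M * (j - k) + M * k := by
    rw [← Nat.mul_add, Nat.sub_add_cancel hj]
  rw [h1, Function.iterate_add_apply, hu, Function.iterate_mul]
  exact (show Function.IsFixedPt (f^[M]) p from hp).iterate (j - k)

theorem evh_arc (U : Set Circ) (hU : IsOpen U) (hne : U.Nonempty) :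
    ∃ V : Set Circ, IsOpen V ∧ IsPreconnected V ∧ V.Nonempty ∧ V ⊆ U := by
  obtain ⟨z, hz⟩ := hne
  obtain ⟨x, rfl⟩ := QuotientAddGroup.mk_surjective z
  have hc : Continuous (fun x : ℝ => (x : Circ)) := AddCircle.continuous_mk' 1
  have h1 : (fun x : ℝ => (x : Circ)) ⁻¹' U ∈ 𝓝 x := (hU.preimage hc).mem_nhds hz
  obtain ⟨r, hr, h2⟩ := Metric.mem_nhds_iff.1 h1
  refine ⟨(fun x : ℝ => (x : Circ)) '' Metric.ball x r, ?_, ?_, ?_, ?_⟩
  · exact QuotientAddGroup.isOpenMap_coe _ Metric.isOpen_ball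
  · exact (convex_ball x r).isPreconnected.image _ hc.continuousOn
  · exact ⟨_, x, Metric.mem_ball_self hr, rfl⟩
  · exact Set.image_subset_iff.2 h2


theorem eventually_hits (f : Circ → Circ) (hf : Continuous f) (hNW : NW f) (hNA : NoArc f)
    (M : ℕ) (hM : 1 ≤ M) (p q : Circ) (hp : f^[M] p = p) (hq : f^[M] q = p) (hqp : q ≠ p)
    (U : Set Circ) (hU : IsOpen U) (hne : U.Nonempty) :
    ∃ J : ℕ, ∀ j : ℕ, J ≤ j → p ∈ f^[M * j] '' U := by
  obtain ⟨V, hV, hVc, hVne, hVU⟩ := evh_arc U hU hne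
  obtain ⟨n, e, hn, ⟨t, rfl⟩, hcov⟩ := cover_of_noArc f hf hNW hNA V hV hVc hVne M hM
  by_cases hpD : p ∈ ⋃ i : ℕ, f^[M * t * i] '' V
  · rw [Set.mem_iUnion] at hpD
    obtain ⟨i, u, hu, hup⟩ := hpD
    rw [Nat.mul_assoc] at hup
    exact ⟨t * i, fun j hj => ⟨u, hVU hu, evh_aux f M p u hp _ hup j hj⟩⟩
  · have hqD : q ∈ ⋃ i : ℕ, f^[M * t * i] '' V := by
      by_contra hqD
      have h1 : p = e := hcov hpD
      have h2 : q = e := hcov hqD
      exact hqp (h2.trans h1.symm)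
    rw [Set.mem_iUnion] at hqD
    obtain ⟨i, u, hu, huq⟩ := hqD
    rw [Nat.mul_assoc] at huq
    have h3 : f^[M * (t * i + 1)] u = p := by
      rw [Nat.mul_add, Nat.mul_one, Nat.add_comm, Function.iterate_add_apply, huq, hq]
    exact ⟨t * i + 1, fun j hj => ⟨u, hVU hu, evh_aux f M p u hp _ h3 j hj⟩⟩

end X_eventually_hits

alias eventually_hits := X_eventually_hits.eventually_hits

namespace X_four_arcs

theorem four_arcs (f : Circ → Circ) (hf : Continuous f) (hNW : NW f) (hLt : Lt f)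
    (hNA : NoArc f) (M : ℕ) (hM : 1 ≤ M) (p q : Circ) (hp : f^[M] p = p) (hq : f^[M] q = p)
    (hqp : q ≠ p) :
    ∃ 𝒜 : Set (Set Circ), 𝒜.Finite ∧
      (∀ Q ∈ 𝒜, IsClosed Q ∧ IsPreconnected Q ∧ (interior Q).Nonempty) ∧
      ∀ U : Set Circ, IsOpen U → U.Nonempty →
        ∃ Q ∈ 𝒜, ∃ j : ℕ, 1 ≤ j ∧ Q ⊆ f^[M * j] '' U := by
  have hcont : Continuous (fun x : ℝ => (x : Circ)) := AddCircle.continuous_mk' 1
  have hopen : IsOpenMap (fun x : ℝ => (x : Circ)) := QuotientAddGroup.isOpenMap_coe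
  obtain ⟨a, ha⟩ : ∃ a : ℝ, (a : Circ) = p := QuotientAddGroup.mk_surjective p
  have hmemQ : ∀ c d : ℝ, c < d → IsClosed ((fun x : ℝ => (x : Circ)) '' Icc c d) ∧
      IsPreconnected ((fun x : ℝ => (x : Circ)) '' Icc c d) ∧
      (interior ((fun x : ℝ => (x : Circ)) '' Icc c d)).Nonempty := by
    intro c d hcd
    refine ⟨(isCompact_Icc.image hcont).isClosed,
      isPreconnected_Icc.image _ hcont.continuousOn, ?_⟩
    have h1 : (fun x : ℝ => (x : Circ)) '' Ioo c d ⊆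
        interior ((fun x : ℝ => (x : Circ)) '' Icc c d) :=
      interior_maximal (image_mono Ioo_subset_Icc_self) (hopen _ isOpen_Ioo)
    exact ((nonempty_Ioo.2 hcd).image _).mono h1
  have hb12 : ((a + 1 / 3 : ℝ) : Circ) ≠ ((a + 2 / 3 : ℝ) : Circ) := by
    intro h
    have := (AddCircle.coe_eq_coe_iff_of_mem_Ico (p := (1:ℝ)) (a := a)
      (x := a + 1 / 3) (y := a + 2 / 3)
      ⟨by linarith, by linarith⟩ ⟨by linarith, by linarith⟩).1 h
    linarith
  refine ⟨{(fun x : ℝ => (x : Circ)) '' Icc a (a + 1 / 3),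
    (fun x : ℝ => (x : Circ)) '' Icc (a + 1 / 3) (a + 1),
    (fun x : ℝ => (x : Circ)) '' Icc a (a + 2 / 3),
    (fun x : ℝ => (x : Circ)) '' Icc (a + 2 / 3) (a + 1)}, Set.toFinite _, ?_, ?_⟩
  · intro Q hQ
    simp only [mem_insert_iff, mem_singleton_iff] at hQ
    rcases hQ with rfl | rfl | rfl | rfl
    · exact hmemQ _ _ (by linarith)
    · exact hmemQ _ _ (by linarith)
    · exact hmemQ _ _ (by linarith)
    · exact hmemQ _ _ (by linarith)
  · intro U hU hne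
    -- shrink to an arc
    obtain ⟨x0, hx0⟩ := hne
    obtain ⟨t0, rfl⟩ : ∃ t0 : ℝ, (t0 : Circ) = x0 := QuotientAddGroup.mk_surjective x0
    have hpre : IsOpen ((fun x : ℝ => (x : Circ)) ⁻¹' U) := hU.preimage hcont
    obtain ⟨ε, hε, hball⟩ := Metric.isOpen_iff.1 hpre t0 hx0
    rw [Real.ball_eq_Ioo] at hball
    set U' : Set Circ := (fun x : ℝ => (x : Circ)) '' Ioo (t0 - ε) (t0 + ε) with hU'
    have hU'o : IsOpen U' := hopen _ isOpen_Ioo
    have hU'c : IsPreconnected U' := isPreconnected_Ioo.image _ hcont.continuousOn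
    have hU'n : U'.Nonempty := (nonempty_Ioo.2 (by linarith)).image _
    have hU'U : U' ⊆ U := by
      rintro _ ⟨x, hx, rfl⟩
      exact hball hx
    obtain ⟨J0, hJ0⟩ := eventually_hits f hf hNW hNA M hM p q hp hq hqp U' hU'o hU'n
    set J := max J0 1 with hJ
    have hpreim : ∀ n : ℕ, IsPreconnected (f^[n] '' U') := fun n =>
      hU'c.image _ (hf.iterate n).continuousOn
    obtain ⟨y0, hy0⟩ := hU'n
    obtain ⟨y1, hy1, hy01⟩ := hLt (M * J) U' (f^[M * J] y0) hU'o ⟨y0, hy0⟩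
    obtain ⟨c', hc'⟩ : ∃ c' : ℝ, (c' : Circ) = f^[M * J] y0 := QuotientAddGroup.mk_surjective _
    obtain ⟨e', he', he''⟩ : ∃ e' ∈ Ico c' (c' + 1), (e' : Circ) = f^[M * J] y1 := by
      have h1 : f^[M * J] y1 ∈ ((↑) : ℝ → AddCircle (1:ℝ)) '' Ico c' (c' + 1) := by
        rw [AddCircle.coe_image_Ico_eq]; trivial
      obtain ⟨e', h2, h3⟩ := h1
      exact ⟨e', h2, h3⟩
    have hce : c' < e' := by
      rcases lt_or_eq_of_le he'.1 with h | h
      · exact h
      · exfalso; apply hy01; rw [← he'', ← hc', h]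
    obtain ⟨c'', e1, hce'', hsub⟩ : ∃ c'' e1 : ℝ, c'' < e1 ∧
        (fun x : ℝ => (x : Circ)) '' Icc c'' e1 ⊆ f^[M * J] '' U' := by
      rcases arc_of_connected _ (hpreim (M * J)) c' e' hce he'.2
        (by rw [hc']; exact mem_image_of_mem _ hy0)
        (by rw [he'']; exact mem_image_of_mem _ hy1) with h | h
      · exact ⟨c', e', hce, h⟩
      · exact ⟨e', c' + 1, he'.2, h⟩
    set U'' : Set Circ := (fun x : ℝ => (x : Circ)) '' Ioo c'' e1 with hU''
    have hU''o : IsOpen U'' := hopen _ isOpen_Ioo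
    have hU''c : IsPreconnected U'' := isPreconnected_Ioo.image _ hcont.continuousOn
    have hU''n : U''.Nonempty := (nonempty_Ioo.2 hce'').image _
    have hU''s : U'' ⊆ f^[M * J] '' U' := (image_mono Ioo_subset_Icc_self).trans hsub
    obtain ⟨n, e, hn, hMn, hcov⟩ := cover_of_noArc f hf hNW hNA U'' hU''o hU''c hU''n M hM
    obtain ⟨t, rfl⟩ := hMn
    obtain ⟨b, hb, i, hi⟩ : ∃ b : ℝ, (b = a + 1 / 3 ∨ b = a + 2 / 3) ∧
        ∃ i : ℕ, (b : Circ) ∈ f^[M * t * i] '' U'' := by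
      by_contra hcon
      push Not at hcon
      have h1 : ((a + 1 / 3 : ℝ) : Circ) ∈ (⋃ i : ℕ, f^[M * t * i] '' U'')ᶜ := by
        intro h
        obtain ⟨i, hi⟩ := mem_iUnion.1 h
        exact hcon _ (Or.inl rfl) i hi
      have h2 : ((a + 2 / 3 : ℝ) : Circ) ∈ (⋃ i : ℕ, f^[M * t * i] '' U'')ᶜ := by
        intro h
        obtain ⟨i, hi⟩ := mem_iUnion.1 h
        exact hcon _ (Or.inr rfl) i hi
      have h3 := hcov h1
      have h4 := hcov h2
      rw [mem_singleton_iff] at h3 h4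
      exact hb12 (h3.trans h4.symm)
    have hbJ : (b : Circ) ∈ f^[M * (t * i + J)] '' U' := by
      obtain ⟨z, hz, hzb⟩ := hi
      obtain ⟨w, hw, hwz⟩ := hU''s hz
      refine ⟨w, hw, ?_⟩
      rw [← hzb, ← hwz, ← Function.iterate_add_apply]
      congr 1
      ring
    have hpJ : (a : Circ) ∈ f^[M * (t * i + J)] '' U' := by
      rw [ha]
      apply hJ0
      have : J0 ≤ J := le_max_left _ _
      omega
    have hab : a < b := by rcases hb with rfl | rfl <;> linarith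
    have hba : b < a + 1 := by rcases hb with rfl | rfl <;> linarith
    have hJ1 : 1 ≤ J := le_max_right _ _
    have hUU : f^[M * (t * i + J)] '' U' ⊆ f^[M * (t * i + J)] '' U := image_mono hU'U
    rcases arc_of_connected _ (hpreim (M * (t * i + J))) a b hab hba hpJ hbJ with h | h
    · refine ⟨_, ?_, t * i + J, by omega, h.trans hUU⟩
      rcases hb with rfl | rfl <;> simp
    · refine ⟨_, ?_, t * i + J, by omega, h.trans hUU⟩
      rcases hb with rfl | rfl <;> simp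

end X_four_arcs

alias four_arcs := X_four_arcs.four_arcs

namespace X_cycle_arc

theorem cyc_trans {X : Type} [TopologicalSpace X] (f : X → X) (M : ℕ) {V Q Q' : Set X}
    (h1 : ∃ j : ℕ, 1 ≤ j ∧ Q ⊆ f^[M * j] '' V)
    (h2 : ∃ j : ℕ, 1 ≤ j ∧ Q' ⊆ f^[M * j] '' interior Q) :
    ∃ j : ℕ, 1 ≤ j ∧ Q' ⊆ f^[M * j] '' V := by
  obtain ⟨j, hj, hQ⟩ := h1
  obtain ⟨k, hk, hQ'⟩ := h2
  refine ⟨k + j, by omega, fun x hx => ?_⟩
  obtain ⟨y, hy, rfl⟩ := hQ' hx
  obtain ⟨z, hz, rfl⟩ := hQ (interior_subset hy)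
  refine ⟨z, hz, ?_⟩
  rw [mul_add, Function.iterate_add_apply]


theorem cycle_arc {X : Type} [TopologicalSpace X] (f : X → X) (M : ℕ) (𝒜 : Set (Set X))
    (hfin : 𝒜.Finite) (hi : ∀ Q ∈ 𝒜, (interior Q).Nonempty)
    (h : ∀ U : Set X, IsOpen U → U.Nonempty →
      ∃ Q ∈ 𝒜, ∃ j : ℕ, 1 ≤ j ∧ Q ⊆ f^[M * j] '' U) :
    ∀ U : Set X, IsOpen U → U.Nonempty →
      ∃ Q ∈ 𝒜, (∃ j : ℕ, 1 ≤ j ∧ Q ⊆ f^[M * j] '' U) ∧
        ∃ a : ℕ, 1 ≤ a ∧ Q ⊆ f^[M * a] '' interior Q := by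
  classical
  intro U hU hUne
  haveI : Finite 𝒜 := hfin.to_subtype
  have hnext : ∀ Q : 𝒜, ∃ Q' : 𝒜, ∃ j : ℕ, 1 ≤ j ∧ Q'.1 ⊆ f^[M * j] '' interior Q.1 := by
    intro Q
    obtain ⟨Q', hQ', j, hj, hsub⟩ := h (interior Q.1) isOpen_interior (hi Q.1 Q.2)
    exact ⟨⟨Q', hQ'⟩, j, hj, hsub⟩
  choose next hnext using hnext
  obtain ⟨Q0, hQ0, hj0⟩ := h U hU hUne
  let s : ℕ → 𝒜 := fun n => next^[n] ⟨Q0, hQ0⟩
  have hs : ∀ n, s (n + 1) = next (s n) := fun n => Function.iterate_succ_apply' _ _ _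
  have hA : ∀ i, ∃ j : ℕ, 1 ≤ j ∧ (s i).1 ⊆ f^[M * j] '' U := by
    intro i
    induction i with
    | zero => exact hj0
    | succ i ih =>
      rw [hs]
      exact cyc_trans f M ih (hnext (s i))
  have hB : ∀ i k, ∃ a : ℕ, 1 ≤ a ∧ (s (i + k + 1)).1 ⊆ f^[M * a] '' interior (s i).1 := by
    intro i k
    induction k with
    | zero =>
      rw [add_zero, hs]
      exact hnext (s i)
    | succ k ih =>
      rw [hs (i + (k + 1))]
      exact cyc_trans f M ih (hnext _)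
  obtain ⟨x, y, hxy, hsxy⟩ := Finite.exists_ne_map_eq_of_infinite s
  have key : ∀ x y, x < y → s x = s y → ∃ Q ∈ 𝒜, (∃ j : ℕ, 1 ≤ j ∧ Q ⊆ f^[M * j] '' U) ∧
        ∃ a : ℕ, 1 ≤ a ∧ Q ⊆ f^[M * a] '' interior Q := by
    intro x y hlt he
    obtain ⟨k, rfl⟩ : ∃ k, y = x + k + 1 := ⟨y - x - 1, by omega⟩
    refine ⟨(s x).1, (s x).2, hA x, ?_⟩
    have := hB x k
    rw [← he] at this
    exact this
  rcases lt_or_gt_of_ne hxy with h1 | h1
  · exact key x y h1 hsxy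
  · exact key y x h1 hsxy.symm

end X_cycle_arc

alias cycle_arc := X_cycle_arc.cycle_arc

namespace X_exhaust

theorem exhaust (f : Circ → Circ) (hf : Continuous f) (hNW : NW f) (hNA : NoArc f)
    (N : ℕ) (hN : 1 ≤ N) (Q : Set Circ) (hQ : IsClosed Q) (hQc : IsPreconnected Q)
    (hi : (interior Q).Nonempty) (hQQ : Q ⊆ f^[N] '' interior Q) :
    ∃ e : Circ, ∀ K : Set Circ, IsCompact K → e ∉ K → ∃ i : ℕ, K ⊆ f^[N * i] '' Q := by
  have hiter : ∀ (i : ℕ), Continuous f^[i] := fun i => hf.iterate i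
  have hQk : IsCompact Q := hQ.isCompact
  have hRk : ∀ i, IsCompact (f^[N * i] '' Q) := fun i => hQk.image (hiter _)
  have hRc : ∀ i, IsPreconnected (f^[N * i] '' Q) := fun i => hQc.image _ (hiter _).continuousOn
  have hstep : ∀ i, f^[N * i] '' Q ⊆ f^[N * (i + 1)] '' Q := by
    rintro i _ ⟨q, hq, rfl⟩
    obtain ⟨q', hq', rfl⟩ := hQQ hq
    refine ⟨q', interior_subset hq', ?_⟩
    rw [Nat.mul_succ, Function.iterate_add_apply]
  have hmono : Monotone (fun i => f^[N * i] '' Q) := monotone_nat_of_le_succ hstep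
  by_cases hcase : ∃ i, f^[N * i] '' Q = univ
  · obtain ⟨i, hi'⟩ := hcase
    exact ⟨0, fun K _ _ => ⟨i, by rw [hi']; exact subset_univ _⟩⟩
  push Not at hcase
  have hΓc : ∀ i, IsClosed (closure (f^[N * i] '' Q)ᶜ) := fun i => isClosed_closure
  have hΓa : ∀ i, closure (f^[N * (i + 1)] '' Q)ᶜ ⊆ closure (f^[N * i] '' Q)ᶜ := fun i =>
    closure_mono (compl_subset_compl.mpr (hstep i))
  have hΓn : ∀ i, (closure (f^[N * i] '' Q)ᶜ).Nonempty := fun i =>
    (nonempty_compl.mpr (hcase i)).mono subset_closure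
  obtain ⟨e0, he0⟩ := IsCompact.nonempty_iInter_of_sequence_nonempty_isCompact_isClosed
    (fun i => closure (f^[N * i] '' Q)ᶜ) hΓa hΓn (hΓc 0).isCompact hΓc
  refine ⟨e0, fun K hK heK => ?_⟩
  by_contra hcon
  push Not at hcon
  obtain ⟨k0, hk0⟩ := IsCompact.nonempty_iInter_of_sequence_nonempty_isCompact_isClosed
    (fun i => K ∩ closure (f^[N * i] '' Q)ᶜ) (fun i => inter_subset_inter_right _ (hΓa i))
    (fun i => by
      obtain ⟨z, hz, hz'⟩ := not_subset.mp (hcon i)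
      exact ⟨z, hz, subset_closure hz'⟩) (hK.inter_right (hΓc 0))
    (fun i => hK.isClosed.inter (hΓc i))
  rw [mem_iInter] at he0 hk0
  have hne : k0 ≠ e0 := by
    rintro rfl
    exact heK (hk0 0).1
  have hE : ∀ i, e0 ∉ interior (f^[N * i] '' Q) := by
    intro i h
    have := he0 i
    rw [closure_compl] at this
    exact this h
  have hKi : ∀ i, k0 ∉ interior (f^[N * i] '' Q) := by
    intro i h
    have := (hk0 i).2
    rw [closure_compl] at this
    exact this h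
  have hopen : ∀ a b : ℝ, IsOpen ((fun x : ℝ => (x : Circ)) '' Ioo a b) := fun a b =>
    QuotientAddGroup.isOpenMap_coe _ isOpen_Ioo
  have hcoe : Continuous (fun x : ℝ => (x : Circ)) := AddCircle.continuous_mk' _
  -- the arc U
  obtain ⟨q0, hq0⟩ := hi
  obtain ⟨x0, rfl⟩ := QuotientAddGroup.mk_surjective q0
  have hpre : IsOpen ((fun x : ℝ => (x : Circ)) ⁻¹' interior Q) := isOpen_interior.preimage hcoe
  obtain ⟨δ, hδ, hball⟩ := Metric.isOpen_iff.mp hpre x0 hq0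
  rw [Real.ball_eq_Ioo] at hball
  set U : Set Circ := (fun x : ℝ => (x : Circ)) '' Ioo (x0 - δ) (x0 + δ) with hU
  have hUQ : U ⊆ Q := by
    rintro _ ⟨z, hz, rfl⟩
    exact interior_subset (hball hz)
  obtain ⟨n, e1, hn1, ⟨t, rfl⟩, hcov⟩ := cover_of_noArc f hf hNW hNA U (hopen _ _)
    (isPreconnected_Ioo.image _ hcoe.continuousOn)
    ⟨_, ⟨x0, ⟨by linarith, by linarith⟩, rfl⟩⟩ N hN
  have hmem : ∀ z : Circ, z ≠ e1 → ∃ i, z ∈ f^[N * i] '' Q := by
    intro z hz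
    have h1 : z ∈ ⋃ i : ℕ, f^[N * t * i] '' U := by
      by_contra h2
      exact hz (hcov h2)
    obtain ⟨i, hi'⟩ := mem_iUnion.mp h1
    refine ⟨t * i, ?_⟩
    rw [mul_assoc] at hi'
    exact image_mono hUQ hi'
  obtain ⟨x, rfl⟩ := QuotientAddGroup.mk_surjective e0
  have hk' : k0 ∈ (fun x : ℝ => (x : Circ)) '' Ico x (x + 1) := by
    have := AddCircle.coe_image_Ico_eq (1 : ℝ) x
    rw [this]; exact mem_univ _
  obtain ⟨y, ⟨hy1, hy2⟩, rfl⟩ := hk'
  have hxy : x < y := by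
    rcases hy1.lt_or_eq with h | h
    · exact h
    · subst h
      exact absurd rfl hne
  have hinj : ∀ a b : ℝ, x ≤ a → a < x + 1 → x ≤ b → b < x + 1 → (a : Circ) = (b : Circ) → a = b := by
    intro a b h1 h2 h3 h4 h
    exact (AddCircle.coe_eq_coe_iff_of_mem_Ico (a := x) ⟨h1, h2⟩ ⟨h3, h4⟩).mp h
  have hpick : ∀ a b : ℝ, x ≤ a → a < b → b ≤ x + 1 → ∃ z ∈ Ioo a b, (z : Circ) ≠ e1 := by
    intro a b h1 h2 h3
    by_cases h : ((a + (b - a) / 3 : ℝ) : Circ) = e1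
    · refine ⟨a + 2 * (b - a) / 3, ⟨by linarith, by linarith⟩, ?_⟩
      intro h'
      have := hinj (a + (b - a) / 3) (a + 2 * (b - a) / 3) (by linarith) (by linarith)
        (by linarith) (by linarith) (h.trans h'.symm)
      linarith
    · exact ⟨a + (b - a) / 3, ⟨by linarith, by linarith⟩, h⟩
  obtain ⟨x1, ⟨h11, h12⟩, h13⟩ := hpick x y le_rfl hxy hy2.le
  obtain ⟨x2, ⟨h21, h22⟩, h23⟩ := hpick y (x + 1) hxy.le hy2 le_rfl
  obtain ⟨i1, hi1⟩ := hmem _ h13
  obtain ⟨i2, hi2⟩ := hmem _ h23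
  have hm1 : ((x1 : ℝ) : Circ) ∈ f^[N * max i1 i2] '' Q := hmono (le_max_left i1 i2) hi1
  have hm2 : ((x2 : ℝ) : Circ) ∈ f^[N * max i1 i2] '' Q := hmono (le_max_right i1 i2) hi2
  rcases arc_of_connected _ (hRc (max i1 i2)) x1 x2 (by linarith) (by linarith) hm1 hm2 with h | h
  · apply hKi (max i1 i2)
    exact (interior_maximal ((image_mono Ioo_subset_Icc_self).trans h) (hopen x1 x2))
      ⟨y, ⟨by linarith, by linarith⟩, rfl⟩
  · apply hE (max i1 i2)
    refine (interior_maximal ((image_mono Ioo_subset_Icc_self).trans h) (hopen x2 (x1 + 1)))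
      ⟨x + 1, ⟨by linarith, by linarith⟩, ?_⟩
    have : ((x + 1 : ℝ) : Circ) = (x : Circ) := AddCircle.coe_add_period _ _
    exact this

end X_exhaust

alias exhaust := X_exhaust.exhaust

theorem caseI_nonexceptional (f : Circ → Circ) (hf : Continuous f) (hNW : NW f) (hLt : Lt f)
    (hNA : NoArc f) (M : ℕ) (hM : 1 ≤ M) (p q : Circ) (hp : f^[M] p = p) (hq : f^[M] q = p)
    (hqp : q ≠ p) :
    ∃ S : Set (Set Circ), S.Finite ∧ (∀ W ∈ S, HP f W) ∧ Dense (⋃₀ S) := by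
  obtain ⟨𝒜, hfin, hA, hcov⟩ := four_arcs f hf hNW hLt hNA M hM p q hp hq hqp
  have hcyc := cycle_arc f M 𝒜 hfin (fun Q hQ => (hA Q hQ).2.2) hcov
  have hex : ∀ Q : Set Circ, ∃ e : Circ, ∃ a : ℕ,
      (Q ∈ 𝒜 ∧ (∃ a : ℕ, 1 ≤ a ∧ Q ⊆ f^[M * a] '' interior Q)) →
      1 ≤ a ∧ ∀ K : Set Circ, IsCompact K → e ∉ K → ∃ i : ℕ, K ⊆ f^[M * a * i] '' Q := by
    intro Q
    by_cases h : Q ∈ 𝒜 ∧ (∃ a : ℕ, 1 ≤ a ∧ Q ⊆ f^[M * a] '' interior Q)
    · obtain ⟨hQ, a, ha, hQQ⟩ := h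
      obtain ⟨h1, h2, h3⟩ := hA Q hQ
      obtain ⟨e, he⟩ := exhaust f hf hNW hNA (M * a) (Nat.mul_pos hM ha) Q h1 h2 h3 hQQ
      exact ⟨e, a, fun _ => ⟨ha, he⟩⟩
    · exact ⟨0, 0, fun h' => absurd h' h⟩
  choose e a hea using hex
  have hE : (e '' 𝒜).Finite := hfin.image e
  refine ⟨{(e '' 𝒜)ᶜ}, Set.finite_singleton _, ?_, ?_⟩
  · intro W hW
    rw [Set.mem_singleton_iff] at hW
    subst hW
    refine ⟨hE.isClosed.isOpen_compl, ?_⟩
    intro U V hU hV hUi hVi hUW hVW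
    have hK : IsCompact (U ∪ V) := hU.union hV
    have hKE : ∀ Q ∈ 𝒜, e Q ∉ U ∪ V := by
      intro Q hQ h
      rcases h with h | h
      · exact hUW h ⟨Q, hQ, rfl⟩
      · exact hVW h ⟨Q, hQ, rfl⟩
    have main : ∀ A : Set Circ, (interior A).Nonempty →
        ∃ m : ℕ, 1 ≤ m ∧ U ∪ V ⊆ f^[m] '' A := by
      intro A hAi
      obtain ⟨Q, hQ, ⟨j, hj, hQU⟩, hQQ⟩ := hcyc (interior A) isOpen_interior hAi
      obtain ⟨ha, hexh⟩ := hea Q ⟨hQ, hQQ⟩
      obtain ⟨i, hi⟩ := hexh (U ∪ V) hK (hKE Q hQ)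
      refine ⟨M * a Q * i + M * j, ?_, ?_⟩
      · have := Nat.mul_pos hM hj
        omega
      · rw [Function.iterate_add, Set.image_comp]
        exact hi.trans (Set.image_mono (hQU.trans (Set.image_mono interior_subset)))
    have step : ∀ A : Set Circ, A ⊆ U ∪ V → ∀ m : ℕ, U ∪ V ⊆ f^[m] '' A →
        ∀ k : ℕ, 1 ≤ k → U ∪ V ⊆ f^[m * k] '' A := by
      intro A hAK m hm k hk
      induction k, hk using Nat.le_induction with
      | base => simpa using hm
      | succ k hk ih =>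
        rw [Nat.mul_succ, Function.iterate_add, Set.image_comp]
        exact ih.trans (Set.image_mono (hAK.trans hm))
    obtain ⟨m1, h1, hm1⟩ := main U hUi
    obtain ⟨m2, h2, hm2⟩ := main V hVi
    refine ⟨m1 * m2, Nat.mul_pos h1 h2, ?_, ?_⟩
    · exact step U Set.subset_union_left m1 hm1 m2 h2
    · rw [mul_comm]
      exact step V Set.subset_union_right m2 hm2 m1 h1
  · rw [Set.sUnion_singleton, dense_iff_inter_open]
    intro U hU hUne
    exact ((circ_open_infinite U hU hUne).diff hE).nonempty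

theorem caseI (f : Circ → Circ) (hf : Continuous f) (h : IsCPE f) (hNW : NW f) (hLt : Lt f)
    (F : ℝ → ℝ) (hF : Continuous F) (hFf : ∀ x : ℝ, ((F x : ℝ) : Circ) = f (x : Circ))
    (hNA : NoArc f) :
    ∃ S : Set (Set Circ), S.Finite ∧ (∀ W ∈ S, HP f W) ∧ Dense (⋃₀ S) := by
  obtain ⟨x0, hx0⟩ := dense_orbit f hf hNW hNA
  obtain ⟨M, p, hM, hp⟩ := exists_periodic f hf h F hF hFf x0 hx0
  by_cases hex : ∀ x, f^[M] x = p → x = p
  · exact caseI_exceptional f hf hNW hNA F hF hFf M hM p hp hex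
  · push Not at hex
    obtain ⟨q, hq, hqp⟩ := hex
    exact caseI_nonexceptional f hf hNW hLt hNA M hM p q hp hq hqp

theorem thmC (f : Circ → Circ) (hf : Continuous f) (h : IsCPE f) (F : ℝ → ℝ)
    (hF : ContDiff ℝ 1 F) (hFf : ∀ x : ℝ, ((F x : ℝ) : Circ) = f (x : Circ)) :
    ∃ S : Set (Set Circ), S.Finite ∧ (∀ W ∈ S, HP f W) ∧ Dense (⋃₀ S) := by
  have hNW : NW f := nw_of_cpe f hf h
  have hLt : Lt f := lt_of_nw f hf hNW circ_open_infinite
  by_cases hNA : NoArc f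
  · exact caseI f hf h hNW hLt F hF.continuous hFf hNA
  · exact caseII f hf h hNW hLt F hF hFf hNA

theorem cpe_one_iff_PP (k : ℕ∞) (hk : 1 ≤ k) (f : T 1 → T 1) (hf : Continuous f)
    (hck : IsCk 1 k f) : IsCPE f ↔ PP f := by
  constructor
  · intro h
    obtain ⟨F, hF, hFf⟩ := hck
    let e : T 1 ≃ₜ Circ := Homeomorph.funUnique (Fin 1) Circ
    have hf' : Continuous (fun x' : Circ => e (f (e.symm x'))) :=
      e.continuous.comp (hf.comp e.symm.continuous)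
    have hcpe := isCPE_conj e f h
    have hF1 : ContDiff ℝ 1 F := hF.of_le (by exact_mod_cast hk)
    have hF2 : ContDiff ℝ 1 (fun t : ℝ => F (fun _ => t) 0) :=
      (contDiff_apply ℝ ℝ (0 : Fin 1)).comp (hF1.comp (contDiff_pi.2 fun _ => contDiff_id))
    obtain ⟨S, hS, hHP, hd⟩ := thmC _ hf' hcpe (fun t => F (fun _ => t) 0) hF2 (by
      intro x
      exact congrFun (hFf (fun _ => x)) 0)
    refine PP_of_HP f ((fun W => e.symm '' W) '' S) (hS.image _) ?_ ?_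
    · rintro _ ⟨W, hW, rfl⟩
      exact HP_conj e f W (hHP W hW)
    · have h1 : ⋃₀ ((fun W => e.symm '' W) '' S) = e.symm '' (⋃₀ S) := by
        rw [Set.image_sUnion]
      rw [h1]
      exact e.symm.surjective.denseRange.dense_image e.symm.continuous hd
  · intro h
    exact isCPE_of_PP f h

end Pool.Agent.Helper222.CPE
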