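import Mathlib
import Pool.Agent.Helper222.CPE.Defs
import Pool.Agent.Helper222.CPE.Ent

open Set Filter Topology

namespace Pool.Agent.Helper222.CPE

namespace X_not_cpe_iff

theorem not_cpe_iff_iter {X Y : Type} (f : X → X) (g : Y → Y) (p : X → Y)
    (h : ∀ x, p (f x) = g (p x)) (n : ℕ) (x : X) : p (f^[n] x) = g^[n] (p x) := by
  induction n generalizing x with
  | zero => rfl
  | succ n ih => rw [Function.iterate_succ_apply, Function.iterate_succ_apply, ih, h]

theorem not_cpe_iff_sep {Y : Type} [MetricSpace Y] [CompactSpace Y] (c : ℕ → Y → ℝ)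
    (hc : ∀ i, Continuous (c i)) (hs : ∀ a b, (∀ i, c i a = c i b) → a = b) (ε : ℝ) (hε : 0 < ε) :
    ∃ (J : ℕ) (ε' : ℝ), 0 < ε' ∧ ∀ a b : Y, (∀ i < J, |c i a - c i b| < ε') → dist a b < ε := by
  set K : Set (Y × Y) := {q | ε ≤ dist q.1 q.2} with hK
  have hKc : IsCompact K :=
    (isClosed_le continuous_const (continuous_fst.dist continuous_snd)).isCompact
  set U : ℕ → Set (Y × Y) := fun J => {q | ∃ i < J, 1 / ((J : ℝ) + 1) < |c i q.1 - c i q.2|} with hU
  have hUo : ∀ J, IsOpen (U J) := by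
    intro J
    have : U J = ⋃ i ∈ {i | i < J}, {q : Y × Y | 1 / ((J : ℝ) + 1) < |c i q.1 - c i q.2|} := by
      ext q
      simp [hU]
    rw [this]
    refine isOpen_biUnion fun i _ => isOpen_lt continuous_const ?_
    exact (((hc i).comp continuous_fst).sub ((hc i).comp continuous_snd)).abs
  have hmono : Monotone U := by
    intro J J' hJ q hq
    obtain ⟨i, hi, h1⟩ := hq
    refine ⟨i, lt_of_lt_of_le hi hJ, lt_of_le_of_lt ?_ h1⟩
    exact Nat.one_div_le_one_div hJ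
  obtain ⟨J, hJ⟩ := hKc.elim_directed_cover U hUo (by
    intro q hq
    have hne : q.1 ≠ q.2 := by
      intro h
      have h2 : ε ≤ dist q.1 q.2 := hq
      rw [h, dist_self] at h2
      linarith
    have h3 : ∃ i, c i q.1 ≠ c i q.2 := by
      by_contra hcon
      push Not at hcon
      exact hne (hs _ _ hcon)
    obtain ⟨i, hi⟩ := h3
    have h4 : 0 < |c i q.1 - c i q.2| := abs_pos.2 (sub_ne_zero.2 hi)
    obtain ⟨m, hm⟩ := exists_nat_one_div_lt h4
    refine mem_iUnion.2 ⟨max m (i + 1), i, lt_of_lt_of_le (Nat.lt_succ_self i) (le_max_right _ _), ?_⟩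
    exact lt_of_le_of_lt (Nat.one_div_le_one_div (le_max_left _ _)) hm)
    (directed_of_isDirected_le hmono)
  refine ⟨J, 1 / ((J : ℝ) + 1), by positivity, fun a b hab => ?_⟩
  by_contra hcon
  push Not at hcon
  obtain ⟨i, hi, h1⟩ := hJ (show (a, b) ∈ K from hcon)
  exact absurd (hab i hi) (not_lt.2 h1.le)


theorem not_cpe_iff {X : Type} [MetricSpace X] [CompactSpace X] (f : C(X, X)) :
    ¬ IsCPE (f : X → X) ↔ ∃ π : ℕ → C(X, ℝ),
      (∃ i x y, π i x ≠ π i y) ∧
      (∀ x y, (∀ i, π i x = π i y) → ∀ i, π i (f x) = π i (f y)) ∧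
      ∀ (J : ℕ) (ε δ : ℝ), 0 < ε → 0 < δ → ∃ N : ℕ, ∀ n : ℕ, N ≤ n → ∃ s : Finset X,
        (s.card : ℝ) ≤ Real.exp (δ * n) ∧
          ∀ x, ∃ y ∈ s, ∀ t < n, ∀ i < J, |π i (f^[t] x) - π i (f^[t] y)| < ε := by
  classical
  constructor
  · intro h
    unfold IsCPE at h
    push Not at h
    obtain ⟨Y, iM, iC, g, p, hg, hp, hsurj, hcomm, hnt, hent⟩ := h
    haveI : Nonempty Y := inferInstance
    have hsep : ∀ a b : Y, (∀ i, dist a (TopologicalSpace.denseSeq Y i)
        = dist b (TopologicalSpace.denseSeq Y i)) → a = b := by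
      intro a b hab
      by_contra hne
      have hpos : 0 < dist a b := dist_pos.2 hne
      obtain ⟨i, hi⟩ := (TopologicalSpace.denseRange_denseSeq Y).exists_dist_lt a (half_pos hpos)
      have h1 := hab i
      have h2 := dist_triangle_right a b (TopologicalSpace.denseSeq Y i)
      rw [h1] at h2 hi
      linarith
    refine ⟨fun i => ⟨fun x => dist (p x) (TopologicalSpace.denseSeq Y i),
      hp.dist continuous_const⟩, ?_, ?_, ?_⟩
    · obtain ⟨a, b, hab⟩ := exists_pair_ne Y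
      obtain ⟨x, rfl⟩ := hsurj a
      obtain ⟨y, rfl⟩ := hsurj b
      by_contra hcon
      push Not at hcon
      exact hab (hsep _ _ fun i => hcon i x y)
    · intro x y hxy i
      have h1 : p x = p y := hsep _ _ hxy
      show dist (p (f x)) _ = dist (p (f y)) _
      rw [hcomm, hcomm, h1]
    · intro J ε δ hε hδ
      obtain ⟨N, hN⟩ := (ent_iff g).1 (not_lt.2 hent) ε hε δ hδ
      refine ⟨N, fun n hn => ?_⟩
      obtain ⟨s, hs1, hs2⟩ := hN n hn
      refine ⟨s.image (Function.surjInv hsurj), le_trans ?_ hs1, fun x => ?_⟩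
      · exact_mod_cast Finset.card_image_le
      · obtain ⟨y, hy, h1⟩ := hs2 (p x)
        refine ⟨Function.surjInv hsurj y, Finset.mem_image_of_mem _ hy, fun t ht i _ => ?_⟩
        show |dist (p (f^[t] x)) _ - dist (p (f^[t] (Function.surjInv hsurj y))) _| < ε
        refine lt_of_le_of_lt (abs_dist_sub_le _ _ _) ?_
        rw [not_cpe_iff_iter _ g p hcomm, not_cpe_iff_iter _ g p hcomm,
          Function.surjInv_eq hsurj y]
        exact h1 t ht
  · rintro ⟨π, ⟨i0, x0, y0, h0⟩, hfac, hspan⟩ hcpe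
    set P : X → (ℕ → ℝ) := fun x i => π i x with hP
    have hPc : Continuous P := continuous_pi fun i => (π i).continuous
    haveI hYc : CompactSpace (range P) := isCompact_iff_compactSpace.1 (isCompact_range hPc)
    letI hYm : MetricSpace (range P) := TopologicalSpace.metrizableSpaceMetric (range P)
    set p : X → range P := rangeFactorization P with hp
    have hpc : Continuous p := hPc.subtype_mk _
    have hps : Function.Surjective p := rangeFactorization_surjective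
    have hpeq : ∀ x y, p x = p y ↔ ∀ i, π i x = π i y := by
      intro x y
      constructor
      · intro h i
        exact congrFun (congrArg Subtype.val h) i
      · intro h
        exact Subtype.ext (funext h)
    set g : range P → range P := fun y => p (f (Function.surjInv hps y)) with hg
    have hcomm : ∀ x, p (f x) = g (p x) := by
      intro x
      rw [hg]
      show p (f x) = p (f (Function.surjInv hps (p x)))
      rw [hpeq]
      apply hfac
      rw [← hpeq]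
      exact (Function.surjInv_eq hps (p x)).symm
    have hgc : Continuous g := by
      have hq : IsQuotientMap p := hpc.isClosedMap.isQuotientMap hpc hps
      rw [hq.continuous_iff]
      have : g ∘ p = p ∘ f := funext fun x => (hcomm x).symm
      rw [this]
      exact hpc.comp f.continuous
    have hnt : Nontrivial (range P) := ⟨p x0, p y0, fun h => h0 ((hpeq _ _).1 h i0)⟩
    refine (ent_iff g).2 ?_ (hcpe (range P) g p hgc hpc hps hcomm hnt)
    intro ε hε δ hδ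
    obtain ⟨J, ε', hε', hJ⟩ := not_cpe_iff_sep (Y := range P) (fun i y => y.1 i)
      (fun i => (continuous_apply i).comp continuous_subtype_val)
      (fun a b hab => Subtype.ext (funext hab)) ε hε
    obtain ⟨N, hN⟩ := hspan J ε' δ hε' hδ
    refine ⟨N, fun n hn => ?_⟩
    obtain ⟨s, hs1, hs2⟩ := hN n hn
    refine ⟨s.image p, le_trans ?_ hs1, fun y => ?_⟩
    · exact_mod_cast Finset.card_image_le
    · obtain ⟨x, rfl⟩ := hps y
      obtain ⟨x', hx', h1⟩ := hs2 x
      refine ⟨p x', Finset.mem_image_of_mem _ hx', fun t ht => ?_⟩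
      rw [← not_cpe_iff_iter _ g p hcomm, ← not_cpe_iff_iter _ g p hcomm]
      exact hJ _ _ fun i hi => h1 t ht i hi

end X_not_cpe_iff

alias not_cpe_iff := X_not_cpe_iff.not_cpe_iff

namespace X_measurable_cond

theorem isOpen_forall_compact {P X : Type*} [TopologicalSpace P] [TopologicalSpace X]
    [CompactSpace X] (W : Set (P × X)) (hW : IsOpen W) : IsOpen {p : P | ∀ x, (p, x) ∈ W} := by
  rw [← isClosed_compl_iff]
  have h : {p : P | ∀ x, (p, x) ∈ W}ᶜ = Prod.fst '' Wᶜ := by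
    ext p
    constructor
    · intro h
      by_contra hcon
      apply h
      intro x
      by_contra hx
      exact hcon ⟨(p, x), hx, rfl⟩
    · rintro ⟨⟨p', x⟩, h1, rfl⟩ h2
      exact h1 (h2 x)
  rw [h]
  exact isClosedMap_fst_of_compactSpace _ hW.isClosed_compl


theorem measurable_cond {X : Type} [MetricSpace X] [CompactSpace X] :
    @MeasurableSet (C(X, X) × (ℕ → C(X, ℝ))) (borel _) {p : C(X, X) × (ℕ → C(X, ℝ)) |
      (∃ i x y, p.2 i x ≠ p.2 i y) ∧
      (∀ x y, (∀ i, p.2 i x = p.2 i y) → ∀ i, p.2 i (p.1 x) = p.2 i (p.1 y)) ∧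
      ∀ (J : ℕ) (ε δ : ℝ), 0 < ε → 0 < δ → ∃ N : ℕ, ∀ n : ℕ, N ≤ n → ∃ s : Finset X,
        (s.card : ℝ) ≤ Real.exp (δ * n) ∧
          ∀ x, ∃ y ∈ s, ∀ t < n, ∀ i < J, |p.2 i (p.1^[t] x) - p.2 i (p.1^[t] y)| < ε} := by
  classical
  letI : MeasurableSpace (C(X, X) × (ℕ → C(X, ℝ))) := borel _
  haveI : BorelSpace (C(X, X) × (ℕ → C(X, ℝ))) := ⟨rfl⟩
  -- joint continuity
  have hev : ∀ j, Continuous fun q : (C(X, X) × (ℕ → C(X, ℝ))) × X => q.1.2 j q.2 := by
    intro j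
    have h1 : Continuous fun q : (C(X, X) × (ℕ → C(X, ℝ))) × X => q.1.2 j :=
      (continuous_apply j).comp (continuous_snd.comp continuous_fst)
    exact h1.eval continuous_snd
  have hit : ∀ t : ℕ, Continuous fun q : (C(X, X) × (ℕ → C(X, ℝ))) × X =>
      (⇑q.1.1)^[t] q.2 := by
    intro t
    induction t with
    | zero => exact continuous_snd
    | succ t ih =>
      simp only [Function.iterate_succ_apply']
      have h1 : Continuous fun q : (C(X, X) × (ℕ → C(X, ℝ))) × X => q.1.1 :=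
        continuous_fst.comp continuous_fst
      exact h1.eval ih
  have hjt : ∀ j t, Continuous fun q : (C(X, X) × (ℕ → C(X, ℝ))) × X =>
      q.1.2 j ((⇑q.1.1)^[t] q.2) := fun j t => (hev j).comp (continuous_fst.prodMk (hit t))
  have hA : MeasurableSet {p : C(X, X) × (ℕ → C(X, ℝ)) | ∃ i x y, p.2 i x ≠ p.2 i y} := by
    apply IsOpen.measurableSet
    have h0 : {p : C(X, X) × (ℕ → C(X, ℝ)) | ∃ i x y, p.2 i x ≠ p.2 i y} =
        ⋃ i : ℕ, ⋃ x : X, ⋃ y : X, {p | p.2 i x ≠ p.2 i y} := by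
      ext p
      simp only [Set.mem_iUnion]
      exact Iff.rfl
    rw [h0]
    refine isOpen_iUnion fun i => isOpen_iUnion fun x => isOpen_iUnion fun y => ?_
    have h1 : ∀ x : X, Continuous fun p : C(X, X) × (ℕ → C(X, ℝ)) => p.2 i x :=
      fun x => (hev i).comp (continuous_id.prodMk continuous_const)
    exact isOpen_ne_fun (h1 x) (h1 y)
  have hB : MeasurableSet {p : C(X, X) × (ℕ → C(X, ℝ)) |
      ∀ x y, (∀ i, p.2 i x = p.2 i y) → ∀ i, p.2 i (p.1 x) = p.2 i (p.1 y)} := by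
    rw [← MeasurableSet.compl_iff]
    have h0 : {p : C(X, X) × (ℕ → C(X, ℝ)) |
        ∀ x y, (∀ i, p.2 i x = p.2 i y) → ∀ i, p.2 i (p.1 x) = p.2 i (p.1 y)}ᶜ =
        ⋃ j : ℕ, ⋃ n : ℕ, {p | ∃ z : X × X, (∀ i, p.2 i z.1 = p.2 i z.2) ∧
          1 / ((n : ℝ) + 1) ≤ |p.2 j (p.1 z.1) - p.2 j (p.1 z.2)|} := by
      ext p
      simp only [Set.mem_iUnion]
      constructor
      · intro h
        have h' : ¬ (∀ x y, (∀ i, p.2 i x = p.2 i y) → ∀ i, p.2 i (p.1 x) = p.2 i (p.1 y)) := h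
        push Not at h'
        obtain ⟨x, y, h1, j, h2⟩ := h'
        have h3 : 0 < |p.2 j (p.1 x) - p.2 j (p.1 y)| := abs_pos.mpr (sub_ne_zero.mpr h2)
        obtain ⟨n, hn⟩ := exists_nat_one_div_lt h3
        exact ⟨j, n, (x, y), h1, hn.le⟩
      · rintro ⟨j, n, z, h1, h2⟩ h3
        have h4 := h3 z.1 z.2 h1 j
        rw [h4, sub_self, abs_zero] at h2
        have h5 : (0:ℝ) < 1 / ((n : ℝ) + 1) := by positivity
        linarith
    rw [h0]
    refine MeasurableSet.iUnion fun j => MeasurableSet.iUnion fun n => ?_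
    apply IsClosed.measurableSet
    have himg : {p : C(X, X) × (ℕ → C(X, ℝ)) | ∃ z : X × X, (∀ i, p.2 i z.1 = p.2 i z.2) ∧
          1 / ((n : ℝ) + 1) ≤ |p.2 j (p.1 z.1) - p.2 j (p.1 z.2)|} =
        Prod.fst '' ({q : (C(X, X) × (ℕ → C(X, ℝ))) × (X × X) |
          ∀ i, q.1.2 i q.2.1 = q.1.2 i q.2.2} ∩
          {q : (C(X, X) × (ℕ → C(X, ℝ))) × (X × X) |
            1 / ((n : ℝ) + 1) ≤ |q.1.2 j (q.1.1 q.2.1) - q.1.2 j (q.1.1 q.2.2)|}) := by
      ext p
      constructor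
      · rintro ⟨z, hz⟩
        exact ⟨(p, z), hz, rfl⟩
      · rintro ⟨⟨p', z⟩, hz, rfl⟩
        exact ⟨z, hz⟩
    rw [himg]
    apply isClosedMap_fst_of_compactSpace
    have hp1 : Continuous fun q : (C(X, X) × (ℕ → C(X, ℝ))) × (X × X) => (q.1, q.2.1) :=
      continuous_fst.prodMk (continuous_fst.comp continuous_snd)
    have hp2 : Continuous fun q : (C(X, X) × (ℕ → C(X, ℝ))) × (X × X) => (q.1, q.2.2) :=
      continuous_fst.prodMk (continuous_snd.comp continuous_snd)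
    apply IsClosed.inter
    · have h6 : {q : (C(X, X) × (ℕ → C(X, ℝ))) × (X × X) |
          ∀ i, q.1.2 i q.2.1 = q.1.2 i q.2.2} = ⋂ i : ℕ, {q | q.1.2 i q.2.1 = q.1.2 i q.2.2} := by
        ext q
        simp only [Set.mem_iInter]
        exact Iff.rfl
      rw [h6]
      refine isClosed_iInter fun i => ?_
      exact isClosed_eq ((hev i).comp hp1) ((hev i).comp hp2)
    · have h7 : Continuous fun q : (C(X, X) × (ℕ → C(X, ℝ))) × (X × X) =>
          |q.1.2 j (q.1.1 q.2.1) - q.1.2 j (q.1.1 q.2.2)| := by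
        have h8 := (hjt j 1).comp hp1
        have h9 := (hjt j 1).comp hp2
        exact (h8.sub h9).abs
      exact isClosed_le continuous_const h7
  have hO : ∀ (J : ℕ) (ε δ : ℝ) (n : ℕ), IsOpen {p : C(X, X) × (ℕ → C(X, ℝ)) |
      ∃ s : Finset X, (s.card : ℝ) ≤ Real.exp (δ * n) ∧
          ∀ x, ∃ y ∈ s, ∀ t < n, ∀ i < J, |p.2 i (p.1^[t] x) - p.2 i (p.1^[t] y)| < ε} := by
    intro J ε δ n
    have h0 : {p : C(X, X) × (ℕ → C(X, ℝ)) |
      ∃ s : Finset X, (s.card : ℝ) ≤ Real.exp (δ * n) ∧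
          ∀ x, ∃ y ∈ s, ∀ t < n, ∀ i < J, |p.2 i (p.1^[t] x) - p.2 i (p.1^[t] y)| < ε} =
        ⋃ s : Finset X, ⋃ _ : (s.card : ℝ) ≤ Real.exp (δ * n),
          {p | ∀ x, (p, x) ∈ {q : (C(X, X) × (ℕ → C(X, ℝ))) × X |
            ∃ y ∈ s, ∀ t < n, ∀ i < J,
              |q.1.2 i (q.1.1^[t] q.2) - q.1.2 i (q.1.1^[t] y)| < ε}} := by
      ext p
      simp only [Set.mem_iUnion]
      constructor
      · rintro ⟨s, h1, h2⟩
        exact ⟨s, h1, h2⟩
      · rintro ⟨s, h1, h2⟩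
        exact ⟨s, h1, h2⟩
    rw [h0]
    refine isOpen_iUnion fun s => isOpen_iUnion fun _ => isOpen_forall_compact _ ?_
    have h1 : {q : (C(X, X) × (ℕ → C(X, ℝ))) × X | ∃ y ∈ s, ∀ t < n, ∀ i < J,
        |q.1.2 i (q.1.1^[t] q.2) - q.1.2 i (q.1.1^[t] y)| < ε} =
        ⋃ y ∈ s, ⋂ t ∈ Finset.range n, ⋂ i ∈ Finset.range J,
          {q | |q.1.2 i (q.1.1^[t] q.2) - q.1.2 i (q.1.1^[t] y)| < ε} := by
      ext q
      simp only [Set.mem_iUnion, Set.mem_iInter, Finset.mem_range, exists_prop]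
      exact Iff.rfl
    rw [h1]
    refine isOpen_biUnion fun y _ => isOpen_biInter_finset fun t _ =>
      isOpen_biInter_finset fun i _ => ?_
    have h2 : Continuous fun q : (C(X, X) × (ℕ → C(X, ℝ))) × X =>
        q.1.2 i (q.1.1^[t] y) := (hjt i t).comp (continuous_fst.prodMk continuous_const)
    exact isOpen_lt ((hjt i t).sub h2).abs continuous_const
  have hC : MeasurableSet {p : C(X, X) × (ℕ → C(X, ℝ)) |
      ∀ (J : ℕ) (ε δ : ℝ), 0 < ε → 0 < δ → ∃ N : ℕ, ∀ n : ℕ, N ≤ n → ∃ s : Finset X,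
        (s.card : ℝ) ≤ Real.exp (δ * n) ∧
          ∀ x, ∃ y ∈ s, ∀ t < n, ∀ i < J, |p.2 i (p.1^[t] x) - p.2 i (p.1^[t] y)| < ε} := by
    have h0 : {p : C(X, X) × (ℕ → C(X, ℝ)) |
      ∀ (J : ℕ) (ε δ : ℝ), 0 < ε → 0 < δ → ∃ N : ℕ, ∀ n : ℕ, N ≤ n → ∃ s : Finset X,
        (s.card : ℝ) ≤ Real.exp (δ * n) ∧
          ∀ x, ∃ y ∈ s, ∀ t < n, ∀ i < J, |p.2 i (p.1^[t] x) - p.2 i (p.1^[t] y)| < ε} =
        ⋂ J : ℕ, ⋂ a : ℕ, ⋂ b : ℕ, ⋃ N : ℕ, ⋂ n : ℕ, ⋂ _ : N ≤ n,
          {p : C(X, X) × (ℕ → C(X, ℝ)) |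
            ∃ s : Finset X, (s.card : ℝ) ≤ Real.exp ((1 / ((b : ℝ) + 1)) * n) ∧
              ∀ x, ∃ y ∈ s, ∀ t < n, ∀ i < J,
                |p.2 i (p.1^[t] x) - p.2 i (p.1^[t] y)| < 1 / ((a : ℝ) + 1)} := by
      ext p
      simp only [Set.mem_iUnion, Set.mem_iInter]
      constructor
      · intro h J a b
        exact h J (1 / ((a : ℝ) + 1)) (1 / ((b : ℝ) + 1)) (by positivity) (by positivity)
      · intro h J ε δ hε hδ
        obtain ⟨a, ha⟩ := exists_nat_one_div_lt hε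
        obtain ⟨b, hb⟩ := exists_nat_one_div_lt hδ
        obtain ⟨N, hN⟩ := h J a b
        refine ⟨N, fun n hn => ?_⟩
        obtain ⟨s, h1, h2⟩ := hN n hn
        refine ⟨s, h1.trans (Real.exp_le_exp.mpr
          (mul_le_mul_of_nonneg_right hb.le (Nat.cast_nonneg n))), fun x => ?_⟩
        obtain ⟨y, hy, h3⟩ := h2 x
        exact ⟨y, hy, fun t ht i hi => (h3 t ht i hi).trans ha⟩
    rw [h0]
    exact MeasurableSet.iInter fun J => MeasurableSet.iInter fun a => MeasurableSet.iInter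
      fun b => MeasurableSet.iUnion fun N => MeasurableSet.iInter fun n =>
        MeasurableSet.iInter fun _ => (hO J _ _ n).measurableSet
  exact hA.inter (hB.inter hC)

end X_measurable_cond

alias measurable_cond := X_measurable_cond.measurable_cond

theorem analytic_not_cpe {X : Type} [MetricSpace X] [CompactSpace X] :
    MeasureTheory.AnalyticSet {f : C(X, X) | ¬ IsCPE (f : X → X)} := by
  have hset : {f : C(X, X) | ¬ IsCPE (f : X → X)} =
      Prod.fst '' {p : C(X, X) × (ℕ → C(X, ℝ)) |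
      (∃ i x y, p.2 i x ≠ p.2 i y) ∧
      (∀ x y, (∀ i, p.2 i x = p.2 i y) → ∀ i, p.2 i (p.1 x) = p.2 i (p.1 y)) ∧
      ∀ (J : ℕ) (ε δ : ℝ), 0 < ε → 0 < δ → ∃ N : ℕ, ∀ n : ℕ, N ≤ n → ∃ s : Finset X,
        (s.card : ℝ) ≤ Real.exp (δ * n) ∧
          ∀ x, ∃ y ∈ s, ∀ t < n, ∀ i < J, |p.2 i (p.1^[t] x) - p.2 i (p.1^[t] y)| < ε} := by
    ext f
    constructor
    · intro hf
      obtain ⟨π, hπ⟩ := (not_cpe_iff f).1 hf
      exact ⟨(f, π), hπ, rfl⟩
    · rintro ⟨⟨g, π⟩, hπ, rfl⟩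
      exact (not_cpe_iff g).2 ⟨π, hπ⟩
  rw [hset]
  letI : MeasurableSpace (C(X, X) × (ℕ → C(X, ℝ))) := borel _
  have hB : BorelSpace (C(X, X) × (ℕ → C(X, ℝ))) := ⟨rfl⟩
  have hP : PolishSpace (C(X, X) × (ℕ → C(X, ℝ))) := {}
  exact (MeasurableSet.analyticSet measurable_cond).image_of_continuous continuous_fst

end Pool.Agent.Helper222.CPE
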