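import Mathlib
import Pool.Agent.Helper222.CPE.Defs
import Pool.Agent.Helper222.CPE.Ent

open Set Filter Topology

namespace Pool.Agent.Helper222.CPE

theorem phi_continuous (φ s : Circ → ℝ) (h : Good φ s) : Continuous φ := by
  have hc : Continuous (fun t : ℝ => φ (t : Circ)) := by
    have hl : LipschitzWith (1 / 2) (fun t : ℝ => φ (t : Circ)) := by
      apply LipschitzWith.of_dist_le_mul
      intro x y
      rw [Real.dist_eq, Real.dist_eq]
      have := h.φ_lip x y
      simpa using this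
    exact hl.continuous
  have hq : IsQuotientMap (fun t : ℝ => (t : Circ)) :=
    QuotientAddGroup.isQuotientMap_mk _
  rw [hq.continuous_iff]
  exact hc

theorem skew_continuous (m : ℕ) (φ s : Circ → ℝ) (h : Good φ s) : Continuous (skew m φ s) := by
  have hφ := phi_continuous φ s h
  refine continuous_pi (fun i => ?_)
  by_cases hi : i = 0
  · have e : (fun z : T (m + 2) => skew m φ s z i) =
        fun z => z 0 + ((φ (z 0) * s (z 1) : ℝ) : Circ) := by
      funext z
      simp [skew, hi]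
    rw [e]
    refine (continuous_apply 0).add ?_
    exact (AddCircle.continuous_mk' 1).comp
      ((hφ.comp (continuous_apply 0)).mul (h.s_cont.comp (continuous_apply 1)))
  · have e : (fun z : T (m + 2) => skew m φ s z i) = fun z => (6 : ℕ) • z i := by
      funext z
      simp [skew, hi]
    rw [e]
    exact (continuous_nsmul 6).comp (continuous_apply i)

namespace X_skew_open

theorem skew_open (m : ℕ) (φ s : Circ → ℝ) (h : Good φ s) : IsOpenMap (skew m φ s) := by
  classical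
  have hφ := phi_continuous φ s h
  have h10 : (1 : Fin (m + 2)) ≠ 0 := by
    intro h
    have := congrArg Fin.val h
    simp at this
  have hcz : ∀ u : ℝ, (u : Circ) = 0 → ∃ n : ℤ, (n : ℝ) = u := by
    intro u hu
    obtain ⟨n, hn⟩ := AddSubgroup.mem_zmultiples_iff.1 ((QuotientAddGroup.eq_zero_iff u).1 hu)
    refine ⟨n, ?_⟩
    simpa using hn
  have hint : ∀ n : ℤ, ((n : ℝ) : Circ) = 0 := by
    intro n
    refine (QuotientAddGroup.eq_zero_iff _).2 ?_
    exact AddSubgroup.mem_zmultiples_iff.2 ⟨n, by simp⟩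
  have hφb : ∀ u : ℝ, |φ (u : Circ)| ≤ 1 / 2 := by
    intro u
    have e : (u : Circ) = ((Int.fract u : ℝ) : Circ) := by
      have h1 : u = Int.fract u + ⌊u⌋ := (Int.fract_add_floor u).symm
      conv_lhs => rw [h1]
      rw [AddCircle.coe_add, hint, add_zero]
    have h2 := h.φ_lip (Int.fract u) 0
    have h3 : φ ((0 : ℝ) : Circ) = 0 := by
      have : ((0 : ℝ) : Circ) = 0 := rfl
      rw [this, h.φ_zero]
    rw [h3, sub_zero, sub_zero, abs_of_nonneg (Int.fract_nonneg u)] at h2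
    rw [e]
    have := (Int.fract_lt_one u).le
    linarith
  -- the shear
  let Ψ : T (m + 2) → T (m + 2) := fun z i =>
    if i = 0 then z 0 + ((φ (z 0) * s (z 1) : ℝ) : Circ) else z i
  have hΨc : Continuous Ψ := by
    refine continuous_pi (fun i => ?_)
    by_cases hi : i = 0
    · have e : (fun z : T (m + 2) => Ψ z i) =
          fun z => z 0 + ((φ (z 0) * s (z 1) : ℝ) : Circ) := by
        funext z
        simp [Ψ, hi]
      rw [e]
      refine (continuous_apply 0).add ?_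
      exact (AddCircle.continuous_mk' 1).comp
        ((hφ.comp (continuous_apply 0)).mul (h.s_cont.comp (continuous_apply 1)))
    · have e : (fun z : T (m + 2) => Ψ z i) = fun z => z i := by
        funext z
        simp [Ψ, hi]
      rw [e]
      exact continuous_apply i
  have hΨinj : Function.Injective Ψ := by
    intro z z' hzz
    have hne : ∀ i, i ≠ 0 → z i = z' i := by
      intro i hi
      have := congrFun hzz i
      simpa [Ψ, hi] using this
    have h0 := congrFun hzz 0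
    simp only [Ψ, if_true] at h0
    have h1 := hne 1 h10
    rw [← h1] at h0
    set s0 := s (z 1) with hs0
    have hs0' : |s0| ≤ 1 := h.s_le _
    obtain ⟨x, hx⟩ := QuotientAddGroup.mk_surjective (z 0)
    obtain ⟨x1, hx1⟩ := QuotientAddGroup.mk_surjective (z' 0)
    have hx' : (x : Circ) = z 0 := hx
    have hx1' : (x1 : Circ) = z' 0 := hx1
    set x' : ℝ := x1 + (round (x - x1) : ℤ) with hx'def
    have hx'' : (x' : Circ) = z' 0 := by
      rw [hx'def, AddCircle.coe_add, hint, add_zero, hx1']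
    have hd : |x - x'| ≤ 1 / 2 := by
      have := abs_sub_round (x - x1)
      rw [hx'def]
      have e : x - (x1 + (round (x - x1) : ℤ)) = x - x1 - (round (x - x1) : ℤ) := by ring
      rw [e]
      exact this
    have hl := h.φ_lip x x'
    rw [← hx', ← hx''] at h0
    have hδ : ((x + φ (x : Circ) * s0 - (x' + φ (x' : Circ) * s0) : ℝ) : Circ) = 0 := by
      rw [AddCircle.coe_sub, AddCircle.coe_add, AddCircle.coe_add, h0, sub_self]
    obtain ⟨n, hn⟩ := hcz _ hδ
    have hmul : |(φ (x : Circ) - φ (x' : Circ)) * s0| ≤ 1 / 2 * |x - x'| := by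
      rw [abs_mul]
      calc |φ (x : Circ) - φ (x' : Circ)| * |s0| ≤ (1 / 2 * |x - x'|) * 1 :=
            mul_le_mul hl hs0' (abs_nonneg _) (by positivity)
        _ = 1 / 2 * |x - x'| := by ring
    have hn2 : (n : ℝ) = (x - x') + (φ (x : Circ) - φ (x' : Circ)) * s0 := by
      rw [hn]; ring
    have hn3 : |(n : ℝ)| < 1 := by
      rw [hn2]
      calc |(x - x') + (φ (x : Circ) - φ (x' : Circ)) * s0|
          ≤ |x - x'| + |(φ (x : Circ) - φ (x' : Circ)) * s0| := abs_add_le _ _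
        _ < 1 := by linarith
    have hn4 : n = 0 := by
      have : |n| < 1 := by exact_mod_cast hn3
      exact Int.abs_lt_one_iff.1 this
    rw [hn4, Int.cast_zero] at hn2
    have hxx : x = x' := by
      have h5 : |x - x'| ≤ 1 / 2 * |x - x'| := by
        have h6 : x - x' = -((φ (x : Circ) - φ (x' : Circ)) * s0) := by linarith
        calc |x - x'| = |(φ (x : Circ) - φ (x' : Circ)) * s0| := by
              conv_lhs => rw [h6]
              rw [abs_neg]
          _ ≤ _ := hmul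
      have h7 : |x - x'| ≤ 0 := by linarith
      have h8 := abs_nonpos_iff.1 h7
      linarith
    funext i
    by_cases hi : i = 0
    · rw [hi, ← hx', ← hx'', hxx]
    · exact hne i hi
  have hΨsurj : Function.Surjective Ψ := by
    intro w
    obtain ⟨t, ht⟩ := QuotientAddGroup.mk_surjective (w 0)
    have ht' : (t : Circ) = w 0 := ht
    set s0 := s (w 1) with hs0
    have hs0' : |s0| ≤ 1 := h.s_le _
    have hg : Continuous (fun x : ℝ => x + φ (x : Circ) * s0) :=
      continuous_id.add ((hφ.comp (AddCircle.continuous_mk' 1)).mul continuous_const)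
    have hb : ∀ x : ℝ, |φ (x : Circ) * s0| ≤ 1 / 2 := by
      intro x
      rw [abs_mul]
      calc |φ (x : Circ)| * |s0| ≤ (1 / 2) * 1 :=
            mul_le_mul (hφb x) hs0' (abs_nonneg _) (by norm_num)
        _ = 1 / 2 := by ring
    have hivt := intermediate_value_Icc (show t - 1 ≤ t + 1 by linarith)
      (f := fun x : ℝ => x + φ (x : Circ) * s0) hg.continuousOn
    have hmem : t ∈ Icc ((t - 1) + φ ((t - 1 : ℝ) : Circ) * s0)
        ((t + 1) + φ ((t + 1 : ℝ) : Circ) * s0) := by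
      have h1 := abs_le.1 (hb (t - 1))
      have h2 := abs_le.1 (hb (t + 1))
      constructor
      · linarith [h1.2]
      · linarith [h2.1]
    obtain ⟨x, -, hx⟩ := hivt hmem
    refine ⟨fun i => if i = 0 then (x : Circ) else w i, ?_⟩
    funext i
    by_cases hi : i = 0
    · subst hi
      simp only [Ψ, if_true, if_neg h10]
      rw [← ht', ← AddCircle.coe_add]
      exact congrArg _ hx
    · simp [Ψ, hi]
  have hΨo : IsOpenMap Ψ := by
    have hh : IsHomeomorph Ψ :=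
      isHomeomorph_iff_continuous_bijective.2 ⟨hΨc, hΨinj, hΨsurj⟩
    exact hh.isOpenMap
  -- multiplication by 6
  have h6o : IsOpenMap (fun c : Circ => (6 : ℕ) • c) := by
    have hcoe : IsOpenMap (fun x : ℝ => (x : Circ)) := QuotientAddGroup.isOpenMap_coe
    have hcc : Continuous (fun x : ℝ => (x : Circ)) := AddCircle.continuous_mk' 1
    have e : (fun c : Circ => (6 : ℕ) • c) ∘ (fun x : ℝ => (x : Circ)) =
        (fun x : ℝ => (x : Circ)) ∘ (fun x : ℝ => 6 * x) := by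
      funext x
      simp only [Function.comp]
      rw [← AddCircle.coe_nsmul]
      congr 1
      simp
    have hcs : Function.Surjective (fun x : ℝ => (x : Circ)) := QuotientAddGroup.mk_surjective
    have hcomp : IsOpenMap ((fun c : Circ => (6 : ℕ) • c) ∘ (fun x : ℝ => (x : Circ))) := by
      rw [e]
      exact hcoe.comp (Homeomorph.mulLeft₀ (6 : ℝ) (by norm_num)).isOpenMap
    intro U hU
    have h1 : (fun c : Circ => (6 : ℕ) • c) '' U =
        ((fun c : Circ => (6 : ℕ) • c) ∘ (fun x : ℝ => (x : Circ))) ''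
          ((fun x : ℝ => (x : Circ)) ⁻¹' U) := by
      rw [Set.image_comp, Set.image_preimage_eq U hcs]
    rw [h1]
    exact hcomp _ (hU.preimage hcc)
  have h6s : Function.Surjective (fun c : Circ => (6 : ℕ) • c) := by
    intro c
    obtain ⟨x, rfl⟩ := QuotientAddGroup.mk_surjective c
    refine ⟨((x / 6 : ℝ) : Circ), ?_⟩
    show (6 : ℕ) • ((x / 6 : ℝ) : Circ) = (x : Circ)
    rw [← AddCircle.coe_nsmul]
    congr 1
    simp only [nsmul_eq_mul]
    push_cast
    ring
  let A : ∀ i : Fin (m + 2), Circ → Circ := fun i c => if i = 0 then c else (6 : ℕ) • c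
  have hAo : IsOpenMap (Pi.map A) := by
    refine IsOpenMap.piMap ?_ ?_
    · intro i
      by_cases hi : i = 0
      · have : A i = id := by
          funext c
          simp [A, hi]
        rw [this]
        exact IsOpenMap.id
      · have : A i = fun c => (6 : ℕ) • c := by
          funext c
          simp [A, hi]
        rw [this]
        exact h6o
    · refine Filter.Eventually.of_forall (fun i => ?_)
      by_cases hi : i = 0
      · have : A i = id := by
          funext c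
          simp [A, hi]
        rw [this]
        exact Function.surjective_id
      · have : A i = fun c => (6 : ℕ) • c := by
          funext c
          simp [A, hi]
        rw [this]
        exact h6s
  have hcomp : skew m φ s = (Pi.map A) ∘ Ψ := by
    funext z i
    by_cases hi : i = 0
    · subst hi
      simp [skew, A, Ψ, Pi.map]
    · simp [skew, A, Ψ, Pi.map, hi]
  rw [hcomp]
  exact hAo.comp hΨo

end X_skew_open

alias skew_open := X_skew_open.skew_open

theorem fib_mono (m : ℕ) (φ s : Circ → ℝ) (h : Good φ s) (x : Circ) :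
    Fib m x ⊆ skew m φ s '' Fib m x := by
  intro z hz
  have hrep : ∀ c : Circ, ∃ t : ℝ, t ∈ Ico (0 : ℝ) 1 ∧ (t : Circ) = c := by
    intro c
    obtain ⟨u, rfl⟩ := QuotientAddGroup.mk_surjective c
    refine ⟨Int.fract u, ⟨Int.fract_nonneg u, Int.fract_lt_one u⟩, ?_⟩
    refine QuotientAddGroup.eq.2 ?_
    refine AddSubgroup.mem_zmultiples_iff.2 ⟨⌊u⌋, ?_⟩
    have := Int.self_sub_floor u
    simp only [zsmul_eq_mul, mul_one]
    linarith
  choose t ht ht2 using hrep
  refine ⟨fun i => if i = 0 then z 0 else ((t (z i) / 6 : ℝ) : Circ), ?_, ?_⟩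
  · have hz' : z 0 = x := hz
    show (if (0 : Fin (m + 2)) = 0 then z 0 else ((t (z 0) / 6 : ℝ) : Circ)) = x
    rw [if_pos rfl, hz']
  · funext i
    have h10 : (1 : Fin (m + 2)) ≠ 0 := by
      intro h
      have := congrArg Fin.val h
      simp at this
    by_cases hi : i = 0
    · subst hi
      have hs : s ((t (z 1) / 6 : ℝ) : Circ) = 0 := by
        apply h.s_zero
        have := ht (z 1)
        constructor
        · have := this.1; positivity
        · have := this.2; linarith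
      simp [skew, h10, hs]
    · simp only [skew, if_neg hi]
      conv_rhs => rw [← ht2 (z i)]
      rw [← AddCircle.coe_nsmul]
      congr 1
      simp only [nsmul_eq_mul]
      push_cast
      ring

namespace X_fib_open

theorem fib_open (m : ℕ) (O : Set (T (m + 2))) (hO : IsOpen O) :
    IsOpen {x : Circ | Fib m x ⊆ O} := by
  rw [← isClosed_compl_iff]
  have h1 : {x : Circ | Fib m x ⊆ O}ᶜ = (fun z : T (m + 2) => z 0) '' Oᶜ := by
    ext x
    simp only [mem_compl_iff, mem_setOf_eq, mem_image, Set.not_subset, Fib]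
    constructor
    · rintro ⟨z, hz, hzO⟩
      exact ⟨z, hzO, hz⟩
    · rintro ⟨z, hzO, hz⟩
      exact ⟨z, hz, hzO⟩
  rw [h1]
  have h2 : IsCompact (Oᶜ) := hO.isClosed_compl.isCompact
  exact (h2.image (continuous_apply 0)).isClosed

end X_fib_open

alias fib_open := X_fib_open.fib_open

theorem strip_maps (m : ℕ) (φ s : Circ → ℝ) (h : Good φ s) (a b : ℝ) (ha : φ (a : Circ) = 0)
    (hb : φ (b : Circ) = 0) : MapsTo (skew m φ s) (Strip m a b) (Strip m a b) := by
  rintro z ⟨x, ⟨hxa, hxb⟩, hz⟩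
  refine ⟨x + φ (x : Circ) * s (z 1), ?_, ?_⟩
  · have h1 := h.φ_nonneg (x : Circ)
    have h2 := h.φ_lip x a
    have h3 := h.φ_lip x b
    rw [ha, sub_zero, abs_of_nonneg h1, abs_of_pos (by linarith)] at h2
    rw [hb, sub_zero, abs_of_nonneg h1, abs_of_neg (by linarith)] at h3
    have h4 := abs_le.mp (h.s_le (z 1))
    have h5 : φ (x : Circ) * s (z 1) ≤ φ (x : Circ) * 1 := mul_le_mul_of_nonneg_left h4.2 h1
    have h6 : φ (x : Circ) * (-1) ≤ φ (x : Circ) * s (z 1) := mul_le_mul_of_nonneg_left h4.1 h1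
    constructor <;> linarith
  · show (if (0 : Fin (m + 2)) = 0 then z 0 + ((φ (z 0) * s (z 1) : ℝ) : Circ)
      else (6 : ℕ) • z 0) = _
    rw [if_pos rfl, hz]
    push_cast
    rfl

namespace X_fib_hit

theorem fib_hit_ne (m : ℕ) (φ s : Circ → ℝ) (z : T (m + 2)) (i : Fin (m + 2)) (hi : i ≠ 0) :
    skew m φ s z i = (6 : ℕ) • z i := by
  simp [skew, hi]

theorem fib_hit_zero (m : ℕ) (φ s : Circ → ℝ) (z : T (m + 2)) :
    skew m φ s z 0 = z 0 + ((φ (z 0) * s (z 1) : ℝ) : Circ) := by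
  simp [skew]

theorem fib_hit_coord (m : ℕ) (φ s : Circ → ℝ) (z : T (m + 2)) (n : ℕ) (i : Fin (m + 2))
    (hi : i ≠ 0) : ((skew m φ s)^[n] z) i = (6 ^ n : ℕ) • z i := by
  induction n with
  | zero => simp
  | succ n ih =>
    rw [Function.iterate_succ_apply', fib_hit_ne _ _ _ _ _ hi, ih, smul_smul, pow_succ, mul_comm]

theorem fib_hit_smul (n : ℕ) (r : ℝ) :
    (6 ^ n : ℕ) • ((r : ℝ) : Circ) = ((6 ^ n * r : ℝ) : Circ) := by
  rw [← AddCircle.coe_nsmul, nsmul_eq_mul]
  push_cast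
  rfl

theorem fib_hit_floor (r : ℝ) :
    Tendsto (fun p : ℕ => ((⌊(6:ℝ) ^ p * r⌋ : ℝ) / 6 ^ p)) atTop (𝓝 r) := by
  have h6 : Tendsto (fun p : ℕ => ((1:ℝ)/6) ^ p) atTop (𝓝 0) :=
    tendsto_pow_atTop_nhds_zero_of_lt_one (by norm_num) (by norm_num)
  have hlow : Tendsto (fun p : ℕ => r - ((1:ℝ)/6) ^ p) atTop (𝓝 r) := by
    simpa using (tendsto_const_nhds (x := r)).sub h6
  refine tendsto_of_tendsto_of_tendsto_of_le_of_le hlow tendsto_const_nhds ?_ ?_
  · intro p
    have hp : (0:ℝ) < 6 ^ p := by positivity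
    have h1 := Int.lt_floor_add_one ((6:ℝ) ^ p * r)
    show r - ((1:ℝ)/6) ^ p ≤ (⌊(6:ℝ) ^ p * r⌋ : ℝ) / 6 ^ p
    rw [le_div_iff₀ hp, sub_mul, ← mul_pow]
    norm_num
    linarith
  · intro p
    have hp : (0:ℝ) < 6 ^ p := by positivity
    have h1 := Int.floor_le ((6:ℝ) ^ p * r)
    show (⌊(6:ℝ) ^ p * r⌋ : ℝ) / 6 ^ p ≤ r
    rw [div_le_iff₀ hp]
    linarith

theorem fib_hit_one (m : ℕ) (φ s : Circ → ℝ) (U : Set (T (m + 2))) (hU : IsOpen U)
    (hne : U.Nonempty) :
    ∃ (p : ℕ) (z : T (m + 2)), z ∈ U ∧ ∀ i, i ≠ 0 → ((skew m φ s)^[p] z) i = 0 := by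
  obtain ⟨z, hz⟩ := hne
  have h1 : ∀ i, ∃ r : ℝ, (r : Circ) = z i := fun i => QuotientAddGroup.mk_surjective (z i)
  choose r hr using h1
  have h2 : Tendsto (fun (p : ℕ) (i : Fin (m + 2)) =>
      (if i = 0 then z i else (((⌊(6:ℝ) ^ p * r i⌋ : ℝ) / 6 ^ p : ℝ) : Circ))) atTop (𝓝 z) := by
    rw [tendsto_pi_nhds]
    intro i
    by_cases hi : i = 0
    · simp only [hi, if_true]
      exact tendsto_const_nhds
    · simp only [hi, if_false]
      rw [← hr i]
      exact ((AddCircle.continuous_mk' (1:ℝ)).tendsto (r i)).comp (fib_hit_floor (r i))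
  obtain ⟨p, hp⟩ := (h2.eventually (hU.mem_nhds hz)).exists
  refine ⟨p, _, hp, ?_⟩
  intro i hi
  rw [fib_hit_coord m φ s _ p i hi]
  simp only [hi, if_false]
  rw [fib_hit_smul, mul_div_cancel₀ _ (by positivity)]
  rw [AddCircle.coe_eq_zero_iff]
  exact ⟨⌊(6:ℝ) ^ p * r i⌋, by simp⟩

theorem fib_hit_two (m : ℕ) (φ s : Circ → ℝ) (h : Good φ s) (V : Set (T (m + 2)))
    (hV : IsOpen V) (w : T (m + 2)) (hw : w ∈ V) (hw0 : ∀ i, i ≠ 0 → w i = 0) (x : ℝ)
    (hx : w 0 = (x : Circ)) : ∃ q : ℕ, Fib m (x : Circ) ⊆ (skew m φ s)^[q] '' V := by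
  obtain ⟨Φ, hΦ⟩ : ∃ Φ : (Fin (m + 2) → ℝ) → T (m + 2), ∀ t i, Φ t i =
      if i = 0 then (x : Circ) else (t i : Circ) := ⟨fun t i => if i = 0 then (x : Circ)
        else (t i : Circ), fun _ _ => rfl⟩
  have hΦc : Continuous Φ := by
    rw [continuous_pi_iff]
    intro i
    by_cases hi : i = 0
    · simp only [hΦ, hi, if_true]
      exact continuous_const
    · simp only [hΦ, hi, if_false]
      exact (AddCircle.continuous_mk' (1:ℝ)).comp (continuous_apply i)
  have hΦ0 : Φ 0 = w := by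
    funext i
    rw [hΦ]
    by_cases hi : i = 0
    · rw [if_pos hi, hi, hx]
    · rw [if_neg hi, hw0 i hi]
      simp
  have hmem : Φ ⁻¹' V ∈ 𝓝 (0 : Fin (m + 2) → ℝ) :=
    (hV.preimage hΦc).mem_nhds (by show Φ 0 ∈ V; rw [hΦ0]; exact hw)
  obtain ⟨δ, hδ, hball⟩ := Metric.mem_nhds_iff.mp hmem
  obtain ⟨q, hq⟩ := exists_pow_lt_of_lt_one hδ (show (1:ℝ)/6 < 1 by norm_num)
  refine ⟨q, ?_⟩
  intro z' hz'
  have h1 : ∀ i, ∃ r : ℝ, 0 ≤ r ∧ r < 1 ∧ (r : Circ) = z' i := by
    intro i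
    obtain ⟨r, hr⟩ := QuotientAddGroup.mk_surjective (z' i)
    refine ⟨Int.fract r, Int.fract_nonneg r, Int.fract_lt_one r, ?_⟩
    rw [← hr]
    show ((Int.fract r : ℝ) : Circ) = (r : Circ)
    rw [← sub_eq_zero, ← AddCircle.coe_sub, AddCircle.coe_eq_zero_iff]
    refine ⟨-⌊r⌋, ?_⟩
    rw [zsmul_eq_mul, mul_one, Int.cast_neg]
    linarith [Int.self_sub_floor r]
  choose r hr0 hr1 hr using h1
  have h6q : (0:ℝ) < 6 ^ q := by positivity
  obtain ⟨z, hz⟩ : ∃ z, z = Φ (fun i => r i / 6 ^ q) := ⟨_, rfl⟩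
  have hzV : z ∈ V := by
    rw [hz]
    apply hball
    rw [Metric.mem_ball, dist_zero_right, pi_norm_lt_iff hδ]
    intro i
    rw [Real.norm_eq_abs, abs_of_nonneg (div_nonneg (hr0 i) h6q.le)]
    refine lt_of_le_of_lt ?_ hq
    rw [one_div, inv_pow, ← one_div]
    exact div_le_div_of_nonneg_right (hr1 i).le h6q.le
  have hzi : ∀ i, i ≠ 0 → z i = ((r i / 6 ^ q : ℝ) : Circ) := by
    intro i hi
    rw [hz, hΦ, if_neg hi]
  have hz0 : ∀ j, j ≤ q → ((skew m φ s)^[j] z) 0 = (x : Circ) := by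
    intro j
    induction j with
    | zero =>
      intro _
      rw [Function.iterate_zero, id, hz, hΦ, if_pos rfl]
    | succ j ih =>
      intro hj
      rw [Function.iterate_succ_apply', fib_hit_zero, ih (by omega)]
      have h10 : (1 : Fin (m + 2)) ≠ 0 := by simp
      rw [fib_hit_coord m φ s z j 1 h10, hzi 1 h10, fib_hit_smul, h.s_zero]
      · simp
      · constructor
        · have := hr0 1
          positivity
        · have h3 : (6:ℝ) ^ q = 6 ^ j * 6 ^ (q - j) := by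
            rw [← pow_add]; congr 1; omega
          have h4 : (6:ℝ) ≤ 6 ^ (q - j) := by
            calc (6:ℝ) = 6 ^ 1 := by norm_num
              _ ≤ 6 ^ (q - j) := pow_le_pow_right₀ (by norm_num) (by omega)
          have h5 : (0:ℝ) < 6 ^ j := by positivity
          have h6 : (0:ℝ) < 6 ^ (q - j) := by positivity
          have h7 : (6:ℝ) ^ j * (r 1 / 6 ^ q) = r 1 / 6 ^ (q - j) := by
            rw [h3]
            field_simp
          rw [h7, div_le_iff₀ h6]
          have := hr1 1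
          linarith
  refine ⟨z, hzV, ?_⟩
  funext i
  by_cases hi : i = 0
  · rw [hi, hz0 q le_rfl]
    exact hz'.symm
  · rw [fib_hit_coord m φ s z q i hi, hzi i hi, fib_hit_smul, mul_div_cancel₀ _ h6q.ne', hr]

theorem fib_hit_open (m : ℕ) (φ s : Circ → ℝ) (h : Good φ s) (p : ℕ) (U : Set (T (m + 2)))
    (hU : IsOpen U) : IsOpen ((skew m φ s)^[p] '' U) := by
  induction p with
  | zero => simpa using hU
  | succ p ih =>
    rw [Function.iterate_succ', image_comp]
    exact skew_open m φ s h _ ih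


theorem fib_hit (m : ℕ) (φ s : Circ → ℝ) (h : Good φ s) (a b : ℝ) (ha : φ (a : Circ) = 0)
    (hb : φ (b : Circ) = 0) (U : Set (T (m + 2))) (hU : IsOpen U) (hne : U.Nonempty)
    (hUs : U ⊆ Strip m a b) :
    ∃ (k : ℕ) (x : ℝ), x ∈ Ioo a b ∧ Fib m (x : Circ) ⊆ (skew m φ s)^[k] '' U := by
  obtain ⟨p, z, hzU, hz0⟩ := fib_hit_one m φ s U hU hne
  have hVo : IsOpen ((skew m φ s)^[p] '' U) := fib_hit_open m φ s h p U hU
  have hwS : (skew m φ s)^[p] z ∈ Strip m a b :=
    ((strip_maps m φ s h a b ha hb).iterate p) (hUs hzU)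
  obtain ⟨x, hx, hx0⟩ := hwS
  obtain ⟨q, hq⟩ := fib_hit_two m φ s h _ hVo ((skew m φ s)^[p] z) ⟨z, hzU, rfl⟩ hz0 x hx0
  refine ⟨q + p, x, hx, ?_⟩
  rw [Function.iterate_add, image_comp]
  exact hq

end X_fib_hit

alias fib_hit := X_fib_hit.fib_hit

namespace X_push_right

private theorem pr_skew_zero {m : ℕ} {φ s : Circ → ℝ} (z : T (m + 2)) :
    skew m φ s z 0 = z 0 + ((φ (z 0) * s (z 1) : ℝ) : Circ) := by
  unfold skew
  rw [if_pos rfl]

private theorem pr_skew_ne {m : ℕ} {φ s : Circ → ℝ} (z : T (m + 2)) {i : Fin (m + 2)} (hi : i ≠ 0) :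
    skew m φ s z i = (6 : ℕ) • z i := by
  unfold skew
  rw [if_neg hi]

private theorem pr_iter {m : ℕ} {φ s : Circ → ℝ} (n : ℕ) (z : T (m + 2)) {i : Fin (m + 2)}
    (hi : i ≠ 0) : (skew m φ s)^[n] z i = (6 ^ n : ℕ) • z i := by
  induction n with
  | zero => simp
  | succ n ih =>
    rw [Function.iterate_succ_apply', pr_skew_ne _ hi, ih, smul_smul, pow_succ']

private theorem pr_coe_nat (r : ℝ) (n : ℕ) : ((n + r : ℝ) : Circ) = (r : Circ) := by
  have h1 : (((n : ℝ)) : Circ) = 0 := by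
    rw [AddCircle.coe_eq_zero_iff]
    exact ⟨n, by simp⟩
  rw [AddCircle.coe_add, h1, zero_add]

private theorem pr_coe_smul (r : ℝ) (n : ℕ) : n • ((r : ℝ) : Circ) = ((n * r : ℝ) : Circ) := by
  rw [← AddCircle.coe_nsmul, nsmul_eq_mul]

private theorem pr_rep (t : Circ) : ∃ r : ℝ, 0 ≤ r ∧ r < 1 ∧ (r : Circ) = t := by
  obtain ⟨r, rfl⟩ := QuotientAddGroup.mk_surjective t
  refine ⟨Int.fract r, Int.fract_nonneg r, Int.fract_lt_one r, ?_⟩
  have h1 : (((⌊r⌋ : ℤ) : ℝ) : Circ) = 0 := by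
    rw [AddCircle.coe_eq_zero_iff]
    exact ⟨⌊r⌋, by simp⟩
  have h2 : (Int.fract r : ℝ) = r - (⌊r⌋ : ℤ) := rfl
  rw [h2, AddCircle.coe_sub, h1, sub_zero]

/-- the multiples of the special point -/
private theorem pr_mult (q j e : ℕ) (y : ℝ) (he : q + 2 = (j + 1) + e) :
    (6 ^ (j + 1) : ℕ) • ((4 / 6 + (1 + y) / 6 ^ (q + 2) : ℝ) : Circ)
      = (((1 + y) / 6 ^ e : ℝ) : Circ) := by
  rw [pr_coe_smul]
  have h1 : (((6 ^ (j + 1) : ℕ) : ℝ) * (4 / 6 + (1 + y) / 6 ^ (q + 2)) : ℝ)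
      = ((4 * 6 ^ j : ℕ) : ℝ) + (1 + y) / 6 ^ e := by
    rw [he, pow_add (6 : ℝ) (j + 1) e]
    push_cast
    have h6 : (6 : ℝ) ^ (j + 1) ≠ 0 := by positivity
    have h7 : (6 : ℝ) ^ e ≠ 0 := by positivity
    field_simp
    rw [pow_succ]
    ring
  rw [h1, pr_coe_nat]


theorem push_right (m : ℕ) (φ s : Circ → ℝ) (h : Good φ s) (c δ : ℝ) (hδ : 0 < δ)
    (hc : φ (c : Circ) ≠ 0) :
    ∃ (k : ℕ) (K : Set ℝ), IsCompact K ∧ K ⊆ Ioo c (c + δ) ∧
      ∀ z ∈ Fib m (c : Circ), ∃ x ∈ K, z ∈ (skew m φ s)^[k] '' Fib m (x : Circ) := by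
  have hφc := phi_continuous φ s h
  have hcoe : Continuous (fun r : ℝ => (r : Circ)) := AddCircle.continuous_mk' 1
  -- bound on φ
  have hφle : ∀ t : Circ, φ t ≤ 1 / 2 := by
    intro t
    obtain ⟨r, hr0, hr1, rfl⟩ := pr_rep t
    have h1 := h.φ_lip r 0
    have h2 : ((0 : ℝ) : Circ) = 0 := rfl
    rw [h2, h.φ_zero, sub_zero, sub_zero, abs_of_nonneg hr0] at h1
    have h3 := le_abs_self (φ (r : Circ))
    linarith
  -- the choice of q
  have hs23 : ContinuousAt (fun r : ℝ => s (r : Circ)) (2 / 3) :=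
    (h.s_cont.comp hcoe).continuousAt
  obtain ⟨η, hη, hη2⟩ := Metric.continuousAt_iff.1 hs23 δ hδ
  obtain ⟨q, hq⟩ := exists_pow_lt_of_lt_one (show (0 : ℝ) < η / 2 by linarith)
    (show (1 / 6 : ℝ) < 1 by norm_num)
  have hq2 : (2 : ℝ) / 6 ^ (q + 2) < η := by
    have h1 : (2 : ℝ) / 6 ^ (q + 2) ≤ 2 * (1 / 6) ^ q := by
      rw [one_div, inv_pow, pow_add, div_eq_mul_inv, mul_inv]
      have h2 : (0 : ℝ) ≤ ((6 : ℝ) ^ q)⁻¹ := by positivity
      have h3 : ((6 : ℝ) ^ 2)⁻¹ ≤ 1 := by norm_num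
      nlinarith
    linarith
  set S : ℝ → ℝ := fun y => s ((4 / 6 + (1 + y) / 6 ^ (q + 2) : ℝ) : Circ) with hS
  have hScont : Continuous S := by
    refine h.s_cont.comp (hcoe.comp ?_)
    fun_prop
  have h36 : (36 : ℝ) ≤ 6 ^ (q + 2) := by
    rw [pow_add]
    have : (1 : ℝ) ≤ 6 ^ q := one_le_pow₀ (by norm_num)
    nlinarith
  have hpos6 : (0 : ℝ) < 6 ^ (q + 2) := by positivity
  have hyb : ∀ y ∈ Icc (0 : ℝ) 1, 0 < (1 + y) / 6 ^ (q + 2) ∧ (1 + y) / 6 ^ (q + 2) ≤ 2 / 6 ^ (q + 2)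
      ∧ (1 + y) / 6 ^ (q + 2) ≤ 2 / 36 := by
    intro y hy
    have h1 : (1 + y) / 6 ^ (q + 2) ≤ 2 / 6 ^ (q + 2) :=
      div_le_div_of_nonneg_right (by linarith [hy.2]) hpos6.le
    refine ⟨div_pos (by linarith [hy.1]) hpos6, h1, h1.trans ?_⟩
    exact div_le_div_of_nonneg_left (by norm_num) (by norm_num) h36
  have hSneg : ∀ y ∈ Icc (0 : ℝ) 1, S y < 0 := by
    intro y hy
    obtain ⟨h1, -, h3⟩ := hyb y hy
    refine h.s_neg _ ⟨?_, ?_⟩ <;> norm_num at h1 h3 ⊢ <;> linarith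
  have hSbd : ∀ y ∈ Icc (0 : ℝ) 1, -δ < S y := by
    intro y hy
    obtain ⟨h1, h2, -⟩ := hyb y hy
    have h4 := @hη2 (4 / 6 + (1 + y) / 6 ^ (q + 2)) (by
      rw [Real.dist_eq]
      have h5 : (4 / 6 + (1 + y) / 6 ^ (q + 2) - 2 / 3 : ℝ) = (1 + y) / 6 ^ (q + 2) := by ring
      rw [h5, abs_of_pos h1]
      linarith)
    rw [Real.dist_eq, h.s_23, sub_zero] at h4
    exact (abs_lt.1 h4).1
  have hne : (Icc (0 : ℝ) 1).Nonempty := ⟨0, by norm_num, by norm_num⟩
  obtain ⟨y1, hy1, hy1max⟩ := isCompact_Icc.exists_isMaxOn hne hScont.continuousOn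
  obtain ⟨y0, hy0, hy0min⟩ := isCompact_Icc.exists_isMinOn hne hScont.continuousOn
  rw [isMaxOn_iff] at hy1max
  rw [isMinOn_iff] at hy0min
  have hδ2 : S y1 < 0 := hSneg y1 hy1
  have hδ1 : -δ < S y0 := hSbd y0 hy0
  set K : Set ℝ := {x | x ∈ Icc c (c + δ / 2) ∧ ∃ t ∈ Icc (S y0) (S y1), x + φ (x : Circ) * t = c}
    with hK
  have hKc : IsCompact K := by
    have h1 : IsCompact {p : ℝ × ℝ | p ∈ Icc c (c + δ / 2) ×ˢ Icc (S y0) (S y1) ∧
        p.1 + φ (p.1 : Circ) * p.2 = c} := by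
      apply (isCompact_Icc.prod isCompact_Icc).inter_right
      refine isClosed_eq ?_ continuous_const
      exact continuous_fst.add (((hφc.comp hcoe).comp continuous_fst).mul continuous_snd)
    have h2 := h1.image continuous_fst
    convert h2 using 1
    ext x
    constructor
    · rintro ⟨hx, t, ht, hxt⟩
      exact ⟨(x, t), ⟨⟨hx, ht⟩, hxt⟩, rfl⟩
    · rintro ⟨⟨x', t⟩, ⟨⟨hx, ht⟩, hxt⟩, rfl⟩
      exact ⟨hx, t, ht, hxt⟩
  refine ⟨q + 2, K, hKc, ?_, ?_⟩
  · rintro x ⟨hx, t, ht, hxt⟩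
    refine ⟨lt_of_le_of_ne hx.1 ?_, by linarith [hx.2]⟩
    intro he
    rw [← he] at hxt
    have h1 : φ (c : Circ) * t = 0 := by linarith
    rcases mul_eq_zero.1 h1 with h2 | h2
    · exact hc h2
    · have := ht.2
      linarith
  · intro z hz
    have hz0 : z 0 = (c : Circ) := hz
    choose tt htt0 htt1 htt2 using fun i => pr_rep (z i)
    set y := tt 1 with hy
    have hyI : y ∈ Icc (0 : ℝ) 1 := ⟨htt0 1, (htt1 1).le⟩
    -- the point x
    have hGc : Continuous (fun x : ℝ => x + φ (x : Circ) * S y) :=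
      continuous_id.add ((hφc.comp hcoe).mul continuous_const)
    have hφpos : 0 < φ (c : Circ) := lt_of_le_of_ne (h.φ_nonneg _) (Ne.symm hc)
    have hIVT := intermediate_value_Icc (show c ≤ c + δ / 2 by linarith) hGc.continuousOn
    have hmem : c ∈ Icc (c + φ (c : Circ) * S y)
        ((c + δ / 2) + φ ((c + δ / 2 : ℝ) : Circ) * S y) := by
      constructor
      · have := mul_neg_of_pos_of_neg hφpos (hSneg y hyI)
        linarith
      · have h1 := h.φ_nonneg ((c + δ / 2 : ℝ) : Circ)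
        have h2 := hφle ((c + δ / 2 : ℝ) : Circ)
        have h3 := hSbd y hyI
        have h4 := hSneg y hyI
        nlinarith
    obtain ⟨x, hxI, hx⟩ := hIVT hmem
    have hxK : x ∈ K := ⟨hxI, S y, ⟨hy0min y hyI, hy1max y hyI⟩, hx⟩
    refine ⟨x, hxK, ?_⟩
    set z' : T (m + 2) := fun i => if i = 0 then (x : Circ) else
      if i = 1 then ((4 / 6 + (1 + y) / 6 ^ (q + 2) : ℝ) : Circ) else
        ((tt i / 6 ^ (q + 2) : ℝ) : Circ) with hz'
    have h10 : (1 : Fin (m + 2)) ≠ 0 := one_ne_zero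
    have hz'0 : z' 0 = (x : Circ) := by simp only [hz', if_true]
    have hz'1 : z' 1 = ((4 / 6 + (1 + y) / 6 ^ (q + 2) : ℝ) : Circ) := by
      simp only [hz', if_neg h10, if_true]
    refine ⟨z', hz'0, ?_⟩
    -- coordinate 0
    have hcoord0 : ∀ j, j ≤ q + 1 → (skew m φ s)^[j + 1] z' 0 = (c : Circ) := by
      intro j
      induction j with
      | zero =>
        intro _
        rw [zero_add, Function.iterate_one, pr_skew_zero, hz'0, hz'1, ← AddCircle.coe_add]
        congr 1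
      | succ j ih =>
        intro hj
        rw [Function.iterate_succ_apply', pr_skew_zero, ih (by omega), pr_iter _ _ h10, hz'1]
        obtain ⟨e, he⟩ : ∃ e, q + 2 = (j + 1) + (e + 1) := ⟨q - j, by omega⟩
        rw [pr_mult q j (e + 1) y he, h.s_zero, mul_zero]
        · rw [AddCircle.coe_zero, add_zero]
        · have h6 : (6 : ℝ) ≤ 6 ^ (e + 1) := by
            rw [pow_succ]
            have : (1 : ℝ) ≤ 6 ^ e := one_le_pow₀ (by norm_num)
            linarith
          have h7 : (0 : ℝ) < 6 ^ (e + 1) := by positivity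
          refine ⟨div_nonneg (by linarith [hyI.1]) h7.le, ?_⟩
          rw [div_le_iff₀ h7]
          linarith [hyI.2]
    funext i
    by_cases hi0 : i = 0
    · rw [hi0, hz0]
      exact hcoord0 (q + 1) le_rfl
    · rw [pr_iter _ _ hi0]
      by_cases hi1 : i = 1
      · rw [hi1, hz'1, pr_mult q (q + 1) 0 y (by ring), pow_zero, div_one]
        have h1 : ((1 + y : ℝ) : Circ) = (y : Circ) := by
          have := pr_coe_nat y 1
          rwa [Nat.cast_one] at this
        rw [h1, hy, htt2]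
      · have h1 : z' i = ((tt i / 6 ^ (q + 2) : ℝ) : Circ) := by
          simp only [hz', if_neg hi0, if_neg hi1]
        rw [h1, pr_coe_smul]
        have h2 : (((6 ^ (q + 2) : ℕ) : ℝ) * (tt i / 6 ^ (q + 2)) : ℝ) = tt i := by
          push_cast
          field_simp
        rw [h2, htt2]

end X_push_right

alias push_right := X_push_right.push_right

namespace X_push_left

theorem pl_coe_int (n : ℤ) : (((n : ℝ)) : Circ) = 0 := by
  rw [AddCircle.coe_eq_zero_iff]
  exact ⟨n, by simp⟩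

theorem pl_coe_add_int (x : ℝ) (n : ℤ) : ((x + (n : ℝ) : ℝ) : Circ) = (x : Circ) := by
  rw [AddCircle.coe_add, pl_coe_int, add_zero]

theorem pl_phi_le (φ s : Circ → ℝ) (h : Good φ s) (x : Circ) : φ x ≤ 1 / 4 := by
  obtain ⟨r, rfl⟩ := QuotientAddGroup.mk_surjective x
  have h1 : ((r - round r : ℝ) : Circ) = (r : Circ) := by
    have := pl_coe_add_int r (-(round r))
    rw [← this]
    congr 1
    push_cast
    ring
  have h2 := h.φ_lip (r - round r) 0
  have h3 := abs_sub_round r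
  have h4 : φ ((0 : ℝ) : Circ) = 0 := by simpa using h.φ_zero
  rw [h4, sub_zero, sub_zero, h1] at h2
  have h5 := (le_abs_self _).trans h2
  show φ ((r : ℝ) : Circ) ≤ 1 / 4
  linarith

theorem push_left (m : ℕ) (φ s : Circ → ℝ) (h : Good φ s) (c δ : ℝ) (hδ : 0 < δ)
    (hc : φ (c : Circ) ≠ 0) :
    ∃ (k : ℕ) (K : Set ℝ), IsCompact K ∧ K ⊆ Ioo (c - δ) c ∧
      ∀ z ∈ Fib m (c : Circ), ∃ x ∈ K, z ∈ (skew m φ s)^[k] '' Fib m (x : Circ) := by
  have hcoe : Continuous (fun x : ℝ => (x : Circ)) := AddCircle.continuous_mk' 1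
  have hcpos : 0 < φ (c : Circ) := lt_of_le_of_ne (h.φ_nonneg _) (Ne.symm hc)
  have hsc : Continuous (fun x : ℝ => s (x : Circ)) := h.s_cont.comp hcoe
  have hφc : Continuous (fun x : ℝ => φ (x : Circ)) := (phi_continuous φ s h).comp hcoe
  -- choose q
  obtain ⟨η, hη, hη2⟩ : ∃ η > 0, ∀ u : ℝ, |u - 1/3| < η → s (u : Circ) < min δ 1 := by
    have h1 := Metric.continuous_iff.1 hsc (1/3) (min δ 1) (lt_min hδ one_pos)
    obtain ⟨η, hη, h2⟩ := h1
    refine ⟨η, hη, fun u hu => ?_⟩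
    have h3 := h2 u (by rw [Real.dist_eq]; exact hu)
    rw [Real.dist_eq, h.s_zero (1/3) ⟨by norm_num, le_rfl⟩, sub_zero] at h3
    exact lt_of_le_of_lt (le_abs_self _) h3
  obtain ⟨q, hq⟩ : ∃ q : ℕ, 2 / (6 : ℝ) ^ (q + 2) < η := by
    obtain ⟨q, hq⟩ := exists_pow_lt_of_lt_one (show (0:ℝ) < η / 2 by positivity)
      (show (1/6 : ℝ) < 1 by norm_num)
    refine ⟨q, ?_⟩
    have h1 : (1/6 : ℝ) ^ (q + 2) ≤ (1/6 : ℝ) ^ q :=
      pow_le_pow_of_le_one (by norm_num) (by norm_num) (by omega)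
    have h2 : 2 / (6 : ℝ) ^ (q + 2) = 2 * (1/6 : ℝ) ^ (q + 2) := by
      rw [one_div, inv_pow]; rfl
    rw [h2]; linarith
  have hpow : (0:ℝ) < 6 ^ (q + 2) := by positivity
  have hpow36 : (36:ℝ) ≤ 6 ^ (q + 2) := by
    have : (1:ℝ) ≤ 6 ^ q := one_le_pow₀ (by norm_num)
    rw [pow_add]; nlinarith
  let yp : ℝ → ℝ := fun y => 1/3 + (1 + y) / 6 ^ (q + 2)
  let t : ℝ → ℝ := fun y => s ((yp y : ℝ) : Circ)
  have hyp : ∀ y ∈ Icc (0:ℝ) 1, yp y ∈ Ioo (1/3 : ℝ) (2/3) ∧ |yp y - 1/3| < η := by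
    intro y hy
    have h1 : 0 < (1 + y) / 6 ^ (q + 2) := div_pos (by linarith [hy.1]) hpow
    have h2 : (1 + y) / 6 ^ (q + 2) ≤ 2 / 6 ^ (q + 2) :=
      div_le_div_of_nonneg_right (by linarith [hy.2]) hpow.le
    have h3 : 2 / (6:ℝ) ^ (q + 2) ≤ 2 / 36 :=
      div_le_div_of_nonneg_left (by norm_num) (by norm_num) hpow36
    refine ⟨⟨?_, ?_⟩, ?_⟩
    · show 1/3 < 1/3 + (1 + y) / 6 ^ (q + 2); linarith
    · show 1/3 + (1 + y) / 6 ^ (q + 2) < 2/3; norm_num at h3 ⊢; linarith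
    · have : yp y - 1/3 = (1 + y) / 6 ^ (q + 2) := by
        show 1/3 + (1 + y) / 6 ^ (q + 2) - 1/3 = _; ring
      rw [this, abs_of_pos h1]; linarith
  have htc : Continuous t := by
    refine hsc.comp ?_
    show Continuous fun y : ℝ => 1/3 + (1 + y) / 6 ^ (q + 2)
    fun_prop
  have htpos : ∀ y ∈ Icc (0:ℝ) 1, 0 < t y := fun y hy => h.s_pos _ (hyp y hy).1
  have htlt : ∀ y ∈ Icc (0:ℝ) 1, t y < min δ 1 := fun y hy => hη2 _ (hyp y hy).2
  obtain ⟨ya, hya, hamin⟩ := isCompact_Icc.exists_isMinOn (nonempty_Icc.2 (zero_le_one (α := ℝ)))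
    htc.continuousOn
  obtain ⟨yb, hyb, hbmax⟩ := isCompact_Icc.exists_isMaxOn (nonempty_Icc.2 (zero_le_one (α := ℝ)))
    htc.continuousOn
  set δ2 := t ya with hδ2
  set δ1 := t yb with hδ1
  have hδ2pos : 0 < δ2 := htpos ya hya
  have hδ1lt : δ1 < δ := lt_of_lt_of_le (htlt yb hyb) (min_le_left _ _)
  have htmem : ∀ y ∈ Icc (0:ℝ) 1, t y ∈ Icc δ2 δ1 := fun y hy => ⟨hamin hy, hbmax hy⟩
  let K : Set ℝ := Prod.fst '' {p : ℝ × ℝ | p ∈ Icc (c - δ/2) c ×ˢ Icc δ2 δ1 ∧
    p.1 + φ (p.1 : Circ) * p.2 = c}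
  refine ⟨q + 2, K, ?_, ?_, ?_⟩
  · refine IsCompact.image ?_ continuous_fst
    refine (isCompact_Icc.prod isCompact_Icc).inter_right (isClosed_eq ?_ continuous_const)
    exact continuous_fst.add ((hφc.comp continuous_fst).mul continuous_snd)
  · rintro _ ⟨⟨x, τ⟩, ⟨⟨hx, hτ⟩, he⟩, rfl⟩
    simp only at hx hτ he ⊢
    refine ⟨by linarith [hx.1], lt_of_le_of_ne hx.2 ?_⟩
    rintro rfl
    have : φ (x : Circ) * τ = 0 := by linarith
    rcases mul_eq_zero.1 this with h1 | h1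
    · exact hc h1
    · linarith [hτ.1]
  · intro z hz
    have hz0 : z 0 = (c : Circ) := hz
    have hrep : ∀ i, ∃ r : ℝ, r ∈ Ico (0:ℝ) 1 ∧ (r : Circ) = z i := by
      intro i
      obtain ⟨r, hr⟩ := QuotientAddGroup.mk_surjective (z i)
      refine ⟨Int.fract r, ⟨Int.fract_nonneg r, Int.fract_lt_one r⟩, ?_⟩
      have h1 := pl_coe_add_int r (-⌊r⌋)
      have h2 : Int.fract r = r + ((-⌊r⌋ : ℤ) : ℝ) := by
        rw [Int.fract]; push_cast; ring
      rw [h2, h1]; exact hr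
    choose r hr hrz using hrep
    have h10 : (1 : Fin (m + 2)) ≠ 0 := by simp
    have hy : r 1 ∈ Icc (0:ℝ) 1 := ⟨(hr 1).1, (hr 1).2.le⟩
    set τ := t (r 1) with hτ
    have hτm := htmem _ hy
    -- intermediate value theorem
    have hgc : ContinuousOn (fun x : ℝ => x + φ (x : Circ) * τ) (Icc (c - δ/2) c) :=
      (continuous_id.add (hφc.mul continuous_const)).continuousOn
    have hτpos : 0 < τ := htpos _ hy
    have hivt := intermediate_value_Icc (by linarith : c - δ/2 ≤ c) hgc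
    have hcm : c ∈ Icc ((c - δ/2) + φ ((c - δ/2 : ℝ) : Circ) * τ) (c + φ (c : Circ) * τ) := by
      constructor
      · have h1 := pl_phi_le φ s h ((c - δ/2 : ℝ) : Circ)
        have h2 : φ ((c - δ/2 : ℝ) : Circ) * τ ≤ 1/4 * τ := mul_le_mul_of_nonneg_right h1 hτpos.le
        have h3 := hτm.2
        linarith
      · have := mul_pos hcpos hτpos
        linarith
    obtain ⟨x, hx, hxe⟩ := hivt hcm
    simp only at hxe
    refine ⟨x, ⟨(x, τ), ⟨⟨hx, hτm⟩, hxe⟩, rfl⟩, ?_⟩
    let a : Fin (m + 2) → ℝ := fun i => r i + if i = 1 then 1 else 0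
    let Z : ℕ → T (m + 2) := fun j i => if i = 0 then (c : Circ) else ((a i / 6 ^ j : ℝ) : Circ)
    have hstep : ∀ j : ℕ, skew m φ s (Z (j + 1)) = Z j := by
      intro j
      funext i
      have hZ0 : Z (j + 1) 0 = (c : Circ) := by simp [Z]
      have hZ1 : Z (j + 1) 1 = ((a 1 / 6 ^ (j + 1) : ℝ) : Circ) := by
        show (if (1 : Fin (m+2)) = 0 then (c : Circ) else _) = _
        rw [if_neg h10]
      by_cases hi : i = 0
      · subst hi
        show (if (0 : Fin (m+2)) = 0 then Z (j + 1) 0 + ((φ (Z (j + 1) 0) * s (Z (j + 1) 1) : ℝ) : Circ)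
          else _) = Z j 0
        rw [if_pos rfl, hZ0, hZ1]
        have h1 : s ((a 1 / 6 ^ (j + 1) : ℝ) : Circ) = 0 := by
          apply h.s_zero
          have ha : a 1 = r 1 + 1 := by simp [a]
          have hp : (6:ℝ) ≤ 6 ^ (j + 1) := by
            have : (1:ℝ) ≤ 6 ^ j := one_le_pow₀ (by norm_num)
            rw [pow_succ]; linarith
          have hp0 : (0:ℝ) < 6 ^ (j + 1) := by positivity
          rw [ha]
          refine ⟨div_nonneg (by linarith [hy.1]) hp0.le, ?_⟩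
          rw [div_le_iff₀ hp0]
          linarith [hy.2]
        rw [h1, mul_zero]
        simp [Z]
      · show (if i = 0 then _ else (6 : ℕ) • Z (j + 1) i) = Z j i
        rw [if_neg hi]
        show (6 : ℕ) • (if i = 0 then (c : Circ) else ((a i / 6 ^ (j + 1) : ℝ) : Circ))
          = (if i = 0 then (c : Circ) else ((a i / 6 ^ j : ℝ) : Circ))
        rw [if_neg hi, if_neg hi, ← AddCircle.coe_nsmul]
        congr 1
        rw [nsmul_eq_mul, pow_succ]
        push_cast
        field_simp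
    have hiter : ∀ j : ℕ, (skew m φ s)^[j] (Z j) = Z 0 := by
      intro j
      induction j with
      | zero => rfl
      | succ j ih => rw [Function.iterate_succ_apply, hstep j, ih]
    have hZz : Z 0 = z := by
      funext i
      show (if i = 0 then (c : Circ) else ((a i / 6 ^ 0 : ℝ) : Circ)) = z i
      by_cases hi : i = 0
      · rw [if_pos hi, hi, hz0]
      · rw [if_neg hi, pow_zero, div_one]
        show ((r i + (if i = 1 then 1 else 0) : ℝ) : Circ) = z i
        by_cases h1 : i = 1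
        · rw [if_pos h1]
          have := pl_coe_add_int (r i) 1
          simp only [Int.cast_one] at this
          rw [this, hrz]
        · rw [if_neg h1, add_zero, hrz]
    let z' : T (m + 2) := fun i => if i = 0 then (x : Circ) else
      if i = 1 then ((yp (r 1) : ℝ) : Circ) else ((a i / 6 ^ (q + 2) : ℝ) : Circ)
    refine ⟨z', ?_, ?_⟩
    · show z' 0 = (x : Circ)
      simp [z']
    · rw [Function.iterate_succ_apply]
      have hfirst : skew m φ s z' = Z (q + 1) := by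
        funext i
        have hz'0 : z' 0 = (x : Circ) := by simp [z']
        have hz'1 : z' 1 = ((yp (r 1) : ℝ) : Circ) := by
          show (if (1 : Fin (m+2)) = 0 then (x : Circ) else _) = _
          rw [if_neg h10, if_pos rfl]
        by_cases hi : i = 0
        · subst hi
          show (if (0 : Fin (m+2)) = 0 then z' 0 + ((φ (z' 0) * s (z' 1) : ℝ) : Circ) else _)
            = Z (q + 1) 0
          rw [if_pos rfl, hz'0, hz'1, ← AddCircle.coe_add]
          have : Z (q + 1) 0 = (c : Circ) := by simp [Z]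
          rw [this]
          congr 1
        · show (if i = 0 then _ else (6 : ℕ) • z' i) = Z (q + 1) i
          rw [if_neg hi]
          have hZi : Z (q + 1) i = ((a i / 6 ^ (q + 1) : ℝ) : Circ) := by
            show (if i = 0 then (c : Circ) else _) = _
            rw [if_neg hi]
          rw [hZi]
          by_cases h1 : i = 1
          · subst h1
            rw [hz'1, ← AddCircle.coe_nsmul]
            have h2 := pl_coe_add_int (a 1 / 6 ^ (q + 1)) 2
            rw [← h2]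
            congr 1
            have ha : a 1 = r 1 + 1 := by simp [a]
            show (6 : ℕ) • (1/3 + (1 + r 1) / 6 ^ (q + 2)) = _
            rw [ha, nsmul_eq_mul, pow_succ (6:ℝ) (q + 1)]
            push_cast
            field_simp
            ring
          · show (6 : ℕ) • (if i = 0 then (x : Circ) else
              if i = 1 then ((yp (r 1) : ℝ) : Circ) else ((a i / 6 ^ (q + 2) : ℝ) : Circ)) = _
            rw [if_neg hi, if_neg h1, ← AddCircle.coe_nsmul]
            congr 1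
            rw [nsmul_eq_mul, pow_succ (6:ℝ) (q + 1)]
            push_cast
            field_simp
      rw [hfirst, hiter (q + 1), hZz]

end X_push_left

alias push_left := X_push_left.push_left

namespace X_strip_fill

theorem sf_conn (a b : ℝ) (A : Set ℝ) (hA : IsOpen A) (hne : A.Nonempty) (hsub : A ⊆ Ioo a b)
    (hr : ∀ c ∈ Ioo a b, ∀ δ : ℝ, 0 < δ → Ioo c (c + δ) ⊆ A → c ∈ A)
    (hl : ∀ c ∈ Ioo a b, ∀ δ : ℝ, 0 < δ → Ioo (c - δ) c ⊆ A → c ∈ A) : Ioo a b ⊆ A := by
  intro x1 hx1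
  by_contra hx1A
  obtain ⟨x0, hx0⟩ := hne
  have hx0' := hsub hx0
  rcases lt_trichotomy x1 x0 with hlt | heq | hgt
  · have hcomp : IsCompact (Icc x1 x0 ∩ Aᶜ) := isCompact_Icc.inter_right hA.isClosed_compl
    obtain ⟨c, ⟨hc1, hc2⟩, hc3⟩ := hcomp.exists_isGreatest ⟨x1, ⟨le_refl _, hlt.le⟩, hx1A⟩
    have hcx0 : c < x0 := by
      rcases lt_or_eq_of_le hc1.2 with h | h
      · exact h
      · exact absurd (h ▸ hx0) hc2
    apply hc2
    refine hr c ⟨lt_of_lt_of_le hx1.1 hc1.1, lt_trans hcx0 hx0'.2⟩ (x0 - c) (by linarith) ?_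
    intro y hy
    by_contra hyA
    have h1 : y < x0 := by linarith [hy.2]
    have h2 := hc3 (⟨⟨le_trans hc1.1 hy.1.le, h1.le⟩, hyA⟩ : y ∈ Icc x1 x0 ∩ Aᶜ)
    linarith [hy.1]
  · exact hx1A (heq ▸ hx0)
  · have hcomp : IsCompact (Icc x0 x1 ∩ Aᶜ) := isCompact_Icc.inter_right hA.isClosed_compl
    obtain ⟨c, ⟨hc1, hc2⟩, hc3⟩ := hcomp.exists_isLeast ⟨x1, ⟨hgt.le, le_refl _⟩, hx1A⟩
    have hcx0 : x0 < c := by
      rcases lt_or_eq_of_le hc1.1 with h | h
      · exact h
      · exact absurd (h ▸ hx0) hc2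
    apply hc2
    refine hl c ⟨lt_trans hx0'.1 hcx0, lt_of_le_of_lt hc1.2 hx1.2⟩ (c - x0) (by linarith) ?_
    intro y hy
    by_contra hyA
    have h1 : x0 < y := by linarith [hy.1]
    have h2 := hc3 (⟨⟨h1.le, le_trans hy.2.le hc1.2⟩, hyA⟩ : y ∈ Icc x0 x1 ∩ Aᶜ)
    linarith [hy.2]

theorem sf_iter_open {X : Type} [TopologicalSpace X] (f : X → X) (hf : IsOpenMap f) (U : Set X)
    (hU : IsOpen U) : ∀ k : ℕ, IsOpen (f^[k] '' U) := by
  intro k
  induction k with
  | zero => simpa using hU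
  | succ k ih =>
    rw [Function.iterate_succ', image_comp]
    exact hf _ ih

/-- abstract version of the filling argument -/
theorem sf_abs (X : Type) [TopologicalSpace X] (f : X → X) (hf : IsOpenMap f)
    (a b : ℝ) (p : X → Circ) (hp : Continuous p)
    (F : Circ → Set X) (hF : ∀ x, F x = {z | p z = x})
    (hmono : ∀ x, F x ⊆ f '' F x)
    (hFo : ∀ O : Set X, IsOpen O → IsOpen {x : Circ | F x ⊆ O})
    (U : Set X) (hU : IsOpen U)
    (hhit : ∃ (k : ℕ) (x : ℝ), x ∈ Ioo a b ∧ F (x : Circ) ⊆ f^[k] '' U)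
    (hr : ∀ c ∈ Ioo a b, ∀ δ : ℝ, 0 < δ → ∃ (k : ℕ) (K : Set ℝ), IsCompact K ∧
      K ⊆ Ioo c (c + δ) ∧ ∀ z ∈ F (c : Circ), ∃ x ∈ K, z ∈ f^[k] '' F (x : Circ))
    (hl : ∀ c ∈ Ioo a b, ∀ δ : ℝ, 0 < δ → ∃ (k : ℕ) (K : Set ℝ), IsCompact K ∧
      K ⊆ Ioo (c - δ) c ∧ ∀ z ∈ F (c : Circ), ∃ x ∈ K, z ∈ f^[k] '' F (x : Circ))
    (C : Set X) (hC : IsCompact C) (hCs : ∀ z ∈ C, ∃ x ∈ Ioo a b, p z = ((x : ℝ) : Circ)) :
    ∃ k0 : ℕ, ∀ k : ℕ, k0 ≤ k → C ⊆ f^[k] '' U := by
  set A : ℕ → Set ℝ := fun k => {x : ℝ | x ∈ Ioo a b ∧ F (x : Circ) ⊆ f^[k] '' U} with hAdef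
  have hAmono : Monotone A := by
    apply monotone_nat_of_le_succ
    intro k x hx
    refine ⟨hx.1, ?_⟩
    rw [Function.iterate_succ', image_comp]
    exact (hmono _).trans (image_mono hx.2)
  have hAopen : ∀ k, IsOpen (A k) := by
    intro k
    have h1 : IsOpen {x : Circ | F x ⊆ f^[k] '' U} := hFo _ (sf_iter_open f hf U hU k)
    have h2 : IsOpen ((fun x : ℝ => (x : Circ)) ⁻¹' {x : Circ | F x ⊆ f^[k] '' U}) :=
      h1.preimage (AddCircle.continuous_mk' 1)
    exact isOpen_Ioo.inter h2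
  have hcover : Ioo a b ⊆ ⋃ k, A k := by
    apply sf_conn a b (⋃ k, A k) (isOpen_iUnion hAopen)
    · obtain ⟨k, x, hx, hx2⟩ := hhit
      exact ⟨x, mem_iUnion.2 ⟨k, hx, hx2⟩⟩
    · exact iUnion_subset (fun k x hx => hx.1)
    · intro c hc δ hδ hsub
      obtain ⟨k1, K, hK, hK1, hK2⟩ := hr c hc δ hδ
      obtain ⟨k, hk⟩ := hK.elim_directed_cover A hAopen (hK1.trans hsub) hAmono.directed_le
      refine mem_iUnion.2 ⟨k1 + k, hc, ?_⟩
      intro z hz
      obtain ⟨x, hx, hx2⟩ := hK2 z hz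
      rw [Function.iterate_add, image_comp]
      exact image_mono (hk hx).2 hx2
    · intro c hc δ hδ hsub
      obtain ⟨k1, K, hK, hK1, hK2⟩ := hl c hc δ hδ
      obtain ⟨k, hk⟩ := hK.elim_directed_cover A hAopen (hK1.trans hsub) hAmono.directed_le
      refine mem_iUnion.2 ⟨k1 + k, hc, ?_⟩
      intro z hz
      obtain ⟨x, hx, hx2⟩ := hK2 z hz
      rw [Function.iterate_add, image_comp]
      exact image_mono (hk hx).2 hx2
  have hopen2 : ∀ k, IsOpen (p ⁻¹' ((fun x : ℝ => (x : Circ)) '' A k)) := by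
    intro k
    refine IsOpen.preimage hp ?_
    exact (QuotientAddGroup.isOpenMap_coe (N := AddSubgroup.zmultiples (1 : ℝ))) _ (hAopen k)
  have hmono2 : Monotone (fun k => p ⁻¹' ((fun x : ℝ => (x : Circ)) '' A k)) := by
    intro k l hkl
    exact preimage_mono (image_mono (hAmono hkl))
  have hcov2 : C ⊆ ⋃ k, p ⁻¹' ((fun x : ℝ => (x : Circ)) '' A k) := by
    intro z hz
    obtain ⟨x, hx, hx2⟩ := hCs z hz
    obtain ⟨k, hk⟩ := mem_iUnion.1 (hcover hx)
    exact mem_iUnion.2 ⟨k, x, hk, hx2.symm⟩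
  obtain ⟨k0, hk0⟩ := hC.elim_directed_cover _ hopen2 hcov2 hmono2.directed_le
  refine ⟨k0, fun k hk z hz => ?_⟩
  obtain ⟨x, hx, hx2⟩ := hk0 hz
  have h3 := (hAmono hk hx).2
  apply h3
  rw [hF]
  exact hx2.symm


theorem strip_fill (m : ℕ) (φ s : Circ → ℝ) (h : Good φ s) (a b : ℝ) (hab : a < b)
    (ha : φ (a : Circ) = 0) (hb : φ (b : Circ) = 0) (hpos : ∀ x ∈ Ioo a b, φ (x : Circ) ≠ 0)
    (U : Set (T (m + 2))) (hU : IsOpen U) (hne : U.Nonempty) (hUs : U ⊆ Strip m a b)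
    (C : Set (T (m + 2))) (hC : IsCompact C) (hCs : C ⊆ Strip m a b) :
    ∃ k0 : ℕ, ∀ k : ℕ, k0 ≤ k → C ⊆ (skew m φ s)^[k] '' U := by
  exact sf_abs (T (m + 2)) (skew m φ s) (skew_open m φ s h) a b (fun z => z 0)
    (continuous_apply 0) (Fib m) (fun x => rfl) (fib_mono m φ s h) (fib_open m) U hU
    (fib_hit m φ s h a b ha hb U hU hne hUs)
    (fun c hc δ hδ => push_right m φ s h c δ hδ (hpos c hc))
    (fun c hc δ hδ => push_left m φ s h c δ hδ (hpos c hc)) C hC (fun z hz => hCs hz)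

end X_strip_fill

alias strip_fill := X_strip_fill.strip_fill

theorem HP_strip (m : ℕ) (φ s : Circ → ℝ) (h : Good φ s) (a b : ℝ) (hab : a < b)
    (ha : φ (a : Circ) = 0) (hb : φ (b : Circ) = 0) (hpos : ∀ x ∈ Ioo a b, φ (x : Circ) ≠ 0) :
    HP (skew m φ s) (Strip m a b) := by
  refine ⟨?_, ?_⟩
  · have h1 : Strip m a b =
        (fun z : T (m + 2) => z 0) ⁻¹' ((fun x : ℝ => (x : Circ)) '' Ioo a b) := by
      ext z
      constructor
      · rintro ⟨x, hx, hz⟩
        exact ⟨x, hx, hz.symm⟩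
      · rintro ⟨x, hx, hz⟩
        exact ⟨x, hx, hz.symm⟩
    rw [h1]
    have h2 : IsOpen ((fun x : ℝ => (x : Circ)) '' Ioo a b) :=
      QuotientAddGroup.isOpenMap_coe _ isOpen_Ioo
    exact h2.preimage (continuous_apply 0)
  · intro U V hU hV hUi hVi hUW hVW
    obtain ⟨k1, hk1⟩ := strip_fill m φ s h a b hab ha hb hpos (interior U) isOpen_interior hUi
      (interior_subset.trans hUW) (U ∪ V) (hU.union hV) (union_subset hUW hVW)
    obtain ⟨k2, hk2⟩ := strip_fill m φ s h a b hab ha hb hpos (interior V) isOpen_interior hVi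
      (interior_subset.trans hVW) (U ∪ V) (hU.union hV) (union_subset hUW hVW)
    refine ⟨max (max k1 k2) 1, le_max_right _ _, ?_, ?_⟩
    · exact (hk1 _ ((le_max_left _ _).trans (le_max_left _ _))).trans
        (image_mono interior_subset)
    · exact (hk2 _ ((le_max_right _ _).trans (le_max_left _ _))).trans
        (image_mono interior_subset)

namespace X_fib_const

theorem fibc_iter (m : ℕ) (φ s : Circ → ℝ) (x : Circ) (hx : φ x = 0) (k : ℕ) :
    ∀ z ∈ Fib m x, (skew m φ s)^[k] z = fun i => if i = 0 then x else (6 ^ k : ℕ) • z i := by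
  intro z hz
  have hz' : z 0 = x := hz
  induction k with
  | zero =>
    funext i
    by_cases hi : i = 0
    · subst hi; simp [hz']
    · simp [hi]
  | succ k ih =>
    rw [Function.iterate_succ_apply', ih]
    funext i
    by_cases hi : i = 0
    · subst hi
      simp [skew, hx]
    · simp only [skew, hi, if_false]
      rw [← mul_nsmul, pow_succ, mul_comm]

theorem fibc_key (r : ℝ) (k : ℕ) (hk : ((1 : ℝ) / 6) ^ k < r) (a b : Circ) :
    ∃ t : Circ, dist t a < r ∧ (6 ^ k : ℕ) • t = b := by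
  obtain ⟨c, rfl⟩ := QuotientAddGroup.mk_surjective a
  obtain ⟨w, rfl⟩ := QuotientAddGroup.mk_surjective b
  have h6 : (0 : ℝ) < 6 ^ k := by positivity
  refine ⟨(((w + (⌊(6 : ℝ) ^ k * c - w⌋ : ℤ)) / 6 ^ k : ℝ) : Circ), ?_, ?_⟩
  · set n : ℤ := ⌊(6 : ℝ) ^ k * c - w⌋ with hn
    have h1 : (n : ℝ) ≤ 6 ^ k * c - w := Int.floor_le _
    have h2 : 6 ^ k * c - w < n + 1 := Int.lt_floor_add_one _
    have h3 : |(w + n) / 6 ^ k - c| ≤ (1 / 6) ^ k := by
      have e : (w + n) / 6 ^ k - c = -((6 ^ k * c - w - n) / 6 ^ k) := by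
        field_simp
        ring
      rw [e, abs_neg, abs_of_nonneg (div_nonneg (by linarith) h6.le), div_le_iff₀ h6, one_div,
        inv_pow, inv_mul_cancel₀ h6.ne']
      linarith
    refine lt_of_le_of_lt ?_ hk
    refine le_trans ?_ h3
    rw [dist_eq_norm]
    have e2 : ((((w + n) / 6 ^ k : ℝ) : Circ) - ((c : ℝ) : Circ)) =
        (((w + n) / 6 ^ k - c : ℝ) : Circ) := by
      rw [AddCircle.coe_sub]
    show ‖((((w + n) / 6 ^ k : ℝ) : Circ) - ((c : ℝ) : Circ))‖ ≤ _
    rw [e2, ← Real.norm_eq_abs]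
    exact QuotientAddGroup.norm_mk_le_norm
  · have e3 : (6 ^ k : ℕ) • (((w + (⌊(6 : ℝ) ^ k * c - w⌋ : ℤ)) / 6 ^ k : ℝ) : Circ) =
        (((6 ^ k : ℕ) • ((w + (⌊(6 : ℝ) ^ k * c - w⌋ : ℤ)) / 6 ^ k : ℝ) : ℝ) : Circ) := by
      rw [AddCircle.coe_nsmul]
    rw [e3, nsmul_eq_mul]
    have e4 : (((6 ^ k : ℕ) : ℝ) * ((w + (⌊(6 : ℝ) ^ k * c - w⌋ : ℤ)) / 6 ^ k) : ℝ) =
        w + (⌊(6 : ℝ) ^ k * c - w⌋ : ℤ) := by
      push_cast
      field_simp
    rw [e4, AddCircle.coe_add]
    have e5 : (((⌊(6 : ℝ) ^ k * c - w⌋ : ℤ) : ℝ) : Circ) = 0 := by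
      rw [AddCircle.coe_eq_zero_iff]
      exact ⟨⌊(6 : ℝ) ^ k * c - w⌋, by simp⟩
    rw [e5, add_zero]


theorem fib_const (m : ℕ) (φ s : Circ → ℝ) (h : Good φ s) (x : Circ) (hx : φ x = 0)
    (Y : Type) [MetricSpace Y] [CompactSpace Y] (g : Y → Y) (π : T (m + 2) → Y)
    (hπ : Continuous π) (hfg : ∀ z, π (skew m φ s z) = g (π z))
    (hent : ¬ 0 < Dynamics.coverEntropy g (univ : Set Y)) :
    ∀ u ∈ Fib m x, ∀ v ∈ Fib m x, π u = π v := by
  intro u hu v hv
  by_contra hne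
  apply hent
  have hD : 0 < dist (π u) (π v) := dist_pos.2 hne
  obtain ⟨r1, hr1, h1⟩ := Metric.continuous_iff.1 hπ u (dist (π u) (π v) / 3) (by positivity)
  obtain ⟨r2, hr2, h2⟩ := Metric.continuous_iff.1 hπ v (dist (π u) (π v) / 3) (by positivity)
  have hr : 0 < min r1 r2 := lt_min hr1 hr2
  obtain ⟨k, hk⟩ := exists_pow_lt_of_lt_one hr (by norm_num : (1 : ℝ) / 6 < 1)
  have hk1 : ((1 : ℝ) / 6) ^ (k + 1) < min r1 r2 := by
    refine lt_of_le_of_lt ?_ hk
    exact pow_le_pow_of_le_one (by norm_num) (by norm_num) (Nat.le_succ k)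
  have cover : ∀ c ∈ Fib m x, ∀ w ∈ Fib m x,
      w ∈ (skew m φ s)^[k + 1] '' {z | z ∈ Fib m x ∧ dist z c < min r1 r2} := by
    intro c hc w hw
    choose t ht1 ht2 using fun i => fibc_key (min r1 r2) (k + 1) hk1 (c i) (w i)
    have hc' : c 0 = x := hc
    have hw' : w 0 = x := hw
    have hzF : (fun i => if i = 0 then x else t i) ∈ Fib m x := by
      show (if (0 : Fin (m + 2)) = 0 then x else t 0) = x
      simp
    refine ⟨fun i => if i = 0 then x else t i, ⟨hzF, ?_⟩, ?_⟩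
    · rw [dist_pi_lt_iff hr]
      intro i
      by_cases hi : i = 0
      · subst hi
        simp only [if_true, hc', dist_self]
        exact hr
      · simp only [hi, if_false]
        exact ht1 i
    · rw [fibc_iter m φ s x hx (k + 1) _ hzF]
      funext i
      by_cases hi : i = 0
      · subst hi
        simp [hw']
      · simp only [hi, if_false]
        exact ht2 i
  refine pos_of_horseshoe (skew m φ s) g π hfg {z | z ∈ Fib m x ∧ dist z u < min r1 r2}
    {z | z ∈ Fib m x ∧ dist z v < min r1 r2} ⟨u, hu, by rw [dist_self]; exact hr⟩ (k + 1)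
    (by omega) ?_ ?_ (dist (π u) (π v) / 3) (by positivity) ?_
  · rintro w (hw | hw)
    · exact cover u hu w hw.1
    · exact cover u hu w hw.1
  · rintro w (hw | hw)
    · exact cover v hv w hw.1
    · exact cover v hv w hw.1
  · rintro a ⟨_, ha⟩ b ⟨_, hb⟩
    have ha' := h1 a (ha.trans_le (min_le_left _ _))
    have hb' := h2 b (hb.trans_le (min_le_right _ _))
    have t1 := dist_triangle (π u) (π a) (π v)
    have t2 := dist_triangle (π a) (π b) (π v)
    rw [dist_comm (π u) (π a)] at t1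
    linarith

end X_fib_const

alias fib_const := X_fib_const.fib_const

theorem isCPE_of_countable (m : ℕ) (φ s : Circ → ℝ) (h : Good φ s)
    (hc : {x : Circ | φ x = 0}.Countable) : IsCPE (skew m φ s) := by
  intro Y _ _ g π hg hπ hsurj hfg hnt
  by_contra hent
  have hφc := phi_continuous φ s h
  have hcoe : Continuous (fun u : ℝ => (u : Circ)) := AddCircle.continuous_mk' 1
  have hφR : Continuous (fun u : ℝ => φ (u : Circ)) := hφc.comp hcoe
  set ι : Circ → T (m + 2) := fun x _ => x with hι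
  have hιc : Continuous ι := continuous_pi fun _ => continuous_id
  have key : ∀ z : T (m + 2), π z ∈ (fun x => π (ι x)) '' {x : Circ | φ x = 0} := by
    intro z
    by_cases hz : φ (z 0) = 0
    · exact ⟨z 0, hz, fib_const m φ s h (z 0) hz Y g π hπ hfg hent (ι (z 0)) rfl z rfl⟩
    · obtain ⟨t, ht, htz⟩ : ∃ t ∈ Ico (0 : ℝ) (0 + 1), (t : Circ) = z 0 := by
        have h1 : z 0 ∈ ((↑) : ℝ → Circ) '' Ico (0 : ℝ) (0 + 1) := by
          rw [AddCircle.coe_image_Ico_eq]
          trivial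
        obtain ⟨t, ht, htz⟩ := h1
        exact ⟨t, ht, htz⟩
      rw [zero_add] at ht
      have hφt : φ (t : Circ) ≠ 0 := by rw [htz]; exact hz
      have h0 : φ ((0 : ℝ) : Circ) = 0 := by
        have : ((0 : ℝ) : Circ) = 0 := by simp
        rw [this]; exact h.φ_zero
      have h1 : φ ((1 : ℝ) : Circ) = 0 := by
        have : ((1 : ℝ) : Circ) = 0 := AddCircle.coe_period 1
        rw [this]; exact h.φ_zero
      have hclosed : IsClosed {u : ℝ | φ (u : Circ) = 0} := isClosed_eq hφR continuous_const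
      obtain ⟨a, ha, hamax⟩ := (isCompact_Icc.inter_right hclosed).exists_isGreatest
        (s := Icc (0 : ℝ) t ∩ {u : ℝ | φ (u : Circ) = 0}) ⟨0, ⟨le_refl _, ht.1⟩, h0⟩
      obtain ⟨b, hb, hbmin⟩ := (isCompact_Icc.inter_right hclosed).exists_isLeast
        (s := Icc t (1 : ℝ) ∩ {u : ℝ | φ (u : Circ) = 0}) ⟨1, ⟨ht.2.le, le_refl _⟩, h1⟩
      have hat : a < t := lt_of_le_of_ne ha.1.2 (fun he => hφt (he ▸ ha.2))
      have htb : t < b := lt_of_le_of_ne hb.1.1 (fun he => hφt (he ▸ hb.2))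
      have hpos : ∀ x ∈ Ioo a b, φ (x : Circ) ≠ 0 := by
        intro x hx hx0
        rcases le_total x t with hxt | hxt
        · have := hamax ⟨⟨ha.1.1.trans hx.1.le, hxt⟩, hx0⟩
          linarith [hx.1]
        · have := hbmin ⟨⟨hxt, hx.2.le.trans hb.1.2⟩, hx0⟩
          linarith [hx.2]
      have hHP := HP_strip m φ s h a b (hat.trans htb) ha.2 hb.2 hpos
      have hconst := factor_const_of_HP (skew m φ s) _ hHP Y g π hπ hfg hent
      have hz2 : z ∈ closure (Strip m a b) :=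
        subset_closure ⟨t, ⟨hat, htb⟩, htz.symm⟩
      have ha2 : ι (a : Circ) ∈ closure (Strip m a b) := by
        have h2 : a ∈ closure (Ioo a b) := by
          rw [closure_Ioo (hat.trans htb).ne]
          exact ⟨le_refl _, (hat.trans htb).le⟩
        have h3 : ι (a : Circ) ∈ (fun u : ℝ => ι (u : Circ)) '' closure (Ioo a b) :=
          ⟨a, h2, rfl⟩
        have h4 := image_closure_subset_closure_image (hιc.comp hcoe) h3
        refine closure_mono ?_ h4
        rintro _ ⟨u, hu, rfl⟩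
        exact ⟨u, hu, rfl⟩
      exact ⟨(a : Circ), ha.2, hconst _ ha2 _ hz2⟩
  have hcount : (univ : Set Y).Countable := by
    refine (hc.image (fun x => π (ι x))).mono ?_
    intro y _
    obtain ⟨z, rfl⟩ := hsurj y
    exact key z
  haveI : PreconnectedSpace Y := by
    refine ⟨?_⟩
    rw [← hsurj.range_eq]
    exact isPreconnected_range hπ
  obtain ⟨y0, y1, hne⟩ := hnt.exists_pair_ne
  have hd : Continuous (fun y : Y => dist y0 y) := by fun_prop
  have hIcc : Icc (0 : ℝ) (dist y0 y1) ⊆ (fun y : Y => dist y0 y) '' univ := by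
    have h5 := isPreconnected_univ (α := Y) |>.intermediate_value (mem_univ y0) (mem_univ y1)
      hd.continuousOn
    simpa using h5
  have hcc : (Icc (0 : ℝ) (dist y0 y1)).Countable := (hcount.image _).mono hIcc
  have := Cardinal.Real.Icc_countable_iff.mp hcc
  have h6 := dist_pos.mpr hne
  linarith

end Pool.Agent.Helper222.CPE
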