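import Mathlib
import Pool.Agent.Helper222.CPE.Defs
import Pool.Agent.Helper222.CPE.Ent
import Pool.Agent.Helper222.CPE.Skew

open Set Filter Topology

namespace Pool.Agent.Helper222.CPE

theorem exists_cantor (Z : Set ℝ) (hZ : IsClosed Z) (hZ1 : Z ⊆ Icc 0 1)
    (hunc : ¬ Z.Countable) :
    ∃ h : ℝ → ℝ, Continuous h ∧ Monotone h ∧ h 0 = 0 ∧ h 1 = 1 ∧
      ∀ x y : ℝ, x ≤ y → (∀ t ∈ Ioo x y, t ∉ Z) → h x = h y := by
  classical
  have hpol : PolishSpace Z := hZ.polishSpace
  have hsb : StandardBorelSpace Z := inferInstance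
  have hZnc : ¬ Countable Z := fun h => hunc (Set.countable_coe_iff.mp h)
  have hRnc : ¬ Countable ℝ := by
    rw [not_countable_iff]
    infer_instance
  let e : ℝ ≃ᵐ Z := PolishSpace.measurableEquivOfNotCountable hRnc hZnc
  let μ : MeasureTheory.Measure ℝ := MeasureTheory.volume.restrict (Icc 0 1)
  have hμ : MeasureTheory.IsProbabilityMeasure μ := ⟨by
    rw [MeasureTheory.Measure.restrict_apply_univ, Real.volume_Icc]
    norm_num⟩
  let g : ℝ → ℝ := fun x => (e x : ℝ)
  have hg : Measurable g := measurable_subtype_coe.comp e.measurable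
  have hginj : Function.Injective g := Subtype.val_injective.comp e.injective
  let ν : MeasureTheory.Measure ℝ := μ.map g
  have hν : MeasureTheory.IsProbabilityMeasure ν :=
    MeasureTheory.Measure.isProbabilityMeasure_map hg.aemeasurable
  have hνa : MeasureTheory.NullSingletonClass ν := ⟨fun x => by
    rw [MeasureTheory.Measure.map_apply hg (measurableSet_singleton x)]
    apply Set.Subsingleton.measure_zero
    intro a ha b hb
    exact hginj (ha.trans hb.symm)⟩
  have hνZ : ν Zᶜ = 0 := by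
    rw [MeasureTheory.Measure.map_apply hg hZ.measurableSet.compl]
    have : g ⁻¹' Zᶜ = ∅ := by
      ext x
      simp [g]
    rw [this, MeasureTheory.measure_empty]
  let h : ℝ → ℝ := fun x => (ν (Iic x)).toReal
  have hfin : ∀ s : Set ℝ, ν s ≠ ⊤ := fun s => MeasureTheory.measure_ne_top ν s
  have hmono : Monotone h := fun x y hxy =>
    ENNReal.toReal_mono (hfin _) (MeasureTheory.measure_mono (Iic_subset_Iic.mpr hxy))
  have hdiff : ∀ x y : ℝ, x ≤ y → ∀ s : Set ℝ, Ioc x y ⊆ s → h y - h x ≤ (ν s).toReal := by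
    intro x y hxy s hs
    have h1 : Iic y ⊆ Iic x ∪ s := by
      intro t ht
      rcases le_or_gt t x with h | h
      · exact Or.inl h
      · exact Or.inr (hs ⟨h, ht⟩)
    have h2 : ν (Iic y) ≤ ν (Iic x) + ν s :=
      (MeasureTheory.measure_mono h1).trans (MeasureTheory.measure_union_le _ _)
    have h3 := ENNReal.toReal_mono (ENNReal.add_ne_top.mpr ⟨hfin _, hfin _⟩) h2
    rw [ENNReal.toReal_add (hfin _) (hfin _)] at h3
    show (ν (Iic y)).toReal - (ν (Iic x)).toReal ≤ _
    linarith
  refine ⟨h, ?_, hmono, ?_, ?_, ?_⟩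
  · rw [continuous_iff_continuousAt]
    intro x
    have h1 : Tendsto (fun δ : ℝ => ν (Icc (x - δ) (x + δ))) (𝓝 0) (𝓝 0) :=
      tendsto_measure_Icc ν x
    have h2 : Tendsto (fun y : ℝ => |y - x|) (𝓝 x) (𝓝 0) := by
      have : Tendsto (fun y : ℝ => |y - x|) (𝓝 x) (𝓝 |x - x|) :=
        (continuous_abs.comp (continuous_id.sub continuous_const)).continuousAt
      simpa using this
    have h3 := (ENNReal.tendsto_toReal ENNReal.zero_ne_top).comp (h1.comp h2)
    rw [ENNReal.toReal_zero] at h3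
    have h4 : ∀ y, |h y - h x| ≤ (ν (Icc (x - |y - x|) (x + |y - x|))).toReal := by
      intro y
      rcases le_total x y with hxy | hxy
      · rw [abs_of_nonneg (sub_nonneg.mpr (hmono hxy))]
        apply hdiff x y hxy
        intro t ht
        rw [abs_of_nonneg (sub_nonneg.mpr hxy)]
        constructor
        · linarith [ht.1]
        · linarith [ht.2]
      · rw [abs_of_nonpos (sub_nonpos.mpr (hmono hxy)), neg_sub]
        apply hdiff y x hxy
        intro t ht
        rw [abs_of_nonpos (sub_nonpos.mpr hxy)]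
        constructor
        · linarith [ht.1]
        · linarith [ht.2]
    have h5 : Tendsto (fun y => |h y - h x|) (𝓝 x) (𝓝 0) :=
      squeeze_zero (fun y => abs_nonneg _) h4 h3
    have h6 : Tendsto (fun y => h y - h x) (𝓝 x) (𝓝 0) :=
      (tendsto_zero_iff_abs_tendsto_zero _).mpr h5
    have h7 := h6.add_const (h x)
    simp only [sub_add_cancel, zero_add] at h7
    exact h7
  · show (ν (Iic 0)).toReal = 0
    have h1 : Iic (0 : ℝ) ⊆ Zᶜ ∪ {0} := by
      intro t ht
      by_cases hz : t ∈ Z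
      · right
        exact le_antisymm ht (hZ1 hz).1
      · exact Or.inl hz
    have h2 : ν (Iic 0) ≤ 0 := by
      calc ν (Iic 0) ≤ ν (Zᶜ ∪ {0}) := MeasureTheory.measure_mono h1
        _ ≤ ν Zᶜ + ν {0} := MeasureTheory.measure_union_le _ _
        _ = 0 := by rw [hνZ, MeasureTheory.measure_singleton, add_zero]
    rw [le_antisymm h2 (zero_le), ENNReal.toReal_zero]
  · show (ν (Iic 1)).toReal = 1
    have h1 : ν (Iic (1 : ℝ))ᶜ = 0 := by
      refine MeasureTheory.measure_mono_null ?_ hνZ
      intro t ht hz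
      exact ht (hZ1 hz).2
    have h2 : ν (Iic (1 : ℝ)) = 1 := (MeasureTheory.prob_compl_eq_zero_iff measurableSet_Iic).mp h1
    rw [h2, ENNReal.toReal_one]
  · intro x y hxy hno
    refine le_antisymm (hmono hxy) ?_
    have h1 : Ioc x y ⊆ Zᶜ ∪ {y} := by
      intro t ht
      rcases lt_or_eq_of_le ht.2 with h | h
      · exact Or.inl (hno t ⟨ht.1, h⟩)
      · exact Or.inr h
    have h2 := hdiff x y hxy _ h1
    have h3 : ν (Zᶜ ∪ {y}) = 0 := by
      refine le_antisymm ?_ (zero_le)
      calc ν (Zᶜ ∪ {y}) ≤ ν Zᶜ + ν {y} := MeasureTheory.measure_union_le _ _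
        _ = 0 := by rw [hνZ, MeasureTheory.measure_singleton, add_zero]
    rw [h3, ENNReal.toReal_zero] at h2
    linarith

theorem not_isCPE_of_uncountable (m : ℕ) (φ s : Circ → ℝ) (h : Good φ s)
    (hc : ¬ {x : Circ | φ x = 0}.Countable) : ¬ IsCPE (skew m φ s) := by
  intro hcpe
  set Z : Set ℝ := {t | t ∈ Icc (0:ℝ) 1 ∧ φ (t : Circ) = 0} with hZdef
  have hrep : ∀ x : Circ, ∃ t : ℝ, t ∈ Ico (0:ℝ) 1 ∧ (t : Circ) = x := by
    intro x
    refine ⟨AddCircle.equivIco 1 0 x, ?_, AddCircle.coe_equivIco⟩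
    have := (AddCircle.equivIco 1 0 x).2
    simpa using this
  have hφc : Continuous φ := phi_continuous φ s h
  have hZc : IsClosed Z := by
    have h1 : IsClosed {t : ℝ | φ (t : Circ) = 0} :=
      isClosed_eq (hφc.comp (AddCircle.continuous_mk' 1)) continuous_const
    exact isClosed_Icc.inter h1
  have hZu : ¬ Z.Countable := by
    intro hZ
    apply hc
    refine (hZ.image (fun t : ℝ => (t : Circ))).mono ?_
    intro x hx
    obtain ⟨t, ht, rfl⟩ := hrep x
    exact ⟨t, ⟨⟨ht.1, ht.2.le⟩, hx⟩, rfl⟩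
  obtain ⟨g, hgc, hgm, hg0, hg1, hgap⟩ := exists_cantor Z hZc (fun t ht => ht.1) hZu
  set p : ℝ → ℝ := fun t => min (g t) (1 - g t) with hp
  have hpc : Continuous p := hgc.min (continuous_const.sub hgc)
  have hp01 : p 0 = p (0 + 1) := by simp [hp, hg0, hg1]
  set P : Circ → ℝ := AddCircle.liftIco 1 0 p with hP
  have hPc : Continuous P := AddCircle.liftIco_continuous hp01 hpc.continuousOn
  have hPt : ∀ t : ℝ, t ∈ Ico (0:ℝ) 1 → P (t : Circ) = p t := by
    intro t ht
    exact AddCircle.liftIco_coe_apply (by simpa using ht)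
  have hPr : ∀ x : Circ, P x ∈ Icc (0:ℝ) (1 / 2) := by
    intro x
    obtain ⟨t, ht, rfl⟩ := hrep x
    rw [hPt t ht]
    have h0 : 0 ≤ g t := by rw [← hg0]; exact hgm ht.1
    have h1 : g t ≤ 1 := by rw [← hg1]; exact hgm ht.2.le
    simp only [hp]
    constructor
    · exact le_min h0 (by linarith)
    · rcases le_total (g t) (1 / 2) with h2 | h2
      · exact (min_le_left _ _).trans h2
      · exact (min_le_right _ _).trans (by linarith)
  set π : T (m + 2) → Icc (0:ℝ) (1 / 2) := fun z => ⟨P (z 0), hPr (z 0)⟩ with hπ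
  have hπc : Continuous π := Continuous.subtype_mk (hPc.comp (continuous_apply 0)) _
  have hπs : Function.Surjective π := by
    rintro ⟨v, hv0, hv1⟩
    obtain ⟨t, ht, htv⟩ := intermediate_value_Icc (zero_le_one' ℝ) hgc.continuousOn
      (show v ∈ Icc (g 0) (g 1) by rw [hg0, hg1]; exact ⟨hv0, by linarith⟩)
    have ht1 : t < 1 := by
      rcases ht.2.lt_or_eq with h1 | h1
      · exact h1
      · rw [h1, hg1] at htv; linarith
    refine ⟨fun _ => (t : Circ), ?_⟩
    apply Subtype.ext
    show P (t : Circ) = v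
    rw [hPt t ⟨ht.1, ht1⟩]
    simp only [hp, htv]
    exact min_eq_left (by linarith)
  have hcomm : ∀ z, π (skew m φ s z) = id (π z) := by
    intro z
    apply Subtype.ext
    show P (skew m φ s z 0) = P (z 0)
    obtain ⟨t, ht, htz⟩ := hrep (z 0)
    have hsk : skew m φ s z 0 = z 0 + ((φ (z 0) * s (z 1) : ℝ) : Circ) := by
      simp [skew]
    rw [hsk, ← htz]
    by_cases hφ0 : φ (t : Circ) = 0
    · rw [hφ0, zero_mul]
      simp
    · have hφp : 0 < φ (t : Circ) := lt_of_le_of_ne (h.φ_nonneg _) (Ne.symm hφ0)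
      set t' : ℝ := t + φ (t : Circ) * s (z 1) with ht'
      have hd : |t' - t| ≤ φ (t : Circ) := by
        have : t' - t = φ (t : Circ) * s (z 1) := by rw [ht']; ring
        rw [this, abs_mul, abs_of_pos hφp]
        exact mul_le_of_le_one_right hφp.le (h.s_le _)
      have hu : ∀ u : ℝ, φ (u : Circ) = 0 → φ (t : Circ) ≤ 1 / 2 * |t - u| := by
        intro u hu
        have := h.φ_lip t u
        rw [hu, sub_zero, abs_of_pos hφp] at this
        exact this
      have hc0 : φ ((0 : ℝ) : Circ) = 0 := by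
        have : ((0 : ℝ) : Circ) = 0 := rfl
        rw [this]; exact h.φ_zero
      have hc1 : φ ((1 : ℝ) : Circ) = 0 := by
        have : ((1 : ℝ) : Circ) = 0 := AddCircle.coe_period 1
        rw [this]; exact h.φ_zero
      have h0 := hu 0 hc0
      have h1 := hu 1 hc1
      rw [sub_zero, abs_of_nonneg ht.1] at h0
      rw [abs_of_neg (by linarith [ht.2] : t - 1 < 0)] at h1
      have hdd := abs_le.1 hd
      have ht'I : t' ∈ Ico (0:ℝ) 1 := ⟨by linarith [hdd.1, ht.1], by linarith [hdd.2, ht.2]⟩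
      have hsum : (t : Circ) + ((φ (t : Circ) * s (z 1) : ℝ) : Circ) = (t' : Circ) := by
        rw [ht', AddCircle.coe_add]
      rw [hsum, hPt t' ht'I, hPt t ht]
      have hg : g t' = g t := by
        rcases le_total t t' with hle | hle
        · refine (hgap t t' hle ?_).symm
          rintro r ⟨hr1, hr2⟩ hrZ
          have h2 := hu r hrZ.2
          rw [abs_of_neg (by linarith : t - r < 0)] at h2
          rw [abs_of_nonneg (by linarith : 0 ≤ t' - t)] at hd
          linarith
        · refine hgap t' t hle ?_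
          rintro r ⟨hr1, hr2⟩ hrZ
          have h2 := hu r hrZ.2
          rw [abs_of_pos (by linarith : 0 < t - r)] at h2
          rw [abs_of_nonpos (by linarith : t' - t ≤ 0)] at hd
          linarith
      simp only [hp, hg]
  have hnt : Nontrivial (Icc (0:ℝ) (1 / 2)) := by
    refine ⟨⟨0, ⟨le_rfl, by norm_num⟩⟩, ⟨1 / 2, ⟨by norm_num, le_rfl⟩⟩, ?_⟩
    intro heq
    have := congrArg Subtype.val heq
    norm_num at this
  have hpos := hcpe (Icc (0:ℝ) (1 / 2)) id π continuous_id hπc hπs hcomm hnt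
  exact not_pos_of_finite_order (Y := Icc (0:ℝ) (1 / 2)) id continuous_id 1 le_rfl
    (fun y => rfl) hpos

theorem isCPE_skew_iff (m : ℕ) (φ s : Circ → ℝ) (h : Good φ s) :
    IsCPE (skew m φ s) ↔ {x : Circ | φ x = 0}.Countable := by
  constructor
  · intro hcpe
    by_contra hc
    exact not_isCPE_of_uncountable m φ s h hc hcpe
  · exact isCPE_of_countable m φ s h

end Pool.Agent.Helper222.CPE
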