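import Mathlib
import Pool.Agent.Helper222.CPE.Defs
import Pool.Agent.Helper222.CPE.Skew
import Pool.Agent.Helper222.CPE.Unc

open Set Filter Topology

namespace Pool.Agent.Helper222.CPE

theorem exists_smooth_zero (Z : Set Circ) (hZ : IsClosed Z) :
    ∃ ψ : Circ → ℝ, (∀ x, 0 ≤ ψ x) ∧ (∀ x, ψ x = 0 ↔ x ∈ Z) ∧
      ContDiff ℝ ((⊤ : ℕ∞) : WithTop ℕ∞) (fun x : ℝ => ψ (x : Circ)) := by
  let e : Circ → ℂ := fun x => (AddCircle.toCircle x : ℂ)
  have he : Continuous e := continuous_subtype_val.comp AddCircle.continuous_toCircle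
  have hinj : Function.Injective e := by
    intro x y hxy
    exact AddCircle.injective_toCircle one_ne_zero (Circle.coe_injective hxy)
  have hcl : IsClosed (e '' Z) := (hZ.isCompact.image he).isClosed
  obtain ⟨B, hB1, hB2, hB3⟩ := (hcl.isOpen_compl).exists_contDiff_support_eq (n := ⊤)
  refine ⟨fun x => B (e x), fun x => (hB3 (mem_range_self (e x))).1, fun x => ?_, ?_⟩
  · constructor
    · intro h
      have h1 : e x ∉ B.support := by
        rw [Function.mem_support]
        exact fun h2 => h2 h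
      rw [hB1, mem_compl_iff, not_not] at h1
      obtain ⟨y, hy, hxy⟩ := h1
      rwa [← hinj hxy]
    · intro hx
      by_contra h
      have h1 : e x ∈ B.support := h
      rw [hB1] at h1
      exact h1 (mem_image_of_mem e hx)
  · have h2 : (fun x : ℝ => B (e (x : Circ))) =
        fun x : ℝ => B (Complex.exp (((2 * Real.pi * x : ℝ) : ℂ) * Complex.I)) := by
      funext x
      show B ((AddCircle.toCircle (x : Circ) : Circle) : ℂ) = _
      rw [AddCircle.toCircle_apply_mk, Circle.coe_exp]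
      congr 3
      push_cast
      ring
    rw [h2]
    refine hB2.comp ?_
    have h3 : ContDiff ℝ ((⊤ : ℕ∞) : WithTop ℕ∞) (fun x : ℝ => ((2 * Real.pi * x : ℝ) : ℂ)) :=
      Complex.ofRealCLM.contDiff.comp (contDiff_const.mul contDiff_id)
    exact (h3.mul contDiff_const).cexp

namespace X_exists_s

theorem exists_s : ∃ s : Circ → ℝ, Continuous s ∧
    ContDiff ℝ ((⊤ : ℕ∞) : WithTop ℕ∞) (fun x : ℝ => s (x : Circ)) ∧ (∀ y, |s y| ≤ 1) ∧
    (∀ y ∈ Icc (0 : ℝ) (1 / 3), s (y : Circ) = 0) ∧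
    (∀ y ∈ Ioo (1 / 3 : ℝ) (2 / 3), 0 < s (y : Circ)) ∧ s ((2 / 3 : ℝ) : Circ) = 0 ∧
    (∀ y ∈ Ioo (2 / 3 : ℝ) 1, s (y : Circ) < 0) := by
  have hopen : ∀ a b : ℝ, IsOpen ((fun x : ℝ => (x : Circ)) '' Ioo a b) := fun a b =>
    QuotientAddGroup.isOpenMap_coe _ isOpen_Ioo
  have hmem : ∀ a b y : ℝ, 0 ≤ a → b ≤ 1 → 0 ≤ y → y < 1 →
      ((y : Circ) ∈ ((fun x : ℝ => (x : Circ)) '' Ioo a b)ᶜ ↔ y ∉ Ioo a b) := by
    intro a b y ha hb hy0 hy1
    rw [Set.mem_compl_iff, not_iff_not]
    constructor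
    · rintro ⟨x, hx, hxy⟩
      have hx' : x ∈ Ico (0 : ℝ) (0 + 1) := ⟨by linarith [hx.1], by linarith [hx.2]⟩
      have hy' : y ∈ Ico (0 : ℝ) (0 + 1) := ⟨hy0, by linarith⟩
      have hxy' : ((x : ℝ) : Circ) = ((y : ℝ) : Circ) := hxy
      have : x = y := (AddCircle.coe_eq_coe_iff_of_mem_Ico hx' hy').mp hxy'
      rwa [← this]
    · intro hy
      exact ⟨y, hy, rfl⟩
  obtain ⟨ψ1, h1n, h1z, h1s⟩ := exists_smooth_zero
    ((fun x : ℝ => (x : Circ)) '' Ioo (1 / 3) (2 / 3))ᶜ (hopen _ _).isClosed_compl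
  obtain ⟨ψ2, h2n, h2z, h2s⟩ := exists_smooth_zero
    ((fun x : ℝ => (x : Circ)) '' Ioo (2 / 3) 1)ᶜ (hopen _ _).isClosed_compl
  have hcont : ∀ ψ : Circ → ℝ, ContDiff ℝ ((⊤ : ℕ∞) : WithTop ℕ∞) (fun x : ℝ => ψ (x : Circ)) →
      Continuous ψ := by
    intro ψ hψ
    have hq : Topology.IsQuotientMap (fun x : ℝ => (x : Circ)) :=
      QuotientAddGroup.isQuotientMap_mk _
    exact hq.continuous_iff.mpr hψ.continuous
  have hc : Continuous (fun x => ψ1 x - ψ2 x) := (hcont ψ1 h1s).sub (hcont ψ2 h2s)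
  obtain ⟨C, hC⟩ := (isCompact_univ (X := Circ)).exists_bound_of_continuousOn hc.continuousOn
  have hC0 : 0 ≤ C := (norm_nonneg _).trans (hC 0 (mem_univ _))
  have hCp : 0 < C + 1 := by linarith
  refine ⟨fun x => (ψ1 x - ψ2 x) / (C + 1), hc.div_const _, (h1s.sub h2s).div_const _,
    ?_, ?_, ?_, ?_, ?_⟩
  · intro y
    rw [abs_div, abs_of_pos hCp, div_le_one hCp]
    have := hC y (mem_univ _)
    rw [Real.norm_eq_abs] at this
    linarith
  · intro y hy
    have e1 : ψ1 (y : Circ) = 0 := (h1z _).mpr ((hmem _ _ y (by norm_num) (by norm_num) hy.1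
      (by linarith [hy.2])).mpr fun h => by linarith [h.1, hy.2])
    have e2 : ψ2 (y : Circ) = 0 := (h2z _).mpr ((hmem _ _ y (by norm_num) (by norm_num) hy.1
      (by linarith [hy.2])).mpr fun h => by linarith [h.1, hy.2])
    simp [e1, e2]
  · intro y hy
    have e1 : 0 < ψ1 (y : Circ) := by
      refine lt_of_le_of_ne (h1n _) fun h => ?_
      have h3 := (h1z _).mp h.symm
      exact (hmem _ _ y (by norm_num) (by norm_num) (by linarith [hy.1])
        (by linarith [hy.2])).mp h3 hy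
    have e2 : ψ2 (y : Circ) = 0 := (h2z _).mpr ((hmem _ _ y (by norm_num) (by norm_num)
      (by linarith [hy.1]) (by linarith [hy.2])).mpr fun h => by linarith [h.1, hy.2])
    simp only [e2, sub_zero]
    positivity
  · have e1 : ψ1 ((2 / 3 : ℝ) : Circ) = 0 := (h1z _).mpr ((hmem _ _ (2 / 3) (by norm_num)
      (by norm_num) (by norm_num) (by norm_num)).mpr fun h => by linarith [h.2])
    have e2 : ψ2 ((2 / 3 : ℝ) : Circ) = 0 := (h2z _).mpr ((hmem _ _ (2 / 3) (by norm_num)
      (by norm_num) (by norm_num) (by norm_num)).mpr fun h => by linarith [h.1])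
    simp only [e1, e2, sub_zero, zero_div]
  · intro y hy
    have e1 : ψ1 (y : Circ) = 0 := (h1z _).mpr ((hmem _ _ y (by norm_num) (by norm_num)
      (by linarith [hy.1]) (by linarith [hy.2])).mpr fun h => by linarith [h.2, hy.1])
    have e2 : 0 < ψ2 (y : Circ) := by
      refine lt_of_le_of_ne (h2n _) fun h => ?_
      have h3 := (h2z _).mp h.symm
      exact (hmem _ _ y (by norm_num) (by norm_num) (by linarith [hy.1])
        (by linarith [hy.2])).mp h3 hy
    simp only [e1, zero_sub]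
    rw [neg_div]
    have : 0 < ψ2 (y : Circ) / (C + 1) := by positivity
    linarith

end X_exists_s

alias exists_s := X_exists_s.exists_s

namespace X_sum_family

theorem sf_bound (Ψ : ℝ → ℝ) (hsm : ContDiff ℝ ((⊤ : ℕ∞) : WithTop ℕ∞) Ψ)
    (hper : ∀ t, Ψ (t + 1) = Ψ t) (k : ℕ) :
    ∃ B : ℝ, 0 ≤ B ∧ ∀ t, ‖iteratedFDeriv ℝ k Ψ t‖ ≤ B := by
  have hc : Continuous (iteratedFDeriv ℝ k Ψ) :=
    hsm.continuous_iteratedFDeriv (by exact_mod_cast le_top)
  have hp : Function.Periodic (iteratedFDeriv ℝ k Ψ) 1 := by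
    intro t
    rw [← iteratedFDeriv_comp_add_right k 1 t]
    have : (fun z => Ψ (z + 1)) = Ψ := funext hper
    rw [this]
  obtain ⟨B, hB⟩ := (isCompact_Icc (a := (0:ℝ)) (b := 1)).exists_bound_of_continuousOn
    hc.continuousOn
  refine ⟨max B 0, le_max_right _ _, ?_⟩
  intro t
  obtain ⟨y, hy, hy2⟩ := hp.exists_mem_Ico₀ one_pos t
  rw [hy2]
  exact (hB y ⟨hy.1, hy.2.le⟩).trans (le_max_left _ _)

theorem sf_const (B : ℕ → ℝ) (hB : ∀ k, 0 ≤ B k) (i : ℕ) :
    ∃ c : ℝ, 0 < c ∧ ∀ k ≤ i + 1, c * B k ≤ (1 / 2 : ℝ) ^ (i + 2) := by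
  have hS : 0 ≤ ∑ k ∈ Finset.range (i + 2), B k := Finset.sum_nonneg fun k _ => hB k
  refine ⟨(1 / 2 : ℝ) ^ (i + 2) / (1 + ∑ k ∈ Finset.range (i + 2), B k), by positivity, ?_⟩
  intro k hk
  have h1 : B k ≤ ∑ k ∈ Finset.range (i + 2), B k :=
    Finset.single_le_sum (f := B) (fun k _ => hB k) (Finset.mem_range.2 (by omega))
  rw [div_mul_eq_mul_div, div_le_iff₀ (by linarith)]
  exact mul_le_mul_of_nonneg_left (by linarith) (by positivity)

theorem sf_sum : Summable (fun i : ℕ => (1 / 2 : ℝ) ^ (i + 2)) := by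
  have := (summable_geometric_of_lt_one (by norm_num : (0:ℝ) ≤ 1/2) (by norm_num)).mul_right
    ((1/2 : ℝ) ^ 2)
  exact this.congr fun i => by rw [pow_add]

theorem sf_tsum : ∑' i : ℕ, (1 / 2 : ℝ) ^ (i + 2) = 1 / 2 := by
  have h1 : ∀ i : ℕ, (1 / 2 : ℝ) ^ (i + 2) = (1 / 2 : ℝ) ^ i * (1 / 4) := by
    intro i; rw [pow_add]; norm_num
  simp_rw [h1]
  rw [tsum_mul_right, tsum_geometric_of_lt_one (by norm_num) (by norm_num)]
  norm_num





theorem sum_family (D : ℕ → Set (ℕ → ℕ)) (hD : ∀ i, IsClopen (D i)) (ψ : ℕ → Circ → ℝ)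
    (h0 : ∀ i x, 0 ≤ ψ i x)
    (hsm : ∀ i, ContDiff ℝ ((⊤ : ℕ∞) : WithTop ℕ∞) (fun x : ℝ => ψ i (x : Circ))) :
    ∃ φ : (ℕ → ℕ) → Circ → ℝ, (∀ z x, 0 ≤ φ z x) ∧
      (∀ z x, φ z x = 0 ↔ ∀ i, z ∈ D i → ψ i x = 0) ∧
      (∀ z, ∀ x y : ℝ, |φ z (x : Circ) - φ z (y : Circ)| ≤ 1 / 2 * |x - y|) ∧
      (∀ z, ContDiff ℝ ((⊤ : ℕ∞) : WithTop ℕ∞) (fun x : ℝ => φ z (x : Circ))) ∧
      Continuous (fun p : (ℕ → ℕ) × Circ => φ p.1 p.2) := by
  classical
  have hper : ∀ i (t : ℝ), ψ i ((t + 1 : ℝ) : Circ) = ψ i (t : Circ) := by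
    intro i t
    congr 1
    rw [AddCircle.coe_add, AddCircle.coe_period, add_zero]
  have hsurj : ∀ x : Circ, ∃ t : ℝ, (t : Circ) = x := fun x => QuotientAddGroup.mk_surjective x
  have hψc : ∀ i, Continuous (ψ i) := by
    intro i
    exact (QuotientAddGroup.isOpenQuotientMap_mk.isQuotientMap.continuous_iff
      (f := ((↑) : ℝ → Circ))).2 (hsm i).continuous
  choose B hB0 hB using fun i k => sf_bound (fun x : ℝ => ψ i (x : Circ)) (hsm i) (hper i) k
  choose c hc0 hc using fun i => sf_const (B i) (hB0 i) i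
  obtain ⟨ind, hind⟩ : ∃ ind : ℕ → (ℕ → ℕ) → ℝ, ind = fun i => (D i).indicator (fun _ => 1) :=
    ⟨_, rfl⟩
  have hind1 : ∀ i z, z ∈ D i → ind i z = 1 := by
    intro i z h; rw [hind]; exact Set.indicator_of_mem h _
  have hind0 : ∀ i z, z ∉ D i → ind i z = 0 := by
    intro i z h; rw [hind]; exact Set.indicator_of_notMem h _
  have hindm : ∀ i z, 0 ≤ ind i z ∧ ind i z ≤ 1 := by
    intro i z
    by_cases h : z ∈ D i
    · rw [hind1 i z h]; norm_num
    · rw [hind0 i z h]; norm_num
  have hindc : ∀ i, Continuous (ind i) := by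
    intro i
    rw [hind]
    exact (hD i).continuous_indicator continuous_const
  have hψ0 : ∀ i x, |ψ i x| ≤ B i 0 := by
    intro i x
    obtain ⟨t, rfl⟩ := hsurj x
    have := hB i 0 t
    rwa [norm_iteratedFDeriv_zero, Real.norm_eq_abs] at this
  have hterm : ∀ i z x, 0 ≤ ind i z * (c i * ψ i x) ∧
      ind i z * (c i * ψ i x) ≤ (1 / 2 : ℝ) ^ (i + 2) := by
    intro i z x
    have h1 : 0 ≤ c i * ψ i x := mul_nonneg (hc0 i).le (h0 i x)
    have h2 : c i * ψ i x ≤ (1 / 2 : ℝ) ^ (i + 2) :=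
      (mul_le_mul_of_nonneg_left ((le_abs_self _).trans (hψ0 i x)) (hc0 i).le).trans
        (hc i 0 (by omega))
    refine ⟨mul_nonneg (hindm i z).1 h1, ?_⟩
    exact (mul_le_of_le_one_left h1 (hindm i z).2).trans h2
  have hsum : ∀ z x, Summable (fun i => ind i z * (c i * ψ i x)) := by
    intro z x
    exact Summable.of_nonneg_of_le (fun i => (hterm i z x).1) (fun i => (hterm i z x).2) sf_sum
  refine ⟨fun z x => ∑' i, ind i z * (c i * ψ i x), ?_, ?_, ?_, ?_, ?_⟩
  · intro z x
    exact tsum_nonneg fun i => (hterm i z x).1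
  · intro z x
    constructor
    · intro h i hi
      have h1 := (hsum z x).hasSum
      simp only at h
      rw [h] at h1
      have h2 := (hasSum_zero_iff_of_nonneg (fun i => (hterm i z x).1)).1 h1
      have h3 := congrFun h2 i
      simp only [hind1 i z hi, one_mul, Pi.zero_apply] at h3
      exact (mul_eq_zero.1 h3).resolve_left (hc0 i).ne'
    · intro h
      have : ∀ i, ind i z * (c i * ψ i x) = 0 := by
        intro i
        by_cases hi : z ∈ D i
        · rw [h i hi]; ring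
        · rw [hind0 i z hi]; ring
      simp only [this, tsum_zero]
  · intro z x y
    have hd : ∀ i, |ind i z * (c i * ψ i (x : Circ)) - ind i z * (c i * ψ i (y : Circ))| ≤
        (1 / 2 : ℝ) ^ (i + 2) * |x - y| := by
      intro i
      have h1 : |ψ i (x : Circ) - ψ i (y : Circ)| ≤ B i 1 * |x - y| := by
        have := (convex_univ (𝕜 := ℝ) (E := ℝ)).norm_image_sub_le_of_norm_fderiv_le
          (f := fun x : ℝ => ψ i (x : Circ)) (𝕜 := ℝ) (C := B i 1) (x := y) (y := x)
          (fun t _ => ((hsm i).differentiable (by simp)).differentiableAt)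
          (fun t _ => by
            have := hB i 1 t
            rwa [norm_iteratedFDeriv_one] at this) (Set.mem_univ _) (Set.mem_univ _)
        simpa [Real.norm_eq_abs] using this
      have h2 : ind i z * (c i * ψ i (x : Circ)) - ind i z * (c i * ψ i (y : Circ)) =
          ind i z * (c i * (ψ i (x : Circ) - ψ i (y : Circ))) := by ring
      rw [h2, abs_mul, abs_mul, abs_of_nonneg (hindm i z).1, abs_of_pos (hc0 i)]
      have h3 : c i * |ψ i (x : Circ) - ψ i (y : Circ)| ≤ (1 / 2 : ℝ) ^ (i + 2) * |x - y| := by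
        calc c i * |ψ i (x : Circ) - ψ i (y : Circ)| ≤ c i * (B i 1 * |x - y|) :=
              mul_le_mul_of_nonneg_left h1 (hc0 i).le
          _ = (c i * B i 1) * |x - y| := by ring
          _ ≤ (1 / 2 : ℝ) ^ (i + 2) * |x - y| :=
              mul_le_mul_of_nonneg_right (hc i 1 (by omega)) (abs_nonneg _)
      exact (mul_le_of_le_one_left (mul_nonneg (hc0 i).le (abs_nonneg _)) (hindm i z).2).trans h3
    have hs2 : Summable (fun i : ℕ => (1 / 2 : ℝ) ^ (i + 2) * |x - y|) := sf_sum.mul_right _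
    simp only
    rw [← (hsum z x).tsum_sub (hsum z y)]
    have h5 := tsum_of_norm_bounded (f := fun i => ind i z * (c i * ψ i (x : Circ)) -
      ind i z * (c i * ψ i (y : Circ))) hs2.hasSum (fun i => by
        rw [Real.norm_eq_abs]; exact hd i)
    rw [Real.norm_eq_abs, tsum_mul_right, sf_tsum] at h5
    exact h5
  · intro z
    refine contDiff_tsum_of_eventually (v := fun _ i => (1 / 2 : ℝ) ^ (i + 2)) ?_ ?_ ?_
    · intro i
      exact contDiff_const.mul (contDiff_const.mul (hsm i))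
    · intro k _
      exact sf_sum
    · intro k _
      have hev : ∀ᶠ i : ℕ in Filter.cofinite, k ≤ i := by
        rw [Nat.cofinite_eq_atTop]
        exact Filter.eventually_ge_atTop k
      filter_upwards [hev] with i hi
      intro t
      have e1 : (fun x : ℝ => ind i z * (c i * ψ i (x : Circ))) =
          fun x : ℝ => (ind i z * c i) • ψ i (x : Circ) := by
        funext x; simp [mul_assoc]
      rw [e1, iteratedFDeriv_const_smul_apply' ((hsm i).of_le (by exact_mod_cast le_top)).contDiffAt,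
        norm_smul, Real.norm_eq_abs, abs_of_nonneg (mul_nonneg (hindm i z).1 (hc0 i).le)]
      have h1 := hB i k t
      calc ind i z * c i * ‖iteratedFDeriv ℝ k (fun x : ℝ => ψ i (x : Circ)) t‖
          ≤ 1 * c i * B i k := by
            refine mul_le_mul ?_ h1 (norm_nonneg _) ?_
            · exact mul_le_mul_of_nonneg_right (hindm i z).2 (hc0 i).le
            · rw [one_mul]; exact (hc0 i).le
        _ ≤ (1 / 2 : ℝ) ^ (i + 2) := by rw [one_mul]; exact hc i k (by omega)
  · refine continuous_tsum (u := fun i : ℕ => (1 / 2 : ℝ) ^ (i + 2)) ?_ sf_sum ?_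
    · intro i
      exact ((hindc i).comp continuous_fst).mul
        (continuous_const.mul ((hψc i).comp continuous_snd))
    · intro i p
      rw [Real.norm_eq_abs, abs_of_nonneg (hterm i p.1 p.2).1]
      exact (hterm i p.1 p.2).2

end X_sum_family

alias sum_family := X_sum_family.sum_family

namespace X_exists_family

theorem aux_cantor : ∃ c : (ℕ → Bool) → Circ, Continuous c ∧ Function.Injective c ∧ (0 : Circ) ∉ range c := by
  have hunc : ¬ (Icc (1 / 4 : ℝ) (3 / 4)).Countable := by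
    intro h
    have h1 := h.measure_zero MeasureTheory.volume
    rw [Real.volume_Icc, ENNReal.ofReal_eq_zero] at h1
    norm_num at h1
  obtain ⟨f, hf1, hf2, hf3⟩ := isClosed_Icc.exists_nat_bool_injection_of_not_countable hunc
  have hmem : ∀ b, f b ∈ Ico (0 : ℝ) (0 + 1) := by
    intro b
    have h := hf1 (mem_range_self b)
    constructor
    · linarith [h.1]
    · linarith [h.2]
  refine ⟨fun b => ((f b : ℝ) : Circ), ?_, ?_, ?_⟩
  · exact (AddCircle.continuous_mk' (1 : ℝ)).comp hf2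
  · intro b b' hbb
    have h := (AddCircle.coe_eq_coe_iff_of_mem_Ico (p := (1 : ℝ)) (a := 0) (hmem b) (hmem b')).1 hbb
    exact hf3 h
  · rintro ⟨b, hb⟩
    have hb' : ((f b : ℝ) : Circ) = ((0 : ℝ) : Circ) := hb
    have h := (AddCircle.coe_eq_coe_iff_of_mem_Ico (p := (1 : ℝ)) (a := 0) (hmem b)
      (show (0 : ℝ) ∈ Ico (0 : ℝ) (0 + 1) by constructor <;> norm_num)).1 hb'
    have h1 := (hf1 (mem_range_self b)).1
    rw [h] at h1
    norm_num at h1

theorem aux_clopen (n : ℕ) (w : List Bool) : IsClopen {b : ℕ → Bool | (List.range n).map b = w} := by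
  have hcont : Continuous (fun (b : ℕ → Bool) (i : Fin n) => b i) := by fun_prop
  have h : {b : ℕ → Bool | (List.range n).map b = w} =
      (fun (b : ℕ → Bool) (i : Fin n) => b i) ⁻¹' {g : Fin n → Bool | List.ofFn g = w} := by
    ext b
    simp only [Set.mem_ofPred_eq, Set.mem_preimage]
    have e : (List.range n).map b = List.ofFn (fun i : Fin n => b i) := by
      apply List.ext_getElem
      · simp
      · intro i h1 h2
        simp
    rw [e]
  rw [h]
  exact (isClopen_discrete _).preimage hcont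


theorem exists_family (D : List Bool → Set (ℕ → ℕ)) (hD : ∀ w, IsClopen (D w)) :
    ∃ φ : (ℕ → ℕ) → Circ → ℝ, (∀ z x, 0 ≤ φ z x) ∧ (∀ z, φ z 0 = 0) ∧
      (∀ z, ∀ x y : ℝ, |φ z (x : Circ) - φ z (y : Circ)| ≤ 1 / 2 * |x - y|) ∧
      (∀ z, ContDiff ℝ ((⊤ : ℕ∞) : WithTop ℕ∞) (fun x : ℝ => φ z (x : Circ))) ∧
      Continuous (fun p : (ℕ → ℕ) × Circ => φ p.1 p.2) ∧
      ∀ z, ({x : Circ | φ z x = 0}.Countable ↔
        {b : ℕ → Bool | ∀ n, z ∉ D ((List.range n).map b)}.Countable) := by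
  obtain ⟨c, hc1, hc2, hc3⟩ := aux_cantor
  obtain ⟨e, he⟩ := exists_surjective_nat (Option (List Bool))
  obtain ⟨D', hD'⟩ : ∃ D' : Option (List Bool) → Set (ℕ → ℕ), D' = fun o => o.elim univ D := ⟨_, rfl⟩
  obtain ⟨Z, hZ⟩ : ∃ Z : Option (List Bool) → Set Circ, Z = fun o => o.elim ({0} ∪ range c)
      (fun w => {0} ∪ c '' {b : ℕ → Bool | (List.range w.length).map b = w}ᶜ) := ⟨_, rfl⟩
  have hDcl : ∀ o, IsClopen (D' o) := by
    intro o
    rw [hD']
    cases o with
    | none => exact isClopen_univ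
    | some w => exact hD w
  have hZcl : ∀ o, IsClosed (Z o) := by
    intro o
    rw [hZ]
    cases o with
    | none => exact isClosed_singleton.union (isCompact_range hc1).isClosed
    | some w =>
      refine isClosed_singleton.union (IsCompact.isClosed ?_)
      exact ((aux_clopen w.length w).compl.isClosed.isCompact).image hc1
  have hψ := fun i => exists_smooth_zero (Z (e i)) (hZcl (e i))
  choose ψ hψ0 hψZ hψs using hψ
  obtain ⟨φ, f1, f2, f3, f4, f5⟩ := sum_family (fun i => D' (e i)) (fun i => hDcl (e i)) ψ hψ0 hψs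
  have hzero : ∀ z x, φ z x = 0 ↔ ∀ o, z ∈ D' o → x ∈ Z o := by
    intro z x
    rw [f2]
    constructor
    · intro h o ho
      obtain ⟨i, hi⟩ := he o
      have := h i (by rw [hi]; exact ho)
      rw [hψZ, hi] at this
      exact this
    · intro h i hi
      rw [hψZ]
      exact h (e i) hi
  have h0Z : ∀ o, (0 : Circ) ∈ Z o := by
    intro o
    rw [hZ]
    cases o with
    | none => exact Or.inl rfl
    | some w => exact Or.inl rfl
  refine ⟨φ, f1, ?_, f3, f4, f5, ?_⟩
  · intro z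
    rw [hzero]
    intro o _
    exact h0Z o
  · intro z
    have hset : {x : Circ | φ z x = 0} = {0} ∪ c '' {b : ℕ → Bool | ∀ n, z ∉ D ((List.range n).map b)} := by
      ext x
      rw [Set.mem_ofPred_eq, hzero]
      constructor
      · intro h
        by_cases hx0 : x = 0
        · exact Or.inl hx0
        · have h1 := h none (by rw [hD']; trivial)
          rw [hZ] at h1
          rcases h1 with h1 | ⟨b, hb⟩
          · exact absurd h1 hx0
          · right
            refine ⟨b, ?_, hb⟩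
            intro n hn
            have h2 := h (some ((List.range n).map b)) (by rw [hD']; exact hn)
            rw [hZ] at h2
            rcases h2 with h2 | ⟨b', hb', hcb'⟩
            · exact hx0 h2
            · have hbb : b' = b := hc2 (hcb'.trans hb.symm)
              apply hb'
              rw [hbb]
              show (List.range ((List.range n).map b).length).map b = (List.range n).map b
              simp
      · rintro (h | ⟨b, hb, rfl⟩)
        · have hx : x = 0 := h
          rw [hx]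
          intro o _
          exact h0Z o
        · intro o ho
          rw [hZ]
          cases o with
          | none => exact Or.inr (mem_range_self b)
          | some w =>
            right
            refine ⟨b, ?_, rfl⟩
            intro hbw
            have hbw' : (List.range w.length).map b = w := hbw
            have h1 := hb w.length
            rw [hbw'] at h1
            rw [hD'] at ho
            exact h1 ho
    rw [hset]
    constructor
    · intro h
      exact Set.countable_of_injective_of_countable_image (f := c) (hc2.injOn)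
        (h.mono Set.subset_union_right)
    · intro h
      exact (Set.countable_singleton _).union (h.image c)

end X_exists_family

alias exists_family := X_exists_family.exists_family

namespace X_exists_scheme

/-- number of true positions below `p` -/
def scCnt (b : ℕ → Bool) (p : ℕ) : ℕ := Nat.count (fun q => b q = true) p

theorem scCnt_congr (b b' : ℕ → Bool) (n : ℕ) (h : ∀ p < n, b p = b' p) :
    ∀ p, p ≤ n → scCnt b p = scCnt b' p := by
  intro p
  induction p with
  | zero => intro _; rfl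
  | succ p ih =>
    intro hp
    unfold scCnt at ih ⊢
    rw [Nat.count_succ, Nat.count_succ, ih (by omega), h p (by omega)]

/-- the clopen sets of the scheme -/
def scC (g : (ℕ → ℕ) → (ℕ → ℕ)) (b : ℕ → Bool) (n : ℕ) : Set (ℕ → ℕ) :=
  {z | ∃ β : ℕ → ℕ, ∀ p < n, b p = true → β (scCnt b p) = (Nat.unpair p).1 ∧
    g β (scCnt b p) = z (scCnt b p)}

theorem scC_congr (g : (ℕ → ℕ) → (ℕ → ℕ)) (b b' : ℕ → Bool) (n : ℕ) (h : ∀ p < n, b p = b' p) :
    scC g b n = scC g b' n := by
  ext z
  constructor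
  · rintro ⟨β, hβ⟩
    refine ⟨β, fun p hp hb => ?_⟩
    rw [← scCnt_congr b b' n h p hp.le]
    exact hβ p hp (by rw [h p hp]; exact hb)
  · rintro ⟨β, hβ⟩
    refine ⟨β, fun p hp hb => ?_⟩
    rw [scCnt_congr b b' n h p hp.le]
    exact hβ p hp (by rw [← h p hp]; exact hb)

theorem sc_clopen (S : Set (ℕ → ℕ)) (n : ℕ)
    (h : ∀ z z' : ℕ → ℕ, (∀ i < n, z i = z' i) → z ∈ S → z' ∈ S) : IsClopen S := by
  have hc : Continuous fun (z : ℕ → ℕ) (i : Fin n) => z i :=
    continuous_pi fun i => continuous_apply (i : ℕ)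
  have e : S = (fun (z : ℕ → ℕ) (i : Fin n) => z i) ⁻¹'
      {y : Fin n → ℕ | ∃ z ∈ S, ∀ i : Fin n, z i = y i} := by
    ext z
    constructor
    · intro hz
      exact ⟨z, hz, fun i => rfl⟩
    · rintro ⟨z', hz', hzz⟩
      exact h z' z (fun i hi => hzz ⟨i, hi⟩) hz'
  rw [e]
  exact (isClopen_discrete _).preimage hc

theorem scC_clopen (g : (ℕ → ℕ) → (ℕ → ℕ)) (b : ℕ → Bool) (n : ℕ) : IsClopen (scC g b n) := by
  refine sc_clopen _ n ?_
  rintro z z' hzz ⟨β, hβ⟩
  refine ⟨β, fun p hp hb => ⟨(hβ p hp hb).1, ?_⟩⟩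
  rw [← hzz (scCnt b p) (lt_of_le_of_lt (Nat.count_le _) hp)]
  exact (hβ p hp hb).2

theorem sc_cnt_enum (p : ℕ → ℕ) (hp : StrictMono p) (b : ℕ → Bool)
    (hb : ∀ q, b q = true ↔ ∃ n, p n = q) (i : ℕ) : scCnt b (p i) = i := by
  unfold scCnt
  rw [Nat.count_eq_card_filter_range]
  have e : (Finset.range (p i)).filter (fun q => b q = true) = (Finset.range i).image p := by
    ext q
    rw [Finset.mem_filter, Finset.mem_range, Finset.mem_image, hb]
    constructor
    · rintro ⟨h1, n, rfl⟩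
      exact ⟨n, Finset.mem_range.2 (hp.lt_iff_lt.1 h1), rfl⟩
    · rintro ⟨n, hn, rfl⟩
      exact ⟨hp (Finset.mem_range.1 hn), n, rfl⟩
  rw [e, Finset.card_image_of_injective _ hp.injective, Finset.card_range]

/-- the coding sequence -/
def scP (β : ℕ → ℕ) (c : ℕ → Bool) : ℕ → ℕ
  | 0 => Nat.pair (β 0) (c 0).toNat
  | n + 1 => Nat.pair (β (n + 1)) (scP β c n + 1 + (c (n + 1)).toNat)

theorem scP_mono (β : ℕ → ℕ) (c : ℕ → Bool) : StrictMono (scP β c) := by
  refine strictMono_nat_of_lt_succ fun n => ?_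
  have h1 : scP β c (n + 1) = Nat.pair (β (n + 1)) (scP β c n + 1 + (c (n + 1)).toNat) := rfl
  rw [h1]
  have h2 := Nat.right_le_pair (β (n + 1)) (scP β c n + 1 + (c (n + 1)).toNat)
  omega

theorem scP_fst (β : ℕ → ℕ) (c : ℕ → Bool) (n : ℕ) : (Nat.unpair (scP β c n)).1 = β n := by
  cases n with
  | zero => rw [show scP β c 0 = Nat.pair (β 0) (c 0).toNat from rfl, Nat.unpair_pair]
  | succ n =>
    rw [show scP β c (n + 1) = Nat.pair (β (n + 1)) (scP β c n + 1 + (c (n + 1)).toNat) from rfl,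
      Nat.unpair_pair]

theorem scP_inj (β : ℕ → ℕ) (c c' : ℕ → Bool) (h : scP β c = scP β c') : c = c' := by
  have hto : ∀ x y : Bool, x.toNat = y.toNat → x = y := by decide
  funext n
  cases n with
  | zero =>
    have h1 := congrFun h 0
    rw [show scP β c 0 = Nat.pair (β 0) (c 0).toNat from rfl,
      show scP β c' 0 = Nat.pair (β 0) (c' 0).toNat from rfl, Nat.pair_eq_pair] at h1
    exact hto _ _ h1.2
  | succ n =>
    have h1 := congrFun h (n + 1)
    have h2 := congrFun h n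
    rw [show scP β c (n + 1) = Nat.pair (β (n + 1)) (scP β c n + 1 + (c (n + 1)).toNat) from rfl,
      show scP β c' (n + 1) = Nat.pair (β (n + 1)) (scP β c' n + 1 + (c' (n + 1)).toNat) from rfl,
      Nat.pair_eq_pair, h2] at h1
    exact hto _ _ (by omega)

theorem sc_one (g : (ℕ → ℕ) → (ℕ → ℕ)) (hg : Continuous g) (z : ℕ → ℕ) (hz : z ∉ range g) :
    {b : ℕ → Bool | ∀ n, z ∈ scC g b n}.Countable := by
  classical
  refine (Set.countable_range (fun F : Finset ℕ => fun p => decide (p ∈ F))).mono ?_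
  intro b hb
  by_cases hfin : (Set.ofPred (fun q => b q = true)).Finite
  · refine ⟨hfin.toFinset, ?_⟩
    funext p
    rw [Bool.eq_iff_iff, decide_eq_true_iff, hfin.mem_toFinset]
    rfl
  · exfalso
    apply hz
    have hinf : (Set.ofPred (fun q => b q = true)).Infinite := hfin
    choose βn hβn using hb
    let B : ℕ → ℕ := fun i => (Nat.unpair (Nat.nth (fun q => b q = true) i)).1
    have hkey : ∀ i n, Nat.nth (fun q => b q = true) i < n → βn n i = B i ∧ g (βn n) i = z i := by
      intro i n hn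
      have h1 := hβn n (Nat.nth (fun q => b q = true) i) hn (Nat.nth_mem_of_infinite hinf i)
      have h2 : scCnt b (Nat.nth (fun q => b q = true) i) = i := Nat.count_nth_of_infinite hinf i
      rw [h2] at h1
      exact h1
    have hlim1 : Tendsto βn atTop (𝓝 B) := by
      rw [tendsto_pi_nhds]
      intro i
      refine tendsto_const_nhds.congr' ?_
      filter_upwards [Filter.eventually_gt_atTop (Nat.nth (fun q => b q = true) i)] with n hn
      exact (hkey i n hn).1.symm
    have hlim2 : Tendsto (fun n => g (βn n)) atTop (𝓝 z) := by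
      rw [tendsto_pi_nhds]
      intro i
      refine tendsto_const_nhds.congr' ?_
      filter_upwards [Filter.eventually_gt_atTop (Nat.nth (fun q => b q = true) i)] with n hn
      exact (hkey i n hn).2.symm
    have hlim3 : Tendsto (fun n => g (βn n)) atTop (𝓝 (g B)) := (hg.tendsto B).comp hlim1
    exact ⟨B, tendsto_nhds_unique hlim3 hlim2⟩

theorem sc_two (g : (ℕ → ℕ) → (ℕ → ℕ)) (β : ℕ → ℕ) :
    ¬ {b : ℕ → Bool | ∀ n, g β ∈ scC g b n}.Countable := by
  classical
  intro hE
  let Φ : (ℕ → Bool) → (ℕ → Bool) := fun c q => decide (∃ n, scP β c n = q)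
  have hΦ : ∀ c q, Φ c q = true ↔ ∃ n, scP β c n = q := fun c q => decide_eq_true_iff
  have hinj : Function.Injective Φ := by
    intro c c' hcc
    apply scP_inj β
    rw [← StrictMono.range_inj (scP_mono β c) (scP_mono β c')]
    ext q
    rw [Set.mem_range, Set.mem_range, ← hΦ, ← hΦ, hcc]
  have hmem : ∀ c, Φ c ∈ {b : ℕ → Bool | ∀ n, g β ∈ scC g b n} := by
    intro c n
    refine ⟨β, fun q _ hq => ?_⟩
    obtain ⟨i, rfl⟩ := (hΦ c q).1 hq
    rw [sc_cnt_enum (scP β c) (scP_mono β c) (Φ c) (hΦ c) i, scP_fst]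
    exact ⟨rfl, rfl⟩
  have hpre : (Φ ⁻¹' {b : ℕ → Bool | ∀ n, g β ∈ scC g b n}).Countable :=
    hE.preimage_of_injOn hinj.injOn
  have huniv : Φ ⁻¹' {b : ℕ → Bool | ∀ n, g β ∈ scC g b n} = univ :=
    Set.eq_univ_of_forall fun c => hmem c
  rw [huniv, Set.countable_univ_iff] at hpre
  obtain ⟨f, hf⟩ := hpre.exists_injective_nat
  refine Function.cantor_injective (fun S : Set ℕ => f fun n => decide (n ∈ S)) ?_
  intro S S' hSS
  have h1 := hf hSS
  ext n
  have h2 := congrFun h1 n
  simpa using h2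

theorem sc_list (b : ℕ → Bool) (n p : ℕ) (hp : p < n) :
    ((List.range n).map b).getD p false = b p := by
  rw [List.getD_eq_getElem _ _ (by rw [List.length_map, List.length_range]; exact hp),
    List.getElem_map, List.getElem_range]


theorem exists_scheme (A : Set (ℕ → ℕ)) (hA : MeasureTheory.AnalyticSet Aᶜ) :
    ∃ D : List Bool → Set (ℕ → ℕ), (∀ w, IsClopen (D w)) ∧
      ∀ z, ({b : ℕ → Bool | ∀ n, z ∉ D ((List.range n).map b)}.Countable ↔ z ∈ A) := by
  rw [MeasureTheory.AnalyticSet] at hA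
  rcases hA with hA | ⟨g, hg, hgr⟩
  · have hA' : A = univ := Set.compl_empty_iff.1 hA
    refine ⟨fun _ => univ, fun _ => isClopen_univ, fun z => ?_⟩
    constructor
    · intro _
      rw [hA']
      trivial
    · intro _
      refine Set.Countable.mono ?_ (Set.countable_empty (α := ℕ → Bool))
      intro b hb
      exact absurd (Set.mem_univ z) (hb 0)
  · refine ⟨fun w => (scC g (fun p => w.getD p false) w.length)ᶜ, fun w => (scC_clopen _ _ _).compl,
      fun z => ?_⟩
    have hset : {b : ℕ → Bool | ∀ n, z ∉ (scC g (fun p => ((List.range n).map b).getD p false)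
        ((List.range n).map b).length)ᶜ} = {b : ℕ → Bool | ∀ n, z ∈ scC g b n} := by
      ext b
      refine forall_congr' fun n => ?_
      rw [Set.mem_compl_iff, not_not, List.length_map, List.length_range,
        scC_congr g _ b n (fun p hp => sc_list b n p hp)]
    rw [hset]
    constructor
    · intro hc
      by_contra hz
      have hz' : z ∈ range g := by rw [hgr]; exact hz
      obtain ⟨β, rfl⟩ := hz'
      exact sc_two g β hc
    · intro hz
      exact sc_one g hg z (by rw [hgr]; exact fun h => h hz)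

end X_exists_scheme

alias exists_scheme := X_exists_scheme.exists_scheme

theorem skew_isCk (m : ℕ) (φ s : Circ → ℝ)
    (hφ : ContDiff ℝ ((⊤ : ℕ∞) : WithTop ℕ∞) (fun x : ℝ => φ (x : Circ)))
    (hs : ContDiff ℝ ((⊤ : ℕ∞) : WithTop ℕ∞) (fun x : ℝ => s (x : Circ))) (k : ℕ∞) :
    IsCk (m + 2) k (skew m φ s) := by
  have hφk : ContDiff ℝ k (fun x : ℝ => φ (x : Circ)) :=
    hφ.of_le (WithTop.coe_le_coe.mpr le_top)
  have hsk : ContDiff ℝ k (fun x : ℝ => s (x : Circ)) :=
    hs.of_le (WithTop.coe_le_coe.mpr le_top)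
  refine ⟨fun x i => if i = 0 then x 0 + φ ((x 0 : ℝ) : Circ) * s ((x 1 : ℝ) : Circ)
    else 6 * x i, ?_, ?_⟩
  · rw [contDiff_pi]
    intro i
    by_cases hi : i = 0
    · simp only [hi, if_true]
      have h0 : ContDiff ℝ k (fun x : Fin (m + 2) → ℝ => x 0) := contDiff_apply ℝ ℝ _
      have h1 : ContDiff ℝ k (fun x : Fin (m + 2) → ℝ => x 1) := contDiff_apply ℝ ℝ _
      exact h0.add ((hφk.comp h0).mul (hsk.comp h1))
    · simp only [hi, if_false]
      exact contDiff_const.mul (contDiff_apply ℝ ℝ _)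
  · intro x
    funext i
    simp only [proj, skew]
    by_cases hi : i = 0
    · simp only [hi, if_true]
      rw [AddCircle.coe_add]
    · simp only [hi, if_false]
      rw [← AddCircle.coe_nsmul]
      congr 1
      simp

theorem skew_family (m : ℕ) (φ : (ℕ → ℕ) → Circ → ℝ) (s : Circ → ℝ) (hs : Continuous s)
    (hφ : Continuous (fun p : (ℕ → ℕ) × Circ => φ p.1 p.2)) :
    ∃ r : (ℕ → ℕ) → C(T (m + 2), T (m + 2)), Continuous r ∧
      ∀ z, (r z : T (m + 2) → T (m + 2)) = skew m (φ z) s := by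
  have hc : Continuous (fun p : (ℕ → ℕ) × T (m + 2) => skew m (φ p.1) s p.2) := by
    refine continuous_pi fun i => ?_
    unfold skew
    by_cases hi : i = 0
    · simp only [hi, if_true]
      have h0 : Continuous fun p : (ℕ → ℕ) × T (m + 2) => p.2 0 := by fun_prop
      have h1 : Continuous fun p : (ℕ → ℕ) × T (m + 2) => p.2 1 := by fun_prop
      have h2 : Continuous fun p : (ℕ → ℕ) × T (m + 2) => φ p.1 (p.2 0) :=
        hφ.comp (continuous_fst.prodMk h0)
      have h3 : Continuous fun p : (ℕ → ℕ) × T (m + 2) => s (p.2 1) := hs.comp h1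
      have h4 : Continuous fun p : (ℕ → ℕ) × T (m + 2) =>
          ((φ p.1 (p.2 0) * s (p.2 1) : ℝ) : Circ) :=
        (AddCircle.continuous_mk' (1 : ℝ)).comp (h2.mul h3)
      exact h0.add h4
    · simp only [hi, if_false]
      fun_prop
  let Φ : C((ℕ → ℕ) × T (m + 2), T (m + 2)) := ⟨_, hc⟩
  refine ⟨Φ.curry, Φ.curry.continuous, fun z => ?_⟩
  ext w
  rfl

theorem hard (m : ℕ) (A : Set (ℕ → ℕ)) (hA : MeasureTheory.AnalyticSet Aᶜ) :
    ∃ r : (ℕ → ℕ) → C(T (m + 2), T (m + 2)), Continuous r ∧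
      (∀ z, ∀ k : ℕ∞, IsCk (m + 2) k (r z)) ∧
      ∀ z, IsCPE (r z : T (m + 2) → T (m + 2)) ↔ z ∈ A := by
  obtain ⟨s, hs1, hs2, hs3, hs4, hs5, hs6, hs7⟩ := exists_s
  obtain ⟨D, hD, hDA⟩ := exists_scheme A hA
  obtain ⟨φ, h1, h2, h3, h4, h5, h6⟩ := exists_family D hD
  obtain ⟨r, hr, hr2⟩ := skew_family m φ s hs1 h5
  refine ⟨r, hr, fun z k => ?_, fun z => ?_⟩
  · rw [hr2 z]
    exact skew_isCk m (φ z) s (h4 z) hs2 k
  · rw [hr2 z, isCPE_skew_iff m (φ z) s ⟨h1 z, h2 z, h3 z, hs1, hs3, hs4, hs5, hs6, hs7⟩, h6 z,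
      hDA z]

end Pool.Agent.Helper222.CPE
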